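import Pool.Agent.U397.TM.Spec

set_option autoImplicit false
set_option linter.unusedSectionVars false
set_option linter.unusedVariables false

/-! # Package ME of project TM (helper831): partial scaling and the recursion

The motivic engine: if the families of a system are homogeneous in some of the coordinates (the scaled
ones), then the jets at the points where all the scaled coordinates vanish are related to the jets at all
points by the multiplication of the scaled coordinates by the variable. -/

namespace Pool.Agent.U397.TM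

open MvPolynomial Pool.Agent.W428.MOT Pool.Agent.TH192.MT Pool.Agent.TH192.DT

namespace ME

variable {K : Type} [Field K] {T : ℕ} {π : Type}

theorem hom_evw {σ A : Type} [Fintype σ] [CommRing A] (w : σ → Bool) (P : MvPolynomial σ ℤ) (n : ℕ)
    (h : IsWeightedHomogeneous (fun i => if w i = true then 1 else 0) P n) (c : A) (x : σ → A) :
    ev (fun i => c ^ (if w i = true then 1 else 0) * x i) P = c ^ n * ev x P := by
  change eval₂ _ _ _ = c ^ n * eval₂ _ _ _
  rw [eval₂_eq', eval₂_eq', Finset.mul_sum]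
  refine Finset.sum_congr rfl fun d hd => ?_
  have h1 : ∑ i, (if w i = true then 1 else 0) * d i = n := by
    have := h (mem_support_iff.1 hd)
    rw [Finsupp.weight_apply, Finsupp.sum_fintype] at this
    · rw [← this]
      refine Finset.sum_congr rfl fun i _ => ?_
      rw [smul_eq_mul, mul_comm]
    · simp
  have h2 : ∏ i, (c ^ (if w i = true then 1 else 0) * x i) ^ d i = c ^ n * ∏ i, x i ^ d i := by
    rw [← h1, ← Finset.prod_pow_eq_pow_sum, ← Finset.prod_mul_distrib]
    refine Finset.prod_congr rfl fun i _ => ?_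
    rw [mul_pow, pow_mul]
  rw [h2]
  ring

theorem van_scalew (X : Sys T) (w : X.ι → Bool) (e : Fin T → ℕ)
    (he : ∀ l, IsWeightedHomogeneous (fun i => if w i = true then 1 else 0) (X.G l) (e (X.τ l)))
    {F : Type} [Field F] (β : Fin T → ℕ) (x : X.ι → PowerSeries F) :
    (Van X (fun t => e t + β t)
      (fun i => PowerSeries.X ^ (if w i = true then 1 else 0) * x i) ↔ Van X β x) ∧
      lam X (fun t => e t + β t)
        (fun i => PowerSeries.X ^ (if w i = true then 1 else 0) * x i) = lam X β x := by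
  have h1 : ∀ l, ev (fun i => (PowerSeries.X : PowerSeries F) ^ (if w i = true then 1 else 0) * x i)
      (X.G l) = PowerSeries.X ^ (e (X.τ l)) * ev x (X.G l) := fun l => hom_evw w _ _ (he l) _ _
  constructor
  · unfold Van
    refine forall_congr' fun l => ?_
    rw [vn_iff, vn_iff, h1, pow_add]
    exact mul_dvd_mul_iff_left (pow_ne_zero _ PowerSeries.X_ne_zero)
  · funext l
    unfold lam
    rw [h1]
    have := PowerSeries.coeff_X_pow_mul (ev x (X.G l)) (e (X.τ l)) (β (X.τ l))
    rw [← this]
    congr 1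
    exact congrArg PowerSeries.coeff (Nat.add_comm _ _)

/-- The scaled coordinates of the origin are replaced by `0`. -/
def V0w (X : Sys T) (w : X.ι → Bool) (V : Set (Pt K (π ⊕ (X.ι ⊕ X.Λ)))) :
    Set (Pt K (π ⊕ (X.ι ⊕ X.Λ))) :=
  {v | (Sum.elim (fun p => v (Sum.inl p)) (Sum.elim
    (fun i => if w i = true then 0 else v (Sum.inr (Sum.inl i)))
    (fun l => v (Sum.inr (Sum.inr l)))) : Pt K (π ⊕ (X.ι ⊕ X.Λ))) ∈ V}

theorem constr_V0w (X : Sys T) (w : X.ι → Bool) {V : Set (Pt K (π ⊕ (X.ι ⊕ X.Λ)))}
    (hV : Constr V) : Constr (V0w X w V) := by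
  refine hV.preimage (fun v : Pt K (π ⊕ (X.ι ⊕ X.Λ)) => (Sum.elim (fun p => v (Sum.inl p))
    (Sum.elim (fun i => if w i = true then 0 else v (Sum.inr (Sum.inl i)))
      (fun l => v (Sum.inr (Sum.inr l)))) : Pt K (π ⊕ (X.ι ⊕ X.Λ)))) ?_
  rintro (p | i | l)
  · exact IsPF.coord _
  · simp only [Sum.elim_inr, Sum.elim_inl]
    by_cases h : w i = true
    · simp only [if_pos h]
      exact IsPF.zero
    · simp only [if_neg h]
      exact IsPF.coord _
  · exact IsPF.coord _

theorem gd_V0w (X : Sys T) (w : X.ι → Bool) {V : Set (Pt K (π ⊕ (X.ι ⊕ X.Λ)))} (hV : Gd X V) :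
    Gd X (V0w X w V) :=
  fun v hv t => hV _ hv t

theorem V0w_V0w (X : Sys T) (w : X.ι → Bool) (V : Set (Pt K (π ⊕ (X.ι ⊕ X.Λ)))) :
    V0w X w (V0w X w V) = V0w X w V := by
  ext v
  unfold V0w
  simp only [Set.mem_ofPred_eq, Sum.elim_inl, Sum.elim_inr]
  have h : (fun i => if w i = true then (0 : AlgebraicClosure K)
      else if w i = true then 0 else v (Sum.inr (Sum.inl i))) =
      fun i => if w i = true then 0 else v (Sum.inr (Sum.inl i)) := by
    funext i
    split_ifs <;> rfl
  rw [h]

variable {R : Type} [CommRing R] (M : Meas K R) [Fintype π]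

/-- the membership after the shift of the coefficients of the scaled coordinates -/
theorem mem_shift (X : Sys T) (w : X.ι → Bool) (e : Fin T → ℕ)
    (he : ∀ l, IsWeightedHomogeneous (fun i => if w i = true then 1 else 0) (X.G l) (e (X.τ l)))
    (V : Set (Pt K (π ⊕ (X.ι ⊕ X.Λ)))) (β : Fin T → ℕ) (N : ℕ) (hN : ∀ t, β t ≤ N)
    (z y : Pt K (π ⊕ X.ι × Fin (N + 2)))
    (hp : ∀ p, z (Sum.inl p) = y (Sum.inl p))
    (hz : ∀ i, w i = true → z (Sum.inr (i, 0)) = 0)
    (hzy : ∀ i, w i = true → ∀ j : Fin (N + 1), z (Sum.inr (i, j.succ)) =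
      y (Sum.inr (i, j.castSucc)))
    (hzy' : ∀ i, w i ≠ true → ∀ j, z (Sum.inr (i, j)) = y (Sum.inr (i, j))) :
    z ∈ SS X V (fun t => e t + β t) (N + 1) ↔ y ∈ SS X (V0w X w V) β (N + 1) := by
  classical
  set x : X.ι → PowerSeries (AlgebraicClosure K) := fun i =>
    if w i = true then ar (N := N) (fun q => z (Sum.inr (q.1, q.2.succ))) i
    else ar (fun q => z (Sum.inr q)) i with hx
  have h3 : (ar fun q => z (Sum.inr q)) =
      fun i => PowerSeries.X ^ (if w i = true then 1 else 0) * x i := by
    funext i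
    by_cases h : w i = true
    · simp only [hx, if_pos h, pow_one]
      ext j
      rw [coeff_ar]
      rcases j with _ | j
      · rw [dif_pos (by omega), PowerSeries.coeff_zero_X_mul]
        exact hz i h
      · rw [PowerSeries.coeff_succ_X_mul, coeff_ar]
        by_cases hj : j < N + 1
        · rw [dif_pos (by omega), dif_pos hj]
          rfl
        · rw [dif_neg (by omega), dif_neg hj]
    · simp only [hx, if_neg h, pow_zero, one_mul]
  have h4 : ∀ i, Cg N (x i) (ar (fun q => y (Sum.inr q)) i) := by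
    intro i k hk
    by_cases h : w i = true
    · simp only [hx, if_pos h]
      rw [coeff_ar, coeff_ar, dif_pos (by omega), dif_pos (by omega)]
      exact hzy i h ⟨k, by omega⟩
    · simp only [hx, if_neg h]
      rw [coeff_ar, coeff_ar, dif_pos (by omega), dif_pos (by omega)]
      exact hzy' i h _
  obtain ⟨h5, h6⟩ := van_scalew X w e he β x
  have h7 : lam X (fun t => e t + β t) (ar fun q => z (Sum.inr q)) =
      lam X β (ar fun q => y (Sum.inr q)) := by
    rw [h3, h6]
    exact lam_congr X h4 hN
  have h8 : Van X (fun t => e t + β t) (ar fun q => z (Sum.inr q)) ↔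
      Van X β (ar fun q => y (Sum.inr q)) := by
    rw [h3, h5]
    exact van_congr X h4 hN
  unfold SS
  rw [Set.mem_ofPred_eq, Set.mem_ofPred_eq]
  refine and_congr h8 ?_
  unfold V0w
  rw [Set.mem_ofPred_eq]
  have h9 : dat X (fun t => e t + β t) z = Sum.elim (fun p => dat X β y (Sum.inl p))
      (Sum.elim (fun i => if w i = true then 0 else dat X β y (Sum.inr (Sum.inl i)))
        (fun l => dat X β y (Sum.inr (Sum.inr l)))) := by
    funext i
    rcases i with p | i | l
    · exact hp p
    · simp only [Sum.elim_inr, Sum.elim_inl]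
      by_cases h : w i = true
      · rw [if_pos h]
        exact hz i h
      · rw [if_neg h]
        exact hzy' i h _
    · change lam X (fun t => e t + β t) (ar fun q => z (Sum.inr q)) l =
        lam X β (ar fun q => y (Sum.inr q)) l
      rw [h7]
  rw [h9]

theorem mm_scalew (v : R) (hv : M.L * v = 1) (X : Sys T) (w : X.ι → Bool) (e : Fin T → ℕ)
    (he : ∀ l, IsWeightedHomogeneous (fun i => if w i = true then 1 else 0) (X.G l) (e (X.τ l)))
    {V : Set (Pt K (π ⊕ (X.ι ⊕ X.Λ)))} (hV : Constr V)
    (h0 : ∀ z ∈ V, ∀ i, w i = true → z (Sum.inr (Sum.inl i)) = 0) (β : Fin T → ℕ) :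
    mm M v X V (fun t => e t + β t) =
      v ^ (Finset.univ.filter fun i => w i = true).card * mm M v X (V0w X w V) β := by
  classical
  set N := ∑ t, (e t + β t) with hN
  have h1 : ∀ t, e t + β t ≤ N := fun t => Finset.single_le_sum (f := fun t => e t + β t)
    (fun _ _ => Nat.zero_le _) (Finset.mem_univ t)
  have hβ : ∀ t, β t ≤ N := fun t => (Nat.le_add_left _ _).trans (h1 t)
  rw [← mm_eq M v hv X hV (fun t => e t + β t) (N + 1) (fun t => (h1 t).trans (Nat.le_succ _)),
    ← mm_eq M v hv X (constr_V0w X w hV) β (N + 1) (fun t => (hβ t).trans (Nat.le_succ _))]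
  have hcard : Fintype.card {i : X.ι // w i = true} =
      (Finset.univ.filter fun i => w i = true).card := Fintype.card_subtype _
  have h2 : M.χ _ (SS X (V0w X w V) β (N + 1)) =
      M.χ _ (SS X V (fun t => e t + β t) (N + 1)) *
        M.L ^ Fintype.card {i : X.ι // w i = true} := by
    rw [← chi_univ, ← M.prod _ Set.univ (constr_SS X hV _ _) Constr.univ]
    have hT : Constr {z : Pt K ((π ⊕ X.ι × Fin (N + 2)) ⊕ {i : X.ι // w i = true}) |
        (fun i => z (Sum.inl i)) ∈ SS X V (fun t => e t + β t) (N + 1) ∧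
        (fun i => z (Sum.inr i)) ∈ (Set.univ : Set (Pt K {i : X.ι // w i = true}))} := by
      refine Constr.and ?_ ?_
      · exact (constr_SS X hV _ _).preimage
          (fun z : Pt K ((π ⊕ X.ι × Fin (N + 2)) ⊕ {i : X.ι // w i = true}) =>
            fun i => z (Sum.inl i)) fun i => IsPF.coord _
      · exact Constr.const True
    refine M.iso _ _ (constr_SS X (constr_V0w X w hV) _ _) hT
      (fun y => Sum.elim (Sum.elim (fun p => y (Sum.inl p)) (fun q =>
        if w q.1 = true then Fin.cases (motive := fun _ => AlgebraicClosure K) 0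
          (fun j => y (Sum.inr (q.1, j.castSucc))) q.2 else y (Sum.inr q)))
        (fun i => y (Sum.inr (i.1, Fin.last _))))
      (fun z => Sum.elim (fun p => z (Sum.inl (Sum.inl p))) (fun q =>
        if h : w q.1 = true then Fin.lastCases (motive := fun _ => AlgebraicClosure K)
          (z (Sum.inr ⟨q.1, h⟩)) (fun j => z (Sum.inl (Sum.inr (q.1, j.succ)))) q.2
        else z (Sum.inl (Sum.inr q))))
      (regularOn_poly ?_ _) (regularOn_poly ?_ _) ?_ ?_ ?_ ?_
    · rintro ((p | ⟨i, j⟩) | i)
      · exact IsPF.coord _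
      · simp only [Sum.elim_inl, Sum.elim_inr]
        by_cases h : w i = true
        · simp only [if_pos h]
          refine Fin.cases ?_ (fun j => ?_) j
          · exact IsPF.zero
          · exact IsPF.coord _
        · simp only [if_neg h]
          exact IsPF.coord _
      · exact IsPF.coord _
    · rintro (p | ⟨i, j⟩)
      · exact IsPF.coord _
      · simp only [Sum.elim_inr]
        by_cases h : w i = true
        · simp only [dif_pos h]
          refine Fin.lastCases ?_ (fun j => ?_) j
          · simp only [Fin.lastCases_last]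
            exact IsPF.coord _
          · simp only [Fin.lastCases_castSucc]
            exact IsPF.coord _
        · simp only [dif_neg h]
          exact IsPF.coord _
    · intro y hy
      refine ⟨(mem_shift X w e he V β N hβ _ y ?_ ?_ ?_ ?_).2 hy, trivial⟩
      · intro p
        rfl
      · intro i hi
        simp only [Sum.elim_inl, Sum.elim_inr, if_pos hi, Fin.cases_zero]
      · intro i hi j
        simp only [Sum.elim_inl, Sum.elim_inr, if_pos hi, Fin.cases_succ]
      · intro i hi j
        simp only [Sum.elim_inl, Sum.elim_inr, if_neg hi]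
    · intro z hz
      refine (mem_shift X w e he V β N hβ (fun i => z (Sum.inl i)) _ ?_ ?_ ?_ ?_).1 hz.1
      · intro p
        rfl
      · intro i hi
        exact h0 _ hz.1.2 i hi
      · intro i hi j
        simp only [Sum.elim_inr, dif_pos hi, Fin.lastCases_castSucc]
      · intro i hi j
        simp only [Sum.elim_inr, dif_neg hi]
    · intro y _
      funext i
      rcases i with p | ⟨i, j⟩
      · rfl
      · simp only [Sum.elim_inl, Sum.elim_inr]
        by_cases h : w i = true
        · simp only [dif_pos h, if_pos h]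
          refine Fin.lastCases ?_ (fun j => ?_) j
          · simp only [Fin.lastCases_last]
          · simp only [Fin.lastCases_castSucc, Fin.cases_succ]
        · simp only [dif_neg h, if_neg h]
    · intro z hz
      funext i
      rcases i with (p | ⟨i, j⟩) | i
      · rfl
      · simp only [Sum.elim_inl, Sum.elim_inr]
        by_cases h : w i = true
        · simp only [dif_pos h, if_pos h]
          refine Fin.cases ?_ (fun j => ?_) j
          · simp only [Fin.cases_zero]
            exact (h0 _ hz.1.2 i h).symm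
          · simp only [Fin.cases_succ, Fin.lastCases_castSucc]
        · simp only [dif_neg h, if_neg h]
      · simp only [Sum.elim_inr, dif_pos i.2, Fin.lastCases_last]
  rw [h2, hcard]
  have h3 : v ^ (Finset.univ.filter fun i => w i = true).card *
      M.L ^ (Finset.univ.filter fun i => w i = true).card = 1 := by
    rw [← mul_pow, mul_comm v, hv, one_pow]
  linear_combination (-(M.χ _ (SS X V (fun t => e t + β t) (N + 1)) *
    v ^ ((N + 1) * Fintype.card X.ι))) * h3

theorem mm_scalew_zero (v : R) (X : Sys T) (w : X.ι → Bool) (e : Fin T → ℕ)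
    (he : ∀ l, IsWeightedHomogeneous (fun i => if w i = true then 1 else 0) (X.G l) (e (X.τ l)))
    {V : Set (Pt K (π ⊕ (X.ι ⊕ X.Λ)))} (hG : Gd X V)
    (h0 : ∀ z ∈ V, ∀ i, w i = true → z (Sum.inr (Sum.inl i)) = 0) (α : Fin T → ℕ)
    (hα : ∃ t, α t < e t) : mm M v X V α = 0 := by
  have h1 : SS X V α (∑ t, α t) = ∅ := by
    rw [Set.eq_empty_iff_forall_notMem]
    intro z hz
    obtain ⟨t, ht⟩ := hα
    obtain ⟨l, hl, hl'⟩ := hG _ hz.2 t
    apply hl'
    change lam X α (ar fun q => z (Sum.inr q)) l = 0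
    have h3 : ∃ x : X.ι → PowerSeries (AlgebraicClosure K),
        (ar fun q => z (Sum.inr q)) =
          fun i => PowerSeries.X ^ (if w i = true then 1 else 0) * x i := by
      have : ∀ i, ∃ y, ar (fun q => z (Sum.inr q)) i =
          PowerSeries.X ^ (if w i = true then 1 else 0) * y := by
        intro i
        by_cases h : w i = true
        · rw [if_pos h, pow_one]
          have h4 : (PowerSeries.X : PowerSeries (AlgebraicClosure K)) ∣
              ar (fun q => z (Sum.inr q)) i := by
            rw [PowerSeries.X_dvd_iff, ← PowerSeries.coeff_zero_eq_constantCoeff_apply,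
              coeff_ar_zero]
            exact h0 _ hz.2 i h
          exact h4
        · rw [if_neg h, pow_zero]
          exact ⟨_, (one_mul _).symm⟩
      choose x hx using this
      exact ⟨x, funext hx⟩
    obtain ⟨x, hx⟩ := h3
    unfold lam
    rw [hx, hom_evw w _ _ (he l)]
    have h5 : Vn (e (X.τ l)) (PowerSeries.X ^ e (X.τ l) * ev x (X.G l) :
        PowerSeries (AlgebraicClosure K)) := vn_iff.2 (dvd_mul_right _ _)
    refine h5 _ ?_
    rw [hl]
    exact ht
  unfold mm
  rw [h1, Pool.Agent.W375.MT.chi_empty, zero_mul]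

end ME

section rec

variable {K : Type} [Field K] {T : ℕ} {R : Type} [CommRing R] {u : Rˣ} {M : Meas K R}
  {a : Fin T → ℕ}

open ME

/-- the parts where some pivot does not vanish -/
theorem ME.pivs (h : S_MP) (hu : M.L = (u : R)) {D : Set (ℤ × ℤ)} {X : Sys T} {B : Type}
    (Y : B → Sys T) (p : ∀ b, PivI X (Y b)) (hY : ∀ b, Rt u M a D (Y b)) (s : Finset B) :
    ∀ (π : Type) [Fintype π] (V : Set (Pt K (π ⊕ (X.ι ⊕ X.Λ)))), Constr V → Gd X V →
      (∀ v ∈ V, ∃ b ∈ s, (p b).toSh.U (fun i => v (Sum.inr (Sum.inl i))) ≠ 0) →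
      gf a (mm M (((u⁻¹ : Rˣ) : R)) X V) ∈ ratU u D := by
  classical
  induction s using Finset.induction_on with
  | empty =>
    intro π _ V hV hG h
    have h1 : V = ∅ := by
      rw [Set.eq_empty_iff_forall_notMem]
      intro v hv
      obtain ⟨b, hb, _⟩ := h v hv
      exact absurd hb (Finset.notMem_empty b)
    rw [gf_zero]
    · exact Subalgebra.zero_mem _
    · intro α
      have h2 : SS X V α (∑ t, α t) = ∅ := by
        rw [Set.eq_empty_iff_forall_notMem]
        intro z hz
        have := hz.2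
        rw [h1] at this
        exact this
      unfold mm
      rw [h2, Pool.Agent.W375.MT.chi_empty, zero_mul]
  | insert b s hb ih =>
    intro π _ V hV hG hc
    set W : Set (Pt K (π ⊕ (X.ι ⊕ X.Λ))) :=
      {v | (p b).toSh.U (fun i => v (Sum.inr (Sum.inl i))) = 0} with hW
    have hWc : Constr W := Constr.eqz (pf_aevalZ (φ := fun (v : Pt K (π ⊕ (X.ι ⊕ X.Λ)))
      (q : (p b).P) => v (Sum.inr (Sum.inl ((p b).e (Sum.inl (Sum.inl q))))))
      (fun i => IsPF.coord _) _)
    have h1 : V = (V ∩ Wᶜ) ∪ (V ∩ W) := by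
      rw [Set.union_comm, Set.inter_union_compl]
    rw [h1, rt_union (D := D) hu π (hV.inter hWc.compl) (hV.inter hWc) (by
      rw [Set.disjoint_left]
      rintro v ⟨_, h2⟩ ⟨_, h3⟩
      exact h2 h3)]
    refine Subalgebra.add_mem _ ?_ ?_
    · exact h K T R u M a hu D X (Y b) (p b) (hY b) π _ (hV.inter hWc.compl)
        (fun v hv => hG v hv.1) fun v hv => hv.2
    · refine ih π _ (hV.inter hWc) (fun v hv => hG v hv.1) fun v hv => ?_
      obtain ⟨b', hb', h2⟩ := hc v hv.1
      rcases Finset.mem_insert.1 hb' with rfl | h3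
      · exact absurd hv.2 h2
      · exact ⟨b', h3, h2⟩

/-- the step of the recursion -/
theorem ME.step (h : S_MP) (hu : M.L = (u : R)) (ha : ∀ t, 0 < a t) {D : Set (ℤ × ℤ)} {X : Sys T}
    (w : X.ι → Bool) (e : Fin T → ℕ)
    (he : ∀ l, IsWeightedHomogeneous (fun i => if w i = true then 1 else 0) (X.G l) (e (X.τ l)))
    {B : Type} [Fintype B] (Y : B → Sys T) (p : ∀ b, PivI X (Y b))
    (hY : ∀ b, Rt u M a D (Y b))
    (cov : ∀ x : X.ι → AlgebraicClosure K, (∃ i, w i = true ∧ x i ≠ 0) →
      ∃ b, (p b).toSh.U x ≠ 0)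
    (hN : 0 < ∑ t, a t * e t)
    (hD : (-((Finset.univ.filter fun i => w i = true).card : ℤ),
      ((∑ t, a t * e t : ℕ) : ℤ)) ∈ D) :
    Rt u M a D X := by
  classical
  intro π _ V hV hG
  -- the set where the scaled coordinates of the origin vanish
  set Z : Set (Pt K (π ⊕ (X.ι ⊕ X.Λ))) :=
    {v | ∀ i, w i = true → v (Sum.inr (Sum.inl i)) = 0} with hZ
  have hZc : Constr Z := by
    refine Constr.all fun i => ?_
    by_cases hi : w i = true
    · simp only [hi, true_imp_iff]
      exact Constr.eqz (IsPF.coord _)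
    · have h1 : {v : Pt K (π ⊕ (X.ι ⊕ X.Λ)) | w i = true → v (Sum.inr (Sum.inl i)) = 0} =
          Set.univ := by
        ext v
        exact ⟨fun _ => trivial, fun _ h2 => absurd h2 hi⟩
      rw [h1]
      exact Constr.univ
  have hnz : ∀ V : Set (Pt K (π ⊕ (X.ι ⊕ X.Λ))), Constr V → Gd X V →
      gf a (mm M (((u⁻¹ : Rˣ) : R)) X (V ∩ Zᶜ)) ∈ ratU u D := by
    intro V hV hG
    refine ME.pivs h hu Y p hY Finset.univ π _ (hV.inter hZc.compl)
      (fun v hv => hG v hv.1) fun v hv => ?_
    obtain ⟨b, hb⟩ := cov (fun i => v (Sum.inr (Sum.inl i))) (by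
      by_contra hcon
      push Not at hcon
      exact hv.2 fun i hi => hcon i hi)
    exact ⟨b, Finset.mem_univ b, hb⟩
  have hdec : ∀ V : Set (Pt K (π ⊕ (X.ι ⊕ X.Λ))), Constr V → Gd X V →
      gf a (mm M (((u⁻¹ : Rˣ) : R)) X V) = gf a (mm M (((u⁻¹ : Rˣ) : R)) X (V ∩ Zᶜ)) +
        PowerSeries.C (((u⁻¹ : Rˣ) : R) ^ (Finset.univ.filter fun i => w i = true).card) *
          PowerSeries.X ^ (∑ t, a t * e t) * gf a (mm M (((u⁻¹ : Rˣ) : R)) X (V0w X w V)) := by
    intro V hV hG
    have h1 : V = (V ∩ Zᶜ) ∪ (V ∩ Z) := by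
      rw [Set.union_comm, Set.inter_union_compl]
    conv_lhs => rw [h1, rt_union (D := D) hu π (hV.inter hZc.compl) (hV.inter hZc) (by
      rw [Set.disjoint_left]
      rintro v ⟨_, h2⟩ ⟨_, h3⟩
      exact h2 h3)]
    congr 1
    refine gf_shift a ha e _ _ _ (fun α hα => ?_) fun β => ?_
    · exact mm_scalew_zero M _ X w e he (fun v hv => hG v hv.1) (fun v hv => hv.2) α hα
    · rw [mm_scalew M _ (hv hu) X w e he (hV.inter hZc) (fun v hv => hv.2)]
      have h2 : V0w X w (V ∩ Z) = V0w X w V := by
        ext v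
        refine ⟨fun h => h.1, fun h => ⟨h, fun i hi => ?_⟩⟩
        simp only [Sum.elim_inr, Sum.elim_inl, if_pos hi]
      rw [h2]
  rw [hdec V hV hG]
  refine Subalgebra.add_mem _ (hnz V hV hG) (Subalgebra.mul_mem _ (Subalgebra.mul_mem _
    (rat_C u _) (Subalgebra.pow_mem _ (rat_X u) _)) ?_)
  have h3 := hdec (V0w X w V) (constr_V0w X w hV) (gd_V0w X w hG)
  rw [V0w_V0w] at h3
  exact geo_solve u hN hD _ _ (hnz _ (constr_V0w X w hV) (gd_V0w X w hG)) h3

/-- a family contains the polynomial `1` -/
theorem ME.unit (hu : M.L = (u : R)) (ha : ∀ t, 0 < a t) {D : Set (ℤ × ℤ)} {X : Sys T}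
    (h : ∀ t, ∃ l, X.τ l = t ∧ X.G l = 1) : Rt u M a D X := by
  intro π _ V hV hG
  rw [gf_const a ha]
  · exact rat_C u _
  · rintro α ⟨t, ht⟩
    have h2 : SS X V α (∑ t, α t) = ∅ := by
      rw [Set.eq_empty_iff_forall_notMem]
      intro z hz
      obtain ⟨l, hl, hl'⟩ := h t
      have h3 := hz.1 l 0 (by rw [hl]; omega)
      rw [hl', map_one] at h3
      simp at h3
    unfold mm
    rw [h2, Pool.Agent.W375.MT.chi_empty, zero_mul]

end rec

/-- **Package ME.** -/
theorem t_ME (h : S_MP) : S_ME := by
  intro K _ T R _ u M a hu ha D X hX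
  induction hX with
  | unit X hX => exact ME.unit hu ha hX
  | mk X w e he hom hD B fB Y pv cov hT ih =>
    have hN : 0 < ∑ t, a t * e t := by
      obtain ⟨t, ht⟩ := he
      exact lt_of_lt_of_le (Nat.mul_pos (ha t) ht) (Finset.single_le_sum
        (f := fun t => a t * e t) (fun _ _ => Nat.zero_le _) (Finset.mem_univ t))
    exact ME.step h hu ha w e hom Y pv ih (cov (AlgebraicClosure K)) hN ⟨_, hD, hN, rfl⟩

end Pool.Agent.U397.TM
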