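import Pool.Agent.U397.TM.Spec

set_option autoImplicit false
set_option linter.unusedSectionVars false
set_option linter.unusedVariables false

/-! # Project TM, package MP: motivic pivots with kept coordinates (helper858)

The proofs follow `TH192/MT/Univ.lean` (`mkPiv`) and `TH192/MT/Piv.lean`, `Rec.lean` (`rt_piv`). -/

namespace Pool.Agent.U397.TM

open MvPolynomial Pool.Agent.W428.MOT Pool.Agent.TH192.MT

namespace MP

variable {K : Type} [Field K] {T : ℕ} {π : Type} {X Y : Sys T}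

/-- the coordinates of `Y` as coordinates of `X` -/
def pz (s : Sh X Y) (y : Y.ι) : X.ι :=
  Sum.elim (fun z => s.e (Sum.inl (Sum.inr z))) (fun h => s.e (Sum.inr h)) (s.e'.symm y)

theorem pz_z (s : Sh X Y) (z : s.Z) : pz s (s.e' (Sum.inl z)) = s.e (Sum.inl (Sum.inr z)) := by
  simp [pz]

theorem pz_h (s : Sh X Y) (h : s.H) : pz s (s.e' (Sum.inr h)) = s.e (Sum.inr h) := by
  simp [pz]

/-- The coefficient identities. -/
structure Cf (s : Sh X Y) where
  r : X.Λ → ℕ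
  c : X.Λ → Y.Λ → MvPolynomial X.ι ℤ
  c0 : ∀ l m, Y.τ m ≠ X.τ l → c l m = 0
  hc : ∀ (A : Type) [CommRing A] (x : X.ι → A) (x' : Y.ι → A), IsUnit (s.U x) → s.Rel x x' →
    ∀ l, (s.U x) ^ r l * ev x (X.G l) = ∑ m, ev x (c l m) * ev x' (Y.G m)
  r' : Y.Λ → ℕ
  c' : Y.Λ → X.Λ → MvPolynomial X.ι ℤ
  c0' : ∀ l m, Y.τ m ≠ X.τ l → c' m l = 0
  hc' : ∀ (A : Type) [CommRing A] (x : X.ι → A) (x' : Y.ι → A), IsUnit (s.U x) → s.Rel x x' →
    ∀ m, (s.U x) ^ r' m * ev x' (Y.G m) = ∑ l, ev x (c' m l) * ev x (X.G l)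

/-- the coefficient identities from the identity between the ideals -/
theorem mkCf (p : PivI X Y) : Nonempty (Cf p.toSh) := by
  classical
  set s := p.toSh with hs
  set uX : MvPolynomial X.ι ℤ := rename (fun q => s.e (Sum.inl (Sum.inl q))) s.u with huX
  set L := Localization.Away uX with hL
  set am := algebraMap (MvPolynomial X.ι ℤ) L with ham
  set x1 : X.ι → L := fun i => am (MvPolynomial.X i) with hx1
  have hev : ∀ P : MvPolynomial X.ι ℤ, ev x1 P = am P := by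
    intro P
    rw [hx1, ← map_ev am MvPolynomial.X P, ev_X_self]
  have hunit : IsUnit (am uX) := IsLocalization.Away.algebraMap_isUnit uX
  obtain ⟨w, hw⟩ := hunit
  have hUx : ∀ (A : Type) [CommRing A] (x : X.ι → A), ev x uX = s.U x := fun A _ x =>
    ev_rename _ _ _
  have hU1 : s.U x1 = (w : L) := by rw [← hUx, hev, hw]
  set x1' : Y.ι → L := fun y => Sum.elim (fun z => x1 (s.e (Sum.inl (Sum.inr z))))
    (fun h => x1 (s.e (Sum.inr h)) -
      ((w⁻¹ : Lˣ) : L) * ev (fun q => x1 (s.e (Sum.inl q))) (s.g h)) (s.e'.symm y) with hx1'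
  have hU : IsUnit (s.U x1) := by
    rw [hU1]
    exact w.isUnit
  have hrel : s.Rel x1 x1' := by
    constructor
    · intro z
      rw [hx1']
      simp
    · intro h
      rw [hU1, hx1']
      simp only [Equiv.symm_apply_apply, Sum.elim_inr]
      rw [mul_sub, ← mul_assoc, Units.mul_inv, one_mul]
  have hI := p.hI L x1 x1' hU hrel
  -- specialisation
  have spec : ∀ (A : Type) [CommRing A] (x : X.ι → A) (x' : Y.ι → A),
      IsUnit (s.U x) → s.Rel x x' →
      ∃ φ : L →+* A, (∀ Q, φ (am Q) = ev x Q) ∧ (∀ i, φ (x1 i) = x i) ∧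
        (∀ y, φ (x1' y) = x' y) := by
    intro A _ x x' hx hxx'
    have h1 : IsUnit ((ev x) uX) := by
      rw [hUx]
      exact hx
    refine ⟨IsLocalization.Away.lift (S := L) uX h1, fun Q => ?_, fun i => ?_, fun y => ?_⟩
    · exact IsLocalization.Away.lift_eq uX h1 Q
    · rw [hx1]
      simp only
      rw [ham, IsLocalization.Away.lift_eq uX h1, ev_X]
    · set φ := IsLocalization.Away.lift (S := L) uX h1 with hφ
      have h2 : ∀ i, φ (x1 i) = x i := by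
        intro i
        rw [hx1]
        simp only
        rw [hφ, ham, IsLocalization.Away.lift_eq uX h1, ev_X]
      have h4 : φ (s.U x1) = s.U x := by
        unfold Sh.U
        rw [map_ev]
        simp only [h2]
      obtain ⟨y, rfl⟩ := s.e'.surjective y
      rcases y with z | h
      · rw [hrel.1 z, hxx'.1 z, h2]
      · have h3 := congrArg φ (hrel.2 h)
        simp only [map_mul, map_sub, map_ev, h2, h4] at h3
        exact hx.mul_left_cancel (h3.trans (hxx'.2 h).symm)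
  -- the coefficients
  have hc1 : ∀ l : X.Λ, ∃ (r : ℕ) (c : Y.Λ → MvPolynomial X.ι ℤ),
      (∀ m, Y.τ m ≠ X.τ l → c m = 0) ∧
      am uX ^ r * ev x1 (X.G l) = ∑ m, am (c m) * ev x1' (Y.G m) := by
    intro l
    have h1 : ev x1 (X.G l) ∈ fI Y x1' (X.τ l) := by
      rw [← hI]
      exact Ideal.subset_span ⟨l, rfl, rfl⟩
    obtain ⟨b, hb, hb'⟩ := mem_fI Y x1' _ _ h1
    obtain ⟨r, c, hc⟩ := clear uX b
    refine ⟨r, c, fun m hm => (hc m).2 (hb m hm), ?_⟩
    rw [hb', Finset.mul_sum]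
    refine Finset.sum_congr rfl fun m _ => ?_
    rw [ham, ← (hc m).1, mul_assoc]
  have hc2 : ∀ m : Y.Λ, ∃ (r : ℕ) (c : X.Λ → MvPolynomial X.ι ℤ),
      (∀ l, Y.τ m ≠ X.τ l → c l = 0) ∧
      am uX ^ r * ev x1' (Y.G m) = ∑ l, am (c l) * ev x1 (X.G l) := by
    intro m
    have h1 : ev x1' (Y.G m) ∈ fI X x1 (Y.τ m) := by
      rw [hI]
      exact Ideal.subset_span ⟨m, rfl, rfl⟩
    obtain ⟨b, hb, hb'⟩ := mem_fI X x1 _ _ h1
    obtain ⟨r, c, hc⟩ := clear uX b
    refine ⟨r, c, fun l hl => (hc l).2 (hb l (Ne.symm hl)), ?_⟩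
    rw [hb', Finset.mul_sum]
    refine Finset.sum_congr rfl fun l _ => ?_
    rw [ham, ← (hc l).1, mul_assoc]
  choose r c hc0 hc using hc1
  choose r' c' hc0' hc' using hc2
  refine ⟨{ r := r, c := c, c0 := fun l m h => hc0 l m h, hc := ?_, r' := r', c' := c',
            c0' := fun l m h => hc0' m l h, hc' := ?_ }⟩
  · intro A _ x x' hx hxx' l
    obtain ⟨φ, h1, h2, h3⟩ := spec A x x' hx hxx'
    have h4 := congrArg φ (hc l)
    simp only [map_mul, map_pow, map_sum, h1, map_ev, h2, h3, hUx] at h4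
    exact h4
  · intro A _ x x' hx hxx' m
    obtain ⟨φ, h1, h2, h3⟩ := spec A x x' hx hxx'
    have h4 := congrArg φ (hc' m)
    simp only [map_mul, map_pow, map_sum, h1, map_ev, h2, h3, hUx] at h4
    exact h4

/-! ### the shear -/

variable (s : Sh X Y)

/-- the series which are subtracted -/
noncomputable def Gc {N : ℕ} (ζ : Pt K ((s.P ⊕ s.Z) × Fin (N + 1))) (h : s.H) :
    PowerSeries (AlgebraicClosure K) := ev (ar ζ) (s.g h) * (ev (fun q => ar ζ (Sum.inl q)) s.u)⁻¹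

/-- the coordinates of the blocks `P` and `Z` -/
def rP {N : ℕ} (z : Pt K (π ⊕ X.ι × Fin (N + 1))) : Pt K ((s.P ⊕ s.Z) × Fin (N + 1)) :=
  fun q => z (Sum.inr (s.e (Sum.inl q.1), q.2))

/-- the shear -/
noncomputable def sh (k : ℤ) {N : ℕ} (z : Pt K (π ⊕ X.ι × Fin (N + 1))) :
    Pt K (π ⊕ X.ι × Fin (N + 1)) :=
  Sum.elim (fun a => z (Sum.inl a)) (fun q => match s.e.symm q.1 with
    | Sum.inl _ => z (Sum.inr q)
    | Sum.inr h => z (Sum.inr q) + (k : AlgebraicClosure K) *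
        PowerSeries.coeff (q.2 : ℕ) (Gc s (rP s z) h))

theorem sh_inl (k : ℤ) {N : ℕ} (z : Pt K (π ⊕ X.ι × Fin (N + 1))) (q : s.P ⊕ s.Z)
    (j : Fin (N + 1)) :
    sh s k z (Sum.inr (s.e (Sum.inl q), j)) = z (Sum.inr (s.e (Sum.inl q), j)) := by
  simp only [sh, Sum.elim_inr, Equiv.symm_apply_apply]

theorem sh_inr (k : ℤ) {N : ℕ} (z : Pt K (π ⊕ X.ι × Fin (N + 1))) (h : s.H) (j : Fin (N + 1)) :
    sh s k z (Sum.inr (s.e (Sum.inr h), j)) = z (Sum.inr (s.e (Sum.inr h), j)) +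
      (k : AlgebraicClosure K) * PowerSeries.coeff (j : ℕ) (Gc s (rP s z) h) := by
  simp only [sh, Sum.elim_inr, Equiv.symm_apply_apply]

theorem rP_sh (k : ℤ) {N : ℕ} (z : Pt K (π ⊕ X.ι × Fin (N + 1))) : rP s (sh s k z) = rP s z := by
  funext q
  exact sh_inl s k z q.1 q.2

theorem sh_sh (k k' : ℤ) (h : k + k' = 0) {N : ℕ} (z : Pt K (π ⊕ X.ι × Fin (N + 1))) :
    sh s k (sh s k' z) = z := by
  have h' : (k : AlgebraicClosure K) + k' = 0 := by
    rw [← Int.cast_add, h, Int.cast_zero]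
  funext i
  rcases i with a | ⟨i, j⟩
  · rfl
  · obtain ⟨i, rfl⟩ := s.e.surjective i
    rcases i with q | y
    · rw [sh_inl, sh_inl]
    · rw [sh_inr, sh_inr, rP_sh]
      linear_combination PowerSeries.coeff (j : ℕ) (Gc s (rP s z) y) * h'

/-- the parameters, the origin of the pivot block and the rest -/
def rs {N : ℕ} (w : Pt K (π ⊕ X.ι × Fin (N + 1))) : Pt K ((π ⊕ s.P) ⊕ Y.ι × Fin (N + 1)) :=
  Sum.elim (Sum.elim (fun a => w (Sum.inl a))
    (fun q => w (Sum.inr (s.e (Sum.inl (Sum.inl q)), 0)))) (fun q => w (Sum.inr (pz s q.1, q.2)))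

/-- the origin of the blocks `P` and `Z` -/
def pq (v : Pt K ((π ⊕ s.P) ⊕ (Y.ι ⊕ Y.Λ))) : Pt K (s.P ⊕ s.Z) :=
  Sum.elim (fun q => v (Sum.inl (Sum.inr q))) (fun z => v (Sum.inr (Sum.inl (s.e' (Sum.inl z)))))

/-- the origin -/
noncomputable def x0 (v : Pt K ((π ⊕ s.P) ⊕ (Y.ι ⊕ Y.Λ))) : Pt K X.ι := fun i =>
  match s.e.symm i with
  | Sum.inl q => pq s v q
  | Sum.inr h => v (Sum.inr (Sum.inl (s.e' (Sum.inr h)))) + ev (pq s v) (s.g h) /
      ev (fun q => v (Sum.inl (Sum.inr q))) s.u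

theorem x0_inl (v : Pt K ((π ⊕ s.P) ⊕ (Y.ι ⊕ Y.Λ))) (q : s.P ⊕ s.Z) :
    x0 s v (s.e (Sum.inl q)) = pq s v q := by
  simp only [x0, Equiv.symm_apply_apply]

theorem x0_inr (v : Pt K ((π ⊕ s.P) ⊕ (Y.ι ⊕ Y.Λ))) (h : s.H) :
    x0 s v (s.e (Sum.inr h)) = v (Sum.inr (Sum.inl (s.e' (Sum.inr h)))) +
      ev (pq s v) (s.g h) / ev (fun q => v (Sum.inl (Sum.inr q))) s.u := by
  simp only [x0, Equiv.symm_apply_apply]

variable {s} (p : Cf s)

/-- the data of the old jet, in terms of the data of the new jet -/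
noncomputable def Ph (v : Pt K ((π ⊕ s.P) ⊕ (Y.ι ⊕ Y.Λ))) : Pt K (π ⊕ (X.ι ⊕ X.Λ)) :=
  Sum.elim (fun a => v (Sum.inl (Sum.inl a))) (Sum.elim (x0 s v) (fun l =>
    (∑ m, ev (x0 s v) (p.c l m) * v (Sum.inr (Sum.inr m))) /
      (ev (fun q => v (Sum.inl (Sum.inr q))) s.u) ^ p.r l))

/-- `u ≠ 0` -/
def Un (s : Sh X Y) (π : Type) : Set (Pt K ((π ⊕ s.P) ⊕ (Y.ι ⊕ Y.Λ))) :=
  {v | ev (fun q => v (Sum.inl (Sum.inr q))) s.u ≠ 0}

/-- the new condition -/
def pull (V : Set (Pt K (π ⊕ (X.ι ⊕ X.Λ)))) : Set (Pt K ((π ⊕ s.P) ⊕ (Y.ι ⊕ Y.Λ))) :=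
  {v | v ∈ Un s π ∧ Ph p v ∈ V}

theorem constr_Un : Constr (Un (K := K) s π) := by
  refine Constr.not (Constr.eqz ?_)
  exact pf_aevalZ (φ := fun (v : Pt K ((π ⊕ s.P) ⊕ (Y.ι ⊕ Y.Λ))) (q : s.P) =>
    v (Sum.inl (Sum.inr q))) (fun i => IsPF.coord _) _

theorem rf_u (S : Set (Pt K ((π ⊕ s.P) ⊕ (Y.ι ⊕ Y.Λ)))) (P : MvPolynomial s.P ℤ) :
    IsRF S (fun v => ev (fun q => v (Sum.inl (Sum.inr q))) P) :=
  rf_aevalZ (φ := fun (v : Pt K ((π ⊕ s.P) ⊕ (Y.ι ⊕ Y.Λ))) (q : s.P) =>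
    v (Sum.inl (Sum.inr q))) (fun i => (IsPF.coord _).isRF _) _

theorem rf_pq (S : Set (Pt K ((π ⊕ s.P) ⊕ (Y.ι ⊕ Y.Λ)))) (P : MvPolynomial (s.P ⊕ s.Z) ℤ) :
    IsRF S (fun v => ev (pq s v) P) := by
  refine rf_aevalZ (φ := fun (v : Pt K ((π ⊕ s.P) ⊕ (Y.ι ⊕ Y.Λ))) => pq s v) (fun i => ?_) _
  rcases i with q | z
  · exact (IsPF.coord _).isRF _
  · exact (IsPF.coord _).isRF _

theorem rf_x0 (i : X.ι) : IsRF (Un (K := K) s π) (fun v => x0 s v i) := by
  obtain ⟨i, rfl⟩ := s.e.surjective i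
  rcases i with q | h
  · simp only [x0_inl]
    rcases q with q | z
    · exact (IsPF.coord _).isRF _
    · exact (IsPF.coord _).isRF _
  · simp only [x0_inr]
    exact ((IsPF.coord _).isRF _).add ((rf_pq _ _).div (rf_u _ _) fun v hv => hv)

theorem constr_pull {V : Set (Pt K (π ⊕ (X.ι ⊕ X.Λ)))} (hV : Constr V) :
    Constr (pull p V) := by
  refine constr_pre (constr_Un) (φ := Ph p) ?_ hV
  rintro (a | i | l)
  · exact (IsPF.coord _).isRF _
  · exact rf_x0 i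
  · refine (rf_sum _ _ fun m _ => (rf_aevalZ (rf_x0) _).mul ((IsPF.coord _).isRF _)).div
      (rf_pow (rf_u _ _) _) fun v hv => pow_ne_zero _ hv

theorem gd_pull {V : Set (Pt K (π ⊕ (X.ι ⊕ X.Λ)))} (hV : Gd X V) : Gd Y (pull p V) := by
  rintro v ⟨hv, hv'⟩ t
  obtain ⟨l, hl, hl'⟩ := hV _ hv' t
  by_contra h
  push Not at h
  apply hl'
  change (∑ m, ev (x0 s v) (p.c l m) * v (Sum.inr (Sum.inr m))) / _ = 0
  rw [Finset.sum_eq_zero, zero_div]
  intro m _
  by_cases hm : Y.τ m = X.τ l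
  · rw [h m (hm.trans hl), mul_zero]
  · rw [p.c0 l m hm, map_zero, zero_mul]

theorem mem_Un (v : Pt K ((π ⊕ s.P) ⊕ (Y.ι ⊕ Y.Λ))) :
    v ∈ Un s π ↔ ev (fun q => v (Sum.inl (Sum.inr q))) s.u ≠ 0 := Iff.rfl

theorem mem_pull (V : Set (Pt K (π ⊕ (X.ι ⊕ X.Λ)))) (v : Pt K ((π ⊕ s.P) ⊕ (Y.ι ⊕ Y.Λ))) :
    v ∈ pull p V ↔ v ∈ Un s π ∧ Ph p v ∈ V := Iff.rfl

theorem u_rs (α : Fin T → ℕ) {N : ℕ} (w : Pt K (π ⊕ X.ι × Fin (N + 1)))
    (P : MvPolynomial s.P ℤ) :
    ev (fun q => dat Y α (rs s w) (Sum.inl (Sum.inr q))) P =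
      ev (fun q => w (Sum.inr (s.e (Sum.inl (Sum.inl q)), 0))) P := rfl

theorem u_sh (k : ℤ) {N : ℕ} (z : Pt K (π ⊕ X.ι × Fin (N + 1))) (P : MvPolynomial s.P ℤ) :
    ev (fun q => sh s k z (Sum.inr (s.e (Sum.inl (Sum.inl q)), 0))) P =
      ev (fun q => z (Sum.inr (s.e (Sum.inl (Sum.inl q)), 0))) P := by
  simp only [sh_inl]

theorem u_dat (α : Fin T → ℕ) {N : ℕ} (z : Pt K (π ⊕ X.ι × Fin (N + 1)))
    (P : MvPolynomial s.P ℤ) :
    ev (fun q => dat X α z (Sum.inr (Sum.inl (s.e (Sum.inl (Sum.inl q)))))) P =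
      ev (fun q => z (Sum.inr (s.e (Sum.inl (Sum.inl q)), 0))) P := rfl

theorem pq_rs (α : Fin T → ℕ) {N : ℕ} (w : Pt K (π ⊕ X.ι × Fin (N + 1))) :
    pq s (dat Y α (rs s w)) = fun q => w (Sum.inr (s.e (Sum.inl q), 0)) := by
  funext q
  rcases q with q | z
  · rfl
  · change w (Sum.inr (pz s (s.e' (Sum.inl z)), 0)) = _
    rw [pz_z]

section key

variable {N : ℕ} (z : Pt K (π ⊕ X.ι × Fin (N + 1)))

theorem key_iff {α : Fin T → ℕ} (hα : ∀ t, α t ≤ N)
    (V : Set (Pt K (π ⊕ (X.ι ⊕ X.Λ))))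
    (hU : ∀ v ∈ V, ev (fun q => v (Sum.inr (Sum.inl (s.e (Sum.inl (Sum.inl q)))))) s.u ≠ 0) :
    z ∈ SS X V α N ↔ rs s (sh s (-1) z) ∈ SS Y (pull p V) α N := by
  -- the value of `u` at the origin
  by_cases hu : ev (fun q => z (Sum.inr (s.e (Sum.inl (Sum.inl q)), 0))) s.u = 0
  · constructor
    · intro h
      have h3 := hU _ ((mem_SS X V α N z).1 h).2
      rw [u_dat] at h3
      exact absurd hu h3
    · intro h
      exfalso
      have h3 := (mem_Un _).1 ((mem_pull p V _).1 ((mem_SS Y _ α N _).1 h).2).1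
      rw [u_rs, u_sh] at h3
      exact h3 hu
  set x : X.ι → PowerSeries (AlgebraicClosure K) := ar fun q => z (Sum.inr q) with hx
  set U : PowerSeries (AlgebraicClosure K) := s.U x with hUdef
  have hUdef' : U = ev (fun q => x (s.e (Sum.inl (Sum.inl q)))) s.u := rfl
  have hx00 : ∀ i, PowerSeries.coeff 0 (x i) = z (Sum.inr (i, 0)) := fun i => by
    rw [hx, coeff_ar_zero]
  have hU0 : PowerSeries.coeff 0 U =
      ev (fun q => z (Sum.inr (s.e (Sum.inl (Sum.inl q)), 0))) s.u := by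
    rw [hUdef', coeff_zero_aeval]
    simp only [hx00]
  have hU1 : PowerSeries.constantCoeff U ≠ 0 := by
    rw [← PowerSeries.coeff_zero_eq_constantCoeff_apply, hU0]
    exact hu
  have hUu : IsUnit U := PowerSeries.isUnit_iff_constantCoeff.2 (isUnit_iff_ne_zero.2 hU1)
  have hUi : U * U⁻¹ = 1 := PowerSeries.mul_inv_cancel _ hU1
  have hGc : ∀ h, Gc s (rP s z) h = ev (fun q => x (s.e (Sum.inl q))) (s.g h) * U⁻¹ :=
    fun h => rfl
  set x2 : Y.ι → PowerSeries (AlgebraicClosure K) := fun y =>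
    Sum.elim (fun z' => x (s.e (Sum.inl (Sum.inr z'))))
      (fun h => x (s.e (Sum.inr h)) - Gc s (rP s z) h) (s.e'.symm y) with hx2
  have hx2z : ∀ z', x2 (s.e' (Sum.inl z')) = x (s.e (Sum.inl (Sum.inr z'))) := fun z' => by
    rw [hx2]
    simp only [Equiv.symm_apply_apply, Sum.elim_inl]
  have hx2h : ∀ h, x2 (s.e' (Sum.inr h)) = x (s.e (Sum.inr h)) - Gc s (rP s z) h := fun h => by
    rw [hx2]
    simp only [Equiv.symm_apply_apply, Sum.elim_inr]
  have hrel : s.Rel x x2 := by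
    refine ⟨hx2z, fun h => ?_⟩
    rw [hx2h, hGc, ← hUdef]
    linear_combination (-ev (fun q => x (s.e (Sum.inl q))) (s.g h)) * hUi
  have h1 := p.hc _ x x2 hUu hrel
  have h2 := p.hc' _ x x2 hUu hrel
  rw [← hUdef] at h1 h2
  -- the jet after the shear
  set w := rs s (sh s (-1) z) with hw
  have hcg : ∀ y, Cg N (ar (fun q => w (Sum.inr q)) y) (x2 y) := by
    intro y k hk
    obtain ⟨y, rfl⟩ := s.e'.surjective y
    rw [coeff_ar, dif_pos (by omega)]
    change sh s (-1) z (Sum.inr (pz s (s.e' y), ⟨k, by omega⟩)) = _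
    rcases y with z' | h
    · rw [pz_z, sh_inl, hx2z, hx, coeff_ar, dif_pos (by omega)]
    · rw [pz_h, sh_inr, hx2h, map_sub, hx, coeff_ar, dif_pos (by omega)]
      push_cast
      ring
  have hunit : ∀ n : ℕ, ∀ a : PowerSeries (AlgebraicClosure K), ∀ k, Vn k (U ^ n * a) ↔ Vn k a := by
    intro n a k
    rw [vn_iff, vn_iff]
    exact (hUu.pow n).dvd_mul_left
  have hV1 : Van X α x ↔ Van Y α x2 := by
    constructor
    · intro h m
      rw [← hunit (p.r' m), h2 m]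
      refine vn_sum _ _ fun l _ => ?_
      by_cases hm : Y.τ m = X.τ l
      · rw [hm]
        exact vn_mul _ (h l)
      · rw [p.c0' l m hm, map_zero, zero_mul]
        intro j _
        exact map_zero _
    · intro h l
      rw [← hunit (p.r l), h1 l]
      refine vn_sum _ _ fun m _ => ?_
      by_cases hm : Y.τ m = X.τ l
      · rw [← hm]
        exact vn_mul _ (h m)
      · rw [p.c0 l m hm, map_zero, zero_mul]
        intro j _
        exact map_zero _
  have hpq : pq s (dat Y α w) = fun q => z (Sum.inr (s.e (Sum.inl q), 0)) := by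
    rw [hw, pq_rs]
    funext q
    rw [sh_inl]
  have hx0 : x0 s (dat Y α w) = fun i => z (Sum.inr (i, 0)) := by
    funext i
    obtain ⟨i, rfl⟩ := s.e.surjective i
    rcases i with q | h
    · rw [x0_inl, hpq]
    · rw [x0_inr, hpq]
      rw [hw, u_rs, u_sh]
      change sh s (-1) z (Sum.inr (pz s (s.e' (Sum.inr h)), 0)) + _ = _
      rw [pz_h, sh_inr]
      have h3 : PowerSeries.coeff ((0 : Fin (N + 1)) : ℕ) (Gc s (rP s z) h) =
          ev (fun q => z (Sum.inr (s.e (Sum.inl q), 0))) (s.g h) /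
            ev (fun q => z (Sum.inr (s.e (Sum.inl (Sum.inl q)), 0))) s.u := by
        have h4 : PowerSeries.coeff 0 (Gc s (rP s z) h) * PowerSeries.coeff 0 U =
            PowerSeries.coeff 0 (ev (fun q => x (s.e (Sum.inl q))) (s.g h)) := by
          rw [hGc]
          simp only [PowerSeries.coeff_zero_eq_constantCoeff_apply]
          rw [← map_mul, mul_assoc, mul_comm U⁻¹ U, hUi, mul_one]
        rw [hU0, coeff_zero_aeval] at h4
        simp only [hx00] at h4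
        change PowerSeries.coeff 0 (Gc s (rP s z) h) = _
        rw [eq_div_iff hu, h4]
      rw [h3]
      push_cast
      ring
  have hlam : Van Y α x2 → dat X α z = Ph p (dat Y α w) := by
    intro hvan
    funext i
    rcases i with a | i | l
    · rfl
    · change z (Sum.inr (i, 0)) = x0 s (dat Y α w) i
      rw [hx0]
    · change lam X α x l = (∑ m, ev (x0 s (dat Y α w)) (p.c l m) *
        lam Y α (ar fun q => w (Sum.inr q)) m) /
          (ev (fun q => dat Y α w (Sum.inl (Sum.inr q))) s.u) ^ p.r l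
      rw [hx0, hw, u_rs, u_sh, ← hw, lam_congr Y hcg hα, eq_div_iff (pow_ne_zero _ hu), mul_comm]
      have h5 := congrArg (PowerSeries.coeff (α (X.τ l))) (h1 l)
      rw [coeff_mul_vn _ (hV1.2 hvan l), map_sum] at h5
      have h6 : PowerSeries.coeff 0 (U ^ p.r l) =
          (ev (fun q => z (Sum.inr (s.e (Sum.inl (Sum.inl q)), 0))) s.u) ^ p.r l := by
        rw [← hU0]
        simp only [PowerSeries.coeff_zero_eq_constantCoeff_apply, map_pow]
      rw [h6] at h5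
      unfold lam
      rw [h5]
      refine Finset.sum_congr rfl fun m _ => ?_
      by_cases hm : Y.τ m = X.τ l
      · rw [← hm, coeff_mul_vn _ (hvan m), coeff_zero_aeval]
        simp only [hx00]
      · rw [p.c0 l m hm, map_zero, map_zero, zero_mul, zero_mul, map_zero]
  have hvan' : Van Y α (ar fun q => w (Sum.inr q)) ↔ Van Y α x2 := van_congr Y hcg hα
  have hUw : dat Y α w ∈ Un (K := K) s π := by
    rw [mem_Un, hw, u_rs, u_sh]
    exact hu
  rw [mem_SS, mem_SS, mem_pull]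
  constructor
  · rintro ⟨h3, h4⟩
    have h5 : Van Y α x2 := hV1.1 h3
    refine ⟨hvan'.2 h5, hUw, ?_⟩
    rw [← hlam h5]
    exact h4
  · rintro ⟨h3, h4, h5⟩
    have h6 : Van Y α x2 := hvan'.1 h3
    refine ⟨hV1.2 h6, ?_⟩
    rw [hlam h6]
    exact h5

end key

/-- the dropped coordinates and the coordinates of `Y` -/
def eE (s : Sh X Y) : s.P ⊕ Y.ι ≃ X.ι :=
  ((Equiv.refl s.P).sumCongr s.e'.symm).trans ((Equiv.sumAssoc s.P s.Z s.H).symm.trans s.e)

theorem eE_inl (q : s.P) : eE s (Sum.inl q) = s.e (Sum.inl (Sum.inl q)) := rfl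

theorem eE_inr (y : Y.ι) : eE s (Sum.inr y) = pz s y := by
  obtain ⟨y, rfl⟩ := s.e'.surjective y
  rcases y with z | h
  · rw [pz_z]
    simp [eE]
  · rw [pz_h]
    simp [eE]

/-- the coordinates after the pivot -/
def ePiv (s : Sh X Y) (π : Type) (N : ℕ) : ((π ⊕ s.P) ⊕ Y.ι × Fin (N + 1)) ⊕ (s.P × Fin N) ≃
    π ⊕ X.ι × Fin (N + 1) where
  toFun := fun t => match t with
    | Sum.inl (Sum.inl (Sum.inl a)) => Sum.inl a
    | Sum.inl (Sum.inl (Sum.inr q)) => Sum.inr (eE s (Sum.inl q), 0)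
    | Sum.inl (Sum.inr y) => Sum.inr (eE s (Sum.inr y.1), y.2)
    | Sum.inr q => Sum.inr (eE s (Sum.inl q.1), q.2.succ)
  invFun := fun t => match t with
    | Sum.inl a => Sum.inl (Sum.inl (Sum.inl a))
    | Sum.inr (i, j) => Sum.elim (fun q => Fin.cases (motive := fun _ =>
        ((π ⊕ s.P) ⊕ Y.ι × Fin (N + 1)) ⊕ (s.P × Fin N)) (Sum.inl (Sum.inl (Sum.inr q)))
          (fun j => Sum.inr (q, j)) j) (fun y => Sum.inl (Sum.inr (y, j))) ((eE s).symm i)
  left_inv := by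
    rintro (((a | q) | ⟨y, j⟩) | ⟨q, j⟩)
    · rfl
    · simp only [Equiv.symm_apply_apply, Sum.elim_inl, Fin.cases_zero]
    · simp only [Equiv.symm_apply_apply, Sum.elim_inr]
    · simp only [Equiv.symm_apply_apply, Sum.elim_inl, Fin.cases_succ]
  right_inv := by
    rintro (a | ⟨i, j⟩)
    · rfl
    · obtain ⟨i, rfl⟩ := (eE s).surjective i
      rcases i with q | y
      · refine Fin.cases ?_ (fun j => ?_) j
        · simp only [Equiv.symm_apply_apply, Sum.elim_inl, Fin.cases_zero]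
        · simp only [Equiv.symm_apply_apply, Sum.elim_inl, Fin.cases_succ]
      · simp only [Equiv.symm_apply_apply, Sum.elim_inr]

variable {R : Type} [CommRing R] (M : Meas K R) [Fintype π]

theorem pf_rs (s : Sh X Y) {N : ℕ} (i : (π ⊕ s.P) ⊕ Y.ι × Fin (N + 1)) :
    IsPF (fun w : Pt K (π ⊕ X.ι × Fin (N + 1)) => rs s w i) := by
  rcases i with (a | q) | y <;> exact IsPF.coord _

theorem rf_sh (k : ℤ) {N : ℕ} (S : Set (Pt K (π ⊕ X.ι × Fin (N + 1))))
    (hS : ∀ z ∈ S, ev (fun q => z (Sum.inr (s.e (Sum.inl (Sum.inl q)), 0))) s.u ≠ 0) :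
    RegularOn S (sh s k) := by
  have hA : ∀ i j, IsRF S (fun z : Pt K (π ⊕ X.ι × Fin (N + 1)) =>
      PowerSeries.coeff j (ar (rP s z) i)) := by
    intro i j
    simp only [coeff_ar]
    split_ifs
    · exact (IsPF.coord _).isRF _
    · exact IsPF.zero.isRF _
  have hP : ∀ (P : MvPolynomial (s.P ⊕ s.Z) ℤ), IsRA S (fun z => ev (ar (rP s z)) P) := by
    intro P
    exact ra_aevalZ (φ := fun z => ar (rP s z)) (fun i j => hA i j) P
  have hQ : ∀ (P : MvPolynomial s.P ℤ),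
      IsRA S (fun z => ev (fun q => ar (rP s z) (Sum.inl q)) P) := by
    intro P
    exact ra_aevalZ (φ := fun z q => ar (rP s z) (Sum.inl q)) (fun i j => hA _ j) P
  rintro (a | ⟨i, j⟩)
  · exact (IsPF.coord _).isRF _
  · obtain ⟨i, rfl⟩ := s.e.surjective i
    rcases i with q | h
    · simp only [sh_inl]
      exact (IsPF.coord _).isRF _
    · simp only [sh_inr]
      refine IsRF.add ((IsPF.coord _).isRF _) ((rf_int k).mul ?_)
      refine ra_mul (hP _) (ra_inv (hQ _) fun z hz => ?_) _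
      rw [coeff_zero_aeval]
      simp only [coeff_ar_zero]
      exact hS z hz

theorem mm_piv (v : R) (hv : M.L * v = 1) {V : Set (Pt K (π ⊕ (X.ι ⊕ X.Λ)))} (hV : Constr V)
    (hU : ∀ v ∈ V, ev (fun q => v (Sum.inr (Sum.inl (s.e (Sum.inl (Sum.inl q)))))) s.u ≠ 0)
    (α : Fin T → ℕ) : mm M v X V α = mm M v Y (pull p V) α := by
  set N := ∑ t, α t with hN
  have h0 : ∀ t, α t ≤ N := fun t => Finset.single_le_sum (f := α)
    (fun _ _ => Nat.zero_le _) (Finset.mem_univ t)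
  have hVp := constr_pull p hV
  rw [← mm_eq M v hv X hV α N h0, ← mm_eq M v hv Y hVp α N h0]
  have hS1 : Constr {w : Pt K (π ⊕ X.ι × Fin (N + 1)) | rs s w ∈ SS Y (pull p V) α N} :=
    (constr_SS Y hVp α N).preimage _ (pf_rs s)
  have h1 : M.χ _ (SS X V α N) =
      M.χ _ {w : Pt K (π ⊕ X.ι × Fin (N + 1)) | rs s w ∈ SS Y (pull p V) α N} := by
    refine M.iso _ _ (constr_SS X hV _ _) hS1 (sh s (-1)) (sh s 1) (rf_sh _ _ ?_)
      (rf_sh _ _ ?_) ?_ ?_ (fun z _ => sh_sh s 1 (-1) (by norm_num) z)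
      (fun z _ => sh_sh s (-1) 1 (by norm_num) z)
    · intro z hz
      have h3 := hU _ ((mem_SS X V α N z).1 hz).2
      rwa [u_dat] at h3
    · intro w hw
      have h3 := (mem_Un _).1 ((mem_pull p V _).1 ((mem_SS Y _ α N _).1 hw).2).1
      rwa [u_rs] at h3
    · intro z hz
      exact (key_iff p z h0 V hU).1 hz
    · intro w hw
      rw [key_iff p _ h0 V hU, sh_sh s (-1) 1 (by norm_num)]
      exact hw
  have h2 : M.χ _ {w : Pt K (π ⊕ X.ι × Fin (N + 1)) | rs s w ∈ SS Y (pull p V) α N} =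
      M.χ _ (SS Y (pull p V) α N) * M.L ^ (Fintype.card (s.P × Fin N)) := by
    refine chi_split M (ePiv s π N) _ _ (constr_SS Y hVp α N) fun z => ?_
    have h3 : (fun i => z (ePiv s π N (Sum.inl i))) = rs s z := by
      funext i
      rcases i with (a | q) | y
      · rfl
      · rfl
      · change z (Sum.inr (eE s (Sum.inr y.1), y.2)) = z (Sum.inr (pz s y.1, y.2))
        rw [eE_inr]
    rw [h3]
    rfl
  have h4 : Fintype.card X.ι = Fintype.card s.P + Fintype.card Y.ι := by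
    rw [← Fintype.card_congr (eE s), Fintype.card_sum]
  rw [h1, h2, h4, Fintype.card_prod, Fintype.card_fin, Nat.mul_add, pow_add,
    Nat.mul_comm (Fintype.card s.P) N]
  have h5 : M.L ^ (N * Fintype.card s.P) * v ^ (N * Fintype.card s.P) = 1 := by
    rw [← mul_pow, hv, one_pow]
  linear_combination (M.χ _ (SS Y (pull p V) α N) * v ^ (N * Fintype.card Y.ι)) * h5

end MP

/-- **Package MP.** -/
theorem t_MP : S_MP := by
  intro K _ T R _ u M a hu D X Y p hY π _ V hV hG hU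
  obtain ⟨q⟩ := MP.mkCf p
  have h1 : mm M (((u⁻¹ : Rˣ) : R)) X V = mm M (((u⁻¹ : Rˣ) : R)) Y (MP.pull q V) :=
    funext fun α => MP.mm_piv q M _ (hv hu) hV hU α
  rw [h1]
  exact hY (π ⊕ p.P) _ (MP.constr_pull q hV) (MP.gd_pull q hG)

end Pool.Agent.U397.TM
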