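import Pool.Agent.U397.TM.Spec

set_option autoImplicit false
set_option linter.unusedVariables false

/-! # Project TM, package RO (helper784)

Near a smooth point of the stratum of the rank chain `c`, the ideals of the entries of the products
`A 0 ⋯ A (ℓ t)` are trivial or equal to the ideal of the stratum, which is generated by the
bordered minors. -/

namespace Pool.Agent.U397.TM.RO

open MvPolynomial Matrix

/-! ## Elimination in one matrix -/

section elim

variable {R : Type} [CommRing R] {N₀ N₁ m : ℕ}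

/-- the top left block -/
def blk (h₀ : m ≤ N₀) (h₁ : m ≤ N₁) (P : Matrix (Fin N₀) (Fin N₁) R) : Matrix (Fin m) (Fin m) R :=
  P.submatrix (Fin.castLE h₀) (Fin.castLE h₁)

/-- the bordered minors -/
def el (h₀ : m ≤ N₀) (h₁ : m ≤ N₁) (P : Matrix (Fin N₀) (Fin N₁) R) :
    Matrix (Fin N₀) (Fin N₁) R :=
  (blk h₀ h₁ P).det • P -
    P.submatrix id (Fin.castLE h₁) * (blk h₀ h₁ P).adjugate * P.submatrix (Fin.castLE h₀) id

lemma el_apply (h₀ : m ≤ N₀) (h₁ : m ≤ N₁) (P : Matrix (Fin N₀) (Fin N₁) R) (r : Fin N₀)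
    (b : Fin N₁) : el h₀ h₁ P r b = (blk h₀ h₁ P).det * P r b -
      ∑ l, (∑ k, P r (Fin.castLE h₁ k) * (blk h₀ h₁ P).adjugate k l) * P (Fin.castLE h₀ l) b := by
  simp [el, Matrix.mul_apply]

lemma el_map {S : Type} [CommRing S] (f : R →+* S) (h₀ : m ≤ N₀) (h₁ : m ≤ N₁)
    (P : Matrix (Fin N₀) (Fin N₁) R) : (el h₀ h₁ P).map f = el h₀ h₁ (P.map f) := by
  have hb : blk h₀ h₁ (P.map f) = f.mapMatrix (blk h₀ h₁ P) := rfl
  ext r b
  rw [el_apply, Matrix.map_apply, el_apply, hb, ← RingHom.map_det, ← RingHom.map_adjugate]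
  simp [map_sum]

lemma el_col (h₀ : m ≤ N₀) (h₁ : m ≤ N₁) (P : Matrix (Fin N₀) (Fin N₁) R) (r : Fin N₀)
    (b : Fin m) : el h₀ h₁ P r (Fin.castLE h₁ b) = 0 := by
  have h : ∀ k, ∑ l, (blk h₀ h₁ P).adjugate k l * P (Fin.castLE h₀ l) (Fin.castLE h₁ b) =
      if k = b then (blk h₀ h₁ P).det else 0 := by
    intro k
    have := congrFun (congrFun (Matrix.adjugate_mul (blk h₀ h₁ P)) k) b
    rw [Matrix.mul_apply] at this
    simpa [blk, Matrix.one_apply] using this
  rw [el_apply]
  have e : ∑ l, (∑ k, P r (Fin.castLE h₁ k) * (blk h₀ h₁ P).adjugate k l) *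
      P (Fin.castLE h₀ l) (Fin.castLE h₁ b) =
      ∑ k, P r (Fin.castLE h₁ k) * if k = b then (blk h₀ h₁ P).det else 0 := by
    simp_rw [Finset.sum_mul, ← h, Finset.mul_sum]
    rw [Finset.sum_comm]
    refine Finset.sum_congr rfl fun _ _ => Finset.sum_congr rfl fun _ _ => by ring
  rw [e]
  simp [mul_comm]

lemma el_row (h₀ : m ≤ N₀) (h₁ : m ≤ N₁) (P : Matrix (Fin N₀) (Fin N₁) R) (r : Fin m)
    (b : Fin N₁) : el h₀ h₁ P (Fin.castLE h₀ r) b = 0 := by
  have h : ∀ l, ∑ k, P (Fin.castLE h₀ r) (Fin.castLE h₁ k) * (blk h₀ h₁ P).adjugate k l =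
      if r = l then (blk h₀ h₁ P).det else 0 := by
    intro l
    have := congrFun (congrFun (Matrix.mul_adjugate (blk h₀ h₁ P)) r) l
    rw [Matrix.mul_apply] at this
    simpa [blk, Matrix.one_apply] using this
  rw [el_apply]
  simp_rw [h]
  simp

/-- the rows of `el P` are combinations of the rows of `P` -/
lemma el_left (h₀ : m ≤ N₀) (h₁ : m ≤ N₁) (P : Matrix (Fin N₀) (Fin N₁) R) :
    ∃ W : Matrix (Fin N₀) (Fin N₀) R, el h₀ h₁ P = W * P := by
  refine ⟨(blk h₀ h₁ P).det • (1 : Matrix (Fin N₀) (Fin N₀) R) -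
    P.submatrix id (Fin.castLE h₁) * (blk h₀ h₁ P).adjugate *
      (1 : Matrix (Fin N₀) (Fin N₀) R).submatrix (Fin.castLE h₀) id, ?_⟩
  have e : (1 : Matrix (Fin N₀) (Fin N₀) R).submatrix (Fin.castLE h₀) id * P =
      P.submatrix (Fin.castLE h₀) id := by
    ext r b
    simp [Matrix.mul_apply, Matrix.one_apply]
  rw [Matrix.sub_mul, Matrix.mul_assoc, e, Matrix.smul_mul, Matrix.one_mul]
  rfl

/-- if the row `r` of `el P` is zero and the block is invertible, the row `r` of `P` is a
combination of the first `m` rows -/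
lemma row_mem (h₀ : m ≤ N₀) (h₁ : m ≤ N₁) (P : Matrix (Fin N₀) (Fin N₁) R) (r : Fin N₀)
    (hu : IsUnit (blk h₀ h₁ P).det) (h : ∀ b, el h₀ h₁ P r b = 0) :
    P r ∈ Submodule.span R (Set.range fun l : Fin m => P (Fin.castLE h₀ l)) := by
  obtain ⟨u, hu⟩ := hu
  have e : P r = (↑u⁻¹ : R) • ∑ l, (∑ k, P r (Fin.castLE h₁ k) * (blk h₀ h₁ P).adjugate k l) •
      P (Fin.castLE h₀ l) := by
    funext b
    have h1 := h b
    rw [el_apply, sub_eq_zero] at h1
    simp only [Pi.smul_apply, Finset.sum_apply, smul_eq_mul]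
    rw [← h1, ← hu, ← mul_assoc, Units.inv_mul, one_mul]
  rw [e]
  refine Submodule.smul_mem _ _ (Submodule.sum_mem _ fun l _ => Submodule.smul_mem _ _ ?_)
  exact Submodule.subset_span ⟨l, rfl⟩

end elim

/-! ## Products -/

section prod

variable {R : Type} [CommRing R] (n : ℕ → ℕ)

/-- the product of the first `k` matrices -/
def Pr (A : ∀ i, Matrix (Fin (n i)) (Fin (n (i + 1))) R) :
    (k : ℕ) → Matrix (Fin (n 0)) (Fin (n k)) R
  | 0 => 1
  | k + 1 => Pr A k * A k

/-- the product of `j` matrices, from the `k`-th on -/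
def tl (A : ∀ i, Matrix (Fin (n i)) (Fin (n (i + 1))) R) (k : ℕ) :
    (j : ℕ) → Matrix (Fin (n k)) (Fin (n (k + j))) R
  | 0 => 1
  | j + 1 => tl A k j * A (k + j)

variable {n}

lemma prodM_eq (A : ∀ i, Matrix (Fin (n i)) (Fin (n (i + 1))) R) (i : ℕ) :
    prodM n A i = Pr n A (i + 1) := by
  induction i with
  | zero => simp [prodM, Pr]
  | succ i ih => rw [prodM, ih]; rfl

lemma Pr_add (A : ∀ i, Matrix (Fin (n i)) (Fin (n (i + 1))) R) (k j : ℕ) :
    Pr n A (k + j) = Pr n A k * tl n A k j := by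
  induction j with
  | zero => simp [tl]
  | succ j ih =>
    show Pr n A (k + j) * A (k + j) = Pr n A k * (tl n A k j * A (k + j))
    rw [ih, Matrix.mul_assoc]

lemma Pr_map {S : Type} [CommRing S] (f : R →+* S)
    (A : ∀ i, Matrix (Fin (n i)) (Fin (n (i + 1))) R) (k : ℕ) :
    (Pr n A k).map f = Pr n (fun i => (A i).map f) k := by
  induction k with
  | zero =>
    show (1 : Matrix (Fin (n 0)) (Fin (n 0)) R).map f = 1
    exact Matrix.map_one _ f.map_zero f.map_one
  | succ k ih =>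
    show (Pr n A k * A k).map f = Pr n (fun i => (A i).map f) k * (A k).map f
    rw [Matrix.map_mul, ih]

lemma tl_map {S : Type} [CommRing S] (f : R →+* S)
    (A : ∀ i, Matrix (Fin (n i)) (Fin (n (i + 1))) R) (k j : ℕ) :
    (tl n A k j).map f = tl n (fun i => (A i).map f) k j := by
  induction j with
  | zero =>
    show (1 : Matrix (Fin (n k)) (Fin (n k)) R).map f = 1
    exact Matrix.map_one _ f.map_zero f.map_one
  | succ j ih =>
    show (tl n A k j * A (k + j)).map f = tl n (fun i => (A i).map f) k j * (A (k + j)).map f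
    rw [Matrix.map_mul, ih]

lemma Pr_congr {A B : ∀ i, Matrix (Fin (n i)) (Fin (n (i + 1))) R} {L : ℕ}
    (h : ∀ i, i < L → A i = B i) : ∀ k, k ≤ L → Pr n A k = Pr n B k := by
  intro k
  induction k with
  | zero => intro _; rfl
  | succ k ih =>
    intro hk
    show Pr n A k * A k = Pr n B k * B k
    rw [ih (by omega), h k (by omega)]

lemma tl_congr {A B : ∀ i, Matrix (Fin (n i)) (Fin (n (i + 1))) R} {L : ℕ}
    (h : ∀ i, i < L → A i = B i) (k : ℕ) : ∀ j, k + j ≤ L → tl n A k j = tl n B k j := by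
  intro j
  induction j with
  | zero => intro _; rfl
  | succ j ih =>
    intro hk
    show tl n A k j * A (k + j) = tl n B k j * B (k + j)
    rw [ih (by omega), h (k + j) (by omega)]

variable {c : ℕ → ℕ}

lemma c0 (hc : IsChain n c) (k : ℕ) : c k ≤ n 0 := (hc.anti (Nat.zero_le k)).trans hc.zero.le

/-- the bordered minors of the products -/
def E (hc : IsChain n c) (A : ∀ i, Matrix (Fin (n i)) (Fin (n (i + 1))) R) (k : ℕ) :
    Matrix (Fin (n 0)) (Fin (n k)) R := el (c0 hc k) (hc.le k) (Pr n A k)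

/-- the determinants of the blocks -/
def Dt (hc : IsChain n c) (A : ∀ i, Matrix (Fin (n i)) (Fin (n (i + 1))) R) (k : ℕ) : R :=
  (blk (c0 hc k) (hc.le k) (Pr n A k)).det

/-- if the bordered minors vanish, so does the product -/
theorem keyA (hc : IsChain n c) (A : ∀ i, Matrix (Fin (n i)) (Fin (n (i + 1))) R) (l : ℕ)
    (hl : c (l + 1) = 0) (hu : ∀ k, k ≤ l → IsUnit (Dt hc A (k + 1)))
    (h0 : ∀ k, k ≤ l → ∀ (r : Fin (n 0)) (b : Fin (n (k + 1))), c (k + 1) ≤ r → (r : ℕ) < c k →
      c (k + 1) ≤ b → E hc A (k + 1) r b = 0) : Pr n A (l + 1) = 0 := by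
  -- the rows `r < c k` of `P_{k+1}` are combinations of the rows `< c (k + 1)`
  have h1 : ∀ k, k ≤ l → ∀ r : Fin (n 0), (r : ℕ) < c k → Pr n A (k + 1) r ∈
      Submodule.span R (Set.range fun i : Fin (c (k + 1)) =>
        Pr n A (k + 1) (Fin.castLE (c0 hc (k + 1)) i)) := by
    intro k hk r hr
    refine row_mem (c0 hc (k + 1)) (hc.le (k + 1)) _ r (hu k hk) fun b => ?_
    by_cases hb : (b : ℕ) < c (k + 1)
    · exact el_col (c0 hc (k + 1)) (hc.le (k + 1)) (Pr n A (k + 1)) r ⟨b, hb⟩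
    by_cases hr' : (r : ℕ) < c (k + 1)
    · exact el_row (c0 hc (k + 1)) (hc.le (k + 1)) (Pr n A (k + 1)) ⟨r, hr'⟩ b
    · exact h0 k hk r b (not_lt.1 hr') hr (not_lt.1 hb)
  have h2 : ∀ k, k ≤ l → ∀ r : Fin (n 0), Pr n A (k + 1) r ∈
      Submodule.span R (Set.range fun i : Fin (c (k + 1)) =>
        Pr n A (k + 1) (Fin.castLE (c0 hc (k + 1)) i)) := by
    intro k
    induction k with
    | zero =>
      intro hk r
      exact h1 0 hk r (by rw [hc.zero]; exact r.2)
    | succ k ih =>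
      intro hk r
      have h3 := ih (by omega) r
      have h4 := Submodule.mem_map_of_mem (f := Matrix.vecMulLinear (A (k + 1))) h3
      rw [Submodule.map_span] at h4
      have h5 : Pr n A (k + 1 + 1) r = Matrix.vecMulLinear (A (k + 1)) (Pr n A (k + 1) r) := by
        funext b
        rfl
      rw [h5]
      refine (Submodule.span_le.2 ?_) h4
      rintro _ ⟨_, ⟨i, rfl⟩, rfl⟩
      have h6 : Matrix.vecMulLinear (A (k + 1)) (Pr n A (k + 1) (Fin.castLE (c0 hc (k + 1)) i)) =
          Pr n A (k + 1 + 1) (Fin.castLE (c0 hc (k + 1)) i) := by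
        funext b
        rfl
      show Matrix.vecMulLinear (A (k + 1)) (Pr n A (k + 1) (Fin.castLE (c0 hc (k + 1)) i)) ∈ _
      rw [h6]
      exact h1 (k + 1) hk _ i.2
  ext r b
  have h3 := h2 l le_rfl r
  have : IsEmpty (Fin (c (l + 1))) := by rw [hl]; infer_instance
  rw [Set.range_eq_empty, Submodule.span_empty, Submodule.mem_bot] at h3
  rw [h3]
  rfl

/-- the last rows and columns of the product of the matrices from the `k`-th on -/
def Mt (hc : IsChain n c) (hn : Monotone n) (A : ∀ i, Matrix (Fin (n i)) (Fin (n (i + 1))) R)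
    (k j : ℕ) : Matrix (Fin (n k - c k)) (Fin (n k - c k)) R :=
  (tl n A k j).submatrix (fun x => ⟨c k + x, by omega⟩) (fun x => ⟨c (k + j) + x, by
    have h1 := hn (Nat.le_add_right k j)
    have h2 := hc.anti (Nat.le_add_right k j)
    have h3 := hc.le k
    omega⟩)

/-- if the product vanishes, so do the bordered minors -/
theorem keyB (hc : IsChain n c) (hn : Monotone n)
    (A : ∀ i, Matrix (Fin (n i)) (Fin (n (i + 1))) R) (k j : ℕ) (hP : Pr n A (k + j) = 0)
    (hu : IsUnit (Mt hc hn A k j).det) (r : Fin (n 0)) (b : Fin (n k)) : E hc A k r b = 0 := by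
  by_cases hb : (b : ℕ) < c k
  · exact el_col (c0 hc k) (hc.le k) (Pr n A k) r ⟨b, hb⟩
  push Not at hb
  obtain ⟨W, hW⟩ := el_left (c0 hc k) (hc.le k) (Pr n A k)
  have h1 : E hc A k * tl n A k j = 0 := by
    show el (c0 hc k) (hc.le k) (Pr n A k) * tl n A k j = 0
    rw [hW, Matrix.mul_assoc, ← Pr_add, hP, Matrix.mul_zero]
  -- the last coordinates of the row `r`
  have h2 : (fun x : Fin (n k - c k) => E hc A k r ⟨c k + x, by omega⟩) ᵥ* Mt hc hn A k j = 0 := by
    funext y
    have h3 := congrFun (congrFun h1 r) (⟨c (k + j) + y, by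
      have h1 := hn (Nat.le_add_right k j)
      have h2 := hc.anti (Nat.le_add_right k j)
      have h3 := hc.le k
      omega⟩ : Fin (n (k + j)))
    rw [Matrix.mul_apply] at h3
    have h4 : ∀ (f : Fin (n k) → R), (∀ x : Fin (n k), (x : ℕ) < c k → f x = 0) →
        ∑ x, f x = ∑ x : Fin (n k - c k), f ⟨c k + x, by omega⟩ := by
      intro f hf
      symm
      apply Finset.sum_of_injOn (fun x : Fin (n k - c k) => (⟨c k + x, by omega⟩ : Fin (n k)))
      · intro x _ y _ hxy
        simp only [Fin.mk.injEq] at hxy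
        ext
        omega
      · intro x _
        simp
      · intro x _ hx
        apply hf
        by_contra hcon
        apply hx
        refine ⟨⟨x - c k, by omega⟩, by simp, ?_⟩
        ext
        simp only
        omega
      · intro x _
        rfl
    rw [h4] at h3
    · exact h3
    · intro x hx
      have h5 : E hc A k r x = 0 := el_col (c0 hc k) (hc.le k) (Pr n A k) r ⟨x, hx⟩
      rw [h5, zero_mul]
  have h3 : (fun x : Fin (n k - c k) => E hc A k r ⟨c k + x, by omega⟩) = 0 := by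
    obtain ⟨u, hu⟩ := hu
    have h4 := congrArg (fun v => v ᵥ* (Mt hc hn A k j).adjugate) h2
    simp only [Matrix.vecMul_vecMul, Matrix.zero_vecMul, Matrix.mul_adjugate] at h4
    rw [← hu] at h4
    funext x
    have h5 := congrFun h4 x
    rw [Matrix.vecMul_smul, Matrix.vecMul_one] at h5
    simp only [Pi.smul_apply, smul_eq_mul, Pi.zero_apply] at h5
    have h6 := congrArg (fun y => (↑u⁻¹ : R) * y) h5
    simpa [← mul_assoc] using h6
  have h4 := congrFun h3 ⟨b - c k, by omega⟩
  simp only [Pi.zero_apply] at h4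
  have h5 : (⟨c k + (b - c k), by omega⟩ : Fin (n k)) = b := by
    ext
    simp only
    omega
  rw [h5] at h4
  exact h4

end prod

/-! ## The base point -/

section base

variable (n : ℕ → ℕ) (c : ℕ → ℕ) (L : ℕ)

/-- the entries of the base point -/
def bs (i r b : ℕ) : Prop := (r = b ∧ b < c (i + 1)) ∨ (c i ≤ r ∧ b = c (i + 1) + (r - c i))

open Classical in
/-- the matrices of the base point -/
noncomputable def A0 (i : ℕ) : Matrix (Fin (n i)) (Fin (n (i + 1))) ℂ :=
  Matrix.of fun r b => if bs c i r b then 1 else 0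

open Classical in
/-- the base point -/
noncomputable def pt : Var n L → ℂ := fun s => if bs c s.1 s.2.1 s.2.2 then 1 else 0

/-- the generic matrices over `ℂ` -/
noncomputable def gC (i : ℕ) :
    Matrix (Fin (n i)) (Fin (n (i + 1))) (MvPolynomial (Var n L) ℂ) :=
  (genM n L i).map (map (Int.castRingHom ℂ))

variable {n c L}

lemma gC_apply {i : ℕ} (hi : i < L) (r : Fin (n i)) (b : Fin (n (i + 1))) :
    gC n L i r b = X (⟨⟨i, hi⟩, (r, b)⟩ : Var n L) := by
  simp [gC, genM, hi]

lemma gens_map (i : ℕ) (q : Fin (n 0) × Fin (n (i + 1))) :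
    map (Int.castRingHom ℂ) (gens n L i q) = Pr n (gC n L) (i + 1) q.1 q.2 := by
  have h := Pr_map (map (Int.castRingHom ℂ)) (genM n L) (i + 1)
  unfold gens
  rw [prodM_eq]
  exact congrFun (congrFun h q.1) q.2

lemma eval_gC (i : ℕ) (hi : i < L) : (gC n L i).map (eval (pt n c L)) = A0 n c i := by
  ext r b
  rw [Matrix.map_apply, gC_apply hi, eval_X]
  rfl

lemma Pr_A0 (hc : IsChain n c) (k : ℕ) (r : Fin (n 0)) (b : Fin (n k)) :
    Pr n (A0 n c) k r b = if (r : ℕ) = b ∧ (b : ℕ) < c k then 1 else 0 := by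
  classical
  induction k with
  | zero =>
    show (1 : Matrix (Fin (n 0)) (Fin (n 0)) ℂ) r b = _
    rw [Matrix.one_apply]
    have h1 : (b : ℕ) < c 0 := by rw [hc.zero]; exact b.2
    by_cases h : r = b
    · simp [h, h1]
    · have h2 : ¬ (r : ℕ) = b := fun h3 => h (Fin.ext h3)
      simp [h, h2]
  | succ k ih =>
    show (Pr n (A0 n c) k * A0 n c k) r b = _
    rw [Matrix.mul_apply]
    simp_rw [ih]
    have hanti : c (k + 1) ≤ c k := hc.anti (Nat.le_succ k)
    by_cases hr : (r : ℕ) < c k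
    · rw [Finset.sum_eq_single (⟨r, hr.trans_le (hc.le k)⟩ : Fin (n k))]
      · rw [if_pos ⟨rfl, hr⟩, one_mul, A0, Matrix.of_apply]
        have hiff : bs c k r b ↔ (r : ℕ) = b ∧ (b : ℕ) < c (k + 1) := by
          unfold bs
          constructor
          · rintro (h | h)
            · exact h
            · omega
          · intro h
            exact Or.inl h
        by_cases h : (r : ℕ) = b ∧ (b : ℕ) < c (k + 1)
        · rw [if_pos h, if_pos (hiff.2 h)]
        · rw [if_neg h, if_neg (fun h' => h (hiff.1 h'))]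
      · intro m _ hm
        have h2 : ¬ ((r : ℕ) = m ∧ (m : ℕ) < c k) := fun h3 => hm (Fin.ext h3.1.symm)
        simp [h2]
      · simp
    · rw [Finset.sum_eq_zero, if_neg (by omega)]
      intro m _
      have h2 : ¬ ((r : ℕ) = m ∧ (m : ℕ) < c k) := fun h3 => hr (by omega)
      simp [h2]

lemma tl_A0 (hc : IsChain n c) (hn : Monotone n) (k j : ℕ) (x y : Fin (n k - c k)) :
    Mt hc hn (A0 n c) k j x y = if x = y then 1 else 0 := by
  classical
  have key : ∀ j (x : Fin (n k - c k)) (b : Fin (n (k + j))),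
      tl n (A0 n c) k j ⟨c k + x, by omega⟩ b = if (b : ℕ) = c (k + j) + x then 1 else 0 := by
    intro j
    induction j with
    | zero =>
      intro x b
      show (1 : Matrix (Fin (n k)) (Fin (n k)) ℂ) _ b = _
      rw [Matrix.one_apply]
      apply if_congr _ rfl rfl
      constructor
      · intro h
        rw [← h]
        rfl
      · intro h
        ext
        exact h.symm
    | succ j ih =>
      intro x b
      show (tl n (A0 n c) k j * A0 n c (k + j)) _ b = _
      rw [Matrix.mul_apply]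
      simp_rw [ih]
      have hm : c (k + j) + x < n (k + j) := by
        have h1 := hn (Nat.le_add_right k j)
        have h2 := hc.anti (Nat.le_add_right k j)
        have h3 := hc.le k
        omega
      rw [Finset.sum_eq_single (⟨c (k + j) + x, hm⟩ : Fin (n (k + j)))]
      · have h1 : c (k + j + 1) ≤ c (k + j) := hc.anti (Nat.le_succ (k + j))
        rw [if_pos rfl, one_mul, A0, Matrix.of_apply]
        have hiff : bs c (k + j) (c (k + j) + x) b ↔ (b : ℕ) = c (k + (j + 1)) + x := by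
          show bs c (k + j) (c (k + j) + x) b ↔ (b : ℕ) = c (k + j + 1) + x
          unfold bs
          constructor
          · rintro (h | h) <;> omega
          · intro h
            right
            omega
        by_cases h : (b : ℕ) = c (k + (j + 1)) + x
        · rw [if_pos h, if_pos (hiff.2 h)]
        · rw [if_neg h, if_neg (fun h' => h (hiff.1 h'))]
      · intro m _ hne
        have h2 : ¬ ((m : ℕ) = c (k + j) + x) := fun h3 => hne (Fin.ext h3)
        simp [h2]
      · simp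
  show tl n (A0 n c) k j ⟨c k + x, _⟩ ⟨c (k + j) + y, _⟩ = _
  rw [key]
  apply if_congr _ rfl rfl
  simp only
  constructor
  · intro h
    ext
    omega
  · intro h
    rw [h]

lemma eval_Pr (k : ℕ) (hk : k ≤ L) :
    (Pr n (gC n L) k).map (eval (pt n c L)) = Pr n (A0 n c) k := by
  rw [Pr_map]
  exact Pr_congr (fun i hi => eval_gC i hi) k hk

lemma eval_Pr_apply (hc : IsChain n c) (k : ℕ) (hk : k ≤ L) (r : Fin (n 0)) (b : Fin (n k)) :
    eval (pt n c L) (Pr n (gC n L) k r b) = if (r : ℕ) = b ∧ (b : ℕ) < c k then 1 else 0 := by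
  rw [← Pr_A0 hc, ← eval_Pr k hk]
  rfl

lemma eval_Dt (hc : IsChain n c) (k : ℕ) (hk : k ≤ L) :
    eval (pt n c L) (Dt hc (gC n L) k) = 1 := by
  have h : (eval (pt n c L)).mapMatrix (blk (c0 hc k) (hc.le k) (Pr n (gC n L) k)) = 1 := by
    ext r b
    show eval (pt n c L) (Pr n (gC n L) k _ _) = _
    rw [eval_Pr_apply hc k hk, Matrix.one_apply]
    apply if_congr _ rfl rfl
    constructor
    · intro h
      exact Fin.ext h.1
    · intro h
      rw [h]
      exact ⟨rfl, b.2⟩
  unfold Dt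
  rw [RingHom.map_det, h, Matrix.det_one]

lemma eval_Mt (hc : IsChain n c) (hn : Monotone n) (k j : ℕ) (hk : k + j ≤ L) :
    eval (pt n c L) (Mt hc hn (gC n L) k j).det = 1 := by
  have h : (eval (pt n c L)).mapMatrix (Mt hc hn (gC n L) k j) = 1 := by
    ext x y
    rw [Matrix.one_apply, ← tl_A0 hc hn k j]
    show eval (pt n c L) (tl n (gC n L) k j _ _) = _
    have h1 : (tl n (gC n L) k j).map (eval (pt n c L)) = tl n (A0 n c) k j := by
      rw [tl_map]
      exact tl_congr (fun i hi => eval_gC i hi) k j hk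
    show _ = tl n (A0 n c) k j _ _
    rw [← h1]
    rfl
  rw [RingHom.map_det, h, Matrix.det_one]

/-! ## The derivatives at the base point -/

/-- the derivatives of the entries of the products -/
noncomputable def dP (c : ℕ → ℕ) (s : Var n L) (k : ℕ) (r : Fin (n 0)) (b : Fin (n k)) : ℂ :=
  eval (pt n c L) (pderiv s (Pr n (gC n L) k r b))

lemma dP_zero (s : Var n L) (r b : Fin (n 0)) : dP c s 0 r b = 0 := by
  show eval (pt n c L) (pderiv s ((1 : Matrix (Fin (n 0)) (Fin (n 0)) _) r b)) = 0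
  rw [Matrix.one_apply]
  split_ifs <;> simp

open Classical in
lemma dP_succ (hc : IsChain n c) (s : Var n L) (k : ℕ) (hk : k < L) (r : Fin (n 0))
    (b : Fin (n (k + 1))) : dP c s (k + 1) r b = ∑ m, (dP c s k r m * A0 n c k m b +
      (if (r : ℕ) = m ∧ (m : ℕ) < c k then 1 else 0) *
        (if s = ⟨⟨k, hk⟩, (m, b)⟩ then 1 else 0)) := by
  show eval (pt n c L) (pderiv s ((Pr n (gC n L) k * gC n L k) r b)) = _
  rw [Matrix.mul_apply, map_sum, map_sum]
  refine Finset.sum_congr rfl fun m _ => ?_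
  rw [Derivation.leibniz, map_add, smul_eq_mul, smul_eq_mul, map_mul, map_mul,
    eval_Pr_apply hc k hk.le, gC_apply hk, pderiv_X, ← gC_apply hk]
  have h1 : eval (pt n c L) (gC n L k m b) = A0 n c k m b := by
    rw [← eval_gC k hk]
    rfl
  have h2 : eval (pt n c L) (Pi.single (M := fun _ => MvPolynomial (Var n L) ℂ) s 1
      (⟨⟨k, hk⟩, (m, b)⟩ : Var n L)) = if s = ⟨⟨k, hk⟩, (m, b)⟩ then 1 else 0 := by
    rw [Pi.single_apply]
    by_cases h : s = ⟨⟨k, hk⟩, (m, b)⟩
    · rw [if_pos h.symm, if_pos h, map_one]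
    · rw [if_neg (fun h' => h h'.symm), if_neg h, map_zero]
  rw [h1, h2]
  unfold dP
  ring

/-- no derivative in the variables of later matrices -/
lemma dP_early (hc : IsChain n c) (s : Var n L) (k : ℕ) (hk : k ≤ s.1) (r : Fin (n 0))
    (b : Fin (n k)) : dP c s k r b = 0 := by
  classical
  induction k with
  | zero => exact dP_zero s r b
  | succ k ih =>
    have hL := s.1.2
    rw [dP_succ hc s k (by omega)]
    refine Finset.sum_eq_zero fun m _ => ?_
    have h2 : ¬ s = ⟨⟨k, by omega⟩, (m, b)⟩ := by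
      intro h
      have h1 : (s.1 : ℕ) = k := by rw [h]
      omega
    rw [ih (by omega), if_neg h2]
    ring

/-- only the row of the variable is concerned -/
lemma dP_row (hc : IsChain n c) (s : Var n L) (k : ℕ) (hk : k ≤ L) (r : Fin (n 0))
    (b : Fin (n k)) (hr : (r : ℕ) ≠ s.2.1) : dP c s k r b = 0 := by
  classical
  induction k with
  | zero => exact dP_zero s r b
  | succ k ih =>
    rw [dP_succ hc s k (by omega)]
    refine Finset.sum_eq_zero fun m _ => ?_
    rw [ih (by omega)]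
    by_cases h : s = ⟨⟨k, by omega⟩, (m, b)⟩
    · have h1 : (s.2.1 : ℕ) = m := by rw [h]
      have h3 : ¬ ((r : ℕ) = m ∧ (m : ℕ) < c k) := fun h2 => hr (h2.1.trans h1.symm)
      rw [if_neg h3]
      ring
    · rw [if_neg h]
      ring

/-- the derivative of the product which ends with the matrix of the variable -/
lemma dP_last (hc : IsChain n c) (i : Fin L) (r' : Fin (n i)) (b' : Fin (n (i + 1)))
    (hr' : (r' : ℕ) < c i) (r : Fin (n 0)) (b : Fin (n (i + 1))) :
    dP c (⟨i, (r', b')⟩ : Var n L) (i + 1) r b = if (r : ℕ) = r' ∧ b = b' then 1 else 0 := by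
  classical
  rw [dP_succ hc (⟨i, (r', b')⟩ : Var n L) i i.2]
  have h1 : ∀ m : Fin (n i), dP c (⟨i, (r', b')⟩ : Var n L) i r m = 0 := fun m =>
    dP_early hc (⟨i, (r', b')⟩ : Var n L) i (le_refl (i : ℕ)) r m
  simp_rw [h1, zero_mul, zero_add]
  have h2 : ∀ m : Fin (n i), ((⟨i, (r', b')⟩ : Var n L) = ⟨⟨i, i.2⟩, (m, b)⟩) ↔
      (r' = m ∧ b' = b) := by
    intro m
    constructor
    · intro h
      have h3 := eq_of_heq (Sigma.mk.inj h).2
      exact ⟨(Prod.mk.inj h3).1, (Prod.mk.inj h3).2⟩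
    · rintro ⟨rfl, rfl⟩
      rfl
  simp_rw [h2]
  rw [Finset.sum_eq_single r']
  · by_cases hb : b = b'
    · subst hb
      by_cases hr : (r : ℕ) = r'
      · simp [hr, hr']
      · simp [hr]
    · have hb' : ¬ b' = b := fun h => hb h.symm
      simp [hb, hb']
  · intro m _ hm
    have : ¬ (r' = m) := fun h => hm h.symm
    simp [this]
  · simp

/-- the derivatives of the bordered minors -/
lemma dE (hc : IsChain n c) (s : Var n L) (k : ℕ) (hk : k ≤ L) (r : Fin (n 0)) (b : Fin (n k))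
    (hr : c k ≤ r) (hb : c k ≤ b) :
    eval (pt n c L) (pderiv s (E hc (gC n L) k r b)) = dP c s k r b := by
  have h1 : ∀ x : Fin (c k), eval (pt n c L) (Pr n (gC n L) k r (Fin.castLE (hc.le k) x)) = 0 := by
    intro x
    rw [eval_Pr_apply hc k hk, if_neg]
    intro h
    have h2 := h.1
    simp only [Fin.val_castLE] at h2
    have := x.2
    omega
  have h2 : ∀ x : Fin (c k), eval (pt n c L) (Pr n (gC n L) k (Fin.castLE (c0 hc k) x) b) = 0 := by
    intro x
    rw [eval_Pr_apply hc k hk, if_neg]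
    intro h
    omega
  have h3 : eval (pt n c L) (Pr n (gC n L) k r b) = 0 := by
    rw [eval_Pr_apply hc k hk, if_neg]
    intro h
    omega
  unfold E
  rw [el_apply, map_sub, map_sub, Derivation.leibniz, map_add, smul_eq_mul, smul_eq_mul, map_mul,
    map_mul, h3, zero_mul, add_zero]
  have h4 : eval (pt n c L) (blk (c0 hc k) (hc.le k) (Pr n (gC n L) k)).det = 1 := eval_Dt hc k hk
  rw [h4, one_mul, map_sum, map_sum, Finset.sum_eq_zero, sub_zero]
  · rfl
  intro l _
  rw [Derivation.leibniz, map_add, smul_eq_mul, smul_eq_mul, map_mul, map_mul, h2, zero_mul,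
    add_zero, map_sum, Finset.sum_eq_zero, zero_mul]
  intro x _
  rw [map_mul, h1, zero_mul]

lemma eval_E (hc : IsChain n c) (k : ℕ) (hk : k ≤ L) (r : Fin (n 0)) (b : Fin (n k))
    (hr : c k ≤ r) (hb : c k ≤ b) : eval (pt n c L) (E hc (gC n L) k r b) = 0 := by
  have h1 : ∀ x : Fin (c k), eval (pt n c L) (Pr n (gC n L) k r (Fin.castLE (hc.le k) x)) = 0 := by
    intro x
    rw [eval_Pr_apply hc k hk, if_neg]
    intro h
    have h2 := h.1
    simp only [Fin.val_castLE] at h2
    have := x.2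
    omega
  have h3 : eval (pt n c L) (Pr n (gC n L) k r b) = 0 := by
    rw [eval_Pr_apply hc k hk, if_neg]
    intro h
    omega
  unfold E
  rw [el_apply, map_sub, map_mul, h3, mul_zero, map_sum, Finset.sum_eq_zero, sub_zero]
  intro l _
  rw [map_mul, map_sum, Finset.sum_eq_zero, zero_mul]
  intro x _
  rw [map_mul, h1, zero_mul]

end base

/-! ## Units near the base point -/

section loc

variable {σ : Type}

/-- if the image of `x` is zero in all rings in which `J` is killed and the polynomials which do not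
vanish at `p` are units, then `u x ∈ J` for some `u` with `u(p) ≠ 0` -/
lemma exists_mul (p : σ → ℂ) (J : Ideal (MvPolynomial σ ℂ)) (x : MvPolynomial σ ℂ)
    (h : ∀ (Q : Type) [CommRing Q] (φ : MvPolynomial σ ℂ →+* Q), (∀ y ∈ J, φ y = 0) →
      (∀ y, eval p y ≠ 0 → IsUnit (φ y)) → φ x = 0) :
    ∃ u : MvPolynomial σ ℂ, eval p u ≠ 0 ∧ u * x ∈ J := by
  let S : Submonoid (MvPolynomial σ ℂ) := (nonZeroDivisors ℂ).comap (eval p)
  have h1 := h (Localization S ⧸ J.map (algebraMap (MvPolynomial σ ℂ) (Localization S)))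
    ((Ideal.Quotient.mk _).comp (algebraMap (MvPolynomial σ ℂ) (Localization S))) ?_ ?_
  · rw [RingHom.comp_apply, Ideal.Quotient.eq_zero_iff_mem,
      IsLocalization.algebraMap_mem_map_algebraMap_iff S] at h1
    obtain ⟨m, hm, hmx⟩ := h1
    exact ⟨m, nonZeroDivisors.ne_zero hm, hmx⟩
  · intro y hy
    rw [RingHom.comp_apply, Ideal.Quotient.eq_zero_iff_mem]
    exact Ideal.mem_map_of_mem _ hy
  · intro y hy
    have hyS : y ∈ S := mem_nonZeroDivisors_of_ne_zero hy
    exact (IsLocalization.map_units (Localization S) (⟨y, hyS⟩ : S)).map (Ideal.Quotient.mk _)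

/-- a common factor for finitely many conditions -/
lemma exists_common {ι : Type} [Fintype ι] (p : σ → ℂ) (C : ι → MvPolynomial σ ℂ → Prop)
    (hC : ∀ i u v, C i u → C i (v * u)) (h : ∀ i, ∃ u, eval p u ≠ 0 ∧ C i u) :
    ∃ u, eval p u ≠ 0 ∧ ∀ i, C i u := by
  classical
  choose u hu1 hu2 using h
  refine ⟨∏ i, u i, ?_, fun i => ?_⟩
  · rw [map_prod]
    exact Finset.prod_ne_zero_iff.2 fun i _ => hu1 i
  · rw [← Finset.prod_erase_mul _ _ (Finset.mem_univ i)]
    exact hC i _ _ (hu2 i)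

end loc

section fin

variable {n : ℕ → ℕ} {c : ℕ → ℕ} {L : ℕ}

/-- the rows and columns of the bordered minors -/
def In (c : ℕ → ℕ) (s : Var n L) : Prop :=
  c (s.1 + 1) ≤ s.2.1 ∧ (s.2.1 : ℕ) < c s.1 ∧ c (s.1 + 1) ≤ s.2.2

open Classical in
/-- the bordered minors, and the other coordinates -/
noncomputable def hh (hc : IsChain n c) (s : Var n L) : MvPolynomial (Var n L) ℂ :=
  if h : In c s then E hc (gC n L) (s.1 + 1) ⟨s.2.1, h.2.1.trans_le (c0 hc s.1)⟩ s.2.2 else X s

open Classical in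
/-- the indices of the bordered minors -/
noncomputable def NN (n : ℕ → ℕ) (c : ℕ → ℕ) (L : ℕ) : Finset (Var n L) :=
  Finset.univ.filter (In c)

lemma mem_NN (s : Var n L) : s ∈ NN n c L ↔ In c s := by
  classical
  simp [NN]

lemma hh_of (hc : IsChain n c) (s : Var n L) (h : In c s) :
    hh hc s = E hc (gC n L) (s.1 + 1) ⟨s.2.1, h.2.1.trans_le (c0 hc s.1)⟩ s.2.2 := by
  rw [hh, dif_pos h]

lemma card_Ico (N a b : ℕ) (hb : b ≤ N) :
    ((Finset.univ : Finset (Fin N)).filter fun x : Fin N => a ≤ (x : ℕ) ∧ (x : ℕ) < b).card =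
      b - a := by
  classical
  have h := Finset.card_image_of_injective ((Finset.univ : Finset (Fin N)).filter fun x : Fin N =>
    a ≤ (x : ℕ) ∧ (x : ℕ) < b) Fin.val_injective
  rw [← h, ← Nat.card_Ico]
  congr 1
  ext x
  simp only [Finset.mem_image, Finset.mem_filter, Finset.mem_univ, true_and, Finset.mem_Ico]
  constructor
  · rintro ⟨y, hy, rfl⟩
    exact hy
  · intro hx
    exact ⟨⟨x, by omega⟩, hx, rfl⟩

lemma card_NN (hc : IsChain n c) : (NN n c L).card = nuC n L c := by
  classical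
  have h1 : NN n c L = Finset.univ.sigma fun i : Fin L =>
      (Finset.univ.filter fun r : Fin (n i) => c (i + 1) ≤ (r : ℕ) ∧ (r : ℕ) < c i) ×ˢ
      (Finset.univ.filter fun b : Fin (n (i + 1)) => c (i + 1) ≤ (b : ℕ) ∧
        (b : ℕ) < n (i + 1)) := by
    ext s
    rw [mem_NN]
    simp [In, and_assoc]
  rw [h1, Finset.card_sigma, nuC, Finset.sum_range]
  refine Finset.sum_congr rfl fun i _ => ?_
  rw [Finset.card_product, card_Ico _ _ _ (hc.le i), card_Ico _ _ _ le_rfl]

lemma nonempty_NN (hc : IsChain n c) (hn : Monotone n) (h0 : 0 < n 0) {l : ℕ} (hl : l < L)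
    (hcl : c (l + 1) = 0) : (NN n c L).Nonempty := by
  classical
  have hex : ∃ i, c i = 0 := ⟨_, hcl⟩
  have h1 := Nat.find_spec hex
  have h2 : Nat.find hex ≤ l + 1 := Nat.find_min' hex hcl
  have h3 : Nat.find hex ≠ 0 := by
    intro h
    rw [h, hc.zero] at h1
    omega
  obtain ⟨i, hi⟩ := Nat.exists_eq_succ_of_ne_zero h3
  have h4 : c i ≠ 0 := Nat.find_min hex (by omega)
  rw [hi] at h1
  have h5 : 0 < n i := h0.trans_le (hn (Nat.zero_le i))
  have h6 : 0 < n (i + 1) := h0.trans_le (hn (Nat.zero_le (i + 1)))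
  refine ⟨⟨⟨i, by omega⟩, (⟨0, h5⟩, ⟨0, h6⟩)⟩, (mem_NN _).2 ?_⟩
  refine ⟨?_, ?_, ?_⟩
  · show c (i + 1) ≤ 0
    exact h1.le
  · show 0 < c i
    omega
  · show c (i + 1) ≤ 0
    exact h1.le

/-- the derivatives of the polynomials `hh` -/
lemma jac (hc : IsChain n c) (s s' : Var n L) (hs : In c s) (hs' : In c s') :
    eval (pt n c L) (pderiv s' (hh hc s)) = if s' = s then 1 else 0 := by
  classical
  rw [hh_of hc s hs, dE hc s' (s.1 + 1) s.1.2 _ _ hs.1 hs.2.2]
  obtain ⟨i, r, b⟩ := s
  obtain ⟨i', r', b'⟩ := s'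
  obtain ⟨a1, a2, a3⟩ := hs
  obtain ⟨b1, b2, b3⟩ := hs'
  simp only at a1 a2 a3 b1 b2 b3
  rcases lt_trichotomy (i : ℕ) i' with h | h | h
  · rw [dP_early hc _ _ (show (i : ℕ) + 1 ≤ i' from h), if_neg]
    intro heq
    have : (i' : ℕ) = i := congrArg (fun s : Var n L => (s.1 : ℕ)) heq
    omega
  · have hi : i = i' := Fin.ext h
    subst hi
    rw [dP_last hc i r' b' b2]
    apply if_congr _ rfl rfl
    constructor
    · rintro ⟨h1, h2⟩
      simp only at h1 h2
      have h3 : r = r' := Fin.ext h1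
      rw [h3, h2]
    · intro heq
      have h3 := eq_of_heq (Sigma.mk.inj heq).2
      rw [(Prod.mk.inj h3).1, (Prod.mk.inj h3).2]
      exact ⟨rfl, rfl⟩
  · have h1 : c i ≤ c (i' + 1) := hc.anti (show (i' : ℕ) + 1 ≤ i from h)
    rw [dP_row hc _ _ i.2, if_neg]
    · intro heq
      have : (i' : ℕ) = i := congrArg (fun s : Var n L => (s.1 : ℕ)) heq
      omega
    · simp only
      omega

lemma jac_det (hc : IsChain n c) :
    (Matrix.of fun s' s : Var n L => eval (pt n c L) (pderiv s' (hh hc s))).det ≠ 0 := by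
  classical
  rw [Matrix.twoBlockTriangular_det _ (fun s => ¬ In c s)]
  · have h1 : Matrix.toSquareBlockProp (Matrix.of fun s' s : Var n L =>
        eval (pt n c L) (pderiv s' (hh hc s))) (fun s => ¬ In c s) = 1 := by
      ext s' s
      rw [Matrix.one_apply]
      show eval (pt n c L) (pderiv (s' : Var n L) (hh hc s)) = _
      rw [hh, dif_neg s.2, pderiv_X, Pi.single_apply]
      by_cases h : s' = s
      · rw [if_pos h, if_pos (congrArg Subtype.val h).symm, map_one]
      · rw [if_neg h, if_neg (fun h' => h (Subtype.ext h'.symm)), map_zero]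
    have h2 : Matrix.toSquareBlockProp (Matrix.of fun s' s : Var n L =>
        eval (pt n c L) (pderiv s' (hh hc s))) (fun s => ¬ ¬ In c s) = 1 := by
      ext s' s
      rw [Matrix.one_apply]
      show eval (pt n c L) (pderiv (s' : Var n L) (hh hc s)) = _
      have h5 : In c (s : Var n L) := not_not.1 s.2
      have h6 : In c (s' : Var n L) := not_not.1 s'.2
      rw [jac hc (s : Var n L) (s' : Var n L) h5 h6]
      by_cases h : s' = s
      · rw [if_pos h, if_pos (congrArg Subtype.val h)]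
      · rw [if_neg h, if_neg (fun h' => h (Subtype.ext h'))]
    rw [h1, h2, Matrix.det_one, Matrix.det_one]
    norm_num
  · intro s' hs' s hs
    show eval (pt n c L) (pderiv s' (hh hc s)) = 0
    rw [hh, dif_neg hs, pderiv_X, Pi.single_apply, if_neg, map_zero]
    intro h
    rw [h] at hs
    exact hs' hs

lemma Dt_map (hc : IsChain n c) {R S : Type} [CommRing R] [CommRing S] (f : R →+* S)
    (A : ∀ i, Matrix (Fin (n i)) (Fin (n (i + 1))) R) (k : ℕ) :
    Dt hc (fun i => (A i).map f) k = f (Dt hc A k) := by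
  unfold Dt
  rw [RingHom.map_det, ← Pr_map]
  rfl

lemma E_map (hc : IsChain n c) {R S : Type} [CommRing R] [CommRing S] (f : R →+* S)
    (A : ∀ i, Matrix (Fin (n i)) (Fin (n (i + 1))) R) (k : ℕ) (r : Fin (n 0)) (b : Fin (n k)) :
    E hc (fun i => (A i).map f) k r b = f (E hc A k r b) := by
  unfold E
  rw [← Pr_map, ← el_map]
  rfl

lemma Mt_map (hc : IsChain n c) (hn : Monotone n) {R S : Type} [CommRing R] [CommRing S]
    (f : R →+* S) (A : ∀ i, Matrix (Fin (n i)) (Fin (n (i + 1))) R) (k j : ℕ) :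
    (Mt hc hn (fun i => (A i).map f) k j).det = f (Mt hc hn A k j).det := by
  rw [RingHom.map_det]
  congr 1
  unfold Mt
  rw [← tl_map]
  rfl

/-- the entries of the product are in the ideal of the bordered minors -/
lemma partA (hc : IsChain n c) (l : ℕ) (hl : l < L) (hcl : c (l + 1) = 0)
    (q : Fin (n 0) × Fin (n (l + 1))) : ∃ u, eval (pt n c L) u ≠ 0 ∧
      u * map (Int.castRingHom ℂ) (gens n L l q) ∈
        Ideal.span (hh hc '' (NN n c L : Set (Var n L))) := by
  refine exists_mul _ _ _ fun Q _ φ hJ hφ => ?_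
  have h1 : Pr n (fun i => (gC n L i).map φ) (l + 1) = 0 := by
    refine keyA hc _ l hcl (fun k hk => ?_) fun k hk r b h1 h2 h3 => ?_
    · rw [Dt_map]
      apply hφ
      rw [eval_Dt hc (k + 1) (by omega)]
      exact one_ne_zero
    · rw [E_map]
      apply hJ
      apply Ideal.subset_span
      have h4 : In c (⟨⟨k, by omega⟩, (⟨r, h2.trans_le (hc.le k)⟩, b)⟩ : Var n L) := ⟨h1, h2, h3⟩
      refine ⟨_, (mem_NN _).2 h4, ?_⟩
      rw [hh_of hc _ h4]
  rw [gens_map]
  have h2 := congrFun (congrFun h1 q.1) q.2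
  rw [← Pr_map] at h2
  exact h2

/-- the bordered minors are in the ideal of the entries of the product -/
lemma partB (hc : IsChain n c) (hn : Monotone n) (l : ℕ) (hl : l < L) (hcl : c (l + 1) = 0)
    (s : Var n L) (hs : In c s) : ∃ u, eval (pt n c L) u ≠ 0 ∧
      u * hh hc s ∈ Ideal.span (Set.range fun q => map (Int.castRingHom ℂ) (gens n L l q)) := by
  refine exists_mul _ _ _ fun Q _ φ hJ hφ => ?_
  have h1 : Pr n (fun i => (gC n L i).map φ) (l + 1) = 0 := by
    rw [← Pr_map]
    ext r b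
    have h2 := hJ (map (Int.castRingHom ℂ) (gens n L l (r, b))) (Ideal.subset_span ⟨(r, b), rfl⟩)
    rw [gens_map] at h2
    exact h2
  have h3 : (s.1 : ℕ) < l + 1 := by
    by_contra hcon
    have h4 := hc.anti (not_lt.1 hcon)
    rw [hcl] at h4
    have := hs.2.1
    omega
  obtain ⟨j, hj⟩ : ∃ j, l + 1 = (s.1 + 1) + j := ⟨l - s.1, by omega⟩
  rw [hj] at h1
  have h4 := keyB hc hn _ (s.1 + 1) j h1 (by
    rw [Mt_map]
    apply hφ
    rw [eval_Mt hc hn (s.1 + 1) j (by omega)]
    exact one_ne_zero) ⟨s.2.1, hs.2.1.trans_le (c0 hc s.1)⟩ s.2.2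
  rw [E_map] at h4
  rw [hh_of hc s hs]
  exact h4

end fin

/-- **Package RO.** -/
theorem t_RO : S_RO := by
  classical
  intro n L T ℓ h0 hn hℓ c hc hex
  refine ⟨pt n c L, ?_⟩
  obtain ⟨t₀, ht₀⟩ := hex
  have key : ∀ t : Fin T, ∃ u : MvPolynomial (Var n L) ℂ, eval (pt n c L) u ≠ 0 ∧
      ((∀ q, u * map (Int.castRingHom ℂ) (gens n L (ℓ t) q) ∈
          Ideal.span (hh hc '' (NN n c L : Set (Var n L))) ^ degC ℓ c t) ∧
        ∀ x ∈ Ideal.span (hh hc '' (NN n c L : Set (Var n L))) ^ degC ℓ c t, u * x ∈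
          Ideal.span (Set.range fun q : Fin (n 0) × Fin (n (ℓ t + 1)) =>
            map (Int.castRingHom ℂ) (gens n L (ℓ t) q))) := by
    intro t
    by_cases ht : c (ℓ t + 1) = 0
    · have hd : degC ℓ c t = 1 := by simp [degC, ht]
      rw [hd, pow_one]
      obtain ⟨u, hu1, hu2⟩ := exists_common (pt n c L)
        (fun (q : Fin (n 0) × Fin (n (ℓ t + 1))) u =>
          u * map (Int.castRingHom ℂ) (gens n L (ℓ t) q) ∈
            Ideal.span (hh hc '' (NN n c L : Set (Var n L))))
        (fun i u v h => by rw [mul_assoc]; exact Ideal.mul_mem_left _ _ h)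
        (fun q => partA hc (ℓ t) (hℓ t) ht q)
      obtain ⟨v, hv1, hv2⟩ := exists_common (ι := {s : Var n L // In c s}) (pt n c L)
        (fun s u => u * hh hc s.1 ∈
          Ideal.span (Set.range fun q : Fin (n 0) × Fin (n (ℓ t + 1)) =>
            map (Int.castRingHom ℂ) (gens n L (ℓ t) q)))
        (fun i u v h => by rw [mul_assoc]; exact Ideal.mul_mem_left _ _ h)
        (fun s => partB hc hn (ℓ t) (hℓ t) ht s.1 s.2)
      refine ⟨u * v, by rw [map_mul]; exact mul_ne_zero hu1 hv1, fun q => ?_, fun x hx => ?_⟩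
      · rw [mul_comm u v, mul_assoc]
        exact Ideal.mul_mem_left _ _ (hu2 q)
      · rw [mul_assoc]
        apply Ideal.mul_mem_left
        refine Submodule.span_induction ?_ ?_ ?_ ?_ hx
        · rintro _ ⟨s, hs, rfl⟩
          exact hv2 ⟨s, (mem_NN s).1 hs⟩
        · rw [mul_zero]
          exact Ideal.zero_mem _
        · intro x y _ _ hx hy
          rw [mul_add]
          exact Ideal.add_mem _ hx hy
        · intro a x _ hx
          rw [smul_eq_mul, mul_left_comm]
          exact Ideal.mul_mem_left _ _ hx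
    · have hd : degC ℓ c t = 0 := by simp [degC, ht]
      rw [hd, pow_zero, Ideal.one_eq_top]
      have hpos : 0 < c (ℓ t + 1) := Nat.pos_of_ne_zero ht
      let q₀ : Fin (n 0) × Fin (n (ℓ t + 1)) := (⟨0, h0⟩, ⟨0, hpos.trans_le (hc.le _)⟩)
      refine ⟨map (Int.castRingHom ℂ) (gens n L (ℓ t) q₀), ?_, fun q => Submodule.mem_top,
        fun x _ => Ideal.mul_mem_right _ _ (Ideal.subset_span ⟨q₀, rfl⟩)⟩
      rw [gens_map, eval_Pr_apply hc (ℓ t + 1) (hℓ t), if_pos]
      · exact one_ne_zero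
      · exact ⟨rfl, hpos⟩
  obtain ⟨u, hu1, hu2⟩ := exists_common (pt n c L) _ (fun t u v h => by
    refine ⟨fun q => ?_, fun x hx => ?_⟩
    · rw [mul_assoc]
      exact Ideal.mul_mem_left _ _ (h.1 q)
    · rw [mul_assoc]
      exact Ideal.mul_mem_left _ _ (h.2 x hx)) key
  refine ⟨hh hc, NN n c L, u, ?_, nonempty_NN hc hn h0 (hℓ t₀) ht₀, card_NN hc, fun s hs => ?_,
    hu1, hu2⟩
  · have h := jac_det (L := L) hc
    convert h
  · rw [mem_NN] at hs
    rw [hh_of hc s hs]
    exact eval_E hc (s.1 + 1) s.1.2 _ _ hs.1 hs.2.2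

end Pool.Agent.U397.TM.RO

namespace Pool.Agent.U397.TM

/-- **Package RO.** -/
theorem t_RO : S_RO := RO.t_RO

end Pool.Agent.U397.TM
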