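import Pool.Agent.U397.TM.FT

set_option autoImplicit false
set_option linter.unusedSectionVars false
set_option linter.unusedVariables false

/-! # The roots and the motivic zeta functions of the forms over products of generic matrices -/

namespace Pool.Agent.U397.TM

open MvPolynomial Pool.Agent.W428.MOT Pool.Agent.TH192.MT Pool.Agent.TH192.DT
  Pool.Agent.TH192.MU Pool.Agent.H628R4.TP

/-- **Package FR.** -/
theorem t_FR : S_FR := by
  classical
  intro n L T ℓ a h0 hn hℓ ha q hq
  have key : q.1 < 0 ∧ 0 < q.2 ∧ ∀ b : Polynomial ℂ, PowData a (gensC n L ℓ) b →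
      b.eval ((q.1 : ℂ) / q.2) = 0 := by
    rw [formPr, Finset.mem_union] at hq
    rcases hq with hq | hq
    · obtain ⟨c, hc, rfl⟩ := Finset.mem_image.1 hq
      rw [mem_chs] at hc
      obtain ⟨hc, t, ht⟩ := hc
      have h1 : 0 < nuC n L (cL c) := nuC_pos' h0 hn (hℓ t) hc ht
      have h2 : 0 < ∑ t, a t * degC ℓ (cL c) t := by
        refine Finset.sum_pos' (fun _ _ => Nat.zero_le _) ⟨t, Finset.mem_univ t, ?_⟩
        unfold degC
        rw [if_pos ht, mul_one]
        exact ha t
      refine ⟨by simp only; omega, by simp only; exact_mod_cast h2, fun b hb => ?_⟩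
      have h3 := chain_root t_RO h0 hn L ℓ a hℓ (cL c) hc h2 b hb
      push_cast at h3 ⊢
      exact h3
    · obtain ⟨c, _, rfl⟩ := Finset.mem_image.1 hq
      refine ⟨by norm_num, by simp only; exact_mod_cast ha c, fun b hb => ?_⟩
      have h1 := hb.strict c 0 (ha c)
      simp only [Nat.cast_zero, add_zero] at h1
      push_cast
      exact h1
  exact ⟨key.1, key.2.1, fun b hb => key.2.2 b (powD h0 hn hℓ (Or.inl hb)),
    fun b hb => key.2.2 b (powD h0 hn hℓ (Or.inr hb))⟩

/-- **Package FM.** -/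
theorem t_FM : S_FM := by
  classical
  intro K _ _ n L T ℓ a hℓ ha W hW E hE
  obtain ⟨M, hL, hM⟩ := exists_meas K
  have h1 := zetaS_mem (X := topS n L ℓ) (a := a) hL ha
    (D := (formPr n L ℓ a : Set (ℤ × ℤ)))
    (fun π _ V hV hG => rat_mono (Lu K) (by
      rintro q ⟨c, hc, rfl⟩
      rw [Finset.mem_coe, formPr, Finset.mem_union]
      exact Or.inl (Finset.mem_image.2 ⟨c, hc, rfl⟩))
      (topS_rt (t_ME t_MP) n L ℓ hℓ hL a ha π V hV hG))
    (fun t => by
      rw [Finset.mem_coe, formPr, Finset.mem_union]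
      exact Or.inr (Finset.mem_image.2 ⟨t, Finset.mem_univ t, rfl⟩)) (W := W) hW (E := E) hE
  rw [FT.fX_topS] at h1
  have h2 : zetaM (map (Int.castRingHom K) (form n L ℓ a)) W E =
      zetaS M (((Lu K)⁻¹ : (MK K)ˣ) : MK K) (map (Int.castRingHom K) (form n L ℓ a)) W E := by
    unfold zetaM zetaS
    congr 1
    funext d
    rw [hM, inv_pow_eq, Nat.mul_comm]
  rw [h2]
  exact h1

end Pool.Agent.U397.TM
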