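import Pool.Agent.U397.TM.RFp

set_option autoImplicit false
set_option linter.unusedSectionVars false
set_option linter.unusedVariables false

/-! # The zeta functions of the forms over products of generic matrices, uniformly in the
exponents -/

namespace Pool.Agent.U397.TM.FT

open MvPolynomial Pool.Agent.W428.MOT Pool.Agent.TH192.MT Pool.Agent.TH192.DT
  Pool.Agent.TH192.MU Pool.Agent.H628R4.TP

/-- **The zeta functions of the entries of the products are rational, uniformly in the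
exponents.** -/
theorem topS_rf {K : Type} [Field K] (n : ℕ → ℕ) (L : ℕ) {T : ℕ} (ℓ : Fin T → ℕ)
    (hℓ : ∀ t, ℓ t < L) {R : Type} [CommRing R] {u : Rˣ} {M : Meas K R} (hu : M.L = (u : R)) :
    RF u M {q | ∃ c ∈ chs n L ℓ, q = prC n L ℓ c} (topS n L ℓ) := by
  obtain ⟨X, hX, e, he⟩ := t_ST3 n L T ℓ hℓ
  have h1 := t_RF K T R u M hu {q | ∃ c ∈ chs n L ℓ, q = prC n L ℓ c} X
    (tw3_tw2 hX _ fun c hc => ⟨c, hc, rfl⟩)
  exact rf_change (Xs := topS n L ℓ) (Ys := X) hu e (fun A _ x t => he A x t) h1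

theorem fX_topS (n : ℕ → ℕ) (L : ℕ) {T : ℕ} (ℓ a : Fin T → ℕ) :
    fX (topS n L ℓ) a = form n L ℓ a := by
  classical
  unfold fX form
  refine Finset.prod_congr rfl fun b _ => ?_
  congr 1
  rw [Fintype.sum_sigma, Finset.sum_eq_single b]
  · refine Finset.sum_congr rfl fun j _ => ?_
    rw [if_pos rfl]
  · intro b' _ hb'
    refine Finset.sum_eq_zero fun j _ => ?_
    rw [if_neg hb']
  · intro h
    exact absurd (Finset.mem_univ _) h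

end Pool.Agent.U397.TM.FT

namespace Pool.Agent.U397.TM

open MvPolynomial Pool.Agent.W428.MOT Pool.Agent.TH192.MT Pool.Agent.TH192.DT
  Pool.Agent.TH192.MU Pool.Agent.H628R4.TP

/-- **Package FT.** -/
theorem t_FT : S_FT := by
  classical
  intro n L T ℓ hℓ W hW
  obtain ⟨M, hL, hM⟩ := exists_meas ℂ
  have h1 := zetaS_memF (X := topS n L ℓ) hL
    (D := (tuplePr n L ℓ : Set (ℕ × (Fin T → ℕ))))
    (fun π _ V hV hG hC => ratF_mono (Lu ℂ) (by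
      rintro q ⟨c, hc, rfl⟩
      rw [Finset.mem_coe, tuplePr, Finset.mem_union]
      exact Or.inl (Finset.mem_image.2 ⟨c, hc, rfl⟩))
      (FT.topS_rf n L ℓ hℓ hL π V hV hG hC))
    (fun t => by
      rw [Finset.mem_coe, tuplePr, Finset.mem_union]
      exact Or.inr (Finset.mem_image.2 ⟨t, Finset.mem_univ t, rfl⟩)) (W := W) hW
  have h2 : (fun a : PA T => zetaM (map (Int.castRingHom ℂ) (form n L ℓ a.1)) W
      {c | c ≠ 0}) =
      fun a : PA T => zetaS M (((Lu ℂ)⁻¹ : (MK ℂ)ˣ) : MK ℂ)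
        (map (Int.castRingHom ℂ) (fX (topS n L ℓ) a.1)) W {c | c ≠ 0} := by
    funext a
    rw [FT.fX_topS]
    unfold zetaM zetaS
    congr 1
    funext d
    rw [hM, inv_pow_eq, Nat.mul_comm]
  rw [h2]
  exact h1

/-- signs of the pairs -/
theorem tuplePr_pos {n : ℕ → ℕ} (h0 : 0 < n 0) (hn : Monotone n) (L : ℕ) {T : ℕ} (ℓ : Fin T → ℕ)
    (hℓ : ∀ t, ℓ t < L) (q : ℕ × (Fin T → ℕ)) (hq : q ∈ tuplePr n L ℓ) :
    0 < q.1 ∧ ∃ t, 0 < q.2 t := by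
  classical
  rw [tuplePr, Finset.mem_union] at hq
  rcases hq with hq | hq
  · obtain ⟨c, hc, rfl⟩ := Finset.mem_image.1 hq
    rw [mem_chs] at hc
    obtain ⟨hc, t, ht⟩ := hc
    refine ⟨nuC_pos' h0 hn (hℓ t) hc ht, t, ?_⟩
    simp only
    unfold degC
    rw [if_pos ht]
    exact Nat.one_pos
  · obtain ⟨t, _, rfl⟩ := Finset.mem_image.1 hq
    exact ⟨Nat.one_pos, t, by simp⟩

/-- the pairs of the powers -/
theorem tuplePr_form (n : ℕ → ℕ) (L : ℕ) {T : ℕ} (ℓ a : Fin T → ℕ) (ha : ∀ t, 0 < a t)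
    (q : ℕ × (Fin T → ℕ)) (hq : q ∈ tuplePr n L ℓ) :
    (-(q.1 : ℤ), ((∑ t, a t * q.2 t : ℕ) : ℤ)) ∈ formPr n L ℓ a := by
  classical
  rw [tuplePr, Finset.mem_union] at hq
  rw [formPr, Finset.mem_union]
  rcases hq with hq | hq
  · left
    obtain ⟨c, hc, rfl⟩ := Finset.mem_image.1 hq
    exact Finset.mem_image.2 ⟨c, hc, rfl⟩
  · right
    obtain ⟨t, _, rfl⟩ := Finset.mem_image.1 hq
    refine Finset.mem_image.2 ⟨t, Finset.mem_univ t, ?_⟩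
    have h2 : ∑ t', a t' * (Pi.single t 1 : Fin T → ℕ) t' = a t := by
      simp [Pi.single_apply]
    rw [h2]
    rfl

theorem form_zetaL (n : ℕ → ℕ) (L : ℕ) {T : ℕ} (ℓ a : Fin T → ℕ) (hℓ : ∀ t, ℓ t < L)
    (ha : ∀ t, 0 < a t)
    {W : Set (Pt ℂ ((Σ t, Fin (n 0) × Fin (n (ℓ t + 1))) ⊕ Var n L))} (hW : Constr W) :
    zetaM (map (Int.castRingHom ℂ) (form n L ℓ a)) W {c | c ≠ 0} ∈
      ratL (Lu ℂ) (formPr n L ℓ a : Set (ℤ × ℤ)) :=
  Pool.Agent.R852.MX.ratL_of_ratF (Lu ℂ) (⟨a, ha⟩ : PA T)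
    (fun q hq => tuplePr_form n L ℓ a ha q hq) (t_FT n L T ℓ hℓ W hW)

/-- **The topological zeta functions of the forms.** -/
theorem form_topZ (hR : S_FR) {n : ℕ → ℕ} (h0 : 0 < n 0) (hn : Monotone n) (L : ℕ) {T : ℕ}
    (ℓ a : Fin T → ℕ) (hℓ : ∀ t, ℓ t < L) (ha : ∀ t, 0 < a t)
    {W : Set (Pt ℂ ((Σ t, Fin (n 0) × Fin (n (ℓ t + 1))) ⊕ Var n L))} (hW : Constr W)
    {R : Type} [CommRing R] [IsDomain R] (E : MK ℂ →+* R) (ε : R →+* ℂ)
    (h1 : ε (E ((Lu ℂ : (MK ℂ)ˣ) : MK ℂ)) = 1) (hu : E ((Lu ℂ : (MK ℂ)ˣ) : MK ℂ) ≠ 1) :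
    ∃ Z : RatFunc ℂ,
      IsTopZeta E ε (zetaM (map (Int.castRingHom ℂ) (form n L ℓ a)) W {c | c ≠ 0}) Z ∧
      (∀ Z', IsTopZeta E ε (zetaM (map (Int.castRingHom ℂ) (form n L ℓ a)) W {c | c ≠ 0})
        Z' → Z' = Z) ∧
      ∀ s₀ : ℂ, Z.denom.eval s₀ = 0 → ∃ q ∈ formPr n L ℓ a, s₀ = (q.1 : ℂ) / q.2 :=
  topZeta_main E ε h1 hu (fun q hq => ⟨(hR n L T ℓ a h0 hn hℓ ha q hq).1,
    (hR n L T ℓ a h0 hn hℓ ha q hq).2.1⟩) (form_zetaL n L ℓ a hℓ ha hW)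

end Pool.Agent.U397.TM
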