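import Pool.Agent.U397.TM.Spec

set_option autoImplicit false
set_option linter.unusedSectionVars false
set_option linter.unusedVariables false

/-! # Package PE: the `p`-adic engine (partial scaling and the recursion) -/

namespace Pool.Agent.U397.TM

namespace PE

open MvPolynomial Pool.Agent.TH192.MT
open MeasureTheory Pool.Agent.W427.SMC Pool.Agent.TH192.PA
open scoped ENNReal NNReal

attribute [local instance] msZ bsZ

/-! ### partial self-similarity -/

section smP

variable (p : ℕ) [Fact p.Prime] {ι : Type} [Fintype ι]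

/-- the point of a class of the scaled coordinates -/
noncomputable def pt (wt : ι → Bool) (w : {i // wt i = true} → ZMod p) (z : ι → ℤ_[p]) :
    ι → ℤ_[p] := fun i => if h : wt i = true then ((w ⟨i, h⟩).val : ℤ_[p]) + (p : ℤ_[p]) * z i else z i

theorem meas_pt (wt : ι → Bool) (w : {i // wt i = true} → ZMod p) : Measurable (pt p wt w) := by
  refine Continuous.measurable ?_
  refine continuous_pi fun i => ?_
  unfold pt
  by_cases h : wt i = true
  · simp only [h, dite_true]
    fun_prop
  · simp only [h]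
    exact continuous_apply i

/-- sum over the residue classes of the scaled coordinates -/
noncomputable def smP [DecidableEq ι] (wt : ι → Bool) (g : (ι → ℤ_[p]) → ℝ≥0∞) : ℝ≥0∞ :=
  ∑ w : {i // wt i = true} → ZMod p, ((p : ℝ≥0∞)⁻¹) ^ Fintype.card {i // wt i = true} *
    ∫⁻ z, g (pt p wt w z) ∂(hm p ι)

variable [DecidableEq ι]

theorem smP_trans (wt : ι → Bool) (g : (ι → ℤ_[p]) → ℝ≥0∞) (t : ι → ℤ_[p]) :
    smP p wt (fun z => g (t + z)) = smP p wt g := by
  have hp : NeZero p := ⟨(Fact.out : p.Prime).ne_zero⟩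
  unfold smP
  refine Fintype.sum_equiv (Equiv.addLeft (fun i : {i // wt i = true} =>
    PadicInt.toZMod (t i.1))) _ _ fun w => ?_
  congr 1
  set w' : {i // wt i = true} → ZMod p := (fun i => PadicInt.toZMod (t i.1)) + w with hw'
  have h1 : ∀ i, ∃ c, (∀ h : wt i = true,
      t i + ((w ⟨i, h⟩).val : ℤ_[p]) - ((w' ⟨i, h⟩).val : ℤ_[p]) = (p : ℤ_[p]) * c) ∧
      (¬ wt i = true → t i = c) := by
    intro i
    by_cases h : wt i = true
    · obtain ⟨c, hc⟩ := dvd_of_toZMod p (t i + ((w ⟨i, h⟩).val : ℤ_[p]) -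
          ((w' ⟨i, h⟩).val : ℤ_[p])) (by
        rw [map_sub, map_add, map_natCast, map_natCast, ZMod.natCast_zmod_val,
          ZMod.natCast_zmod_val, hw', Pi.add_apply, sub_self])
      exact ⟨c, fun _ => hc, fun h' => absurd h h'⟩
    · exact ⟨t i, fun h' => absurd h' h, fun _ => rfl⟩
  choose c hc hc2 using h1
  have hw2 : (Equiv.addLeft fun i : {i // wt i = true} => PadicInt.toZMod (t i.1)) w = w' := rfl
  rw [hw2]
  rw [← lintegral_add_left_eq_self (μ := hm p ι) (fun z => g (pt p wt w' z)) c]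
  refine lintegral_congr fun z => ?_
  change g _ = g _
  congr 1
  funext i
  by_cases h : wt i = true
  · simp only [pt, h, dite_true, Pi.add_apply]
    linear_combination hc i h
  · simp only [pt, h, Pi.add_apply]
    simp only [Bool.false_eq_true, dite_false]
    rw [hc2 i h]

/-- **Self-similarity** in the scaled coordinates. -/
theorem lintegral_smP (wt : ι → Bool) (g : (ι → ℤ_[p]) → ℝ≥0∞) (hg : Measurable g) :
    ∫⁻ z, g z ∂(hm p ι) = smP p wt g := by
  have hp : NeZero p := ⟨(Fact.out : p.Prime).ne_zero⟩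
  set ν : Measure (ι → ℤ_[p]) := ((p : ℝ≥0∞)⁻¹) ^ Fintype.card {i // wt i = true} •
    ∑ w : {i // wt i = true} → ZMod p, (hm p ι).map (pt p wt w) with hν
  have h1 : ∀ g : (ι → ℤ_[p]) → ℝ≥0∞, Measurable g → ∫⁻ z, g z ∂ν = smP p wt g := by
    intro g hg
    rw [hν, lintegral_smul_measure, lintegral_finsetSum_measure, smul_eq_mul, Finset.mul_sum]
    refine Finset.sum_congr rfl fun w _ => ?_
    rw [lintegral_map hg (meas_pt p wt _)]
  have hpr : IsProbabilityMeasure ν := by
    refine ⟨?_⟩
    have := h1 1 measurable_one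
    simp only [Pi.one_apply, lintegral_one] at this
    rw [this, smP]
    simp only [Pi.one_apply, lintegral_one, measure_univ, mul_one, Finset.sum_const,
      Finset.card_univ, Fintype.card_pi, ZMod.card, Finset.prod_const, nsmul_eq_mul]
    rw [Nat.cast_pow, ← mul_pow, ENNReal.mul_inv_cancel, one_pow]
    · exact_mod_cast (Fact.out : p.Prime).ne_zero
    · exact ENNReal.natCast_ne_top p
  have hinv : ν.IsAddLeftInvariant := by
    refine ⟨fun t => ?_⟩
    refine Measure.ext_of_lintegral _ fun g hg => ?_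
    rw [lintegral_map hg (measurable_const_add t), h1 g hg]
    exact (h1 _ (hg.comp (measurable_const_add t))).trans (smP_trans p wt g t)
  rw [← h1 g hg, hm_unique p ν]

end smP

/-! ### functions which become polynomials -/

section good

open Polynomial

variable (q : ℕ) [Fact q.Prime] (R : Set (ℕ × ℕ))

/-- `f` times a product of the factors in `R` is a polynomial in `q ^ (-s)`. -/
def Good (f : ℝ → ℝ) : Prop := ∃ (l : List (ℕ × ℕ)) (P : Polynomial ℝ), (∀ r ∈ l, r ∈ R) ∧
  ∀ s : ℝ, 0 < s → (l.map fun r => 1 - ((q : ℝ)⁻¹) ^ r.1 * (tr' q s) ^ r.2).prod * f s =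
    P.eval (tr' q s)

variable {q R}

theorem Good.congr {f g : ℝ → ℝ} (h : Good q R f) (he : ∀ s, 0 < s → f s = g s) :
    Good q R g := by
  obtain ⟨l, P, h1, h2⟩ := h
  exact ⟨l, P, h1, fun s hs => by rw [← he s hs]; exact h2 s hs⟩

/-- the product as a polynomial -/
noncomputable def pol (q : ℕ) (l : List (ℕ × ℕ)) : ℝ[X] :=
  (l.map fun r => 1 - Polynomial.C (((q : ℝ)⁻¹) ^ r.1) * Polynomial.X ^ r.2).prod

theorem eval_pol (l : List (ℕ × ℕ)) (T : ℝ) : (pol q l).eval T =
    (l.map fun r => 1 - ((q : ℝ)⁻¹) ^ r.1 * T ^ r.2).prod := by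
  induction l with
  | nil => simp [pol]
  | cons r l ih =>
    have h : pol q (r :: l) = (1 - Polynomial.C (((q : ℝ)⁻¹) ^ r.1) * Polynomial.X ^ r.2) *
        pol q l := by simp [pol]
    rw [h, Polynomial.eval_mul, ih]
    simp

theorem Good.zero : Good q R (fun _ => 0) :=
  ⟨[], 0, by simp, fun s _ => by simp⟩

theorem Good.add {f g : ℝ → ℝ} (hf : Good q R f) (hg : Good q R g) :
    Good q R (fun s => f s + g s) := by
  obtain ⟨l, P, h1, h2⟩ := hf
  obtain ⟨m, Q, h3, h4⟩ := hg
  refine ⟨l ++ m, pol q m * P + pol q l * Q, ?_, fun s hs => ?_⟩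
  · intro r hr
    rcases List.mem_append.1 hr with h | h
    · exact h1 r h
    · exact h3 r h
  · rw [List.map_append, List.prod_append, Polynomial.eval_add, Polynomial.eval_mul,
      Polynomial.eval_mul, eval_pol, eval_pol, ← h2 s hs, ← h4 s hs]
    ring

theorem Good.sum {α : Type} (S : Finset α) (f : α → ℝ → ℝ) (hf : ∀ i ∈ S, Good q R (f i)) :
    Good q R (fun s => ∑ i ∈ S, f i s) := by
  classical
  induction S using Finset.induction_on with
  | empty => exact Good.zero.congr fun s _ => by simp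
  | insert a S ha ih =>
    have h1 := (hf a (Finset.mem_insert_self _ _)).add
      (ih fun i hi => hf i (Finset.mem_insert_of_mem hi))
    exact h1.congr fun s _ => by rw [Finset.sum_insert ha]

theorem Good.polmul {f : ℝ → ℝ} (hf : Good q R f) (Q : ℝ[X]) :
    Good q R (fun s => Q.eval (tr' q s) * f s) := by
  obtain ⟨l, P, h1, h2⟩ := hf
  refine ⟨l, Q * P, h1, fun s hs => ?_⟩
  rw [Polynomial.eval_mul, ← h2 s hs]
  ring

theorem Good.solve {f : ℝ → ℝ} (r : ℕ × ℕ) (hr : r ∈ R)
    (hf : Good q R (fun s => (1 - ((q : ℝ)⁻¹) ^ r.1 * (tr' q s) ^ r.2) * f s)) : Good q R f := by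
  obtain ⟨l, P, h1, h2⟩ := hf
  refine ⟨r :: l, P, ?_, fun s hs => ?_⟩
  · intro r' hr'
    rcases List.mem_cons.1 hr' with rfl | h
    · exact hr
    · exact h1 r' h
  · rw [List.map_cons, List.prod_cons, ← h2 s hs]
    ring

end good

/-! ### norms -/

section nrm

variable {q : ℕ} [Fact q.Prime] {T : ℕ}

theorem cont_ev {σ : Type} (P : MvPolynomial σ ℤ) :
    Continuous (fun x : σ → ℤ_[q] => ev x P) := by
  induction P using MvPolynomial.induction_on with
  | C a =>
    have h : (fun x : σ → ℤ_[q] => ev x (C a)) = fun _ => (a : ℤ_[q]) := by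
      funext x; rw [ev_C]
    rw [h]; exact continuous_const
  | add p r hp hr =>
    have h : (fun x : σ → ℤ_[q] => ev x (p + r)) = fun x => ev x p + ev x r := by
      funext x; rw [map_add]
    rw [h]; exact hp.add hr
  | mul_X p i hp =>
    have h : (fun x : σ → ℤ_[q] => ev x (p * X i)) = fun x => ev x p * x i := by
      funext x; rw [map_mul, ev_X]
    rw [h]; exact hp.mul (continuous_apply i)

theorem nI_meas (X : Sys T) (t : Fin T) : Measurable (nI (q := q) X t) := by
  classical
  have h : ∀ l : X.Λ, Measurable (fun x : X.ι → ℤ_[q] =>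
      if X.τ l = t then ‖ev x (X.G l)‖₊ else (0 : ℝ≥0)) := by
    intro l
    by_cases h : X.τ l = t
    · simp only [h, if_true]
      exact (cont_ev (X.G l)).nnnorm.measurable
    · simp only [h, if_false]
      exact measurable_const
  have h2 : (nI (q := q) X t) = fun x => Finset.univ.sup fun l : X.Λ =>
      (if X.τ l = t then ‖ev x (X.G l)‖₊ else (0 : ℝ≥0)) := by
    funext x
    unfold nI
    congr 1
  rw [h2]
  have h3 : (fun x : X.ι → ℤ_[q] => Finset.univ.sup fun l : X.Λ =>
      (if X.τ l = t then ‖ev x (X.G l)‖₊ else (0 : ℝ≥0))) =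
      Finset.univ.sup fun (l : X.Λ) (x : X.ι → ℤ_[q]) =>
        (if X.τ l = t then ‖ev x (X.G l)‖₊ else (0 : ℝ≥0)) := by
    funext x
    rw [Finset.sup_apply]
  rw [h3]
  refine Finset.sup_induction (p := fun f : (X.ι → ℤ_[q]) → ℝ≥0 => Measurable f) ?_ ?_ ?_
  · exact measurable_const
  · intro f hf g hg
    exact hf.sup hg
  · intro l _
    exact h l

theorem nI_le (X : Sys T) (t : Fin T) (x : X.ι → ℤ_[q]) : nI X t x ≤ 1 := by
  unfold nI
  refine Finset.sup_le fun l _ => ?_
  split_ifs
  · exact PadicInt.norm_le_one _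
  · exact zero_le_one

theorem nI_one (X : Sys T) (t : Fin T) (h : ∃ l, X.τ l = t ∧ X.G l = 1) (x : X.ι → ℤ_[q]) :
    nI X t x = 1 := by
  refine le_antisymm (nI_le X t x) ?_
  obtain ⟨l, h1, h2⟩ := h
  unfold nI
  refine le_trans ?_ (Finset.le_sup (Finset.mem_univ l))
  rw [if_pos h1, h2, map_one, nnnorm_one]

theorem ev_scale {σ : Type} [Fintype σ] (wt : σ → Bool) (P : MvPolynomial σ ℤ) (n : ℕ)
    (h : IsWeightedHomogeneous (fun i => if wt i = true then 1 else 0) P n)
    {A : Type} [CommRing A] (c : A) (x : σ → A) :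
    ev (fun i => if wt i = true then c * x i else x i) P = c ^ n * ev x P := by
  classical
  have h1 : ∀ y : σ → A, ev y P = ∑ d ∈ P.support, ((coeff d P : ℤ) : A) * ∏ i, y i ^ d i := by
    intro y
    have := MvPolynomial.eval₂_eq' (Int.castRingHom A) y P
    exact this
  rw [h1, h1, Finset.mul_sum]
  refine Finset.sum_congr rfl fun d hd => ?_
  have h2 : Finsupp.weight (fun i => if wt i = true then 1 else 0) d = n :=
    h (mem_support_iff.1 hd)
  have h3 : ∏ i, (if wt i = true then c * x i else x i) ^ d i =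
      c ^ n * ∏ i, x i ^ d i := by
    have h4 : ∀ i, (if wt i = true then c * x i else x i) ^ d i =
        c ^ (d i * (if wt i = true then 1 else 0)) * x i ^ d i := by
      intro i
      split_ifs
      · rw [mul_pow, mul_one]
      · rw [mul_zero, pow_zero, one_mul]
    rw [Finset.prod_congr rfl fun i _ => h4 i, Finset.prod_mul_distrib,
      Finset.prod_pow_eq_pow_sum]
    congr 2
    rw [← h2, Finsupp.weight_apply, Finsupp.sum_fintype]
    · simp
    · simp
  rw [h3]
  ring

theorem nI_scale (X : Sys T) (wt : X.ι → Bool) (e : Fin T → ℕ)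
    (hom : ∀ l, IsWeightedHomogeneous (fun i => if wt i = true then 1 else 0) (X.G l) (e (X.τ l)))
    (t : Fin T) (x : X.ι → ℤ_[q]) :
    nI X t (fun i => if wt i = true then (q : ℤ_[q]) * x i else x i) =
      (q : ℝ≥0)⁻¹ ^ e t * nI X t x := by
  unfold nI
  rw [NNReal.mul_finset_sup]
  refine congrArg _ (funext fun l => ?_)
  split_ifs with h
  · rw [ev_scale wt (X.G l) _ (hom l), h, nnnorm_mul, nnnorm_pow]
    congr 2
    have : ‖(q : ℤ_[q])‖ = (q : ℝ)⁻¹ := PadicInt.norm_p
    exact NNReal.coe_injective (by push_cast; exact this)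
  · rw [mul_zero]

end nrm

/-! ### integrals -/

section int

variable {q : ℕ} [Fact q.Prime] {T : ℕ}

/-- the integrand -/
noncomputable def FX (X : Sys T) (a : Fin T → ℕ) (s : ℝ) (x : X.ι → ℤ_[q]) : ℝ≥0∞ :=
  ∏ t, ((nI X t x : ℝ≥0) : ℝ≥0∞) ^ ((a t : ℝ) * s)

theorem FX_meas (X : Sys T) (a : Fin T → ℕ) (s : ℝ) : Measurable (FX (q := q) X a s) := by
  unfold FX
  exact Finset.measurable_prod _ fun t _ =>
    (measurable_coe_nnreal_ennreal.comp (nI_meas X t)).pow_const _

theorem FX_le (X : Sys T) (a : Fin T → ℕ) (s : ℝ) (hs : 0 < s) (x : X.ι → ℤ_[q]) :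
    FX X a s x ≤ 1 := by
  unfold FX
  refine Finset.prod_le_one' fun t _ => ?_
  exact ENNReal.rpow_le_one (by exact_mod_cast nI_le X t x) (by positivity)

theorem FX_scale (X : Sys T) (wt : X.ι → Bool) (e : Fin T → ℕ)
    (hom : ∀ l, IsWeightedHomogeneous (fun i => if wt i = true then 1 else 0) (X.G l) (e (X.τ l)))
    (a : Fin T → ℕ) (s : ℝ) (hs : 0 < s) (x : X.ι → ℤ_[q]) :
    FX X a s (fun i => if wt i = true then (q : ℤ_[q]) * x i else x i) =
      Tt q s ^ (∑ t, a t * e t) * FX X a s x := by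
  unfold FX
  rw [← Finset.prod_pow_eq_pow_sum, ← Finset.prod_mul_distrib]
  refine Finset.prod_congr rfl fun t _ => ?_
  rw [nI_scale X wt e hom, ENNReal.coe_mul, ENNReal.mul_rpow_of_nonneg _ _ (by positivity)]
  congr 1
  have hp0 : (q : ℝ≥0) ≠ 0 := by exact_mod_cast (Fact.out : q.Prime).ne_zero
  have h1 : Tt q s = (((q : ℝ≥0)⁻¹ : ℝ≥0) : ℝ≥0∞) ^ s := by
    unfold Tt
    rw [Real.rpow_neg (Nat.cast_nonneg _), ← Real.inv_rpow (Nat.cast_nonneg _),
      ← ENNReal.ofReal_rpow_of_nonneg (by positivity) hs.le]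
    congr 1
    rw [ENNReal.ofReal, Real.toNNReal_inv, Real.toNNReal_natCast]
  rw [h1, ENNReal.coe_pow, ← ENNReal.rpow_natCast, ← ENNReal.rpow_natCast, ← ENNReal.rpow_mul,
    ← ENNReal.rpow_mul]
  congr 1
  push_cast
  ring

theorem HHc_eq (X : Sys T) (a : Fin T → ℕ) (s : ℝ) (w : X.ι → ℤ_[q]) :
    HHc X a s w = ∫⁻ z, FX X a s (fun i => w i + (q : ℤ_[q]) * z i) ∂(hm q X.ι) := rfl

theorem HHc_le (X : Sys T) (a : Fin T → ℕ) (s : ℝ) (hs : 0 < s) (w : X.ι → ℤ_[q]) :
    HHc X a s w ≤ 1 := by
  rw [HHc_eq]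
  refine (lintegral_mono fun z => FX_le X a s hs _).trans ?_
  rw [lintegral_one, measure_univ]

/-- the integral over the classes of the unscaled coordinates -/
noncomputable def II (X : Sys T) (a : Fin T → ℕ) (s : ℝ) (wt : X.ι → Bool) (w : X.ι → ℤ_[q]) :
    ℝ≥0∞ :=
  ∫⁻ z, FX X a s (fun i => if wt i = true then z i else w i + (q : ℤ_[q]) * z i) ∂(hm q X.ι)

theorem II_le (X : Sys T) (a : Fin T → ℕ) (s : ℝ) (hs : 0 < s) (wt : X.ι → Bool)
    (w : X.ι → ℤ_[q]) : II X a s wt w ≤ 1 := by
  unfold II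
  refine (lintegral_mono fun z => FX_le X a s hs _).trans ?_
  rw [lintegral_one, measure_univ]

theorem meas_II (X : Sys T) (wt : X.ι → Bool) (w : X.ι → ℤ_[q]) :
    Measurable (fun (z : X.ι → ℤ_[q]) (i : X.ι) =>
      if wt i = true then z i else w i + (q : ℤ_[q]) * z i) := by
  refine Continuous.measurable ?_
  refine continuous_pi fun i => ?_
  by_cases h : wt i = true
  · simp only [h, if_true]
    exact continuous_apply i
  · simp only [h, Bool.false_eq_true, if_false]
    fun_prop

/-- the classes where the scaled coordinates vanish -/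
theorem HHc_scaled (X : Sys T) (wt : X.ι → Bool) (e : Fin T → ℕ)
    (hom : ∀ l, IsWeightedHomogeneous (fun i => if wt i = true then 1 else 0) (X.G l) (e (X.τ l)))
    (a : Fin T → ℕ) (s : ℝ) (hs : 0 < s) (w : X.ι → ℤ_[q])
    (hw : ∀ i, wt i = true → (q : ℤ_[q]) ∣ w i) :
    HHc X a s w = Tt q s ^ (∑ t, a t * e t) * II X a s wt w := by
  have h1 : ∀ i, ∃ v : ℤ_[q], (wt i = true → w i = (q : ℤ_[q]) * v) ∧ (¬ wt i = true → v = 0) := by
    intro i
    by_cases h : wt i = true
    · obtain ⟨v, hv⟩ := hw i h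
      exact ⟨v, fun _ => hv, fun h' => absurd h h'⟩
    · exact ⟨0, fun h' => absurd h' h, fun _ => rfl⟩
  choose v hv hv0 using h1
  rw [HHc_eq]
  unfold II
  rw [← lintegral_add_left_eq_self (μ := hm q X.ι) (fun z => FX X a s
      (fun i => if wt i = true then z i else w i + (q : ℤ_[q]) * z i)) v,
    ← lintegral_const_mul (μ := hm q X.ι) (f := fun z => FX X a s
      (fun i => if wt i = true then (v + z) i else w i + (q : ℤ_[q]) * (v + z) i)) _
      (((FX_meas X a s).comp (meas_II X wt w)).comp (measurable_const_add v))]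
  refine lintegral_congr fun z => ?_
  rw [← FX_scale X wt e hom a s hs]
  congr 1
  funext i
  by_cases h : wt i = true
  · simp only [h, if_true, Pi.add_apply]
    rw [hv i h]
    ring
  · simp only [h, Pi.add_apply]
    simp only [Bool.false_eq_true, if_false]
    rw [hv0 i h, zero_add]

/-- the point with the scaled coordinates `r` -/
noncomputable def wr {ι : Type} (wt : ι → Bool) (w : ι → ℤ_[q])
    (r : {i // wt i = true} → ZMod q) : ι → ℤ_[q] :=
  fun i => if h : wt i = true then ((r ⟨i, h⟩).val : ℤ_[q]) else w i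

/-- the decomposition -/
theorem II_eq (X : Sys T) (wt : X.ι → Bool) (a : Fin T → ℕ) (s : ℝ) (w : X.ι → ℤ_[q])
    [DecidableEq X.ι] :
    II X a s wt w = ∑ r : {i // wt i = true} → ZMod q,
      ((q : ℝ≥0∞)⁻¹) ^ Fintype.card {i // wt i = true} * HHc X a s (wr wt w r) := by
  unfold II
  rw [lintegral_smP q wt (fun z => FX X a s
      (fun i => if wt i = true then z i else w i + (q : ℤ_[q]) * z i))
      ((FX_meas X a s).comp (meas_II X wt w))]
  unfold smP
  refine Finset.sum_congr rfl fun r _ => ?_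
  have h1 : ∀ z : X.ι → ℤ_[q], (fun i => if wt i = true then pt q wt r z i else
      w i + (q : ℤ_[q]) * pt q wt r z i) = fun i => wr wt w r i + (q : ℤ_[q]) * z i := by
    intro z
    funext i
    by_cases h : wt i = true
    · rw [if_pos h]
      unfold pt wr
      rw [dif_pos h, dif_pos h]
    · rw [if_neg h]
      unfold pt wr
      rw [dif_neg h, dif_neg h]
  have h2 : ∫⁻ z, FX X a s (fun i => if wt i = true then pt q wt r z i else
      w i + (q : ℤ_[q]) * pt q wt r z i) ∂(hm q X.ι) = HHc X a s (wr wt w r) := by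
    rw [HHc_eq]
    exact lintegral_congr fun z => by rw [h1 z]
  rw [h2]

theorem qinv_ne_top (q : ℕ) [Fact q.Prime] (n : ℕ) : ((q : ℝ≥0∞)⁻¹) ^ n ≠ ⊤ := by
  refine ENNReal.pow_ne_top ?_
  rw [Ne, ENNReal.inv_eq_top]
  exact_mod_cast (Fact.out : q.Prime).ne_zero

theorem qinv_toReal (q : ℕ) (n : ℕ) : (((q : ℝ≥0∞)⁻¹) ^ n).toReal = ((q : ℝ)⁻¹) ^ n := by
  rw [ENNReal.toReal_pow, ENNReal.toReal_inv, ENNReal.toReal_natCast]

/-- **The recursion.** -/
theorem tw_int (hPP : S_PP) (a : Fin T → ℕ) (D : Set (ℕ × (Fin T → ℕ))) (ha : ∀ t, 0 < a t)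
    (X : Sys T) (hX : Tw2 D X) : ∀ w : X.ι → ℤ_[q],
      Good q {r | ∃ p ∈ D, 0 < ∑ t, a t * p.2 t ∧ r = (p.1, ∑ t, a t * p.2 t)}
        (fun s => (HHc X a s w).toReal) := by
  classical
  set R : Set (ℕ × ℕ) := {r | ∃ p ∈ D, 0 < ∑ t, a t * p.2 t ∧ r = (p.1, ∑ t, a t * p.2 t)} with hR
  induction hX with
  | unit X h =>
    intro w
    refine ⟨[], 1, by simp, fun s hs => ?_⟩
    have h1 : HHc X a s w = 1 := by
      have h2 : ∀ z : X.ι → ℤ_[q], FX X a s (fun i => w i + (q : ℤ_[q]) * z i) = 1 := by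
        intro z
        unfold FX
        refine Finset.prod_eq_one fun t _ => ?_
        rw [nI_one X t (h t), ENNReal.coe_one, ENNReal.one_rpow]
      rw [HHc_eq, lintegral_congr h2, lintegral_one, measure_univ]
    simp only [h1]
    simp
  | mk X wt e he hom hD B fB Y pv cov h ih =>
    -- the classes where some scaled coordinate does not vanish
    have hA : ∀ w : X.ι → ℤ_[q], (∃ i, wt i = true ∧ ¬ (q : ℤ_[q]) ∣ w i) →
        Good q R (fun s => (HHc X a s w).toReal) := by
      rintro w ⟨i, hi, hi2⟩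
      have hne : PadicInt.toZMod (w i) ≠ 0 := fun h0 => hi2 (dvd_of_toZMod q _ h0)
      obtain ⟨b, hb⟩ := cov (ZMod q) (fun i => PadicInt.toZMod (w i)) ⟨i, hi, hne⟩
      have h1 : PadicInt.toZMod ((pv b).toSh.U w) ≠ 0 := by
        have h2 : PadicInt.toZMod ((pv b).toSh.U w) =
            (pv b).toSh.U (fun i => PadicInt.toZMod (w i)) := by
          unfold Sh.U
          rw [map_ev]
        rw [h2]
        exact hb
      have h3 : IsUnit ((pv b).toSh.U w) := by
        by_contra h4
        apply h1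
        have h5 : (pv b).toSh.U w ∈ IsLocalRing.maximalIdeal ℤ_[q] :=
          (IsLocalRing.mem_maximalIdeal _).2 h4
        rw [← PadicInt.ker_toZMod] at h5
        exact h5
      obtain ⟨w', hw'⟩ := hPP q T X (Y b) (pv b) w h3
      exact (ih b w').congr fun s hs => by rw [hw' a s hs]
    -- the exponent is positive
    obtain ⟨t0, ht0⟩ := he
    have hN : 0 < ∑ t, a t * e t := by
      refine lt_of_lt_of_le (Nat.mul_pos (ha t0) ht0) ?_
      exact Finset.single_le_sum (f := fun t => a t * e t) (fun _ _ => Nat.zero_le _)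
        (Finset.mem_univ t0)
    set N := ∑ t, a t * e t with hNdef
    set ν := (Finset.univ.filter fun i => wt i = true).card with hν
    have hνc : Fintype.card {i // wt i = true} = ν := by
      rw [Fintype.card_subtype]
    have hr : ((ν, N) : ℕ × ℕ) ∈ R := ⟨_, hD, hN, rfl⟩
    -- the integrals `II`
    have hI : ∀ w : X.ι → ℤ_[q], Good q R (fun s => (II X a s wt w).toReal) := by
      intro w
      refine Good.solve (ν, N) hr ?_
      have hsum : Good q R (fun s => ∑ r ∈ Finset.univ.filter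
          (fun r : {i // wt i = true} → ZMod q => r ≠ 0),
          (Polynomial.C (((q : ℝ)⁻¹) ^ ν)).eval (tr' q s) * (HHc X a s (wr wt w r)).toReal) := by
        refine Good.sum _ _ fun r hr => ?_
        refine Good.polmul (hA _ ?_) _
        have hr0 : r ≠ 0 := (Finset.mem_filter.1 hr).2
        obtain ⟨j, hj⟩ := Function.ne_iff.1 hr0
        refine ⟨j.1, j.2, ?_⟩
        intro hd
        have h5 : wr wt w r j.1 = ((r j).val : ℤ_[q]) := by
          unfold wr
          rw [dif_pos j.2]
        rw [h5, p_dvd_natCast] at hd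
        have h7 : (r j).val < q := ZMod.val_lt (r j)
        have h8 : (r j).val = 0 := Nat.eq_zero_of_dvd_of_lt hd h7
        exact hj ((ZMod.val_eq_zero (r j)).1 h8)
      refine hsum.congr fun s hs => ?_
      have h1 := II_eq X wt a s w
      have h2 : (II X a s wt w).toReal = ∑ r : {i // wt i = true} → ZMod q,
          ((q : ℝ)⁻¹) ^ ν * (HHc X a s (wr wt w r)).toReal := by
        rw [h1, ENNReal.toReal_sum]
        · refine Finset.sum_congr rfl fun r _ => ?_
          rw [ENNReal.toReal_mul, qinv_toReal, hνc]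
        · intro r _
          exact ENNReal.mul_ne_top (qinv_ne_top q _)
            (ne_top_of_le_ne_top ENNReal.one_ne_top (HHc_le X a s hs _))
      have h3 : (HHc X a s (wr wt w 0)).toReal = tr' q s ^ N * (II X a s wt w).toReal := by
        have h4 : HHc X a s (wr wt w 0) = Tt q s ^ N * II X a s wt (wr wt w 0) :=
          HHc_scaled X wt e hom a s hs _ (by
            intro i hi
            unfold wr
            rw [dif_pos hi]
            simp)
        have h5 : II X a s wt (wr wt w 0) = II X a s wt w := by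
          unfold II
          refine lintegral_congr fun z => ?_
          congr 1
          funext i
          by_cases h : wt i = true
          · simp only [h, if_true]
          · simp only [h, wr]
            simp only [Bool.false_eq_true, if_false, dite_false]
        rw [h4, h5, ENNReal.toReal_mul, ENNReal.toReal_pow, Tt_toReal]
      have h6 : (Finset.univ.filter fun r : {i // wt i = true} → ZMod q => ¬ r ≠ 0) = {0} := by
        ext r
        simp
      rw [← Finset.sum_filter_add_sum_filter_not Finset.univ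
        (fun r : {i // wt i = true} → ZMod q => r ≠ 0), h6, Finset.sum_singleton, h3] at h2
      simp only [Polynomial.eval_C]
      linear_combination -h2
    intro w
    by_cases hw : ∃ i, wt i = true ∧ ¬ (q : ℤ_[q]) ∣ w i
    · exact hA w hw
    · push Not at hw
      refine ((hI w).polmul (Polynomial.X ^ N)).congr fun s hs => ?_
      rw [HHc_scaled X wt e hom a s hs w hw, ENNReal.toReal_mul, ENNReal.toReal_pow, Tt_toReal,
        Polynomial.eval_pow, Polynomial.eval_X]

end int

end PE

open MvPolynomial Pool.Agent.TH192.MT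
open MeasureTheory Pool.Agent.W427.SMC Pool.Agent.TH192.PA
open scoped ENNReal NNReal

attribute [local instance] msZ bsZ

/-- **Package PE.** -/
theorem t_PE (h : S_PP) : S_PE := by
  intro q _ T a ha D X hX
  classical
  have h1 := PE.tw_int (q := q) h a D ha X hX
  have h2 : PE.Good q {r | ∃ p ∈ D, 0 < ∑ t, a t * p.2 t ∧ r = (p.1, ∑ t, a t * p.2 t)}
      (fun s => (∫⁻ x : X.ι → ℤ_[q], PE.FX X a s x ∂(hm q X.ι)).toReal) := by
    have h3 : PE.Good q {r | ∃ p ∈ D, 0 < ∑ t, a t * p.2 t ∧ r = (p.1, ∑ t, a t * p.2 t)}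
        (fun s => ∑ w : X.ι → ZMod q, (Polynomial.C (((q : ℝ)⁻¹) ^ Fintype.card X.ι)).eval
          (tr' q s) * (HHc X a s (fun i => ((w i).val : ℤ_[q]))).toReal) :=
      PE.Good.sum _ _ fun w _ => PE.Good.polmul (h1 _) _
    refine h3.congr fun s hs => ?_
    rw [lintegral_smV q _ (PE.FX_meas X a s)]
    unfold smV
    rw [ENNReal.toReal_sum]
    · refine Finset.sum_congr rfl fun w _ => ?_
      rw [ENNReal.toReal_mul, PE.qinv_toReal, Polynomial.eval_C]
      rfl
    · intro w _
      exact ENNReal.mul_ne_top (PE.qinv_ne_top q _)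
        (ne_top_of_le_ne_top ENNReal.one_ne_top (PE.HHc_le X a s hs _))
  obtain ⟨l, P, h4, h5⟩ := h2
  exact ⟨l, P, h4, h5⟩

end Pool.Agent.U397.TM
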