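import Pool.Agent.U397.TM.Spec3
import Pool.Agent.U397.TM.PkgPE

set_option autoImplicit false
set_option linter.unusedSectionVars false
set_option linter.unusedVariables false

/-! # Package PE3: the `p`-adic engine with exact denominators (after `PkgPE` of helper17) -/

namespace Pool.Agent.U397.TM

namespace PE3

open MvPolynomial Pool.Agent.TH192.MT Pool.Agent.U397.TM.PE
open MeasureTheory Pool.Agent.W427.SMC Pool.Agent.TH192.PA
open scoped ENNReal NNReal

attribute [local instance] msZ bsZ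

section good

variable (q : ℕ) [Fact q.Prime] {T : ℕ} {Lb : Type} [DecidableEq Lb]
  (pr : Lb → ℕ × (Fin T → ℕ)) (a : Fin T → ℕ)

/-- the denominator -/
noncomputable def den (s : Finset Lb) : Polynomial ℝ :=
  ∏ lb ∈ s, (1 - Polynomial.C (((q : ℝ)⁻¹) ^ (pr lb).1) *
    Polynomial.X ^ (∑ t, a t * (pr lb).2 t))

/-- `f` times the denominator of `s` is a polynomial in `q ^ (-σ)`. -/
def G3 (s : Finset Lb) (f : ℝ → ℝ) : Prop := ∃ P : Polynomial ℝ, ∀ σ : ℝ, 0 < σ →
  (den q pr a s).eval (tr' q σ) * f σ = P.eval (tr' q σ)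

variable {q pr a}

theorem G3.congr {s : Finset Lb} {f g : ℝ → ℝ} (h : G3 q pr a s f)
    (he : ∀ σ, 0 < σ → f σ = g σ) : G3 q pr a s g := by
  obtain ⟨P, h2⟩ := h
  exact ⟨P, fun σ hσ => by rw [← he σ hσ]; exact h2 σ hσ⟩

theorem G3.sum {s : Finset Lb} {ι : Type} (S : Finset ι) (f : ι → ℝ → ℝ)
    (h : ∀ i ∈ S, G3 q pr a s (f i)) : G3 q pr a s (fun σ => ∑ i ∈ S, f i σ) := by
  classical
  have h' : ∀ i, ∃ P : Polynomial ℝ, i ∈ S → ∀ σ : ℝ, 0 < σ →
      (den q pr a s).eval (tr' q σ) * f i σ = P.eval (tr' q σ) := by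
    intro i
    by_cases hi : i ∈ S
    · obtain ⟨P, hP⟩ := h i hi
      exact ⟨P, fun _ => hP⟩
    · exact ⟨0, fun h => absurd h hi⟩
  choose P hP using h'
  refine ⟨∑ i ∈ S, P i, fun σ hσ => ?_⟩
  rw [Finset.mul_sum, Polynomial.eval_finsetSum]
  exact Finset.sum_congr rfl fun i hi => hP i hi σ hσ

theorem G3.polmul {s : Finset Lb} {f : ℝ → ℝ} (h : G3 q pr a s f) (Q : Polynomial ℝ) :
    G3 q pr a s (fun σ => Q.eval (tr' q σ) * f σ) := by
  obtain ⟨P, hP⟩ := h
  refine ⟨Q * P, fun σ hσ => ?_⟩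
  rw [Polynomial.eval_mul, ← hP σ hσ]
  ring

theorem den_erase {s : Finset Lb} {lb : Lb} (h : lb ∈ s) (σ : ℝ) :
    (den q pr a s).eval (tr' q σ) = (1 - ((q : ℝ)⁻¹) ^ (pr lb).1 *
      tr' q σ ^ (∑ t, a t * (pr lb).2 t)) * (den q pr a (s.erase lb)).eval (tr' q σ) := by
  unfold den
  rw [← Finset.mul_prod_erase s _ h, Polynomial.eval_mul]
  congr 1
  simp

theorem G3.up {s : Finset Lb} {lb : Lb} (hl : lb ∈ s) {f : ℝ → ℝ}
    (h : G3 q pr a (s.erase lb) f) : G3 q pr a s f := by
  obtain ⟨P, hP⟩ := h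
  refine ⟨(1 - Polynomial.C (((q : ℝ)⁻¹) ^ (pr lb).1) *
    Polynomial.X ^ (∑ t, a t * (pr lb).2 t)) * P, fun σ hσ => ?_⟩
  rw [den_erase hl, mul_assoc, hP σ hσ, Polynomial.eval_mul]
  congr 1
  simp

theorem G3.solve {s : Finset Lb} {lb : Lb} (hl : lb ∈ s) {f : ℝ → ℝ}
    (h : G3 q pr a (s.erase lb) (fun σ => (1 - ((q : ℝ)⁻¹) ^ (pr lb).1 *
      tr' q σ ^ (∑ t, a t * (pr lb).2 t)) * f σ)) : G3 q pr a s f := by
  obtain ⟨P, hP⟩ := h
  refine ⟨P, fun σ hσ => ?_⟩
  rw [den_erase hl, ← hP σ hσ]
  ring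

end good

section int

variable {q : ℕ} [Fact q.Prime] {T : ℕ}

/-- **The recursion.** -/
theorem tw3_int (hPP : S_PP) (a : Fin T → ℕ) {Lb : Type} [DecidableEq Lb]
    (pr : Lb → ℕ × (Fin T → ℕ)) (ha : ∀ t, 0 < a t) (S : Finset Lb)
    (X : Sys T) (hX : Tw3 pr S X) : ∀ w : X.ι → ℤ_[q],
      G3 q pr a S (fun s => (HHc X a s w).toReal) := by
  classical
  induction hX with
  | unit S X h =>
    intro w
    refine ⟨den q pr a S, fun s hs => ?_⟩
    have h1 : HHc X a s w = 1 := by
      have h2 : ∀ z : X.ι → ℤ_[q], FX X a s (fun i => w i + (q : ℤ_[q]) * z i) = 1 := by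
        intro z
        unfold FX
        refine Finset.prod_eq_one fun t _ => ?_
        rw [nI_one X t (h t), ENNReal.coe_one, ENNReal.one_rpow]
      rw [HHc_eq, lintegral_congr h2, lintegral_one, measure_univ]
    simp only [h1, ENNReal.toReal_one, mul_one]
  | mk S X wt e he hom lb hlb hD B fB Y pv cov h ih =>
    -- the classes where some scaled coordinate does not vanish
    have hA : ∀ w : X.ι → ℤ_[q], (∃ i, wt i = true ∧ ¬ (q : ℤ_[q]) ∣ w i) →
        G3 q pr a (S.erase lb) (fun s => (HHc X a s w).toReal) := by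
      rintro w ⟨i, hi, hi2⟩
      have hne : PadicInt.toZMod (w i) ≠ 0 := fun h0 => hi2 (dvd_of_toZMod q _ h0)
      obtain ⟨b, hb⟩ := cov (ZMod q) (fun i => PadicInt.toZMod (w i)) ⟨i, hi, hne⟩
      have h1 : PadicInt.toZMod ((pv b).toSh.U w) ≠ 0 := by
        have h2 : PadicInt.toZMod ((pv b).toSh.U w) =
            (pv b).toSh.U (fun i => PadicInt.toZMod (w i)) := by
          unfold Sh.U
          rw [map_ev]
        rw [h2]
        exact hb
      have h3 : IsUnit ((pv b).toSh.U w) := by
        by_contra h4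
        apply h1
        have h5 : (pv b).toSh.U w ∈ IsLocalRing.maximalIdeal ℤ_[q] :=
          (IsLocalRing.mem_maximalIdeal _).2 h4
        rw [← PadicInt.ker_toZMod] at h5
        exact h5
      obtain ⟨w', hw'⟩ := hPP q T X (Y b) (pv b) w h3
      exact (ih b w').congr fun s hs => by rw [hw' a s hs]
    -- the exponent is positive
    obtain ⟨t0, ht0⟩ := he
    have hN : 0 < ∑ t, a t * e t := by
      refine lt_of_lt_of_le (Nat.mul_pos (ha t0) ht0) ?_
      exact Finset.single_le_sum (f := fun t => a t * e t) (fun _ _ => Nat.zero_le _)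
        (Finset.mem_univ t0)
    set N := ∑ t, a t * e t with hNdef
    set ν := (Finset.univ.filter fun i => wt i = true).card with hν
    have hνc : Fintype.card {i // wt i = true} = ν := by
      rw [Fintype.card_subtype]
    have hr1 : (pr lb).1 = ν := by rw [hD]
    have hr2 : ∑ t, a t * (pr lb).2 t = N := by rw [hD]
    -- the integrals `II`
    have hI : ∀ w : X.ι → ℤ_[q], G3 q pr a S (fun s => (II X a s wt w).toReal) := by
      intro w
      refine G3.solve hlb ?_
      rw [hr1, hr2]
      have hsum : G3 q pr a (S.erase lb) (fun s => ∑ r ∈ Finset.univ.filter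
          (fun r : {i // wt i = true} → ZMod q => r ≠ 0),
          (Polynomial.C (((q : ℝ)⁻¹) ^ ν)).eval (tr' q s) * (HHc X a s (wr wt w r)).toReal) := by
        refine G3.sum _ _ fun r hr => ?_
        refine G3.polmul (hA _ ?_) _
        have hr0 : r ≠ 0 := (Finset.mem_filter.1 hr).2
        obtain ⟨j, hj⟩ := Function.ne_iff.1 hr0
        refine ⟨j.1, j.2, ?_⟩
        intro hd
        have h5 : wr wt w r j.1 = ((r j).val : ℤ_[q]) := by
          unfold wr
          rw [dif_pos j.2]
        rw [h5, p_dvd_natCast] at hd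
        have h7 : (r j).val < q := ZMod.val_lt (r j)
        have h8 : (r j).val = 0 := Nat.eq_zero_of_dvd_of_lt hd h7
        exact hj ((ZMod.val_eq_zero (r j)).1 h8)
      refine hsum.congr fun s hs => ?_
      have h1 := II_eq X wt a s w
      have h2 : (II X a s wt w).toReal = ∑ r : {i // wt i = true} → ZMod q,
          ((q : ℝ)⁻¹) ^ ν * (HHc X a s (wr wt w r)).toReal := by
        rw [h1, ENNReal.toReal_sum]
        · refine Finset.sum_congr rfl fun r _ => ?_
          rw [ENNReal.toReal_mul, qinv_toReal, hνc]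
        · intro r _
          exact ENNReal.mul_ne_top (qinv_ne_top q _)
            (ne_top_of_le_ne_top ENNReal.one_ne_top (HHc_le X a s hs _))
      have h3 : (HHc X a s (wr wt w 0)).toReal = tr' q s ^ N * (II X a s wt w).toReal := by
        have h4 : HHc X a s (wr wt w 0) = Tt q s ^ N * II X a s wt (wr wt w 0) :=
          HHc_scaled X wt e hom a s hs _ (by
            intro i hi
            unfold wr
            rw [dif_pos hi]
            simp)
        have h5 : II X a s wt (wr wt w 0) = II X a s wt w := by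
          unfold II
          refine lintegral_congr fun z => ?_
          congr 1
          funext i
          by_cases h : wt i = true
          · simp only [h, if_true]
          · simp only [h, wr]
            simp only [Bool.false_eq_true, if_false, dite_false]
        rw [h4, h5, ENNReal.toReal_mul, ENNReal.toReal_pow, Tt_toReal]
      have h6 : (Finset.univ.filter fun r : {i // wt i = true} → ZMod q => ¬ r ≠ 0) = {0} := by
        ext r
        simp
      rw [← Finset.sum_filter_add_sum_filter_not Finset.univ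
        (fun r : {i // wt i = true} → ZMod q => r ≠ 0), h6, Finset.sum_singleton, h3] at h2
      simp only [Polynomial.eval_C]
      linear_combination -h2
    intro w
    by_cases hw : ∃ i, wt i = true ∧ ¬ (q : ℤ_[q]) ∣ w i
    · exact G3.up hlb (hA w hw)
    · push Not at hw
      refine ((hI w).polmul (Polynomial.X ^ N)).congr fun s hs => ?_
      rw [HHc_scaled X wt e hom a s hs w hw, ENNReal.toReal_mul, ENNReal.toReal_pow, Tt_toReal,
        Polynomial.eval_pow, Polynomial.eval_X]

end int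

end PE3

open MvPolynomial Pool.Agent.TH192.MT
open MeasureTheory Pool.Agent.W427.SMC Pool.Agent.TH192.PA
open scoped ENNReal NNReal

attribute [local instance] msZ bsZ

/-- **Package PE3.** -/
theorem t_PE3 (h : S_PP) : S_PE3 := by
  intro q _ T a ha Lb _ pr S X hX
  classical
  have h1 := PE3.tw3_int (q := q) h a pr ha S X hX
  have h2 : PE3.G3 q pr a S
      (fun s => (∫⁻ x : X.ι → ℤ_[q], PE.FX X a s x ∂(hm q X.ι)).toReal) := by
    have h3 : PE3.G3 q pr a S
        (fun s => ∑ w : X.ι → ZMod q, (Polynomial.C (((q : ℝ)⁻¹) ^ Fintype.card X.ι)).eval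
          (tr' q s) * (HHc X a s (fun i => ((w i).val : ℤ_[q]))).toReal) :=
      PE3.G3.sum _ _ fun w _ => PE3.G3.polmul (h1 _) _
    refine h3.congr fun s hs => ?_
    rw [lintegral_smV q _ (PE.FX_meas X a s)]
    unfold smV
    rw [ENNReal.toReal_sum]
    · refine Finset.sum_congr rfl fun w _ => ?_
      rw [ENNReal.toReal_mul, PE.qinv_toReal, Polynomial.eval_C]
      rfl
    · intro w _
      exact ENNReal.mul_ne_top (PE.qinv_ne_top q _)
        (ne_top_of_le_ne_top ENNReal.one_ne_top (PE.HHc_le X a s hs _))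
  obtain ⟨P, h5⟩ := h2
  refine ⟨P, fun σ hσ => ?_⟩
  rw [← h5 σ hσ]
  congr 1
  unfold PE3.den
  rw [Polynomial.eval_prod]
  refine Finset.prod_congr rfl fun lb _ => ?_
  simp

end Pool.Agent.U397.TM
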