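import Pool.Agent.U397.TM.PAd
import Pool.Agent.U397.TM.PkgRO
import Pool.Agent.U397.TM.PkgPE3

set_option autoImplicit false
set_option linter.unusedVariables false

/-! # The p-adic theorems for the forms with the entries of products of generic matrices -/

namespace Pool.Agent.U397.TM

open MvPolynomial Pool.Agent.W427.SMC Pool.Agent.TH192.DT Pool.Agent.H628R4.TP

variable {q : ℕ} [Fact q.Prime] {T : ℕ}

theorem powD {n : ℕ → ℕ} (h0 : 0 < n 0) (hn : Monotone n) {L : ℕ} {ℓ a : Fin T → ℕ}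
    (hℓ : ∀ t, ℓ t < L) {b : Polynomial ℂ}
    (hb : IsBFunction (map (Int.castRingHom ℂ) (form n L ℓ a)) b ∨
      IsLocalBFunction (map (Int.castRingHom ℂ) (form n L ℓ a)) b) :
    PowData a (gensC n L ℓ) b := by
  classical
  rw [map_form] at hb
  rcases hb with hb | hb
  · exact powData_global a (gensC n L ℓ) (gensC_ne h0 hn L ℓ hℓ) b hb
  · exact powData_local a (gensC n L ℓ) (gensC_ne h0 hn L ℓ hℓ) b hb

theorem root_main {n : ℕ → ℕ} (h0 : 0 < n 0) (hn : Monotone n)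
    (L : ℕ) (ℓ a : Fin T → ℕ) (hℓ : ∀ t, ℓ t < L) (ha : ∀ t, 0 < a t)
    (g : ℂ → ℂ) (hg : MeromorphicOn g Set.univ)
    (h : ∀ s : ℂ, 0 < s.re → g s = igusaZeta q (form n L ℓ a) s) (s0 : ℂ)
    (hs0 : meromorphicOrderAt g s0 < 0) (b : Polynomial ℂ)
    (hb : IsBFunction (map (Int.castRingHom ℂ) (form n L ℓ a)) b ∨
      IsLocalBFunction (map (Int.castRingHom ℂ) (form n L ℓ a)) b) : b.eval (s0.re : ℂ) = 0 :=
  igusa_rootT (t_PE3 t_PP) t_RO h0 hn L ℓ a hℓ ha g hg h s0 hs0 b (powD h0 hn hℓ hb)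

end Pool.Agent.U397.TM
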