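import Pool.Agent.U397.TM.StD
import Pool.Agent.TH192.PA.Poinc
import Pool.Agent.R852.SC.Main

set_option autoImplicit false
set_option linter.unusedSectionVars false
set_option linter.unusedVariables false

/-! # The forms with the entries of products of generic matrices as coefficients: roots -/

namespace Pool.Agent.U397.TM

open MvPolynomial Pool.Agent.TH192.MT Pool.Agent.TH192.DT Pool.Agent.R852.SC
  Pool.Agent.H628R4.TP Pool.Agent.Y231.RF Pool.Agent.TH187.SA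

/-- The form `∏ t, (∑ y_{t,(r,c)} (A 0 ⋯ A (ℓ t))_{r,c}) ^ a t`. -/
noncomputable def form (n : ℕ → ℕ) (L : ℕ) {T : ℕ} (ℓ a : Fin T → ℕ) :
    MvPolynomial ((Σ t, Fin (n 0) × Fin (n (ℓ t + 1))) ⊕ Var n L) ℤ :=
  ∏ t, (∑ j, X (Sum.inl ⟨t, j⟩) * rename Sum.inr (gens n L (ℓ t) j)) ^ a t

/-- the entries with complex coefficients -/
noncomputable def gensC (n : ℕ → ℕ) (L : ℕ) {T : ℕ} (ℓ : Fin T → ℕ) (t : Fin T)
    (j : Fin (n 0) × Fin (n (ℓ t + 1))) : MvPolynomial (Var n L) ℂ :=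
  map (Int.castRingHom ℂ) (gens n L (ℓ t) j)

theorem map_form (n : ℕ → ℕ) (L : ℕ) {T : ℕ} (ℓ a : Fin T → ℕ) :
    map (Int.castRingHom ℂ) (form n L ℓ a) = powProd a (gensC n L ℓ) := by
  unfold form powProd blockForm
  rw [map_prod]
  refine Finset.prod_congr rfl fun t _ => ?_
  rw [map_pow, map_sum]
  congr 1
  refine Finset.sum_congr rfl fun j _ => ?_
  rw [map_mul, map_X, map_rename]
  rfl

theorem gens_homog (n : ℕ → ℕ) (L : ℕ) (i : ℕ) (q : Fin (n 0) × Fin (n (i + 1))) :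
    (gens n L i q).IsHomogeneous (i + 1) := by
  have h0 : ∀ i r c, (genM n L i r c).IsHomogeneous 1 := by
    intro i r c
    unfold genM
    rw [Matrix.of_apply]
    split_ifs
    · exact isHomogeneous_X _ _
    · exact isHomogeneous_zero _ _ _
  have h1 : ∀ i r c, (prodM n (genM n L) i r c).IsHomogeneous (i + 1) := by
    intro i
    induction i with
    | zero => exact fun r c => h0 0 r c
    | succ i ih =>
      intro r c
      change ((prodM n (genM n L) i * genM n L (i + 1)) r c).IsHomogeneous (i + 1 + 1)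
      rw [Matrix.mul_apply]
      exact IsHomogeneous.sum _ _ _ fun b _ => (ih r b).mul (h0 _ _ _)
  exact h1 i q.1 q.2

theorem n_pos {n : ℕ → ℕ} (h0 : 0 < n 0) (hn : Monotone n) (i : ℕ) : 0 < n i :=
  h0.trans_le (hn (Nat.zero_le i))

theorem gens_ne {n : ℕ → ℕ} (h0 : 0 < n 0) (hn : Monotone n) (L : ℕ) (i : ℕ) (hi : i < L)
    (q : Fin (n 0) × Fin (n (i + 1))) : gens n L i q ≠ 0 := by
  intro h
  have h1 : ev (fun _ => (1 : ℤ)) (gens n L i q) = 0 := by rw [h, map_zero]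
  rw [ev_gens] at h1
  have h2 : ∀ i, i < L → ∀ (r : Fin (n 0)) (c : Fin (n (i + 1))),
      0 < prodM n (Apt n L fun _ => (1 : ℤ)) i r c := by
    intro i
    induction i with
    | zero =>
      intro hi r c
      change 0 < if h : 0 < L then (1 : ℤ) else 0
      rw [dif_pos hi]
      exact one_pos
    | succ i ih =>
      intro hi r c
      change 0 < (prodM n (Apt n L fun _ => (1 : ℤ)) i * Apt n L (fun _ => (1 : ℤ)) (i + 1)) r c
      rw [Matrix.mul_apply]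
      have : Nonempty (Fin (n (i + 1))) := ⟨⟨0, n_pos h0 hn _⟩⟩
      refine Finset.sum_pos (fun b _ => mul_pos (ih (by omega) r b) ?_) Finset.univ_nonempty
      change 0 < if h : i + 1 < L then (1 : ℤ) else 0
      rw [dif_pos hi]
      exact one_pos
  have := h2 i hi q.1 q.2
  omega

theorem gensC_ne {n : ℕ → ℕ} (h0 : 0 < n 0) (hn : Monotone n) (L : ℕ) {T : ℕ} (ℓ : Fin T → ℕ)
    (hℓ : ∀ t, ℓ t < L) (t : Fin T) : ∃ j, gensC n L ℓ t j ≠ 0 := by
  refine ⟨(⟨0, h0⟩, ⟨0, n_pos h0 hn _⟩), fun h => ?_⟩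
  unfold gensC at h
  exact gens_ne h0 hn L (ℓ t) (hℓ t) _
    ((map_eq_zero_iff _ (map_injective _ Int.cast_injective)).1 h)

theorem form_ne {n : ℕ → ℕ} (h0 : 0 < n 0) (hn : Monotone n) (L : ℕ) {T : ℕ} (ℓ a : Fin T → ℕ)
    (hℓ : ∀ t, ℓ t < L) : form n L ℓ a ≠ 0 := by
  intro h
  have h1 := map_form n L ℓ a
  rw [h, map_zero] at h1
  exact powProd_ne a (gensC n L ℓ) (gensC_ne h0 hn L ℓ hℓ) h1.symm

/-- the number `ν` is positive -/
theorem nuC_pos' {n : ℕ → ℕ} (h0 : 0 < n 0) (hn : Monotone n) {L i : ℕ} (hi : i < L) {c : ℕ → ℕ}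
    (hc : IsChain n c) (hci : c (i + 1) = 0) : 0 < nuC n L c := by
  classical
  have h1 : ∃ j, c (j + 1) = 0 := ⟨i, hci⟩
  set j := Nat.find h1 with hj
  have h2 : c (j + 1) = 0 := Nat.find_spec h1
  have h3 : 0 < c j := by
    rcases h : j with _ | k
    · rw [hc.zero]
      exact h0
    · have := Nat.find_min h1 (m := k) (by omega)
      omega
  have h4 : j ≤ i := Nat.find_min' h1 hci
  unfold nuC
  refine lt_of_lt_of_le ?_ (Finset.single_le_sum (f := fun i => (c i - c (i + 1)) *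
    (n (i + 1) - c (i + 1))) (fun _ _ => Nat.zero_le _) (Finset.mem_range.2 (by omega : j < L)))
  have h5 := n_pos h0 hn (j + 1)
  rw [h2]
  exact Nat.mul_pos (by omega) (by omega)

/-- **The roots of the chains.** -/
theorem chain_root (hRO : S_RO) {n : ℕ → ℕ} (h0 : 0 < n 0) (hn : Monotone n) (L : ℕ) {T : ℕ}
    (ℓ a : Fin T → ℕ) (hℓ : ∀ t, ℓ t < L) (c : ℕ → ℕ) (hc : IsChain n c)
    (hN : 0 < ∑ t, a t * degC ℓ c t) (b : Polynomial ℂ) (hb : PowData a (gensC n L ℓ) b) :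
    b.eval (-(nuC n L c : ℂ) / (∑ t, a t * degC ℓ c t : ℕ)) = 0 := by
  obtain ⟨t, _, ht⟩ := Finset.exists_ne_zero_of_sum_ne_zero (Nat.pos_iff_ne_zero.1 hN)
  have hat : a t ≠ 0 := left_ne_zero_of_mul ht
  have hct : c (ℓ t + 1) = 0 := by
    by_contra h
    exact right_ne_zero_of_mul ht (if_neg h)
  obtain ⟨H, hH, hHb⟩ := hb.ideal ⟨t, hat⟩
  obtain ⟨p, hp⟩ := hRO n L T ℓ h0 hn hℓ c hc ⟨t, hct⟩
  obtain ⟨r, hr, hHr⟩ := exists_scale H hH p
  have hg : ∀ t j, (gensC n L ℓ t j).IsHomogeneous (ℓ t + 1) := fun t j =>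
    (gens_homog n L (ℓ t) j).map _
  obtain ⟨E, hk, hm, hR, hcc⟩ := smooth_chart (gensC n L ℓ) (nuC n L c) (degC ℓ c)
    (fun j => r * p j) (PowersOfSmooth.scale (fun t => ℓ t + 1) hg hp r hr) (fun t => a t ≠ 0)
    ⟨t, hat, Nat.pos_of_ne_zero (right_ne_zero_of_mul ht)⟩
  have h1 := rees_prod a (gensC n L ℓ) b H hHb E hR (hcc H hHr) 0
    (by rw [Chart.mul, hm]; exact hN) 1
    ⟨1, by rw [map_one]; exact one_ne_zero, by rw [map_one, pow_zero, one_mul]⟩
  rw [Nat.cast_zero, add_zero, Chart.mul, hm] at h1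
  rw [← hk]
  push_cast at h1 ⊢
  exact h1

end Pool.Agent.U397.TM
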