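import Pool.Agent.U397.TM.Form
import Pool.Agent.TH192.MT.IdJet
import Pool.Agent.R852.MX.Roots

set_option autoImplicit false
set_option linter.unusedSectionVars false
set_option linter.unusedVariables false

/-! # The products of the ideals of the entries of products of generic matrices -/

namespace Pool.Agent.U397.TM

open MvPolynomial Pool.Agent.TH192.MT Pool.Agent.TH192.DT Pool.Agent.R852.SC
  Pool.Agent.Y231.RF Pool.Agent.W574.LM Pool.Agent.W428.MOT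

/-- The products of one entry of `A 0 ⋯ A (ℓ t)` for each `t`. -/
noncomputable def prodG (n : ℕ → ℕ) (L : ℕ) {T : ℕ} (ℓ : Fin T → ℕ)
    (j : ∀ t, Fin (n 0) × Fin (n (ℓ t + 1))) : MvPolynomial (Var n L) ℤ :=
  ∏ t, gens n L (ℓ t) (j t)

/-- The pairs `(-ν_c, N_c)` of the chains of ranks on which some factor vanishes. -/
noncomputable def idePairs (n : ℕ → ℕ) (L : ℕ) {T : ℕ} (ℓ : Fin T → ℕ) : Finset (ℤ × ℤ) :=
  (chs n L ℓ).image fun c => (-(nuC n L (cL c) : ℤ), ((∑ t, degC ℓ (cL c) t : ℕ) : ℤ))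

theorem tw3_tw2 {T : ℕ} {Lb : Type} [DecidableEq Lb] {pr : Lb → ℕ × (Fin T → ℕ)}
    {s : Finset Lb} {X : Sys T} (h : Tw3 pr s X) (D : Set (ℕ × (Fin T → ℕ)))
    (hD : ∀ lb ∈ s, pr lb ∈ D) : Tw2 D X := by
  induction h with
  | unit s X h => exact Tw2.unit X h
  | mk s X w e he hom lb hlb hpr B fB Y pv cov h ih =>
    exact Tw2.mk X w e he hom (hpr ▸ hD lb hlb) B fB Y pv cov fun b =>
      ih b fun l hl => hD l (Finset.mem_of_mem_erase hl)

/-- **The zeta functions of the entries of the products are rational.** -/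
theorem topS_rt (hME : S_ME) {K : Type} [Field K] (n : ℕ → ℕ) (L : ℕ) {T : ℕ} (ℓ : Fin T → ℕ)
    (hℓ : ∀ t, ℓ t < L) {R : Type} [CommRing R] {u : Rˣ} {M : Meas K R} (hu : M.L = (u : R))
    (a : Fin T → ℕ) (ha : ∀ t, 0 < a t) :
    Rt u M a {q : ℤ × ℤ | ∃ c ∈ chs n L ℓ, q = (-(nuC n L (cL c) : ℤ),
      ((∑ t, a t * degC ℓ (cL c) t : ℕ) : ℤ))} (topS n L ℓ) := by
  obtain ⟨X, hX, e, he⟩ := t_ST3 n L T ℓ hℓ
  have h1 := hME K T R u M a hu ha {q | ∃ c ∈ chs n L ℓ, q = prC n L ℓ c} X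
    (tw3_tw2 hX _ fun c hc => ⟨c, hc, rfl⟩)
  refine rt_change hu e (fun A _ x t => he A x t) ?_
  intro π _ V hV hG
  refine rat_mono u ?_ (h1 π V hV hG)
  rintro q ⟨p, ⟨c, hc, rfl⟩, _, rfl⟩
  exact ⟨c, hc, rfl⟩

/-- the jets of the product of the ideals -/
theorem jetF_prodG {K : Type} [Field K] (n : ℕ → ℕ) (L : ℕ) {T : ℕ} (ℓ : Fin T → ℕ)
    (W : Set (Pt K (Var n L))) (N : ℕ) :
    JetF (fun j => map (Int.castRingHom K) (prodG n L ℓ j)) W N =
      JetF (fun c => map (Int.castRingHom K) (gX (topS n L ℓ) c)) W N := by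
  refine jetF_congr _ _ (fun j => ?_) (fun c => ?_) W N
  · refine ⟨⟨fun t => ⟨t, j t⟩, fun t => rfl⟩, ?_⟩
    congr 1
  have h1 : ∀ t, ∃ j : Fin (n 0) × Fin (n (ℓ t + 1)),
      (topS n L ℓ).G (c.1 t) = gens n L (ℓ t) j := by
    intro t
    have h2 : ∀ (l : Σ t : Fin T, Fin (n 0) × Fin (n (ℓ t + 1))) (t : Fin T), l.1 = t →
        ∃ j : Fin (n 0) × Fin (n (ℓ t + 1)), gens n L (ℓ l.1) l.2 = gens n L (ℓ t) j := by
      rintro ⟨t', j⟩ t rfl
      exact ⟨j, rfl⟩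
    exact h2 (c.1 t) t (c.2 t)
  choose j hj using h1
  refine ⟨j, ?_⟩
  congr 1
  exact Finset.prod_congr rfl fun t _ => hj t

/-- **The local zeta function of the product of the ideals.** -/
theorem zetaJ_prodG (hME : S_ME) {K : Type} [Field K] [CharZero K] (n : ℕ → ℕ) (L : ℕ) {T : ℕ}
    (ℓ : Fin T → ℕ) (hℓ : ∀ t, ℓ t < L) :
    zetaJ (fun j => map (Int.castRingHom K) (prodG n L ℓ j)) ∈
      ratRing K (idePairs n L ℓ : Set (ℤ × ℤ)) := by
  obtain ⟨M, hL, hM⟩ := exists_meas K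
  refine Subalgebra.mul_mem _ (rat_C (Lu K) _) (drop_mem ?_)
  have hW : Constr ({0} : Set (Pt K (Var n L))) := constr_zero
  have h1 := topS_rt hME n L ℓ hℓ hL (fun _ => 1) (fun _ => Nat.one_pos) Empty
    (VI (topS n L ℓ) {0}) (constr_VI (topS n L ℓ) hW) (gd_VI (topS n L ℓ) {0})
  rw [← zetaI_eq M _ (hv hL) (topS n L ℓ) hW] at h1
  have h2 : (PowerSeries.mk fun N => algebraMap (K0 K) (MK K) (cls (Var n L × Fin (N + 1))
      (JetF (fun j => map (Int.castRingHom K) (prodG n L ℓ j)) {0} N)) *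
      (((Lu K) ^ (-((Fintype.card (Var n L) * N : ℕ) : ℤ)) : (MK K)ˣ) : MK K)) =
      PowerSeries.mk fun N => M.χ ((topS n L ℓ).ι × Fin (N + 1))
      (JetF (fun c => map (Int.castRingHom K) (gX (topS n L ℓ) c)) {0} N) *
        (((Lu K)⁻¹ : (MK K)ˣ) : MK K) ^ (N * Fintype.card (topS n L ℓ).ι) := by
    congr 1
    funext N
    rw [hM, inv_pow_eq, jetF_prodG, Nat.mul_comm]
  rw [h2]
  refine rat_mono (Lu K) ?_ h1
  rintro q ⟨c, hc, rfl⟩
  rw [Finset.mem_coe, idePairs, Finset.mem_image]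
  exact ⟨c, hc, by simp only [one_mul]⟩

/-- one factor for each `t` -/
def eOne {T : ℕ} (κ : Fin T → Type) :
    ((q : Σ _ : Fin T, Fin 1) → κ q.1) ≃ (∀ t, κ t) where
  toFun J t := J ⟨t, 0⟩
  invFun j q := j q.1
  left_inv J := by
    funext q
    obtain ⟨t, i⟩ := q
    obtain rfl : i = 0 := Subsingleton.elim _ _
    rfl
  right_inv j := rfl

theorem map_prodG (n : ℕ → ℕ) (L : ℕ) {T : ℕ} (ℓ : Fin T → ℕ)
    (j : ∀ t, Fin (n 0) × Fin (n (ℓ t + 1))) :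
    map (Int.castRingHom ℂ) (prodG n L ℓ j) = prodFam (gensC n L ℓ) j := by
  unfold prodG prodFam
  rw [map_prod]
  rfl

/-- **The roots of the chains**, for the product of the ideals. -/
theorem chain_rootI (hRO : S_RO) {n : ℕ → ℕ} (h0 : 0 < n 0) (hn : Monotone n) (L : ℕ) {T : ℕ}
    (ℓ : Fin T → ℕ) (hℓ : ∀ t, ℓ t < L) (c : ℕ → ℕ) (hc : IsChain n c)
    (hct : ∃ t, c (ℓ t + 1) = 0) (b : Polynomial ℂ) (H : MvPolynomial (Var n L) ℂ)
    (hH : constantCoeff H ≠ 0)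
    (hb : IsLocEq H (fun j => map (Int.castRingHom ℂ) (prodG n L ℓ j)) b) :
    b.eval (-(nuC n L c : ℂ) / (∑ t, degC ℓ c t : ℕ)) = 0 := by
  obtain ⟨t, ht⟩ := id hct
  have hN : 0 < ∑ t, 1 * degC ℓ c t := by
    refine Finset.sum_pos' (fun _ _ => Nat.zero_le _) ⟨t, Finset.mem_univ t, ?_⟩
    unfold degC
    rw [if_pos ht]
    exact Nat.one_pos
  have hHb : IsLocEq H (prodFam fun q : Σ _ : Fin T, Fin 1 => gensC n L ℓ q.1) b := by
    refine Pool.Agent.R852.MX.locEq_reindex (eOne fun t => Fin (n 0) × Fin (n (ℓ t + 1))) H _ _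
      ?_ b hb
    intro J
    rw [map_prodG]
    change ∏ t, gensC n L ℓ t (J ⟨t, 0⟩) =
      ∏ q : Σ _ : Fin T, Fin 1, gensC n L ℓ q.1 (J q)
    rw [Fintype.prod_sigma]
    exact Finset.prod_congr rfl fun t _ => by rw [Fin.prod_univ_one]
  obtain ⟨p, hp⟩ := hRO n L T ℓ h0 hn hℓ c hc hct
  obtain ⟨r, hr, hHr⟩ := exists_scale H hH p
  have hg : ∀ t j, (gensC n L ℓ t j).IsHomogeneous (ℓ t + 1) := fun t j =>
    (gens_homog n L (ℓ t) j).map _
  have hdt : 0 < degC ℓ c t := by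
    unfold degC
    rw [if_pos ht]
    exact Nat.one_pos
  obtain ⟨E, hk, hm, hR, hcc⟩ := smooth_chart (gensC n L ℓ) (nuC n L c) (degC ℓ c)
    (fun j => r * p j) (PowersOfSmooth.scale (fun t => ℓ t + 1) hg hp r hr)
    (fun _ => (1 : ℕ) ≠ 0) ⟨t, one_ne_zero, hdt⟩
  have h1 := rees_prod (fun _ : Fin T => 1) (gensC n L ℓ) b H hHb E hR (hcc H hHr) 0
    (by rw [Chart.mul, hm]; exact hN) 1
    ⟨1, by rw [map_one]; exact one_ne_zero, by rw [map_one, pow_zero, one_mul]⟩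
  rw [Nat.cast_zero, add_zero, Chart.mul, hm] at h1
  rw [← hk]
  simp only [one_mul] at h1
  push_cast at h1 ⊢
  exact h1

/-- **The motivic monodromy conjecture at the origin for the products of the ideals of the entries
of products of generic matrices.** -/
theorem t_IDE (hRO : S_RO) (hME : S_ME) (n : ℕ → ℕ) (L T : ℕ) (ℓ : Fin T → ℕ) (h0 : 0 < n 0)
    (hn : Monotone n) (hℓ : ∀ t, ℓ t < L) :
    (∀ q ∈ idePairs n L ℓ, q.1 < 0 ∧ 0 < q.2 ∧
      ∀ (b : Polynomial ℂ) (H : MvPolynomial (Var n L) ℂ), constantCoeff H ≠ 0 →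
        IsLocEq H (fun j => map (Int.castRingHom ℂ) (prodG n L ℓ j)) b →
          b.eval ((q.1 : ℂ) / q.2) = 0) ∧
    zetaJ (fun j => map (Int.castRingHom ℂ) (prodG n L ℓ j)) ∈
      ratRing ℂ (idePairs n L ℓ : Set (ℤ × ℤ)) := by
  refine ⟨fun q hq => ?_, zetaJ_prodG hME n L ℓ hℓ⟩
  rw [idePairs, Finset.mem_image] at hq
  obtain ⟨c, hc, rfl⟩ := hq
  rw [mem_chs] at hc
  obtain ⟨hc, t, ht⟩ := hc
  have h1 : 0 < nuC n L (cL c) := nuC_pos' h0 hn (hℓ t) hc ht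
  have h2 : 0 < ∑ t, degC ℓ (cL c) t := by
    refine Finset.sum_pos' (fun _ _ => Nat.zero_le _) ⟨t, Finset.mem_univ t, ?_⟩
    unfold degC
    rw [if_pos ht]
    exact Nat.one_pos
  refine ⟨by simp only; omega, by simp only; exact_mod_cast h2, fun b H hH hb => ?_⟩
  have h3 := chain_rootI hRO h0 hn L ℓ hℓ (cL c) hc ⟨t, ht⟩ b H hH hb
  push_cast at h3 ⊢
  exact h3

end Pool.Agent.U397.TM
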