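import Pool.Agent.U397.TM.Spec

set_option autoImplicit false
set_option linter.unusedSectionVars false
set_option linter.unusedVariables false

/-! # Package PP: `p`-adic pivots with a shear which depends on kept coordinates (helper461) -/

namespace Pool.Agent.U397.TM

open MvPolynomial Pool.Agent.TH192.MT MeasureTheory Pool.Agent.W427.SMC Pool.Agent.TH192.PA
open scoped ENNReal NNReal

attribute [local instance] msZ bsZ

section padic

variable {q : ℕ} [Fact q.Prime] {T : ℕ}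

/-! ### the norms of the ideals -/

theorem le_nI (X : Sys T) (t : Fin T) (x : X.ι → ℤ_[q]) (y : ℤ_[q]) (hy : y ∈ fI X x t) :
    ‖y‖₊ ≤ nI X t x := by
  classical
  unfold fI at hy
  induction hy using Submodule.span_induction with
  | mem y hy =>
    obtain ⟨l, hl, rfl⟩ := hy
    unfold nI
    refine le_trans (le_of_eq ?_) (Finset.le_sup (Finset.mem_univ l))
    rw [if_pos hl]
  | zero => rw [nnnorm_zero]; exact zero_le
  | add y z _ _ hy hz =>
    have h1 : ‖y + z‖ ≤ max ‖y‖ ‖z‖ := PadicInt.nonarchimedean y z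
    have h2 : ‖y + z‖₊ ≤ max ‖y‖₊ ‖z‖₊ := by
      rw [← NNReal.coe_le_coe, NNReal.coe_max]
      exact h1
    exact h2.trans (max_le hy hz)
  | smul s y _ hy =>
    have h1 : ‖s • y‖₊ ≤ ‖y‖₊ := by
      rw [smul_eq_mul, nnnorm_mul]
      refine mul_le_of_le_one_left zero_le ?_
      rw [← NNReal.coe_le_coe]
      exact PadicInt.norm_le_one s
    exact h1.trans hy

theorem nI_le (X : Sys T) (t : Fin T) (x : X.ι → ℤ_[q]) (c : ℝ≥0)
    (h : ∀ l, X.τ l = t → ‖ev x (X.G l)‖₊ ≤ c) : nI X t x ≤ c := by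
  classical
  unfold nI
  refine Finset.sup_le fun l _ => ?_
  split_ifs with h1
  · exact h l h1
  · exact zero_le

theorem nI_congr (X Y : Sys T) (t : Fin T) (x : X.ι → ℤ_[q]) (y : Y.ι → ℤ_[q])
    (h : fI X x t = fI Y y t) : nI X t x = nI Y t y := by
  refine le_antisymm (nI_le X t x _ fun l hl => le_nI Y t y _ ?_)
    (nI_le Y t y _ fun l hl => le_nI X t x _ ?_)
  · rw [← h]
    exact Ideal.subset_span ⟨l, hl, rfl⟩
  · rw [h]
    exact Ideal.subset_span ⟨l, hl, rfl⟩

theorem cont_ev {ι : Type} (P : MvPolynomial ι ℤ) :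
    Continuous fun x : ι → ℤ_[q] => ev x P := by
  induction P using MvPolynomial.induction_on with
  | C a => simp only [ev_C]; exact continuous_const
  | add p q hp hq => simp only [map_add]; exact hp.add hq
  | mul_X p i hp => simp only [map_mul, ev_X]; exact hp.mul (continuous_apply i)

theorem cont_nI (X : Sys T) (t : Fin T) : Continuous fun x : X.ι → ℤ_[q] => nI X t x := by
  classical
  unfold nI
  have h : ∀ s : Finset X.Λ, Continuous fun x : X.ι → ℤ_[q] =>
      s.sup fun l => if X.τ l = t then ‖ev x (X.G l)‖₊ else 0 := by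
    intro s
    induction s using Finset.induction_on with
    | empty => simp only [Finset.sup_empty]; exact continuous_const
    | insert a s ha ih =>
      simp only [Finset.sup_insert]
      refine Continuous.sup ?_ ih
      split_ifs
      · exact (cont_ev _).nnnorm
      · exact continuous_const
  exact h Finset.univ

/-! ### residue classes -/

theorem toZ_ev {ι : Type} (x : ι → ℤ_[q]) (P : MvPolynomial ι ℤ) :
    PadicInt.toZMod (ev x P) = ev (fun i => (PadicInt.toZMod (x i) : ZMod q)) P :=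
  map_ev _ _ _

theorem toZ_aff (a b : ℤ_[q]) : (PadicInt.toZMod (a + (q : ℤ_[q]) * b) : ZMod q) =
    PadicInt.toZMod a := by
  rw [map_add, map_mul, map_natCast, ZMod.natCast_self, zero_mul, add_zero]

theorem isUnit_of_toZ {a b : ℤ_[q]} (h : (PadicInt.toZMod a : ZMod q) = PadicInt.toZMod b)
    (ha : IsUnit a) : IsUnit b := by
  have h1 : IsUnit (PadicInt.toZMod a : ZMod q) := ha.map _
  by_contra hb
  have h2 : b ∈ IsLocalRing.maximalIdeal ℤ_[q] := (IsLocalRing.mem_maximalIdeal b).2 hb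
  rw [← PadicInt.ker_toZMod, RingHom.mem_ker] at h2
  rw [h, h2] at h1
  exact not_isUnit_zero h1

/-! ### integrals -/

theorem lint_equiv {A B : Type} [Fintype A] [Fintype B] (e : A ≃ B) (g : (A → ℤ_[q]) → ℝ≥0∞)
    (hg : Measurable g) : ∫⁻ z : B → ℤ_[q], g (fun a => z (e a)) ∂(hm q B) =
      ∫⁻ y, g y ∂(hm q A) := by
  refine lintegral_equivariant q (fun z a => z (e a)) (fun y b => y (e.symm b)) ?_ ?_ g hg
  · exact measurable_pi_lambda _ fun a => measurable_pi_apply _
  · intro z y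
    funext a
    simp

theorem lint_sum {A B : Type} [Fintype A] [Fintype B] (g : (A ⊕ B → ℤ_[q]) → ℝ≥0∞)
    (hg : Measurable g) : ∫⁻ z, g z ∂(hm q (A ⊕ B)) =
      ∫⁻ a, ∫⁻ b, g (Sum.elim a b) ∂(hm q B) ∂(hm q A) := by
  have h1 := measurePreserving_sumPiEquivProdPi (fun _ : A ⊕ B => mu q)
  have h2 := (h1.symm).lintegral_comp hg
  rw [← h2, lintegral_prod]
  · rfl
  · exact (hg.comp (MeasurableEquiv.measurable _)).aemeasurable

/-! ### the shear -/

/-- the substitution of coordinates: `Z` is kept, `x - E(P, Z)` on `H` -/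
noncomputable def sj {P Z H : Type} (E : H → (P ⊕ Z → ℤ_[q]) → ℤ_[q]) (z : (P ⊕ Z) ⊕ H → ℤ_[q]) :
    Z ⊕ H → ℤ_[q] :=
  Sum.elim (fun c => z (Sum.inl (Sum.inr c)))
    (fun h => z (Sum.inr h) - E h fun k => z (Sum.inl k))

theorem lint_shear {P Z H : Type} [Fintype P] [Fintype Z] [Fintype H]
    (E : H → (P ⊕ Z → ℤ_[q]) → ℤ_[q]) (hE : ∀ h, Measurable (E h))
    (F : (Z ⊕ H → ℤ_[q]) → ℝ≥0∞) (hF : Measurable F) :
    ∫⁻ z, F (sj E z) ∂(hm q ((P ⊕ Z) ⊕ H)) = ∫⁻ y, F y ∂(hm q (Z ⊕ H)) := by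
  have hsj : Measurable (sj E : ((P ⊕ Z) ⊕ H → ℤ_[q]) → (Z ⊕ H → ℤ_[q])) := by
    refine measurable_pi_lambda _ ?_
    rintro (c | h)
    · exact measurable_pi_apply _
    · refine (measurable_pi_apply _).sub ((hE h).comp ?_)
      exact measurable_pi_lambda _ fun k => measurable_pi_apply _
  have hel : ∀ c : Z → ℤ_[q], Measurable fun b : H → ℤ_[q] =>
      (Sum.elim c b : Z ⊕ H → ℤ_[q]) := by
    intro c
    refine measurable_pi_lambda _ ?_
    rintro (z | h)
    · exact measurable_const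
    · exact measurable_pi_apply _
  rw [lint_sum (fun z => F (sj E z)) (hF.comp hsj)]
  have h1 : ∀ a : P ⊕ Z → ℤ_[q],
      ∫⁻ b : H → ℤ_[q], F (sj E (Sum.elim a b)) ∂(hm q H) =
        ∫⁻ b : H → ℤ_[q], F (Sum.elim (fun c => a (Sum.inr c)) b) ∂(hm q H) := by
    intro a
    refine Eq.trans ?_ (lintegral_add_left_eq_self (μ := hm q H)
      (fun b => F (Sum.elim (fun c => a (Sum.inr c)) b)) (fun h => - E h a))
    refine lintegral_congr fun b => ?_
    congr 1
    funext i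
    rcases i with c | h
    · rfl
    · simp only [sj, Sum.elim_inr, Sum.elim_inl, Pi.add_apply]
      ring
  rw [lintegral_congr h1, lint_sum F hF]
  have h2 : Measurable fun c : Z → ℤ_[q] => ∫⁻ b : H → ℤ_[q], F (Sum.elim c b) ∂(hm q H) := by
    refine Measurable.lintegral_prod_right' (f := fun p : (Z → ℤ_[q]) × (H → ℤ_[q]) =>
      F (Sum.elim p.1 p.2)) (hF.comp ?_)
    refine measurable_pi_lambda _ ?_
    rintro (z | h)
    · exact (measurable_pi_apply z).comp measurable_fst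
    · exact (measurable_pi_apply h).comp measurable_snd
  exact lintegral_equivariant q (fun (a : P ⊕ Z → ℤ_[q]) (c : Z) => a (Sum.inr c))
    (fun y => Sum.elim 0 y) (measurable_pi_lambda _ fun c => measurable_pi_apply _)
    (fun z y => by funext c; simp)
    (fun c => ∫⁻ b : H → ℤ_[q], F (Sum.elim c b) ∂(hm q H)) h2

end padic

/-- **Package PP.** -/
theorem t_PP : S_PP := by
  classical
  intro q _ T X Y p w hw
  obtain ⟨dv, hdv, hdv2⟩ := exists_divp q
  -- the points of the residue class, the value of `u` and the shear as functions of `P + Z`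
  obtain ⟨xa, hxa⟩ : ∃ xa : (p.P ⊕ p.Z → ℤ_[q]) → (p.P ⊕ p.Z → ℤ_[q]),
    xa = fun a k => w (p.e (Sum.inl k)) + (q : ℤ_[q]) * a k := ⟨_, rfl⟩
  obtain ⟨Ua, hUa⟩ : ∃ Ua : (p.P ⊕ p.Z → ℤ_[q]) → ℤ_[q],
    Ua = fun a => ev (fun i => xa a (Sum.inl i)) p.u := ⟨_, rfl⟩
  have hcx : Continuous xa := by
    rw [hxa]
    fun_prop
  have hcU : Continuous Ua := by
    rw [hUa]
    refine (cont_ev p.u).comp ?_
    exact continuous_pi fun i => (continuous_apply (Sum.inl i)).comp hcx
  have hU0 : ∀ a, IsUnit (Ua a) := by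
    intro a
    refine isUnit_of_toZ ?_ hw
    rw [hUa]
    change PadicInt.toZMod (ev _ p.u) = _
    rw [toZ_ev]
    change _ = PadicInt.toZMod (ev _ p.u)
    rw [toZ_ev]
    congr 2
    funext i
    rw [hxa]
    exact (toZ_aff _ _).symm
  obtain ⟨ga, hga⟩ : ∃ ga : p.H → (p.P ⊕ p.Z → ℤ_[q]) → ℤ_[q],
    ga = fun h a => Ring.inverse (Ua a) * ev (xa a) (p.g h) := ⟨_, rfl⟩
  have hcg : ∀ h, Continuous (ga h) := by
    intro h
    rw [hga]
    refine Continuous.mul ?_ ((cont_ev (p.g h)).comp hcx)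
    rw [continuous_iff_continuousAt]
    intro a
    obtain ⟨v, hv⟩ := hU0 a
    have h1 := NormedRing.inverse_continuousAt v
    rw [hv] at h1
    exact ContinuousAt.comp h1 hcU.continuousAt
  have hgm : ∀ h a, Ua a * ga h a = ev (xa a) (p.g h) := by
    intro h a
    rw [hga]
    simp only
    rw [← mul_assoc, Ring.mul_inverse_cancel _ (hU0 a), one_mul]
  -- the difference is divisible by `q`
  have hdiv : ∀ h a, (q : ℤ_[q]) * dv (ga h a - ga h 0) = ga h a - ga h 0 := by
    intro h a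
    have h1 : (PadicInt.toZMod (ga h a - ga h 0) : ZMod q) = 0 := by
      rw [map_sub, sub_eq_zero]
      have h2 : ∀ k, (PadicInt.toZMod (xa a k) : ZMod q) = PadicInt.toZMod (xa 0 k) := by
        intro k
        rw [hxa]
        simp only
        rw [toZ_aff, toZ_aff]
      have h3 : (PadicInt.toZMod (Ua a) : ZMod q) = PadicInt.toZMod (Ua 0) := by
        rw [hUa]
        simp only
        rw [toZ_ev, toZ_ev]
        congr 2
        funext i
        exact h2 _
      have h4 : (PadicInt.toZMod (ev (xa a) (p.g h)) : ZMod q) =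
          PadicInt.toZMod (ev (xa 0) (p.g h)) := by
        rw [toZ_ev, toZ_ev]
        congr 2
        funext i
        exact h2 _
      have h5 := congrArg (PadicInt.toZMod : ℤ_[q] →+* ZMod q) (hgm h a)
      have h6 := congrArg (PadicInt.toZMod : ℤ_[q] →+* ZMod q) (hgm h 0)
      rw [map_mul] at h5 h6
      have h7 : IsUnit (PadicInt.toZMod (Ua 0) : ZMod q) := (hU0 0).map _
      refine h7.mul_left_cancel ?_
      rw [h6, ← h3, h5, h4]
    obtain ⟨c, hc⟩ := dvd_of_toZMod q _ h1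
    rw [hc, hdv2]
  obtain ⟨E, hE⟩ : ∃ E : p.H → (p.P ⊕ p.Z → ℤ_[q]) → ℤ_[q],
    E = fun h a => dv (ga h a - ga h 0) := ⟨_, rfl⟩
  have hEm : ∀ h, Measurable (E h) := by
    intro h
    rw [hE]
    exact hdv.comp ((hcg h).measurable.sub measurable_const)
  -- the new base point
  obtain ⟨w1, hw1⟩ : ∃ w1 : p.Z ⊕ p.H → ℤ_[q], w1 = Sum.elim
    (fun c => w (p.e (Sum.inl (Sum.inr c)))) (fun h => w (p.e (Sum.inr h)) - ga h 0) :=
    ⟨_, rfl⟩
  refine ⟨fun y => w1 (p.e'.symm y), fun a s hs => ?_⟩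
  -- the norms
  have key : ∀ (z : (p.P ⊕ p.Z) ⊕ p.H → ℤ_[q]) (t : Fin T),
      nI X t (fun i => w i + (q : ℤ_[q]) * z (p.e.symm i)) =
        nI Y t (fun y => w1 (p.e'.symm y) + (q : ℤ_[q]) * sj E z (p.e'.symm y)) := by
    intro z t
    have hxP : (fun k => (fun i => w i + (q : ℤ_[q]) * z (p.e.symm i)) (p.e (Sum.inl k))) =
        xa fun k => z (Sum.inl k) := by
      funext k
      simp only [hxa, Equiv.symm_apply_apply]
    have hUx : p.toSh.U (fun i => w i + (q : ℤ_[q]) * z (p.e.symm i)) =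
        Ua fun k => z (Sum.inl k) := by
      rw [hUa]
      unfold Sh.U
      simp only
      rw [← hxP]
    refine nI_congr X Y t _ _ (p.hI _ _ _ ?_ ?_ t)
    · rw [hUx]
      exact hU0 _
    · refine ⟨fun c => ?_, fun h => ?_⟩
      · simp only [Equiv.symm_apply_apply, hw1, Sum.elim_inl, sj]
      · rw [hUx, hxP]
        simp only [Equiv.symm_apply_apply, hw1, Sum.elim_inr, sj]
        rw [← hgm h]
        have h8 := hdiv h fun k => z (Sum.inl k)
        rw [hE]
        simp only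
        linear_combination (-(Ua fun k => z (Sum.inl k))) * h8
  -- the integral
  obtain ⟨F, hF⟩ : ∃ F : (p.Z ⊕ p.H → ℤ_[q]) → ℝ≥0∞, F = fun y => ∏ t, ((nI Y t (fun i =>
    w1 (p.e'.symm i) + (q : ℤ_[q]) * y (p.e'.symm i)) : ℝ≥0) : ℝ≥0∞) ^ ((a t : ℝ) * s) :=
    ⟨_, rfl⟩
  have hmeas : ∀ (V : Sys T) {ι : Type} [Fintype ι] (f : (ι → ℤ_[q]) → (V.ι → ℤ_[q])),
      Continuous f → Measurable fun y : ι → ℤ_[q] => ∏ t, ((nI V t (f y) : ℝ≥0) : ℝ≥0∞) ^
        ((a t : ℝ) * s) := by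
    intro V ι _ f hf
    refine Finset.measurable_prod _ fun t _ => ?_
    exact (measurable_coe_nnreal_ennreal.comp ((cont_nI V t).comp hf).measurable).pow_const _
  have hFm : Measurable F := by
    rw [hF]
    exact hmeas Y _ (by fun_prop)
  unfold HHc
  have e1 := lint_equiv p.e.symm.symm (fun z : (p.P ⊕ p.Z) ⊕ p.H → ℤ_[q] =>
    ∏ t, ((nI X t (fun i => w i + (q : ℤ_[q]) * z (p.e.symm i)) : ℝ≥0) : ℝ≥0∞) ^
      ((a t : ℝ) * s)) (hmeas X _ (by fun_prop))
  have e2 := lint_equiv p.e' F hFm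
  have e3 := lint_shear E hEm F hFm
  calc ∫⁻ z : X.ι → ℤ_[q], ∏ t, ((nI X t (fun i => w i + (q : ℤ_[q]) * z i) : ℝ≥0) : ℝ≥0∞) ^
        ((a t : ℝ) * s) ∂(hm q X.ι)
      = ∫⁻ z : (p.P ⊕ p.Z) ⊕ p.H → ℤ_[q], ∏ t, ((nI X t (fun i => w i +
        (q : ℤ_[q]) * z (p.e.symm i)) : ℝ≥0) : ℝ≥0∞) ^ ((a t : ℝ) * s)
          ∂(hm q ((p.P ⊕ p.Z) ⊕ p.H)) := by
        rw [← e1]
        refine lintegral_congr fun z => ?_
        simp only [Equiv.symm_symm, Equiv.apply_symm_apply]
    _ = ∫⁻ z, F (sj E z) ∂(hm q ((p.P ⊕ p.Z) ⊕ p.H)) := by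
        refine lintegral_congr fun z => ?_
        rw [hF]
        exact Finset.prod_congr rfl fun t _ => by rw [key z t]
    _ = ∫⁻ y, F y ∂(hm q (p.Z ⊕ p.H)) := e3
    _ = ∫⁻ z : Y.ι → ℤ_[q], F (fun a => z (p.e' a)) ∂(hm q Y.ι) := e2.symm
    _ = _ := by
        refine lintegral_congr fun z => ?_
        simp only [hF, Equiv.apply_symm_apply]

end Pool.Agent.U397.TM
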