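import Pool.Agent.U397.TM.Form
import Pool.Agent.U397.TM.PkgPP

set_option autoImplicit false
set_option linter.unusedSectionVars false
set_option linter.unusedVariables false

/-! # The forms with the entries of products of generic matrices as coefficients: zeta functions -/

namespace Pool.Agent.U397.TM

open MeasureTheory MvPolynomial Pool.Agent.W427.SMC Pool.Agent.TH192.PA Pool.Agent.TH192.DT
  Pool.Agent.TH192.MT
open scoped ENNReal NNReal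

attribute [local instance] msZ bsZ

variable {q : ℕ} [Fact q.Prime] {T : ℕ}

theorem ev_aeval {ι : Type} (x : ι → ℤ_[q]) (P : MvPolynomial ι ℤ) : ev x P = aeval x P := by
  induction P using MvPolynomial.induction_on with
  | C a =>
    rw [ev_C]
    simp
  | add p q hp hq => rw [map_add, map_add, hp, hq]
  | mul_X p i hp => rw [map_mul, map_mul, ev_X, aeval_X, hp]

/-- the maximal norm of the entries -/
noncomputable def nG (n : ℕ → ℕ) (L : ℕ) (ℓ : Fin T → ℕ) (t : Fin T) (x : Var n L → ℤ_[q]) : ℝ≥0 :=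
  Finset.univ.sup fun j => ‖aeval x (gens n L (ℓ t) j)‖₊

theorem nG_eq (n : ℕ → ℕ) (L : ℕ) (ℓ : Fin T → ℕ) (t : Fin T) (x : Var n L → ℤ_[q]) :
    nG n L ℓ t x = nI (topS n L ℓ) t x := by
  refine le_antisymm (Finset.sup_le fun j _ => le_nI (topS n L ℓ) t x _ ?_)
    (nI_le (topS n L ℓ) t x _ ?_)
  · unfold fI
    refine Ideal.subset_span ⟨⟨t, j⟩, rfl, ?_⟩
    change aeval x (gens n L (ℓ t) j) = ev x (gens n L (ℓ t) j)
    exact (ev_aeval x _).symm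
  · rintro ⟨t', j⟩ ht
    have ht' : t' = t := ht
    subst ht'
    change ‖ev x (gens n L (ℓ t') j)‖₊ ≤ _
    rw [ev_aeval]
    exact Finset.le_sup (f := fun j => ‖aeval x (gens n L (ℓ t') j)‖₊) (Finset.mem_univ j)

/-- the integral of the norms -/
theorem int_normsT (hPE : S_PE3) (n : ℕ → ℕ) (L : ℕ) (ℓ a : Fin T → ℕ) (hℓ : ∀ t, ℓ t < L)
    (ha : ∀ t, 0 < a t) :
    ∃ P : Polynomial ℝ, ∀ s : ℝ, 0 < s →
      (∏ c ∈ chs n L ℓ, (1 - ((q : ℝ)⁻¹) ^ nuC n L (cL c) *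
        (tr' q s) ^ (∑ t, a t * degC ℓ (cL c) t))) *
        (∫⁻ x : Var n L → ℤ_[q], ∏ t, ((nG n L ℓ t x : ℝ≥0) : ℝ≥0∞) ^ ((a t : ℝ) * s)
          ∂(hm q (Var n L))).toReal = P.eval (tr' q s) := by
  obtain ⟨X, hX, e, he⟩ := t_ST3 n L T ℓ hℓ
  obtain ⟨P, hP⟩ := hPE q T a ha (Ch n L) (prC n L ℓ) (chs n L ℓ) X hX
  refine ⟨P, fun s hs => ?_⟩
  rw [← hP s hs]
  congr 2
  have hmeas : Measurable fun y : X.ι → ℤ_[q] =>
      ∏ t, ((nI X t y : ℝ≥0) : ℝ≥0∞) ^ ((a t : ℝ) * s) := by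
    refine Finset.measurable_prod _ fun t _ => ?_
    exact (measurable_coe_nnreal_ennreal.comp (cont_nI X t).measurable).pow_const _
  rw [← lint_equiv e _ hmeas]
  refine lintegral_congr fun x => ?_
  refine Finset.prod_congr rfl fun t _ => ?_
  rw [nG_eq]
  congr 2
  exact nI_congr _ _ t _ _ (he ℤ_[q] x t)

theorem aeval_form (n : ℕ → ℕ) (L : ℕ) (ℓ a : Fin T → ℕ)
    (z : (Σ t, Fin (n 0) × Fin (n (ℓ t + 1))) ⊕ Var n L → ℤ_[q]) : aeval z (form n L ℓ a) =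
      ∏ t, (∑ j, z (Sum.inl ⟨t, j⟩) * aeval (z ∘ Sum.inr) (gens n L (ℓ t) j)) ^ a t := by
  unfold form
  rw [map_prod]
  refine Finset.prod_congr rfl fun t _ => ?_
  rw [map_pow, map_sum]
  congr 1
  refine Finset.sum_congr rfl fun j _ => ?_
  rw [map_mul, aeval_X, aeval_rename]

theorem cont_aeval {ι : Type} (P : MvPolynomial ι ℤ) :
    Continuous fun x : ι → ℤ_[q] => aeval x P := by
  have := cont_ev (q := q) P
  simp only [ev_aeval] at this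
  exact this

/-- **The zeta function of the form.** -/
theorem igusa_eqT {n : ℕ → ℕ} (h0 : 0 < n 0) (hn : Monotone n) (L : ℕ) (ℓ a : Fin T → ℕ) (s : ℝ)
    (hs : 0 < s) : ∫⁻ z : (Σ t, Fin (n 0) × Fin (n (ℓ t + 1))) ⊕ Var n L → ℤ_[q],
        tau q s (aeval z (form n L ℓ a)) ∂(hm q ((Σ t, Fin (n 0) × Fin (n (ℓ t + 1))) ⊕ Var n L)) =
      (∫⁻ x : Var n L → ℤ_[q], ∏ t, ((nG n L ℓ t x : ℝ≥0) : ℝ≥0∞) ^ ((a t : ℝ) * s)
          ∂(hm q (Var n L))) * ∏ t, phi q ((a t : ℝ) * s) := by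
  classical
  have hmz : Measurable fun z : (Σ t, Fin (n 0) × Fin (n (ℓ t + 1))) ⊕ Var n L → ℤ_[q] =>
      tau q s (aeval z (form n L ℓ a)) := ((tau_cont q s hs.le).comp (cont_aeval _)).measurable
  rw [lintegral_sum q _ hmz]
  have h1 : ∀ x : Var n L → ℤ_[q], ∫⁻ y : (Σ t, Fin (n 0) × Fin (n (ℓ t + 1))) → ℤ_[q],
      tau q s (aeval (Sum.elim y x) (form n L ℓ a)) ∂(hm q (Σ t, Fin (n 0) × Fin (n (ℓ t + 1)))) =
      (∏ t, ((nG n L ℓ t x : ℝ≥0) : ℝ≥0∞) ^ ((a t : ℝ) * s)) * ∏ t, phi q ((a t : ℝ) * s) := by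
    intro x
    have h2 := y_int q (fun t j => aeval x (gens n L (ℓ t) j))
      (fun t => ⟨(⟨0, h0⟩, ⟨0, n_pos h0 hn _⟩)⟩) (fun t => (a t : ℝ) * s) (fun t => by positivity)
    rw [← Finset.prod_mul_distrib]
    refine Eq.trans (lintegral_congr fun y => ?_) h2
    rw [aeval_form, tau_prod]
    refine Finset.prod_congr rfl fun t _ => ?_
    rw [tau_pow']
    rfl
  have h3 : ∀ x : Var n L → ℤ_[q], ∫⁻ y : (Σ t, Fin (n 0) × Fin (n (ℓ t + 1))) → ℤ_[q],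
      (fun z : (Σ t, Fin (n 0) × Fin (n (ℓ t + 1))) ⊕ Var n L → ℤ_[q] =>
        tau q s (aeval z (form n L ℓ a)))
        (Sum.elim y x) ∂(hm q (Σ t, Fin (n 0) × Fin (n (ℓ t + 1)))) = _ := h1
  have h4 : Measurable fun x : Var n L → ℤ_[q] =>
      ∏ t, ((nG n L ℓ t x : ℝ≥0) : ℝ≥0∞) ^ ((a t : ℝ) * s) := by
    refine Finset.measurable_prod _ fun t _ => ?_
    refine (measurable_coe_nnreal_ennreal.comp ?_).pow_const _
    have h5 : nG n L ℓ t = fun x : Var n L → ℤ_[q] => nI (topS n L ℓ) t x :=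
      funext (nG_eq n L ℓ t)
    rw [h5]
    exact (cont_nI (topS n L ℓ) t).measurable
  rw [lintegral_congr h3, lintegral_mul_const _ h4]

/-- the numbers `ν` -/
def nuT (n : ℕ → ℕ) (L : ℕ) (ℓ : Fin T → ℕ) : {c // c ∈ chs n L ℓ} ⊕ Fin T → ℕ :=
  Sum.elim (fun c => nuC n L (cL c.1)) fun _ => 1

/-- the multiplicities -/
def NT (n : ℕ → ℕ) (L : ℕ) (ℓ a : Fin T → ℕ) : {c // c ∈ chs n L ℓ} ⊕ Fin T → ℕ :=
  Sum.elim (fun c => ∑ t, a t * degC ℓ (cL c.1) t) a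

theorem nuT_pos {n : ℕ → ℕ} (h0 : 0 < n 0) (hn : Monotone n) (L : ℕ) (ℓ : Fin T → ℕ)
    (hℓ : ∀ t, ℓ t < L) (i : {c // c ∈ chs n L ℓ} ⊕ Fin T) : 0 < nuT n L ℓ i := by
  rcases i with c | t
  · obtain ⟨hc, t, ht⟩ := (mem_chs n L ℓ c.1).1 c.2
    exact nuC_pos' h0 hn (hℓ t) hc ht
  · exact one_pos

/-- **Rationality.** -/
theorem igusa_ratT (hPE : S_PE3) {n : ℕ → ℕ} (h0 : 0 < n 0) (hn : Monotone n) (L : ℕ)
    (ℓ a : Fin T → ℕ) (hℓ : ∀ t, ℓ t < L) (ha : ∀ t, 0 < a t) :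
    ∃ P : Polynomial ℂ, ∀ s : ℝ, 0 < s → (Rc q (nuT n L ℓ) (NT n L ℓ a)).eval (pw q s) *
      igusaZeta q (form n L ℓ a) s = P.eval (pw q s) := by
  have hq0 : (q : ℂ) ≠ 0 := by exact_mod_cast (Fact.out : q.Prime).ne_zero
  obtain ⟨P, hP⟩ := int_normsT (q := q) hPE n L ℓ a hℓ ha
  refine ⟨Polynomial.C (∏ c ∈ chs n L ℓ, ((q ^ nuC n L (cL c) : ℕ) : ℂ)) *
    P.map Complex.ofRealHom * Polynomial.C (∏ _t : Fin T, ((q : ℂ) - 1)), fun s hs => ?_⟩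
  rw [hm_igusa, igusa_eqT h0 hn L ℓ a s hs, ENNReal.toReal_mul, pw_real]
  set G : ℝ := (∫⁻ x : Var n L → ℤ_[q], ∏ t, ((nG n L ℓ t x : ℝ≥0) : ℝ≥0∞) ^ ((a t : ℝ) * s)
          ∂(hm q (Var n L))).toReal with hG
  have h2 : ((P.eval (tr' q s) : ℝ) : ℂ) = (P.map Complex.ofRealHom).eval ((tr' q s : ℝ) : ℂ) := by
    rw [Polynomial.eval_map]
    exact (Polynomial.hom_eval₂ P (RingHom.id ℝ) Complex.ofRealHom (tr' q s)).symm ▸ rfl
  have h3 : (Rc q (nuT n L ℓ) (NT n L ℓ a)).eval ((tr' q s : ℝ) : ℂ) =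
      (∏ c ∈ chs n L ℓ, (((q ^ nuC n L (cL c) : ℕ) : ℂ) -
        (tr' q s : ℂ) ^ (∑ t, a t * degC ℓ (cL c) t))) * ∏ t, ((q : ℂ) - (tr' q s : ℂ) ^ a t) := by
    unfold Rc
    rw [Fintype.prod_sum_type, Polynomial.eval_mul, Polynomial.eval_prod, Polynomial.eval_prod,
      ← Finset.prod_coe_sort (chs n L ℓ) (fun c => ((q ^ nuC n L (cL c) : ℕ) : ℂ) -
        (tr' q s : ℂ) ^ (∑ t, a t * degC ℓ (cL c) t))]
    congr 1
    · refine Finset.prod_congr rfl fun d _ => ?_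
      rw [Polynomial.eval_sub, Polynomial.eval_C, Polynomial.eval_pow, Polynomial.eval_X]
      rfl
    · refine Finset.prod_congr rfl fun t _ => ?_
      rw [Polynomial.eval_sub, Polynomial.eval_C, Polynomial.eval_pow, Polynomial.eval_X]
      change ((q ^ 1 : ℕ) : ℂ) - _ = _
      rw [pow_one]
      rfl
  have h4 : (((∏ c ∈ chs n L ℓ, (1 - ((q : ℝ)⁻¹) ^ nuC n L (cL c) *
        (tr' q s) ^ (∑ t, a t * degC ℓ (cL c) t))) : ℝ) : ℂ) *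
      (∏ c ∈ chs n L ℓ, ((q ^ nuC n L (cL c) : ℕ) : ℂ)) =
      ∏ c ∈ chs n L ℓ, (((q ^ nuC n L (cL c) : ℕ) : ℂ) -
        (tr' q s : ℂ) ^ (∑ t, a t * degC ℓ (cL c) t)) := by
    rw [Complex.ofReal_prod, ← Finset.prod_mul_distrib]
    refine Finset.prod_congr rfl fun d _ => ?_
    push_cast
    rw [inv_pow]
    have h5 : (q : ℂ) ^ nuC n L (cL d) ≠ 0 := pow_ne_zero _ hq0
    field_simp
  have h6 : (∏ t, ((q : ℂ) - (tr' q s : ℂ) ^ a t)) *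
      (((∏ t, phi q ((a t : ℝ) * s)).toReal : ℝ) : ℂ) = ∏ _t : Fin T, ((q : ℂ) - 1) := by
    rw [ENNReal.toReal_prod, Complex.ofReal_prod, ← Finset.prod_mul_distrib]
    refine Finset.prod_congr rfl fun t _ => ?_
    have h7 := phi_eq q ((a t : ℝ) * s) (by positivity)
    have h8 : (q : ℝ) ^ (-((a t : ℝ) * s)) = tr' q s ^ a t := tr'_nat q s (a t)
    rw [h8] at h7
    have h9 := congrArg (fun r : ℝ => (r : ℂ)) h7
    simp only [Complex.ofReal_mul, Complex.ofReal_sub, Complex.ofReal_pow, Complex.ofReal_natCast,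
      Complex.ofReal_one] at h9
    exact h9
  rw [h3, Polynomial.eval_mul, Polynomial.eval_mul, Polynomial.eval_C, Polynomial.eval_C, ← h2,
    ← hP s hs, ← h4, ← h6]
  push_cast
  ring

/-- **The poles of the zeta function.** -/
theorem igusa_polesT (hPE : S_PE3) {n : ℕ → ℕ} (h0 : 0 < n 0) (hn : Monotone n) (L : ℕ)
    (ℓ a : Fin T → ℕ) (hℓ : ∀ t, ℓ t < L) (ha : ∀ t, 0 < a t)
    (g : ℂ → ℂ) (hg : MeromorphicOn g Set.univ)
    (h : ∀ s : ℂ, 0 < s.re → g s = igusaZeta q (form n L ℓ a) s) (s0 : ℂ) :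
    ((-(Nat.card {i // 0 < NT n L ℓ a i ∧
      s0.re = -((nuT n L ℓ i : ℝ) / NT n L ℓ a i)} : ℤ) : ℤ) : WithTop ℤ) ≤
        meromorphicOrderAt g s0 := by
  obtain ⟨P, hP⟩ := igusa_ratT (q := q) hPE h0 hn L ℓ a hℓ ha
  have hq1 : 1 < q := (Fact.out : q.Prime).one_lt
  have hpos := nuT_pos h0 hn L ℓ hℓ
  have h1 := mero_bound q (Rc q (nuT n L ℓ) (NT n L ℓ a)) P (Rc_ne q hq1 _ _ hpos) g hg
    (fun s hs => by rw [h s (by simpa using hs)]; exact hP s hs) s0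
  refine le_trans ?_ h1
  rw [WithTop.coe_le_coe, neg_le_neg_iff]
  have h2 := Rc_rm q hq1 (nuT n L ℓ) (NT n L ℓ a) hpos (pw q s0)
  rw [pw_norm] at h2
  exact_mod_cast h2

/-- **Every pole gives a root.** -/
theorem igusa_rootT (hPE : S_PE3) (hRO : S_RO) {n : ℕ → ℕ} (h0 : 0 < n 0) (hn : Monotone n)
    (L : ℕ) (ℓ a : Fin T → ℕ) (hℓ : ∀ t, ℓ t < L) (ha : ∀ t, 0 < a t)
    (g : ℂ → ℂ) (hg : MeromorphicOn g Set.univ)
    (h : ∀ s : ℂ, 0 < s.re → g s = igusaZeta q (form n L ℓ a) s) (s0 : ℂ)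
    (hs0 : meromorphicOrderAt g s0 < 0) (b : Polynomial ℂ)
    (hb : PowData a (gensC n L ℓ) b) : b.eval (s0.re : ℂ) = 0 := by
  have h1 := lt_of_le_of_lt (igusa_polesT (q := q) hPE h0 hn L ℓ a hℓ ha g hg h s0) hs0
  have h2 : 0 < Nat.card {i // 0 < NT n L ℓ a i ∧
      s0.re = -((nuT n L ℓ i : ℝ) / NT n L ℓ a i)} := by
    have h3 : (-(Nat.card {i // 0 < NT n L ℓ a i ∧
      s0.re = -((nuT n L ℓ i : ℝ) / NT n L ℓ a i)} : ℤ) : ℤ) < 0 := by exact_mod_cast h1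
    omega
  obtain ⟨⟨i, hi, hs⟩⟩ := (Nat.card_pos_iff.1 h2).1
  rw [hs]
  push_cast
  rw [← neg_div]
  rcases i with c | t
  · have hc := (mem_chs n L ℓ c.1).1 c.2
    exact chain_root hRO h0 hn L ℓ a hℓ (cL c.1) hc.1 hi b hb
  · have h4 := hb.strict t 0 (ha t)
    rw [Nat.cast_zero, add_zero] at h4
    change b.eval (-((1 : ℕ) : ℂ) / (a t : ℂ)) = 0
    rw [Nat.cast_one]
    exact h4

/-- **Orders of poles.** -/
theorem igusa_orderT (hPE : S_PE3) (hRO : S_RO) {n : ℕ → ℕ} (h0 : 0 < n 0) (hn : Monotone n)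
    (L : ℕ) (ℓ a : Fin T → ℕ) (hℓ : ∀ t, ℓ t < L) (ha : ∀ t, 0 < a t)
    (g : ℂ → ℂ) (hg : MeromorphicOn g Set.univ)
    (h : ∀ s : ℂ, 0 < s.re → g s = igusaZeta q (form n L ℓ a) s) (s0 : ℂ)
    (hc : Nat.card {i // 0 < NT n L ℓ a i ∧
      s0.re = -((nuT n L ℓ i : ℝ) / NT n L ℓ a i)} ≤ 1) (b : Polynomial ℂ) (hb0 : b ≠ 0)
    (hb : PowData a (gensC n L ℓ) b) :
    ((-(b.rootMultiplicity ((s0.re : ℝ) : ℂ) : ℤ) : ℤ) : WithTop ℤ) ≤
      meromorphicOrderAt g s0 := by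
  by_cases hs : meromorphicOrderAt g s0 < 0
  · refine le_trans ?_ (igusa_polesT (q := q) hPE h0 hn L ℓ a hℓ ha g hg h s0)
    have h1 := igusa_rootT (q := q) hPE hRO h0 hn L ℓ a hℓ ha g hg h s0 hs b hb
    have h2 : 0 < b.rootMultiplicity ((s0.re : ℝ) : ℂ) := (Polynomial.rootMultiplicity_pos hb0).2 h1
    rw [WithTop.coe_le_coe]
    omega
  · refine le_trans ?_ (not_lt.1 hs)
    have : ((-(b.rootMultiplicity ((s0.re : ℝ) : ℂ) : ℤ) : ℤ) : WithTop ℤ) ≤ ((0 : ℤ) : WithTop ℤ) := by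
      rw [WithTop.coe_le_coe]
      omega
    exact this

open Pool.Agent.W206.CU (dens IsPoleOfOrder) in
/-- **Poles of the Poincaré series.** -/
theorem poincare_rootT (hPE : S_PE3) (hRO : S_RO) {n : ℕ → ℕ} (h0 : 0 < n 0) (hn : Monotone n)
    (L : ℕ) (ℓ a : Fin T → ℕ) (hℓ : ∀ t, ℓ t < L) (ha : ∀ t, 0 < a t) (T₀ : ℂ)
    (r : ℕ) (hr : 0 < r)
    (h : IsPoleOfOrder (Pool.Agent.W206.CU.poincare q (form n L ℓ a)) T₀ r) (b : Polynomial ℂ)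
    (hb : Pool.Agent.H628R4.TP.IsBFunction (MvPolynomial.map (Int.castRingHom ℂ) (form n L ℓ a)) b) :
    b.eval ((-Real.log ‖T₀‖ / Real.log q : ℝ) : ℂ) = 0 := by
  classical
  obtain ⟨Z, s₀, hZ, hZi, hZo, hre⟩ := Pool.Agent.W425.PZ.pole_of_poincare q (form n L ℓ a)
    (null_gen (form_ne h0 hn L ℓ a hℓ)) hr h
  rw [map_form] at hb
  have h1 := igusa_rootT (q := q) hPE hRO h0 hn L ℓ a hℓ ha Z hZ hZi s₀ hZo b
    (powData_global a (gensC n L ℓ) (gensC_ne h0 hn L ℓ hℓ) b hb)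
  rwa [hre] at h1

end Pool.Agent.U397.TM
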