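import Pool.Agent.U397.TM.Spec2

set_option autoImplicit false
set_option linter.unusedSectionVars false
set_option linter.unusedVariables false

/-! # The recursion for towers with partial scaling, uniformly in the exponents -/

namespace Pool.Agent.U397.TM

open MvPolynomial Pool.Agent.W428.MOT Pool.Agent.TH192.MT Pool.Agent.TH192.DT
  Pool.Agent.TH192.MU

namespace MP

variable {K : Type} [Field K] {T : ℕ} {π : Type} {X Y : Sys T} {s : Sh X Y} (p : Cf s)

theorem cone_pull {V : Set (Pt K (π ⊕ (X.ι ⊕ X.Λ)))} (hV : Cone X V) : Cone Y (pull p V) := by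
  rintro v ⟨hv, hv'⟩ μ hμ
  refine ⟨hv, ?_⟩
  have hpq : pq s (scL Y μ v) = pq s v := by
    funext q
    rcases q with q | z <;> rfl
  have hx0 : x0 s (scL Y μ v) = x0 s v := by
    funext i
    obtain ⟨i, rfl⟩ := s.e.surjective i
    rcases i with q | h
    · rw [x0_inl, x0_inl, hpq]
    · rw [x0_inr, x0_inr, hpq]
      rfl
  have h1 : Ph p (scL Y μ v) = scL X μ (Ph p v) := by
    funext i
    rcases i with a | i | l
    · rfl
    · change x0 s (scL Y μ v) i = x0 s v i
      rw [hx0]
    · change (∑ m, ev (x0 s (scL Y μ v)) (p.c l m) * (μ (Y.τ m) * v (Sum.inr (Sum.inr m)))) /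
        (ev (fun q => v (Sum.inl (Sum.inr q))) s.u) ^ p.r l = μ (X.τ l) *
        ((∑ m, ev (x0 s v) (p.c l m) * v (Sum.inr (Sum.inr m))) /
          (ev (fun q => v (Sum.inl (Sum.inr q))) s.u) ^ p.r l)
      rw [hx0, ← mul_div_assoc, Finset.mul_sum]
      congr 1
      refine Finset.sum_congr rfl fun m _ => ?_
      by_cases hm : Y.τ m = X.τ l
      · rw [hm]
        ring
      · rw [p.c0 l m hm, map_zero]
        ring
  rw [h1]
  exact hV _ hv' μ hμ

end MP

namespace RFp

section scale

variable {K : Type} [Field K] {R : Type} [CommRing R] (M : Meas K R) {π ρ : Type} [Fintype π]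
  [Fintype ρ] (w : ρ → Bool)

/-- the scaling of some coordinates -/
noncomputable def sclw (c : AlgebraicClosure K) (z : Pt K (π ⊕ ρ)) : Pt K (π ⊕ ρ) :=
  Sum.elim (fun p => z (Sum.inl p)) (fun q => c ^ (if w q = true then 1 else 0) * z (Sum.inr q))

theorem sclw_sclw (c d : AlgebraicClosure K) (z : Pt K (π ⊕ ρ)) :
    sclw w c (sclw w d z) = sclw w (c * d) z := by
  funext i
  rcases i with p | q
  · rfl
  · change c ^ _ * (d ^ _ * z (Sum.inr q)) = (c * d) ^ _ * z (Sum.inr q)
    rw [mul_pow]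
    ring

theorem sclw_one (z : Pt K (π ⊕ ρ)) : sclw w 1 z = z := by
  funext i
  rcases i with p | q
  · rfl
  · change 1 ^ _ * z (Sum.inr q) = z (Sum.inr q)
    rw [one_pow, one_mul]

/-- A set of jets which is invariant under scaling, and a scaled coordinate which does not
vanish. -/
theorem chi_scalew (A : Set (Pt K (π ⊕ ρ))) (hA : Constr A) (r : ρ) (hr : w r = true)
    (h1 : ∀ z ∈ A, z (Sum.inr r) ≠ 0) (h2 : ∀ z ∈ A, ∀ c, c ≠ 0 → sclw w c z ∈ A) :
    M.χ _ A = (M.L - 1) * M.χ _ (A ∩ {z | z (Sum.inr r) = 1}) := by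
  classical
  set i0 : π ⊕ ρ := Sum.inr r with hi0
  set S : Set (Pt K (π ⊕ ρ)) := {w | Function.update w i0 1 ∈ A} with hS
  have hSc : Constr S := by
    refine hA.preimage (fun w : Pt K (π ⊕ ρ) => Function.update w i0 1) fun i => ?_
    by_cases h : i = i0
    · subst h
      simp only [Function.update_self]
      exact IsPF.one
    · simp only [Function.update_of_ne h]
      exact IsPF.coord i
  have h3 := Pool.Agent.W417.MT.Free.main M S {i0} ∅ (fun _ => 1)
    (Finset.disjoint_empty_right _) hSc (by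
      intro z w hzw hz
      have h4 : Function.update w i0 1 = Function.update z i0 1 := by
        funext i
        by_cases h : i = i0
        · rw [h, Function.update_self, Function.update_self]
        · rw [Function.update_of_ne h, Function.update_of_ne h]
          exact hzw i (by simpa using h) (Finset.notMem_empty i)
      change Function.update w i0 1 ∈ A
      rw [h4]
      exact hz)
  simp only [Finset.mem_singleton, forall_eq, Finset.union_empty, map_one, Finset.card_singleton,
    pow_one, Finset.card_empty, pow_zero, mul_one] at h3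
  have h4 : S ∩ {z : Pt K (π ⊕ ρ) | z i0 = 1} = A ∩ {z | z i0 = 1} := by
    ext z
    simp only [hS, Set.mem_inter_iff, Set.mem_ofPred_eq]
    constructor
    · rintro ⟨h5, h6⟩
      have h7 : Function.update z i0 1 = z := by
        rw [← h6, Function.update_eq_self]
      rw [h7] at h5
      exact ⟨h5, h6⟩
    · rintro ⟨h5, h6⟩
      have h7 : Function.update z i0 1 = z := by
        rw [← h6, Function.update_eq_self]
      rw [h7]
      exact ⟨h5, h6⟩
  rw [h4] at h3
  rw [mul_comm, ← h3]
  have hne : Constr {z : Pt K (π ⊕ ρ) | z i0 ≠ 0} := Constr.not (Constr.eqz (IsPF.coord i0))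
  have hi0' : ∀ (c : AlgebraicClosure K) (z : Pt K (π ⊕ ρ)), sclw w c z i0 = c * z i0 := by
    intro c z
    change c ^ (if w r = true then 1 else 0) * z (Sum.inr r) = c * z (Sum.inr r)
    rw [if_pos hr, pow_one]
  -- the isomorphism
  refine M.iso _ _ hA (hSc.inter hne)
    (fun z => Function.update (sclw w (z i0)⁻¹ z) i0 (z i0))
    (fun y => sclw w (y i0) (Function.update y i0 1)) ?_ ?_ ?_ ?_ ?_ ?_
  · intro i
    by_cases h : i = i0
    · subst h
      simp only [Function.update_self]
      exact (IsPF.coord i0).isRF _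
    · simp only [Function.update_of_ne h]
      rcases i with p | q
      · exact (IsPF.coord (Sum.inl p)).isRF _
      · by_cases hq : w q = true
        · have h5 : IsRF A (fun z : Pt K (π ⊕ ρ) => z (Sum.inr q) / z i0) :=
            ((IsPF.coord (Sum.inr q)).isRF _).div ((IsPF.coord i0).isRF _) h1
          refine h5.congr fun z hz => ?_
          change (z i0)⁻¹ ^ (if w q = true then 1 else 0) * z (Sum.inr q) = z (Sum.inr q) / z i0
          rw [if_pos hq, pow_one, div_eq_mul_inv, mul_comm]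
        · refine ((IsPF.coord (Sum.inr q)).isRF A).congr fun z hz => ?_
          change (z i0)⁻¹ ^ (if w q = true then 1 else 0) * z (Sum.inr q) = z (Sum.inr q)
          rw [if_neg hq, pow_zero, one_mul]
  · refine regularOn_poly (fun i => ?_) _
    rcases i with p | q
    · have h5 : (Sum.inl p : π ⊕ ρ) ≠ i0 := by simp [hi0]
      have h6 : (fun y : Pt K (π ⊕ ρ) => sclw w (y i0) (Function.update y i0 1) (Sum.inl p)) =
          fun y => y (Sum.inl p) := by
        funext y
        change Function.update y i0 1 (Sum.inl p) = _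
        rw [Function.update_of_ne h5]
      rw [h6]
      exact IsPF.coord _
    · change IsPF fun y : Pt K (π ⊕ ρ) =>
        y i0 ^ (if w q = true then 1 else 0) * Function.update y i0 1 (Sum.inr q)
      have h7 : IsPF fun y : Pt K (π ⊕ ρ) => Function.update y i0 1 (Sum.inr q) := by
        by_cases h : (Sum.inr q : π ⊕ ρ) = i0
        · rw [h]
          simp only [Function.update_self]
          exact IsPF.one
        · simp only [Function.update_of_ne h]
          exact IsPF.coord _
      by_cases hq : w q = true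
      · simp only [if_pos hq, pow_one]
        exact (IsPF.coord _).mul h7
      · simp only [if_neg hq, pow_zero, one_mul]
        exact h7
  · intro z hz
    have h5 := h1 z hz
    have h6 : Function.update (Function.update (sclw w (z i0)⁻¹ z) i0 (z i0)) i0 1 =
        sclw w (z i0)⁻¹ z := by
      rw [Function.update_idem]
      have h7 : (sclw w (z i0)⁻¹ z) i0 = 1 := by
        rw [hi0']
        exact inv_mul_cancel₀ h5
      rw [← h7, Function.update_eq_self]
    refine ⟨?_, ?_⟩
    · change Function.update (Function.update (sclw w (z i0)⁻¹ z) i0 (z i0)) i0 1 ∈ A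
      rw [h6]
      exact h2 z hz _ (inv_ne_zero h5)
    · change Function.update (sclw w (z i0)⁻¹ z) i0 (z i0) i0 ≠ 0
      rw [Function.update_self]
      exact h5
  · rintro y ⟨h5, h6⟩
    exact h2 _ h5 _ h6
  · intro z hz
    have h5 := h1 z hz
    have h6 : Function.update (Function.update (sclw w (z i0)⁻¹ z) i0 (z i0)) i0 1 =
        sclw w (z i0)⁻¹ z := by
      rw [Function.update_idem]
      have h7 : (sclw w (z i0)⁻¹ z) i0 = 1 := by
        rw [hi0']
        exact inv_mul_cancel₀ h5
      rw [← h7, Function.update_eq_self]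
    simp only [h6, Function.update_self]
    rw [sclw_sclw, mul_inv_cancel₀ h5, sclw_one]
  · rintro y ⟨h5, h6⟩
    have h7 : (sclw w (y i0) (Function.update y i0 1)) i0 = y i0 := by
      rw [hi0', Function.update_self, mul_one]
    simp only [h7]
    rw [sclw_sclw, inv_mul_cancel₀ h6, sclw_one, Function.update_idem, Function.update_eq_self]

end scale

open ME

section cone

variable {K : Type} [Field K] {T : ℕ} {π : Type}

theorem cone_V0w (X : Sys T) (w : X.ι → Bool) {V : Set (Pt K (π ⊕ (X.ι ⊕ X.Λ)))}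
    (hV : Cone X V) : Cone X (V0w X w V) := by
  intro v hv μ hμ
  exact hV _ hv μ hμ

variable {R : Type} [CommRing R] (M : Meas K R) [Fintype π]

/-- The factor `𝕃 - 1`. -/
theorem mm_gmw (v : R) (X : Sys T) (w : X.ι → Bool) (e : Fin T → ℕ)
    (he : ∀ l, IsWeightedHomogeneous (fun i => if w i = true then 1 else 0) (X.G l) (e (X.τ l)))
    {V : Set (Pt K (π ⊕ (X.ι ⊕ X.Λ)))}
    (hV : Constr V) (i : X.ι) (hi : w i = true) (h0 : ∀ z ∈ V, z (Sum.inr (Sum.inl i)) ≠ 0)
    (hs : ∀ z ∈ V, ∀ c : AlgebraicClosure K, c ≠ 0 → (Sum.elim (fun p => z (Sum.inl p))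
      (Sum.elim (fun j => c ^ (if w j = true then 1 else 0) * z (Sum.inr (Sum.inl j)))
        (fun l => c ^ e (X.τ l) * z (Sum.inr (Sum.inr l)))) : Pt K (π ⊕ (X.ι ⊕ X.Λ))) ∈ V)
    (α : Fin T → ℕ) : mm M v X V α = (M.L - 1) *
      mm M v X (V ∩ {z | z (Sum.inr (Sum.inl i)) = 1}) α := by
  unfold mm
  set N := ∑ t, α t
  have h1 := chi_scalew M (fun q : X.ι × Fin (N + 1) => w q.1) (SS X V α N) (constr_SS X hV α N)
    ((i, 0) : X.ι × Fin (N + 1)) hi (fun z hz => h0 _ hz.2) (by
      rintro z ⟨hz1, hz2⟩ c hc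
      have h3 : (ar fun q => sclw (fun q : X.ι × Fin (N + 1) => w q.1) c z (Sum.inr q)) =
          fun i => PowerSeries.C c ^ (if w i = true then 1 else 0) *
            ar (fun q => z (Sum.inr q)) i := by
        funext i
        ext j
        rw [← map_pow, coeff_ar, PowerSeries.coeff_C_mul, coeff_ar]
        by_cases hj : j < N + 1
        · rw [dif_pos hj, dif_pos hj]
          rfl
        · rw [dif_neg hj, dif_neg hj, mul_zero]
      have h4 : ∀ l, ev (ar fun q => sclw (fun q : X.ι × Fin (N + 1) => w q.1) c z (Sum.inr q))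
          (X.G l) = PowerSeries.C (c ^ e (X.τ l)) * ev (ar fun q => z (Sum.inr q)) (X.G l) := by
        intro l
        rw [h3, hom_evw w _ _ (he l), map_pow]
      refine ⟨fun l => ?_, ?_⟩
      · rw [h4 l]
        exact vn_mul _ (hz1 l)
      · have h5 := hs _ hz2 c hc
        have h6 : dat X α (sclw (fun q : X.ι × Fin (N + 1) => w q.1) c z) =
            (Sum.elim (fun p => dat X α z (Sum.inl p))
            (Sum.elim (fun j => c ^ (if w j = true then 1 else 0) *
              dat X α z (Sum.inr (Sum.inl j)))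
              (fun l => c ^ e (X.τ l) * dat X α z (Sum.inr (Sum.inr l)))) :
              Pt K (π ⊕ (X.ι ⊕ X.Λ))) := by
          funext j
          rcases j with p | j | l
          · rfl
          · rfl
          · change PowerSeries.coeff (α (X.τ l))
                (ev (ar fun q => sclw (fun q : X.ι × Fin (N + 1) => w q.1) c z (Sum.inr q))
                  (X.G l)) =
              c ^ e (X.τ l) * PowerSeries.coeff (α (X.τ l))
                (ev (ar fun q => z (Sum.inr q)) (X.G l))
            rw [h4 l, PowerSeries.coeff_C_mul]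
        rw [h6]
        exact h5)
  have h2 : SS X V α N ∩ {z | z (Sum.inr (i, 0)) = 1} =
      SS X (V ∩ {z | z (Sum.inr (Sum.inl i)) = 1}) α N := by
    ext z
    constructor
    · rintro ⟨⟨h3, h4⟩, h5⟩
      exact ⟨h3, h4, h5⟩
    · rintro ⟨h3, h4, h5⟩
      exact ⟨⟨h3, h4⟩, h5⟩
  rw [h1, h2, mul_assoc]

end cone

section rec

variable {K : Type} [Field K] {T : ℕ} {R : Type} [CommRing R] {u : Rˣ} {M : Meas K R}
  (hu : M.L = (u : R))
include hu

/-- the part where a pivot does not vanish -/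
theorem rf_pivI {D : Set (ℕ × (Fin T → ℕ))} {X Y : Sys T} (p : PivI X Y) (hY : RF u M D Y)
    (π : Type) [Fintype π] (V : Set (Pt K (π ⊕ (X.ι ⊕ X.Λ)))) (hV : Constr V) (hG : Gd X V)
    (hC : Cone X V)
    (hU : ∀ v ∈ V, p.toSh.U (fun i => v (Sum.inr (Sum.inl i))) ≠ 0) :
    gF u M X V ∈ ratF u D := by
  obtain ⟨q⟩ := MP.mkCf p
  have h1 : mm M (((u⁻¹ : Rˣ) : R)) X V = mm M (((u⁻¹ : Rˣ) : R)) Y (MP.pull q V) :=
    funext fun α => MP.mm_piv q M _ (hv hu) hV hU α
  have h2 : gF u M X V = gF u M Y (MP.pull q V) := by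
    funext a
    unfold gF
    rw [h1]
  rw [h2]
  exact hY (π ⊕ p.P) _ (MP.constr_pull q hV) (MP.gd_pull q hG) (MP.cone_pull q hC)

/-- the parts where some pivot does not vanish -/
theorem rf_pivIs {D : Set (ℕ × (Fin T → ℕ))} {X : Sys T} {B : Type} (Y : B → Sys T)
    (p : ∀ b, PivI X (Y b)) (hY : ∀ b, RF u M D (Y b)) (s : Finset B) :
    ∀ (π : Type) [Fintype π] (V : Set (Pt K (π ⊕ (X.ι ⊕ X.Λ)))), Constr V → Gd X V → Cone X V →
      (∀ v ∈ V, ∃ b ∈ s, (p b).toSh.U (fun i => v (Sum.inr (Sum.inl i))) ≠ 0) →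
      gF u M X V ∈ ratF u D := by
  classical
  induction s using Finset.induction_on with
  | empty =>
    intro π _ V hV hG hC h
    rw [gF_empty hu π V]
    · exact Subalgebra.zero_mem _
    · rw [Set.eq_empty_iff_forall_notMem]
      intro v hv
      obtain ⟨b, hb, _⟩ := h v hv
      exact absurd hb (Finset.notMem_empty b)
  | insert b s hb ih =>
    intro π _ V hV hG hC h
    set W : Set (Pt K (π ⊕ (X.ι ⊕ X.Λ))) :=
      {v | (p b).toSh.U (fun i => v (Sum.inr (Sum.inl i))) = 0} with hW
    have hWc : Constr W := Constr.eqz (pf_aevalZ (φ := fun (v : Pt K (π ⊕ (X.ι ⊕ X.Λ)))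
      (q : (p b).P) => v (Sum.inr (Sum.inl ((p b).e (Sum.inl (Sum.inl q))))))
      (fun i => IsPF.coord _) _)
    have hWC : Cone X W := cone_origin X fun x => (p b).toSh.U x = 0
    have hWC' : Cone X Wᶜ := cone_origin X fun x => ¬ (p b).toSh.U x = 0
    have h1 : V = (V ∩ Wᶜ) ∪ (V ∩ W) := by
      rw [Set.union_comm, Set.inter_union_compl]
    rw [h1, gF_union hu π (hV.inter hWc.compl) (hV.inter hWc) (by
      rw [Set.disjoint_left]
      rintro v ⟨_, h2⟩ ⟨_, h3⟩
      exact h2 h3)]
    refine Subalgebra.add_mem _ ?_ ?_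
    · exact rf_pivI hu (p b) (hY b) π _ (hV.inter hWc.compl) (fun v hv => hG v hv.1)
        (cone_inter X hC hWC') fun v hv => hv.2
    · refine ih π _ (hV.inter hWc) (fun v hv => hG v hv.1) (cone_inter X hC hWC) fun v hv => ?_
      obtain ⟨b', hb', h2⟩ := h v hv.1
      rcases Finset.mem_insert.1 hb' with rfl | h3
      · exact absurd hv.2 h2
      · exact ⟨b', h3, h2⟩

/-- the part where the scaled coordinates of the origin do not vanish, for a condition which does
not depend on them -/
theorem rf_nzw {D : Set (ℕ × (Fin T → ℕ))} {X : Sys T} (w : X.ι → Bool) (e : Fin T → ℕ)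
    (he : ∀ l, IsWeightedHomogeneous (fun i => if w i = true then 1 else 0) (X.G l) (e (X.τ l)))
    (hnz : ∀ (π : Type) [Fintype π] (V : Set (Pt K (π ⊕ (X.ι ⊕ X.Λ)))), Constr V → Gd X V →
      Cone X V → (∀ v ∈ V, ∃ i, w i = true ∧ v (Sum.inr (Sum.inl i)) ≠ 0) →
      gF u M X V ∈ ratF u D)
    (π : Type) [Fintype π] (V : Set (Pt K (π ⊕ (X.ι ⊕ X.Λ)))) (hV : Constr V) (hG : Gd X V)
    (hC : Cone X V) (s : Finset X.ι) (hs : ∀ i ∈ s, w i = true) :
    ∃ Z ∈ ratF u D, ∀ a, gF u M X
      (V0w X w V ∩ {v | ∃ i ∈ s, v (Sum.inr (Sum.inl i)) ≠ 0}) a =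
        PowerSeries.C ((u : R) - 1) * Z a := by
  classical
  have hV0 := constr_V0w X w hV
  have hG0 := gd_V0w X w hG
  have hC0 := cone_V0w X w hC
  induction s using Finset.induction_on with
  | empty =>
    refine ⟨0, Subalgebra.zero_mem _, fun a => ?_⟩
    rw [gF_empty hu π _]
    · simp
    · rw [Set.eq_empty_iff_forall_notMem]
      rintro v ⟨_, i, hi, _⟩
      exact absurd hi (Finset.notMem_empty i)
  | insert i s hi ih =>
    have hwi : w i = true := hs i (Finset.mem_insert_self i s)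
    obtain ⟨Z, hZ, hZ'⟩ := ih fun j hj => hs j (Finset.mem_insert_of_mem hj)
    set A : Set (Pt K (π ⊕ (X.ι ⊕ X.Λ))) := V0w X w V ∩
      {v | ∃ i ∈ s, v (Sum.inr (Sum.inl i)) ≠ 0} with hA
    set B : Set (Pt K (π ⊕ (X.ι ⊕ X.Λ))) := V0w X w V ∩
      {v | (∀ j ∈ s, v (Sum.inr (Sum.inl j)) = 0) ∧ v (Sum.inr (Sum.inl i)) ≠ 0} with hB
    have hAc : Constr A := hV0.inter (Constr.bexFinset s fun j _ =>
      Constr.not (Constr.eqz (IsPF.coord _)))
    have hBc : Constr B := hV0.inter (Constr.and (Constr.ballFinset s fun j _ =>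
      Constr.eqz (IsPF.coord _)) (Constr.not (Constr.eqz (IsPF.coord _))))
    have hAB : V0w X w V ∩ {v | ∃ j ∈ insert i s, v (Sum.inr (Sum.inl j)) ≠ 0} = A ∪ B := by
      ext v
      simp only [hA, hB, Set.mem_inter_iff, Set.mem_union, Set.mem_ofPred_eq, Finset.mem_insert]
      constructor
      · rintro ⟨h1, j, hj, hj'⟩
        by_cases h : ∃ i ∈ s, v (Sum.inr (Sum.inl i)) ≠ 0
        · exact Or.inl ⟨h1, h⟩
        · push Not at h
          rcases hj with rfl | hj
          · exact Or.inr ⟨h1, h, hj'⟩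
          · exact absurd (h j hj) hj'
      · rintro (⟨h1, j, hj, hj'⟩ | ⟨h1, h2, h3⟩)
        · exact ⟨h1, j, Or.inr hj, hj'⟩
        · exact ⟨h1, i, Or.inl rfl, h3⟩
    have hdis : Disjoint A B := by
      rw [Set.disjoint_left]
      rintro v ⟨_, j, hj, hj'⟩ ⟨_, h2, _⟩
      exact hj' (h2 j hj)
    have hB1 : ∀ α, mm M (((u⁻¹ : Rˣ) : R)) X B α = ((u : R) - 1) *
        mm M (((u⁻¹ : Rˣ) : R)) X (B ∩ {w | w (Sum.inr (Sum.inl i)) = 1}) α := by
      intro α
      rw [← hu]
      refine mm_gmw M _ X w e he hBc i hwi (fun w hw => hw.2.2) ?_ α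
      rintro z ⟨hw1, hw2, hw3⟩ c hc
      refine ⟨?_, fun j hj => ?_, ?_⟩
      · have h5 := hC _ hw1 (fun t => c ^ e t) fun t => pow_ne_zero _ hc
        have h6 : scL X (fun t => c ^ e t) (Sum.elim (fun p => z (Sum.inl p)) (Sum.elim
            (fun i => if w i = true then 0 else z (Sum.inr (Sum.inl i)))
            (fun l => z (Sum.inr (Sum.inr l)))) : Pt K (π ⊕ (X.ι ⊕ X.Λ))) =
            (Sum.elim (fun p => z (Sum.inl p)) (Sum.elim
            (fun j => if w j = true then 0 else
              c ^ (if w j = true then 1 else 0) * z (Sum.inr (Sum.inl j)))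
            (fun l => c ^ e (X.τ l) * z (Sum.inr (Sum.inr l)))) : Pt K (π ⊕ (X.ι ⊕ X.Λ))) := by
          funext k
          rcases k with p | k | l
          · rfl
          · change (if w k = true then (0 : AlgebraicClosure K) else z (Sum.inr (Sum.inl k))) =
              if w k = true then 0 else
                c ^ (if w k = true then 1 else 0) * z (Sum.inr (Sum.inl k))
            by_cases hk : w k = true
            · rw [if_pos hk, if_pos hk]
            · rw [if_neg hk, if_neg hk, if_neg hk, pow_zero, one_mul]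
          · rfl
        rw [h6] at h5
        exact h5
      · change c ^ (if w j = true then 1 else 0) * z (Sum.inr (Sum.inl j)) = 0
        rw [hw2 j hj, mul_zero]
      · change c ^ (if w i = true then 1 else 0) * z (Sum.inr (Sum.inl i)) ≠ 0
        exact mul_ne_zero (pow_ne_zero _ hc) hw3
    have hB2 : ∀ a, gF u M X B a = PowerSeries.C ((u : R) - 1) *
        gF u M X (B ∩ {w | w (Sum.inr (Sum.inl i)) = 1}) a := by
      intro a
      unfold gF
      rw [← gf_C_mul, funext hB1]
    refine ⟨Z + gF u M X (B ∩ {w | w (Sum.inr (Sum.inl i)) = 1}),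
      Subalgebra.add_mem _ hZ ?_, fun a => ?_⟩
    · refine hnz π _ (hBc.inter (Constr.eq (IsPF.coord _) IsPF.one))
        (fun v hv => hG0 v hv.1.1) (cone_inter X (cone_inter X hC0 ?_) ?_)
        fun v hv => ⟨i, hwi, hv.1.2.2⟩
      · exact cone_origin X fun x => (∀ j ∈ s, x j = 0) ∧ x i ≠ 0
      · exact cone_origin X fun x => x i = 1
    · rw [hAB, gF_union hu π hAc hBc hdis, Pi.add_apply, Pi.add_apply, hZ', hB2, mul_add]

/-- the step of the recursion -/
theorem rf_stepw {D : Set (ℕ × (Fin T → ℕ))} {X : Sys T}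
    (w : X.ι → Bool) (e : Fin T → ℕ) (hN : ∃ t, 0 < e t)
    (he : ∀ l, IsWeightedHomogeneous (fun i => if w i = true then 1 else 0) (X.G l) (e (X.τ l)))
    {B : Type} [Fintype B] (Y : B → Sys T) (p : ∀ b, PivI X (Y b))
    (hY : ∀ b, RF u M D (Y b))
    (cov : ∀ x : X.ι → AlgebraicClosure K, (∃ i, w i = true ∧ x i ≠ 0) →
      ∃ b, (p b).toSh.U x ≠ 0)
    (hD : ((Finset.univ.filter fun i => w i = true).card, e) ∈ D) : RF u M D X := by
  classical
  intro π _ V hV hG hC
  have hnz : ∀ (π : Type) [Fintype π] (V : Set (Pt K (π ⊕ (X.ι ⊕ X.Λ)))), Constr V → Gd X V →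
      Cone X V → (∀ v ∈ V, ∃ i, w i = true ∧ v (Sum.inr (Sum.inl i)) ≠ 0) →
      gF u M X V ∈ ratF u D := by
    intro π _ V hV hG hC hnz
    refine rf_pivIs hu Y p hY Finset.univ π _ hV hG hC fun v hv => ?_
    obtain ⟨b, hb⟩ := cov (fun i => v (Sum.inr (Sum.inl i))) (hnz v hv)
    exact ⟨b, Finset.mem_univ b, hb⟩
  -- the set where the scaled coordinates of the origin vanish
  set Z : Set (Pt K (π ⊕ (X.ι ⊕ X.Λ))) :=
    {v | ∀ i, w i = true → v (Sum.inr (Sum.inl i)) = 0} with hZ
  have hZc : Constr Z := by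
    refine Constr.all fun i => ?_
    by_cases hi : w i = true
    · simp only [hi, true_imp_iff]
      exact Constr.eqz (IsPF.coord _)
    · have h1 : {v : Pt K (π ⊕ (X.ι ⊕ X.Λ)) | w i = true → v (Sum.inr (Sum.inl i)) = 0} =
          Set.univ := by
        ext v
        exact ⟨fun _ => trivial, fun _ h2 => absurd h2 hi⟩
      rw [h1]
      exact Constr.univ
  have hdec : ∀ V : Set (Pt K (π ⊕ (X.ι ⊕ X.Λ))), Constr V → Gd X V → ∀ a : PA T,
      gF u M X V a = gF u M X (V ∩ Zᶜ) a +
        PowerSeries.C (((u⁻¹ : Rˣ) : R) ^ (Finset.univ.filter fun i => w i = true).card) *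
          PowerSeries.X ^ (∑ t, a.1 t * e t) * gF u M X (V0w X w V) a := by
    intro V hV hG a
    have h1 : V = (V ∩ Zᶜ) ∪ (V ∩ Z) := by
      rw [Set.union_comm, Set.inter_union_compl]
    conv_lhs => rw [h1, gF_union hu π (hV.inter hZc.compl) (hV.inter hZc) (by
      rw [Set.disjoint_left]
      rintro v ⟨_, h2⟩ ⟨_, h3⟩
      exact h2 h3), Pi.add_apply]
    congr 1
    refine gf_shift a.1 a.2 e _ _ _ (fun α hα => ?_) fun β => ?_
    · exact mm_scalew_zero M _ X w e he (fun v hv => hG v hv.1) (fun v hv => hv.2) α hα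
    · rw [mm_scalew M _ (hv hu) X w e he (hV.inter hZc) (fun v hv => hv.2)]
      have h2 : V0w X w (V ∩ Z) = V0w X w V := by
        ext v
        refine ⟨fun h => h.1, fun h => ⟨h, fun i hi => ?_⟩⟩
        simp only [Sum.elim_inr, Sum.elim_inl, if_pos hi]
      rw [h2]
  have hCZ : Cone X Zᶜ := cone_origin X fun x => ¬ ∀ i, w i = true → x i = 0
  obtain ⟨Z', hZ', h4⟩ := rf_nzw hu w e he hnz π V hV hG hC
    (Finset.univ.filter fun i => w i = true) fun i hi => (Finset.mem_filter.1 hi).2
  have h5 : V0w X w V ∩ {v | ∃ i ∈ (Finset.univ.filter fun i => w i = true),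
      v (Sum.inr (Sum.inl i)) ≠ 0} = V0w X w V ∩ Zᶜ := by
    ext v
    simp only [hZ, Set.mem_inter_iff, Set.mem_compl_iff, Set.mem_ofPred_eq, Finset.mem_filter,
      Finset.mem_univ, true_and, not_forall, exists_prop]
  rw [h5] at h4
  have h6 : gF u M X (V0w X w V) ∈ ratF u D := by
    refine geoF_solve u hN hD _ _ hZ' fun a => ?_
    have h3 := hdec (V0w X w V) (constr_V0w X w hV) (gd_V0w X w hG) a
    rw [V0w_V0w, h4 a] at h3
    exact h3
  have h7 : gF u M X V = gF u M X (V ∩ Zᶜ) +
      (fun _ => PowerSeries.C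
        (((u⁻¹ : Rˣ) : R) ^ (Finset.univ.filter fun i => w i = true).card)) *
        (fun a => PowerSeries.X ^ (∑ t, a.1 t * e t)) * gF u M X (V0w X w V) := by
    funext a
    exact hdec V hV hG a
  rw [h7]
  refine Subalgebra.add_mem _ (hnz π _ (hV.inter hZc.compl) (fun v hv => hG v hv.1)
    (cone_inter X hC hCZ) fun v hv => ?_) (Subalgebra.mul_mem _
      (Subalgebra.mul_mem _ (ratF_C u _) (ratF_X u e)) h6)
  have h8 := not_forall.1 hv.2
  obtain ⟨i, hi⟩ := h8
  rw [Classical.not_imp] at hi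
  exact ⟨i, hi⟩

/-- a family contains the polynomial `1` -/
theorem rf_unit {D : Set (ℕ × (Fin T → ℕ))} {X : Sys T}
    (h : ∀ t, ∃ l, X.τ l = t ∧ X.G l = 1) : RF u M D X := by
  intro π _ V hV hG hC
  have h8 : gF u M X V = fun _ => PowerSeries.C (mm M (((u⁻¹ : Rˣ) : R)) X V fun _ => 0) := by
    funext a
    refine gf_const a.1 a.2 _ ?_
    rintro α ⟨t, ht⟩
    have h2 : SS X V α (∑ t, α t) = ∅ := by
      rw [Set.eq_empty_iff_forall_notMem]
      intro z hz
      obtain ⟨l, hl, hl'⟩ := h t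
      have h3 := hz.1 l 0 (by rw [hl]; omega)
      rw [hl', map_one] at h3
      simp at h3
    unfold mm
    rw [h2, Pool.Agent.W375.MT.chi_empty, zero_mul]
  rw [h8]
  exact ratF_C u _

end rec

end RFp

/-- **Package RF.** -/
theorem t_RF : S_RF := by
  intro K _ T R _ u M hu D X hX
  induction hX with
  | unit X hX => exact RFp.rf_unit hu hX
  | mk X w e he hom hD B fB Y pv cov hT ih =>
    exact RFp.rf_stepw hu w e he hom Y pv ih (cov (AlgebraicClosure K)) hD

end Pool.Agent.U397.TM
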