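import Pool.Agent.TH192.MT.Univ
import Pool.Agent.TH192.PA.Tower
import Pool.Agent.R852.SC.Defs

set_option autoImplicit false
set_option linter.unusedVariables false

/-! # Project TM: products of generic matrices

Systems `Sys T` (families of polynomials with integral coefficients), pivots whose shear may depend on
coordinates which are kept (`Sh`, `PivI`), towers with partial scaling (`Tw2`), and the systems of
the entries of the products of generic matrices.  Packages: `S_PE`, `S_ME`, `S_ST`, `S_RO`. -/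

namespace Pool.Agent.U397.TM

open MvPolynomial Pool.Agent.TH192.MT

/-- The coordinates of `X` are `P`, `Z`, `H`, the ones of `Y` are `Z` and `H`. The shear: the
coordinates `P` are dropped, `Z` is unchanged, `x' = x - g(P, Z) / u(P)` on `H`. -/
structure Sh {T : ℕ} (X Y : Sys T) where
  P : Type
  fP : Fintype P
  Z : Type
  fZ : Fintype Z
  H : Type
  fH : Fintype H
  e : (P ⊕ Z) ⊕ H ≃ X.ι
  e' : Z ⊕ H ≃ Y.ι
  u : MvPolynomial P ℤ
  g : H → MvPolynomial (P ⊕ Z) ℤ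

attribute [instance] Sh.fP Sh.fZ Sh.fH

/-- the value of `u` -/
noncomputable def Sh.U {T : ℕ} {X Y : Sys T} (s : Sh X Y) {A : Type} [CommRing A] (x : X.ι → A) : A :=
  ev (fun q => x (s.e (Sum.inl (Sum.inl q)))) s.u

/-- `x'` is the sheared point (where `u` is a unit) -/
def Sh.Rel {T : ℕ} {X Y : Sys T} (s : Sh X Y) {A : Type} [CommRing A] (x : X.ι → A)
    (x' : Y.ι → A) : Prop :=
  (∀ z, x' (s.e' (Sum.inl z)) = x (s.e (Sum.inl (Sum.inr z)))) ∧
  ∀ h, s.U x * x' (s.e' (Sum.inr h)) = s.U x * x (s.e (Sum.inr h)) -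
    ev (fun q => x (s.e (Sum.inl q))) (s.g h)

/-- A pivot: the ideals of the families do not change where `u` is a unit. -/
structure PivI {T : ℕ} (X Y : Sys T) extends Sh X Y where
  hI : ∀ (A : Type) [CommRing A] (x : X.ι → A) (x' : Y.ι → A), IsUnit (toSh.U x) →
    toSh.Rel x x' → ∀ t, fI X x t = fI Y x' t

/-- A system which can be reduced by pivots where some of the coordinates `i` with `w i` (the scaled
ones) do not vanish, and whose family `t` is homogeneous of degree `e t` in the scaled coordinates.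
The pairs (number of the scaled coordinates, `e`) are in `D`. -/
inductive Tw2 {T : ℕ} (D : Set (ℕ × (Fin T → ℕ))) : Sys T → Prop
  | unit (X : Sys T) (h : ∀ t, ∃ l, X.τ l = t ∧ X.G l = 1) : Tw2 D X
  | mk (X : Sys T) (w : X.ι → Bool) (e : Fin T → ℕ) (he : ∃ t, 0 < e t)
      (hom : ∀ l, IsWeightedHomogeneous (fun i => if w i = true then 1 else 0) (X.G l) (e (X.τ l)))
      (hD : ((Finset.univ.filter fun i => w i = true).card, e) ∈ D)
      (B : Type) (fB : Fintype B) (Y : B → Sys T) (pv : ∀ b, PivI X (Y b))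
      (cov : ∀ (F : Type) [Field F] (x : X.ι → F), (∃ i, w i = true ∧ x i ≠ 0) →
        ∃ b, (pv b).toSh.U x ≠ 0)
      (h : ∀ b, Tw2 D (Y b)) : Tw2 D X

/-! ### products of matrices -/

/-- the product `A 0 * A 1 * ⋯ * A i` -/
def prodM {R : Type} [CommRing R] (n : ℕ → ℕ) (A : ∀ i, Matrix (Fin (n i)) (Fin (n (i + 1))) R) :
    (i : ℕ) → Matrix (Fin (n 0)) (Fin (n (i + 1))) R
  | 0 => A 0
  | i + 1 => prodM n A i * A (i + 1)

/-- the entries of `L` matrices of the sizes `n i × n (i + 1)`, `i < L` -/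
abbrev Var (n : ℕ → ℕ) (L : ℕ) : Type := Σ i : Fin L, Fin (n i) × Fin (n (i + 1))

/-- the generic matrices (zero for `i ≥ L`) -/
noncomputable def genM (n : ℕ → ℕ) (L : ℕ) (i : ℕ) :
    Matrix (Fin (n i)) (Fin (n (i + 1))) (MvPolynomial (Var n L) ℤ) :=
  Matrix.of fun r c => if h : i < L then X ⟨⟨i, h⟩, (r, c)⟩ else 0

/-- the entries of `A 0 ⋯ A i` -/
noncomputable def gens (n : ℕ → ℕ) (L i : ℕ) (q : Fin (n 0) × Fin (n (i + 1))) :
    MvPolynomial (Var n L) ℤ := prodM n (genM n L) i q.1 q.2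

/-- the families of the entries of `A 0 ⋯ A (ℓ t)` -/
@[reducible] noncomputable def topS (n : ℕ → ℕ) (L : ℕ) {T : ℕ} (ℓ : Fin T → ℕ) : Sys T where
  ι := Var n L
  fι := inferInstance
  Λ := Σ t, Fin (n 0) × Fin (n (ℓ t + 1))
  fΛ := inferInstance
  τ l := l.1
  G l := gens n L (ℓ l.1) l.2

/-- the chains `n 0 = c 0 ≥ c 1 ≥ ⋯ ≥ c L`, `c (i + 1)` is the rank of `A 0 ⋯ A i` -/
structure IsChain (n : ℕ → ℕ) (c : ℕ → ℕ) : Prop where
  zero : c 0 = n 0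
  anti : Antitone c
  le : ∀ i, c i ≤ n i

/-- the codimension of the stratum -/
def nuC (n : ℕ → ℕ) (L : ℕ) (c : ℕ → ℕ) : ℕ :=
  ∑ i ∈ Finset.range L, (c i - c (i + 1)) * (n (i + 1) - c (i + 1))

/-- the families which vanish on the stratum -/
def degC {T : ℕ} (ℓ : Fin T → ℕ) (c : ℕ → ℕ) (t : Fin T) : ℕ := if c (ℓ t + 1) = 0 then 1 else 0

/-- the pairs of the strata on which some family vanishes -/
def DD (n : ℕ → ℕ) (L : ℕ) {T : ℕ} (ℓ : Fin T → ℕ) : Set (ℕ × (Fin T → ℕ)) :=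
  {q | ∃ c, IsChain n c ∧ (∃ t, c (ℓ t + 1) = 0) ∧ q = (nuC n L c, degC ℓ c)}

/-! ### the packages -/

/-- **Package ST.** The systems of the entries of the products are towers. -/
def S_ST : Prop := ∀ (n : ℕ → ℕ) (L T : ℕ) (ℓ : Fin T → ℕ), (∀ t, ℓ t < L) →
  ∃ X : Sys T, Tw2 (DD n L ℓ) X ∧ ∃ e : X.ι ≃ Var n L, ∀ (A : Type) [CommRing A]
    (x : Var n L → A) (t : Fin T), fI (topS n L ℓ) x t = fI X (fun i => x (e i)) t

/-- **Package MP** (motivic pivots). -/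
def S_MP : Prop := ∀ (K : Type) [Field K] (T : ℕ) (R : Type) [CommRing R] (u : Rˣ)
  (M : Pool.Agent.W428.MOT.Meas K R) (a : Fin T → ℕ), M.L = (u : R) →
  ∀ (D : Set (ℤ × ℤ)) (X Y : Sys T) (p : PivI X Y), Rt u M a D Y →
  ∀ (π : Type) [Fintype π] (V : Set (Pool.Agent.W428.MOT.Pt K (π ⊕ (X.ι ⊕ X.Λ)))),
    Pool.Agent.W428.MOT.Constr V → Gd X V →
    (∀ v ∈ V, p.toSh.U (fun i => v (Sum.inr (Sum.inl i))) ≠ 0) →
    gf a (mm M (((u⁻¹ : Rˣ) : R)) X V) ∈ Pool.Agent.TH192.DT.ratU u D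

/-- **Package ME** (motivic engine: partial scaling and the recursion). -/
def S_ME : Prop := ∀ (K : Type) [Field K] (T : ℕ) (R : Type) [CommRing R] (u : Rˣ)
  (M : Pool.Agent.W428.MOT.Meas K R) (a : Fin T → ℕ), M.L = (u : R) → (∀ t, 0 < a t) →
  ∀ (D : Set (ℕ × (Fin T → ℕ))) (X : Sys T), Tw2 D X →
    Rt u M a {q : ℤ × ℤ | ∃ p ∈ D, 0 < ∑ t, a t * p.2 t ∧
      q = (-(p.1 : ℤ), ((∑ t, a t * p.2 t : ℕ) : ℤ))} X

section padic

open MeasureTheory Pool.Agent.W427.SMC Pool.Agent.TH192.PA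
open scoped ENNReal NNReal

attribute [local instance] msZ bsZ

/-- the norm of the ideal of the family `t` -/
noncomputable def nI {q : ℕ} [Fact q.Prime] {T : ℕ} (X : Sys T) (t : Fin T) (x : X.ι → ℤ_[q]) :
    ℝ≥0 := by
  classical exact Finset.univ.sup fun l : X.Λ => if X.τ l = t then ‖ev x (X.G l)‖₊ else 0

/-- the integral over the residue class of `w` -/
noncomputable def HHc {q : ℕ} [Fact q.Prime] {T : ℕ} (X : Sys T) (a : Fin T → ℕ) (s : ℝ)
    (w : X.ι → ℤ_[q]) : ℝ≥0∞ :=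
  ∫⁻ z : X.ι → ℤ_[q], ∏ t, ((nI X t (fun i => w i + (q : ℤ_[q]) * z i) : ℝ≥0) : ℝ≥0∞) ^
    ((a t : ℝ) * s) ∂(hm q X.ι)

/-- **Package PP** (`p`-adic pivots). -/
def S_PP : Prop := ∀ (q : ℕ) [Fact q.Prime] (T : ℕ) (X Y : Sys T) (p : PivI X Y)
  (w : X.ι → ℤ_[q]), IsUnit (p.toSh.U w) → ∃ w' : Y.ι → ℤ_[q], ∀ (a : Fin T → ℕ) (s : ℝ), 0 < s →
    HHc X a s w = HHc Y a s w'

/-- **Package PE** (`p`-adic engine: partial scaling and the recursion). -/
def S_PE : Prop := ∀ (q : ℕ) [Fact q.Prime] (T : ℕ) (a : Fin T → ℕ), (∀ t, 0 < a t) →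
  ∀ (D : Set (ℕ × (Fin T → ℕ))) (X : Sys T), Tw2 D X →
    ∃ (l : List (ℕ × ℕ)) (P : Polynomial ℝ),
      (∀ r ∈ l, ∃ p ∈ D, 0 < ∑ t, a t * p.2 t ∧ r = (p.1, ∑ t, a t * p.2 t)) ∧
      ∀ s : ℝ, 0 < s → (l.map fun r => 1 - ((q : ℝ)⁻¹) ^ r.1 * (tr' q s) ^ r.2).prod *
        (∫⁻ x : X.ι → ℤ_[q], ∏ t, ((nI X t x : ℝ≥0) : ℝ≥0∞) ^ ((a t : ℝ) * s)
          ∂(hm q X.ι)).toReal = P.eval (tr' q s)

end padic

/-- **Package RO** (roots). -/
def S_RO : Prop := ∀ (n : ℕ → ℕ) (L T : ℕ) (ℓ : Fin T → ℕ), 0 < n 0 → Monotone n →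
  (∀ t, ℓ t < L) → ∀ c, IsChain n c → (∃ t, c (ℓ t + 1) = 0) →
    ∃ p : Var n L → ℂ, Pool.Agent.R852.SC.PowersOfSmooth
      (fun (t : Fin T) (q : Fin (n 0) × Fin (n (ℓ t + 1))) =>
        map (Int.castRingHom ℂ) (gens n L (ℓ t) q)) (nuC n L c) (degC ℓ c) p

end Pool.Agent.U397.TM
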