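import Pool.Agent.U397.TM.Ide
import Pool.Agent.U397.TM.Fin
import Pool.Agent.U397.TM.PkgME
import Pool.Agent.U397.TM.PkgMP
import Pool.Agent.R852.MX.Tw

set_option autoImplicit false
set_option linter.unusedVariables false

/-! # The forms over products of generic matrices: pairs, and the packages of the second part -/

namespace Pool.Agent.U397.TM

open MvPolynomial Pool.Agent.TH192.MT Pool.Agent.TH192.MU Pool.Agent.TH192.DT
  Pool.Agent.H628R4.TP Pool.Agent.W428.MOT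

/-- The pairs `(-ν_c, N_c)`, `N_c = ∑ t, a t (1 if the factor t vanishes on the stratum c)`, of the
chains of ranks `c` on which some factor vanishes, and the pairs `(-1, a t)`. -/
noncomputable def formPr (n : ℕ → ℕ) (L : ℕ) {T : ℕ} (ℓ a : Fin T → ℕ) : Finset (ℤ × ℤ) := by
  classical exact ((chs n L ℓ).image fun c => (-(nuC n L (cL c) : ℤ),
    ((∑ t, a t * degC ℓ (cL c) t : ℕ) : ℤ))) ∪ Finset.univ.image fun t => (-1, (a t : ℤ))

/-- The pairs `(ν_c, (1 if the factor t vanishes on the stratum c)_t)` of the chains of ranks `c` on which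
some factor vanishes, and the pairs `(1, e_t)`, `e_t` the unit vectors. -/
noncomputable def tuplePr (n : ℕ → ℕ) (L : ℕ) {T : ℕ} (ℓ : Fin T → ℕ) :
    Finset (ℕ × (Fin T → ℕ)) := by
  classical exact ((chs n L ℓ).image fun c => (nuC n L (cL c), degC ℓ (cL c))) ∪
    Finset.univ.image fun t => (1, Pi.single t 1)

/-- **Package FR** (roots): `q₁ / q₂` is a root. -/
def S_FR : Prop := ∀ (n : ℕ → ℕ) (L T : ℕ) (ℓ a : Fin T → ℕ), 0 < n 0 → Monotone n →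
  (∀ t, ℓ t < L) → (∀ t, 0 < a t) → ∀ q ∈ formPr n L ℓ a, q.1 < 0 ∧ 0 < q.2 ∧
    (∀ b : Polynomial ℂ, IsBFunction (map (Int.castRingHom ℂ) (form n L ℓ a)) b →
      b.eval ((q.1 : ℂ) / q.2) = 0) ∧
    ∀ b : Polynomial ℂ, IsLocalBFunction (map (Int.castRingHom ℂ) (form n L ℓ a)) b →
      b.eval ((q.1 : ℂ) / q.2) = 0

/-- **Package FM** (motivic zeta functions). -/
def S_FM : Prop := ∀ (K : Type) [Field K] [CharZero K] (n : ℕ → ℕ) (L T : ℕ) (ℓ a : Fin T → ℕ),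
  (∀ t, ℓ t < L) → (∀ t, 0 < a t) →
  ∀ (W : Set (Pt K ((Σ t, Fin (n 0) × Fin (n (ℓ t + 1))) ⊕ Var n L))), Constr W →
  ∀ (E : Set (AlgebraicClosure K)), GoodE E →
    zetaM (map (Int.castRingHom K) (form n L ℓ a)) W E ∈
      ratRing K (formPr n L ℓ a : Set (ℤ × ℤ))

/-- **Package RF** (the engine, uniform in the exponents). -/
def S_RF : Prop := ∀ (K : Type) [Field K] (T : ℕ) (R : Type) [CommRing R] (u : Rˣ)
  (M : Meas K R), M.L = (u : R) → ∀ (D : Set (ℕ × (Fin T → ℕ))) (X : Sys T), Tw2 D X → RF u M D X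

/-- **Package FT** (the zeta functions, uniform in the exponents). -/
def S_FT : Prop := ∀ (n : ℕ → ℕ) (L T : ℕ) (ℓ : Fin T → ℕ), (∀ t, ℓ t < L) →
  ∀ (W : Set (Pt ℂ ((Σ t, Fin (n 0) × Fin (n (ℓ t + 1))) ⊕ Var n L))), Constr W →
    (fun a : PA T => zetaM (map (Int.castRingHom ℂ) (form n L ℓ a.1)) W {c | c ≠ 0}) ∈
      ratF (Lu ℂ) (tuplePr n L ℓ : Set (ℕ × (Fin T → ℕ)))

/-- **Package FW** (twisted topological zeta functions). -/
def S_FW : Prop := ∀ (n : ℕ → ℕ) (L T : ℕ) (ℓ a : Fin T → ℕ), 0 < n 0 → Monotone n → 0 < T →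
  (∀ t, ℓ t < L) → (∀ t, 0 < a t) → ∀ (e : ℕ), 0 < e →
  ∀ (R : Type) [CommRing R] [IsDomain R] (E : MK ℂ →+* R) (ε : R →+* ℂ),
    ε (E ((Lu ℂ : (MK ℂ)ˣ) : MK ℂ)) = 1 → E ((Lu ℂ : (MK ℂ)ˣ) : MK ℂ) ≠ 1 →
    ∃ Z : RatFunc ℂ, IsTwistedTop E ε (map (Int.castRingHom ℂ) (form n L ℓ a)) e Z ∧
      (∀ Z', IsTwistedTop E ε (map (Int.castRingHom ℂ) (form n L ℓ a)) e Z' → Z' = Z) ∧
      ((∀ t, e ∣ a t) → IsTopZeta E ε (zetaC (map (Int.castRingHom ℂ) (form n L ℓ a)) 1) Z) ∧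
      ((∃ t, ¬ e ∣ a t) → Z = 0) ∧
      ∀ s₀ : ℂ, Z.denom.eval s₀ = 0 →
        (∀ t, e ∣ a t) ∧ ∃ q ∈ formPr n L ℓ a, s₀ = (q.1 : ℂ) / q.2

end Pool.Agent.U397.TM
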