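import Pool.Agent.U397.TM.Spec

set_option autoImplicit false
set_option linter.unusedVariables false

/-! # Project TM: towers with labels (exact denominators) -/

namespace Pool.Agent.U397.TM

open MvPolynomial Pool.Agent.TH192.MT

/-- As `Tw2`, with labels: every label is used at most once on every branch, `pr lb` is the pair of
the label. -/
inductive Tw3 {T : ℕ} {Lb : Type} [DecidableEq Lb] (pr : Lb → ℕ × (Fin T → ℕ)) :
    Finset Lb → Sys T → Prop
  | unit (s : Finset Lb) (X : Sys T) (h : ∀ t, ∃ l, X.τ l = t ∧ X.G l = 1) : Tw3 pr s X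
  | mk (s : Finset Lb) (X : Sys T) (w : X.ι → Bool) (e : Fin T → ℕ) (he : ∃ t, 0 < e t)
      (hom : ∀ l, IsWeightedHomogeneous (fun i => if w i = true then 1 else 0) (X.G l) (e (X.τ l)))
      (lb : Lb) (hlb : lb ∈ s) (hD : pr lb = ((Finset.univ.filter fun i => w i = true).card, e))
      (B : Type) (fB : Fintype B) (Y : B → Sys T) (pv : ∀ b, PivI X (Y b))
      (cov : ∀ (F : Type) [Field F] (x : X.ι → F), (∃ i, w i = true ∧ x i ≠ 0) →
        ∃ b, (pv b).toSh.U x ≠ 0)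
      (h : ∀ b, Tw3 pr (s.erase lb) (Y b)) : Tw3 pr s X

section padic

open MeasureTheory Pool.Agent.W427.SMC Pool.Agent.TH192.PA
open scoped ENNReal NNReal

attribute [local instance] msZ bsZ

/-- **Package PE3** (`p`-adic engine with exact denominators; replaces `S_PE`). -/
def S_PE3 : Prop := ∀ (q : ℕ) [Fact q.Prime] (T : ℕ) (a : Fin T → ℕ), (∀ t, 0 < a t) →
  ∀ (Lb : Type) [DecidableEq Lb] (pr : Lb → ℕ × (Fin T → ℕ)) (s : Finset Lb) (X : Sys T),
    Tw3 pr s X → ∃ P : Polynomial ℝ, ∀ σ : ℝ, 0 < σ →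
      (∏ lb ∈ s, (1 - ((q : ℝ)⁻¹) ^ (pr lb).1 * (tr' q σ) ^ (∑ t, a t * (pr lb).2 t))) *
        (∫⁻ x : X.ι → ℤ_[q], ∏ t, ((nI X t x : ℝ≥0) : ℝ≥0∞) ^ ((a t : ℝ) * σ)
          ∂(hm q X.ι)).toReal = P.eval (tr' q σ)

end padic

end Pool.Agent.U397.TM
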