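import Mathlib

set_option autoImplicit false
set_option linter.unusedSectionVars false
set_option linter.unusedVariables false

/-! # The states of the elimination for products of matrices: algebra -/

namespace Pool.Agent.U397.TM

/-- A state: the levels of the rows and the columns which are left at every level. -/
structure St (n0 : ℕ) where
  lev : Fin n0 → ℕ
  C : ℕ → Finset ℕ

/-- The coordinates: heads `(ρ, c)` and bodies `(i, b, c)`. -/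
abbrev Co (n0 : ℕ) : Type := (Fin n0 × ℕ) ⊕ (ℕ × ℕ × ℕ)

section alg

variable {n0 : ℕ} {A : Type} [CommRing A]

/-- the rows of the product -/
def MM (S : St n0) (x : Co n0 → A) : ℕ → Fin n0 → ℕ → A
  | 0, ρ, c => if S.lev ρ = 0 then x (Sum.inl (ρ, c)) else 0
  | i + 1, ρ, c => (if S.lev ρ = i + 1 then x (Sum.inl (ρ, c)) else 0) +
      ∑ b ∈ S.C i, MM S x i ρ b * x (Sum.inr (i, b, c))

theorem MM_zero (S : St n0) (x : Co n0 → A) (ρ : Fin n0) (c : ℕ) :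
    MM S x 0 ρ c = if S.lev ρ = 0 then x (Sum.inl (ρ, c)) else 0 := rfl

theorem MM_succ (S : St n0) (x : Co n0 → A) (i : ℕ) (ρ : Fin n0) (c : ℕ) :
    MM S x (i + 1) ρ c = (if S.lev ρ = i + 1 then x (Sum.inl (ρ, c)) else 0) +
      ∑ b ∈ S.C i, MM S x i ρ b * x (Sum.inr (i, b, c)) := rfl

theorem MM_lt (S : St n0) (x : Co n0 → A) (ρ : Fin n0) :
    ∀ (i : ℕ), i < S.lev ρ → ∀ c, MM S x i ρ c = 0 := by
  intro i
  induction i with
  | zero => intro h c; rw [MM_zero, if_neg (by omega)]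
  | succ i ih =>
    intro h c
    rw [MM_succ, if_neg (by omega), zero_add]
    refine Finset.sum_eq_zero fun b _ => ?_
    rw [ih (by omega), zero_mul]

theorem MM_self (S : St n0) (x : Co n0 → A) (ρ : Fin n0) (c : ℕ) :
    MM S x (S.lev ρ) ρ c = x (Sum.inl (ρ, c)) := by
  rcases h : S.lev ρ with _ | i
  · rw [MM_zero, if_pos h]
  · rw [MM_succ, if_pos h, Finset.sum_eq_zero, add_zero]
    intro b _
    rw [MM_lt S x ρ i (by omega), zero_mul]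

theorem map_MM {B : Type} [CommRing B] (f : A →+* B) (S : St n0) (x : Co n0 → A) (i : ℕ)
    (ρ : Fin n0) (c : ℕ) : f (MM S x i ρ c) = MM S (fun k => f (x k)) i ρ c := by
  induction i generalizing c with
  | zero => rw [MM_zero, MM_zero]; split_ifs <;> simp
  | succ i ih =>
    rw [MM_succ, MM_succ, map_add, map_sum]
    congr 1
    · split_ifs <;> simp
    · exact Finset.sum_congr rfl fun b _ => by rw [map_mul, ih]

/-- the ideal of the product `i` -/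
noncomputable def Id' (S : St n0) (x : Co n0 → A) (i : ℕ) : Ideal A := by
  classical exact if ∃ ρ, i < S.lev ρ then ⊤ else
    Ideal.span {y | ∃ ρ, ∃ c ∈ S.C i, y = MM S x i ρ c}

/-- the state after the pivot -/
noncomputable def St.piv (S : St n0) (ρ0 : Fin n0) (c0 : ℕ) : St n0 where
  lev := Function.update S.lev ρ0 (S.lev ρ0 + 1)
  C := Function.update S.C (S.lev ρ0) ((S.C (S.lev ρ0)).erase c0)

theorem piv_lev_self (S : St n0) (ρ0 : Fin n0) (c0 : ℕ) :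
    (S.piv ρ0 c0).lev ρ0 = S.lev ρ0 + 1 := by
  simp [St.piv]

theorem piv_lev_ne (S : St n0) {ρ0 ρ : Fin n0} (c0 : ℕ) (h : ρ ≠ ρ0) :
    (S.piv ρ0 c0).lev ρ = S.lev ρ := by
  simp [St.piv, h]

theorem piv_C_self (S : St n0) (ρ0 : Fin n0) (c0 : ℕ) :
    (S.piv ρ0 c0).C (S.lev ρ0) = (S.C (S.lev ρ0)).erase c0 := by
  simp [St.piv]

theorem piv_C_ne (S : St n0) (ρ0 : Fin n0) (c0 : ℕ) {i : ℕ} (h : i ≠ S.lev ρ0) :
    (S.piv ρ0 c0).C i = S.C i := by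
  simp [St.piv, h]

/-- the relations between the old and the new coordinates -/
structure PRel (L : ℕ) (S : St n0) (ρ0 : Fin n0) (c0 : ℕ) (x y : Co n0 → A) : Prop where
  r1 : ∀ ρ, ρ ≠ ρ0 → S.lev ρ ≠ S.lev ρ0 → S.lev ρ < L → ∀ c ∈ S.C (S.lev ρ),
    y (Sum.inl (ρ, c)) = x (Sum.inl (ρ, c))
  r2 : ∀ ρ, ρ ≠ ρ0 → S.lev ρ = S.lev ρ0 → ∀ c ∈ S.C (S.lev ρ0), c ≠ c0 →
    x (Sum.inl (ρ0, c0)) * y (Sum.inl (ρ, c)) = x (Sum.inl (ρ0, c0)) * x (Sum.inl (ρ, c)) -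
      x (Sum.inl (ρ, c0)) * x (Sum.inl (ρ0, c))
  r3 : S.lev ρ0 + 1 < L → ∀ c ∈ S.C (S.lev ρ0 + 1),
    x (Sum.inl (ρ0, c0)) * y (Sum.inl (ρ0, c)) =
      x (Sum.inl (ρ0, c0)) * x (Sum.inr (S.lev ρ0, c0, c)) +
        ∑ c' ∈ (S.C (S.lev ρ0)).erase c0, x (Sum.inl (ρ0, c')) * x (Sum.inr (S.lev ρ0, c', c))
  r4 : ∀ i, i + 1 < L → i + 1 ≠ S.lev ρ0 → ∀ b ∈ (S.piv ρ0 c0).C i, ∀ c ∈ S.C (i + 1),
    y (Sum.inr (i, b, c)) = x (Sum.inr (i, b, c))
  r5 : ∀ i, i + 1 = S.lev ρ0 → ∀ b ∈ S.C i, ∀ c ∈ S.C (S.lev ρ0), c ≠ c0 →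
    x (Sum.inl (ρ0, c0)) * y (Sum.inr (i, b, c)) = x (Sum.inl (ρ0, c0)) * x (Sum.inr (i, b, c)) -
      x (Sum.inr (i, b, c0)) * x (Sum.inl (ρ0, c))

variable {L : ℕ} {S : St n0} {ρ0 : Fin n0} {c0 : ℕ} {x y : Co n0 → A}

theorem MM_below (h : PRel L S ρ0 c0 x y) (hL : S.lev ρ0 < L) (ρ : Fin n0) :
    ∀ i, i < S.lev ρ0 → ∀ c ∈ S.C i, MM (S.piv ρ0 c0) y i ρ c = MM S x i ρ c := by
  have head : ∀ i, i < S.lev ρ0 → ∀ c ∈ S.C i,
      (if (S.piv ρ0 c0).lev ρ = i then y (Sum.inl (ρ, c)) else 0) =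
        if S.lev ρ = i then x (Sum.inl (ρ, c)) else 0 := by
    intro i hi c hc
    by_cases hρ : ρ = ρ0
    · subst hρ
      rw [piv_lev_self, if_neg (by omega), if_neg (by omega)]
    · rw [piv_lev_ne S c0 hρ]
      by_cases h1 : S.lev ρ = i
      · rw [if_pos h1, if_pos h1]
        exact h.r1 ρ hρ (by omega) (by omega) c (h1 ▸ hc)
      · rw [if_neg h1, if_neg h1]
  intro i
  induction i with
  | zero =>
    intro hi c hc
    rw [MM_zero, MM_zero]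
    exact head 0 hi c hc
  | succ i ih =>
    intro hi c hc
    rw [MM_succ, MM_succ, head (i + 1) hi c hc, piv_C_ne S ρ0 c0 (by omega)]
    congr 1
    refine Finset.sum_congr rfl fun b hb => ?_
    rw [ih (by omega) b hb, h.r4 i (by omega) (by omega) b
      (by rw [piv_C_ne S ρ0 c0 (by omega)]; exact hb) c hc]

theorem MM_at (h : PRel L S ρ0 c0 x y) (hL : S.lev ρ0 < L) (hc0 : c0 ∈ S.C (S.lev ρ0))
    (ρ : Fin n0) (hρ : ρ ≠ ρ0) (c : ℕ)
    (hc : c ∈ S.C (S.lev ρ0)) (hcc : c ≠ c0) :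
    x (Sum.inl (ρ0, c0)) * MM (S.piv ρ0 c0) y (S.lev ρ0) ρ c =
      x (Sum.inl (ρ0, c0)) * MM S x (S.lev ρ0) ρ c -
        MM S x (S.lev ρ0) ρ c0 * x (Sum.inl (ρ0, c)) := by
  have head : x (Sum.inl (ρ0, c0)) *
      (if (S.piv ρ0 c0).lev ρ = S.lev ρ0 then y (Sum.inl (ρ, c)) else 0) =
      x (Sum.inl (ρ0, c0)) * (if S.lev ρ = S.lev ρ0 then x (Sum.inl (ρ, c)) else 0) -
        (if S.lev ρ = S.lev ρ0 then x (Sum.inl (ρ, c0)) else 0) * x (Sum.inl (ρ0, c)) := by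
    rw [piv_lev_ne S c0 hρ]
    by_cases h1 : S.lev ρ = S.lev ρ0
    · rw [if_pos h1, if_pos h1, if_pos h1]
      exact h.r2 ρ hρ h1 c hc hcc
    · rw [if_neg h1, if_neg h1, if_neg h1]
      ring
  have key : ∀ j, j = S.lev ρ0 → x (Sum.inl (ρ0, c0)) * MM (S.piv ρ0 c0) y j ρ c =
      x (Sum.inl (ρ0, c0)) * MM S x j ρ c - MM S x j ρ c0 * x (Sum.inl (ρ0, c)) := by
    intro j hj
    rcases j with _ | i
    · rw [MM_zero, MM_zero, MM_zero, hj]
      exact head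
    · rw [MM_succ, MM_succ, MM_succ, hj, mul_add, head, piv_C_ne S ρ0 c0 (by omega)]
      have h2 : x (Sum.inl (ρ0, c0)) *
          ∑ b ∈ S.C i, MM (S.piv ρ0 c0) y i ρ b * y (Sum.inr (i, b, c)) =
          x (Sum.inl (ρ0, c0)) * ∑ b ∈ S.C i, MM S x i ρ b * x (Sum.inr (i, b, c)) -
            (∑ b ∈ S.C i, MM S x i ρ b * x (Sum.inr (i, b, c0))) * x (Sum.inl (ρ0, c)) := by
        rw [Finset.mul_sum, Finset.mul_sum, Finset.sum_mul, ← Finset.sum_sub_distrib]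
        refine Finset.sum_congr rfl fun b hb => ?_
        rw [MM_below h hL ρ i (by omega) b hb]
        have h3 := h.r5 i hj b hb c hc hcc
        linear_combination (MM S x i ρ b) * h3
      rw [h2]
      ring
  exact key _ rfl

theorem MM_above (h : PRel L S ρ0 c0 x y) (hL : S.lev ρ0 < L) (hc0 : c0 ∈ S.C (S.lev ρ0))
    (hu : IsUnit (x (Sum.inl (ρ0, c0)))) :
    ∀ k, S.lev ρ0 + 1 + k < L → ∀ c ∈ S.C (S.lev ρ0 + 1 + k),
      (MM S x (S.lev ρ0 + 1 + k) ρ0 c =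
        x (Sum.inl (ρ0, c0)) * MM (S.piv ρ0 c0) y (S.lev ρ0 + 1 + k) ρ0 c) ∧
      ∀ ρ, ρ ≠ ρ0 → MM S x (S.lev ρ0 + 1 + k) ρ c =
        MM (S.piv ρ0 c0) y (S.lev ρ0 + 1 + k) ρ c +
          MM S x (S.lev ρ0) ρ c0 * MM (S.piv ρ0 c0) y (S.lev ρ0 + 1 + k) ρ0 c := by
  have head : ∀ k, S.lev ρ0 + 1 + k < L → ∀ c ∈ S.C (S.lev ρ0 + 1 + k), ∀ ρ, ρ ≠ ρ0 →
      (if (S.piv ρ0 c0).lev ρ = S.lev ρ0 + 1 + k then y (Sum.inl (ρ, c)) else 0) =
        if S.lev ρ = S.lev ρ0 + 1 + k then x (Sum.inl (ρ, c)) else 0 := by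
    intro k hk c hc ρ hρ
    rw [piv_lev_ne S c0 hρ]
    by_cases h1 : S.lev ρ = S.lev ρ0 + 1 + k
    · rw [if_pos h1, if_pos h1]
      exact h.r1 ρ hρ (by omega) (by omega) c (h1 ▸ hc)
    · rw [if_neg h1, if_neg h1]
  intro k
  induction k with
  | zero =>
    intro hk c hc
    rw [Nat.add_zero] at hk hc ⊢
    have h0 : MM (S.piv ρ0 c0) y (S.lev ρ0 + 1) ρ0 c = y (Sum.inl (ρ0, c)) := by
      have := MM_self (S.piv ρ0 c0) y ρ0 c
      rwa [piv_lev_self] at this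
    have h3 := h.r3 hk c hc
    refine ⟨?_, ?_⟩
    · rw [h0, h3, MM_succ, if_neg (by omega), zero_add, ← Finset.add_sum_erase _ _ hc0, MM_self]
      congr 1
      exact Finset.sum_congr rfl fun b _ => by rw [MM_self]
    · intro ρ hρ
      apply hu.mul_left_cancel
      rw [h0, mul_add, MM_succ, MM_succ, mul_add, mul_add]
      have h1 := head 0 hk c hc ρ hρ
      rw [Nat.add_zero] at h1
      rw [h1, piv_C_self, ← Finset.add_sum_erase _ _ hc0, mul_add (x (Sum.inl (ρ0, c0)))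
        (MM S x (S.lev ρ0) ρ c0 * _)]
      have h4 : x (Sum.inl (ρ0, c0)) * ∑ b ∈ (S.C (S.lev ρ0)).erase c0,
          MM (S.piv ρ0 c0) y (S.lev ρ0) ρ b * y (Sum.inr (S.lev ρ0, b, c)) =
          x (Sum.inl (ρ0, c0)) * (∑ b ∈ (S.C (S.lev ρ0)).erase c0,
            MM S x (S.lev ρ0) ρ b * x (Sum.inr (S.lev ρ0, b, c))) -
          MM S x (S.lev ρ0) ρ c0 * ∑ b ∈ (S.C (S.lev ρ0)).erase c0,
            x (Sum.inl (ρ0, b)) * x (Sum.inr (S.lev ρ0, b, c)) := by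
        rw [Finset.mul_sum, Finset.mul_sum, Finset.mul_sum, ← Finset.sum_sub_distrib]
        refine Finset.sum_congr rfl fun b hb => ?_
        have h5 := MM_at h hL hc0 ρ hρ b (Finset.mem_of_mem_erase hb) (Finset.ne_of_mem_erase hb)
        rw [h.r4 (S.lev ρ0) hk (by omega) b (by rw [piv_C_self]; exact hb) c hc]
        linear_combination x (Sum.inr (S.lev ρ0, b, c)) * h5
      rw [h4]
      linear_combination (-(MM S x (S.lev ρ0) ρ c0)) * h3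
  | succ k ih =>
    intro hk c hc
    have e1 : S.lev ρ0 + 1 + (k + 1) = (S.lev ρ0 + 1 + k) + 1 := by omega
    rw [e1] at hk hc ⊢
    have hC : (S.piv ρ0 c0).C (S.lev ρ0 + 1 + k) = S.C (S.lev ρ0 + 1 + k) :=
      piv_C_ne S ρ0 c0 (by omega)
    have hy : ∀ b ∈ S.C (S.lev ρ0 + 1 + k), y (Sum.inr (S.lev ρ0 + 1 + k, b, c)) =
        x (Sum.inr (S.lev ρ0 + 1 + k, b, c)) := fun b hb =>
      h.r4 _ hk (by omega) b (by rw [hC]; exact hb) c hc
    refine ⟨?_, ?_⟩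
    · rw [MM_succ, MM_succ, if_neg (by omega), zero_add, piv_lev_self, if_neg (by omega), zero_add,
        hC, Finset.mul_sum]
      refine Finset.sum_congr rfl fun b hb => ?_
      rw [(ih (by omega) b hb).1, hy b hb]
      ring
    · intro ρ hρ
      have h1 := head (k + 1) (by omega) c (by rw [e1]; exact hc) ρ hρ
      rw [e1] at h1
      have h2 : MM S x (S.lev ρ0 + 1 + k + 1) ρ c =
          (if S.lev ρ = S.lev ρ0 + 1 + k + 1 then x (Sum.inl (ρ, c)) else 0) +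
          ∑ b ∈ S.C (S.lev ρ0 + 1 + k), MM S x (S.lev ρ0 + 1 + k) ρ b *
            x (Sum.inr (S.lev ρ0 + 1 + k, b, c)) := MM_succ _ _ _ _ _
      have h3 : MM (S.piv ρ0 c0) y (S.lev ρ0 + 1 + k + 1) ρ c =
          (if S.lev ρ = S.lev ρ0 + 1 + k + 1 then x (Sum.inl (ρ, c)) else 0) +
          ∑ b ∈ S.C (S.lev ρ0 + 1 + k), MM (S.piv ρ0 c0) y (S.lev ρ0 + 1 + k) ρ b *
            x (Sum.inr (S.lev ρ0 + 1 + k, b, c)) := by
        rw [MM_succ, h1, hC]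
        congr 1
        exact Finset.sum_congr rfl fun b hb => by rw [hy b hb]
      have h4 : MM (S.piv ρ0 c0) y (S.lev ρ0 + 1 + k + 1) ρ0 c =
          ∑ b ∈ S.C (S.lev ρ0 + 1 + k), MM (S.piv ρ0 c0) y (S.lev ρ0 + 1 + k) ρ0 b *
            x (Sum.inr (S.lev ρ0 + 1 + k, b, c)) := by
        rw [MM_succ, piv_lev_self, if_neg (by omega), zero_add, hC]
        exact Finset.sum_congr rfl fun b hb => by rw [hy b hb]
      have h5 : ∑ b ∈ S.C (S.lev ρ0 + 1 + k), MM S x (S.lev ρ0 + 1 + k) ρ b *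
            x (Sum.inr (S.lev ρ0 + 1 + k, b, c)) =
          ∑ b ∈ S.C (S.lev ρ0 + 1 + k), MM (S.piv ρ0 c0) y (S.lev ρ0 + 1 + k) ρ b *
            x (Sum.inr (S.lev ρ0 + 1 + k, b, c)) +
          MM S x (S.lev ρ0) ρ c0 * ∑ b ∈ S.C (S.lev ρ0 + 1 + k),
            MM (S.piv ρ0 c0) y (S.lev ρ0 + 1 + k) ρ0 b * x (Sum.inr (S.lev ρ0 + 1 + k, b, c)) := by
        rw [Finset.mul_sum, ← Finset.sum_add_distrib]
        refine Finset.sum_congr rfl fun b hb => ?_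
        rw [(ih (by omega) b hb).2 ρ hρ]
        ring
      rw [h2, h3, h4, h5]
      ring

theorem Id_piv (h : PRel L S ρ0 c0 x y) (hL : S.lev ρ0 < L) (hc0 : c0 ∈ S.C (S.lev ρ0))
    (hu : IsUnit (x (Sum.inl (ρ0, c0)))) (i : ℕ) (hi : i < L) :
    Id' S x i = Id' (S.piv ρ0 c0) y i := by
  classical
  unfold Id'
  rcases lt_trichotomy i (S.lev ρ0) with h1 | h1 | h1
  · rw [if_pos ⟨ρ0, h1⟩, if_pos ⟨ρ0, by rw [piv_lev_self]; omega⟩]
  · rw [if_pos (⟨ρ0, by rw [piv_lev_self]; omega⟩ : ∃ ρ, i < (S.piv ρ0 c0).lev ρ)]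
    by_cases h2 : ∃ ρ, i < S.lev ρ
    · rw [if_pos h2]
    · rw [if_neg h2]
      refine Ideal.eq_top_of_isUnit_mem _ (Ideal.subset_span ⟨ρ0, c0, ?_, ?_⟩) hu
      · rw [h1]; exact hc0
      · rw [h1, MM_self]
  · have h2 : (∃ ρ, i < (S.piv ρ0 c0).lev ρ) ↔ ∃ ρ, i < S.lev ρ := by
      constructor
      · rintro ⟨ρ, hρ⟩
        by_cases h3 : ρ = ρ0
        · subst h3
          rw [piv_lev_self] at hρ
          omega
        · rw [piv_lev_ne S c0 h3] at hρ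
          exact ⟨ρ, hρ⟩
      · rintro ⟨ρ, hρ⟩
        refine ⟨ρ, ?_⟩
        rw [piv_lev_ne S c0 (by rintro rfl; omega)]
        exact hρ
    by_cases h3 : ∃ ρ, i < S.lev ρ
    · rw [if_pos h3, if_pos (h2.2 h3)]
    · rw [if_neg h3, if_neg (fun h => h3 (h2.1 h))]
      obtain ⟨k, rfl⟩ : ∃ k, i = S.lev ρ0 + 1 + k := ⟨i - (S.lev ρ0 + 1), by omega⟩
      have hC : (S.piv ρ0 c0).C (S.lev ρ0 + 1 + k) = S.C (S.lev ρ0 + 1 + k) :=
        piv_C_ne S ρ0 c0 (by omega)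
      have hab := MM_above h hL hc0 hu k hi
      have hmem0 : ∀ c ∈ S.C (S.lev ρ0 + 1 + k),
          MM (S.piv ρ0 c0) y (S.lev ρ0 + 1 + k) ρ0 c ∈
            Ideal.span {y | ∃ ρ, ∃ c ∈ S.C (S.lev ρ0 + 1 + k), y = MM S x (S.lev ρ0 + 1 + k) ρ c} := by
        intro c hc
        obtain ⟨w, hw⟩ := hu
        have h4 := (hab c hc).1
        rw [← hw] at h4
        have h5 : MM (S.piv ρ0 c0) y (S.lev ρ0 + 1 + k) ρ0 c =
            ((w⁻¹ : Aˣ) : A) * MM S x (S.lev ρ0 + 1 + k) ρ0 c := by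
          rw [h4, ← mul_assoc, Units.inv_mul, one_mul]
        rw [h5]
        exact Ideal.mul_mem_left _ _ (Ideal.subset_span ⟨ρ0, c, hc, rfl⟩)
      apply le_antisymm
      · rw [Ideal.span_le]
        rintro z ⟨ρ, c, hc, rfl⟩
        rw [SetLike.mem_coe]
        have h6 : MM (S.piv ρ0 c0) y (S.lev ρ0 + 1 + k) ρ0 c ∈ Ideal.span
            {z | ∃ ρ, ∃ c ∈ (S.piv ρ0 c0).C (S.lev ρ0 + 1 + k),
              z = MM (S.piv ρ0 c0) y (S.lev ρ0 + 1 + k) ρ c} :=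
          Ideal.subset_span ⟨ρ0, c, by rw [hC]; exact hc, rfl⟩
        by_cases hρ : ρ = ρ0
        · subst hρ
          rw [(hab c hc).1]
          exact Ideal.mul_mem_left _ _ h6
        · rw [(hab c hc).2 ρ hρ]
          exact Ideal.add_mem _ (Ideal.subset_span ⟨ρ, c, by rw [hC]; exact hc, rfl⟩)
            (Ideal.mul_mem_left _ _ h6)
      · rw [Ideal.span_le]
        rintro z ⟨ρ, c, hc, rfl⟩
        rw [SetLike.mem_coe]
        rw [hC] at hc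
        by_cases hρ : ρ = ρ0
        · subst hρ
          exact hmem0 c hc
        · have h7 : MM (S.piv ρ0 c0) y (S.lev ρ0 + 1 + k) ρ c = MM S x (S.lev ρ0 + 1 + k) ρ c -
              MM S x (S.lev ρ0) ρ c0 * MM (S.piv ρ0 c0) y (S.lev ρ0 + 1 + k) ρ0 c := by
            rw [(hab c hc).2 ρ hρ]
            ring
          rw [h7]
          exact Ideal.sub_mem _ (Ideal.subset_span ⟨ρ, c, hc, rfl⟩)
            (Ideal.mul_mem_left _ _ (hmem0 c hc))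

end alg

end Pool.Agent.U397.TM
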