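import Pool.Agent.U397.TM.Spec
import Pool.Agent.U397.TM.StA

set_option autoImplicit false
set_option linter.unusedSectionVars false
set_option linter.unusedVariables false

/-! # The states of the elimination for products of matrices: systems and pivots -/

namespace Pool.Agent.U397.TM

open MvPolynomial Pool.Agent.TH192.MT

/-- pivots from an injection of the coordinates -/
theorem mkP {T : ℕ} (Xs Ys : Sys T) (jm : Ys.ι → Xs.ι) (hj : Function.Injective jm)
    (isZ : Ys.ι → Prop) (u0 : Xs.ι) (hu0 : u0 ∉ Set.range jm) (g0 : Ys.ι → MvPolynomial Xs.ι ℤ)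
    (hg : ∀ h, ¬ isZ h → ∀ (A : Type) [CommRing A] (x x' : Xs.ι → A),
      (∀ k, (∀ h', ¬ isZ h' → jm h' ≠ k) → x k = x' k) → ev x (g0 h) = ev x' (g0 h))
    (H : ∀ (A : Type) [CommRing A] (x : Xs.ι → A) (x' : Ys.ι → A), IsUnit (x u0) →
      (∀ z, isZ z → x' z = x (jm z)) →
      (∀ h, ¬ isZ h → x u0 * x' h = x u0 * x (jm h) - ev x (g0 h)) →
      ∀ t, fI Xs x t = fI Ys x' t) :
    ∃ p : PivI Xs Ys, ∀ (A : Type) [CommRing A] (x : Xs.ι → A), p.toSh.U x = x u0 := by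
  classical
  set P := {k : Xs.ι // k ∉ Set.range jm} with hP
  set Z := {z : Ys.ι // isZ z} with hZ
  set W := {h : Ys.ι // ¬ isZ h} with hW
  have hbij : Function.Bijective (Sum.elim (Sum.elim (fun k : P => k.1) (fun z : Z => jm z.1))
      (fun h : W => jm h.1)) := by
    constructor
    · rintro ((a | a) | a) ((b | b) | b) h
      · exact congrArg (Sum.inl ∘ Sum.inl) (Subtype.ext h)
      · exact absurd ⟨b.1, h.symm⟩ a.2
      · exact absurd ⟨b.1, h.symm⟩ a.2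
      · exact absurd ⟨a.1, h⟩ b.2
      · exact congrArg (Sum.inl ∘ Sum.inr) (Subtype.ext (hj h))
      · exact absurd (hj h ▸ a.2) b.2
      · exact absurd ⟨a.1, h⟩ b.2
      · exact absurd (hj h ▸ b.2 : isZ a.1) a.2
      · exact congrArg Sum.inr (Subtype.ext (hj h))
    · intro k
      by_cases h : k ∈ Set.range jm
      · obtain ⟨y, rfl⟩ := h
        by_cases hy : isZ y
        · exact ⟨Sum.inl (Sum.inr ⟨y, hy⟩), rfl⟩
        · exact ⟨Sum.inr ⟨y, hy⟩, rfl⟩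
      · exact ⟨Sum.inl (Sum.inl ⟨k, h⟩), rfl⟩
  set e : (P ⊕ Z) ⊕ W ≃ Xs.ι := Equiv.ofBijective _ hbij with he
  have heP : ∀ k : P, e (Sum.inl (Sum.inl k)) = k.1 := fun k => rfl
  have heZ : ∀ z : Z, e (Sum.inl (Sum.inr z)) = jm z.1 := fun z => rfl
  have heW : ∀ h : W, e (Sum.inr h) = jm h.1 := fun h => rfl
  set ρ : MvPolynomial Xs.ι ℤ →+* MvPolynomial (P ⊕ Z) ℤ :=
    ev (fun k => Sum.elim (fun q => X q) (fun _ => 0) (e.symm k)) with hρ
  have hρe : ∀ h, ¬ isZ h → ∀ (A : Type) [CommRing A] (x : Xs.ι → A),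
      ev (fun q => x (e (Sum.inl q))) (ρ (g0 h)) = ev x (g0 h) := by
    intro h hh A _ x
    rw [hρ, map_ev]
    refine hg h hh A _ _ fun k hk => ?_
    obtain ⟨s, rfl⟩ := e.surjective k
    rw [Equiv.symm_apply_apply]
    rcases s with q | h'
    · simp only [Sum.elim_inl, ev_X]
    · exact absurd rfl (hk h'.1 h'.2)
  have hU : ∀ (A : Type) [CommRing A] (x : Xs.ι → A),
      ev (fun q => x (e (Sum.inl (Sum.inl q)))) (X (⟨u0, hu0⟩ : P) : MvPolynomial P ℤ) = x u0 := by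
    intro A _ x
    rw [ev_X]
    exact congrArg x (heP _)
  refine ⟨{ P := P, fP := inferInstance, Z := Z, fZ := inferInstance, H := W, fH := inferInstance,
            e := e, e' := Equiv.sumCompl isZ, u := X (⟨u0, hu0⟩ : P), g := fun h => ρ (g0 h.1),
            hI := ?_ }, fun A _ x => hU A x⟩
  intro A _ x x' hx hr t
  have hx' : IsUnit (x u0) := by
    rw [← hU A x]
    exact hx
  refine H A x x' hx' ?_ ?_ t
  · intro z hz
    have := hr.1 (⟨z, hz⟩ : Z)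
    exact this
  · intro h hh
    have h1 := hr.2 (⟨h, hh⟩ : W)
    have h2 : (x u0) * x' h = x u0 * x (jm h) - ev (fun q => x (e (Sum.inl q))) (ρ (g0 h)) := by
      have h3 := hU A x
      rw [← h3]
      exact h1
    rw [h2, hρe h hh]

section coords

variable {n0 : ℕ}

/-- the heads -/
def heads (L : ℕ) (S : St n0) : Finset (Fin n0 × ℕ) :=
  ((Finset.univ : Finset (Fin n0)) ×ˢ (Finset.range L).biUnion S.C).filter
    fun q => S.lev q.1 < L ∧ q.2 ∈ S.C (S.lev q.1)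

/-- the bodies -/
def bodies (L : ℕ) (S : St n0) : Finset (ℕ × ℕ × ℕ) :=
  (Finset.range L ×ˢ ((Finset.range L).biUnion S.C ×ˢ (Finset.range L).biUnion S.C)).filter
    fun q => q.1 + 1 < L ∧ q.2.1 ∈ S.C q.1 ∧ q.2.2 ∈ S.C (q.1 + 1)

theorem mem_heads (L : ℕ) (S : St n0) (ρ : Fin n0) (c : ℕ) :
    (ρ, c) ∈ heads L S ↔ S.lev ρ < L ∧ c ∈ S.C (S.lev ρ) := by
  unfold heads
  rw [Finset.mem_filter, Finset.mem_product]
  refine ⟨fun h => h.2, fun h => ⟨⟨Finset.mem_univ _, ?_⟩, h⟩⟩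
  exact Finset.mem_biUnion.2 ⟨_, Finset.mem_range.2 h.1, h.2⟩

theorem mem_bodies (L : ℕ) (S : St n0) (i b c : ℕ) :
    (i, b, c) ∈ bodies L S ↔ i + 1 < L ∧ b ∈ S.C i ∧ c ∈ S.C (i + 1) := by
  unfold bodies
  rw [Finset.mem_filter, Finset.mem_product, Finset.mem_product]
  refine ⟨fun h => h.2, fun h => ⟨⟨?_, ?_, ?_⟩, h⟩⟩
  · exact Finset.mem_range.2 (by omega)
  · exact Finset.mem_biUnion.2 ⟨i, Finset.mem_range.2 (by omega), h.2.1⟩
  · exact Finset.mem_biUnion.2 ⟨i + 1, Finset.mem_range.2 h.1, h.2.2⟩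

/-- the coordinates of the state -/
def coords (L : ℕ) (S : St n0) : Finset (Co n0) := (heads L S).disjSum (bodies L S)

theorem mem_inl (L : ℕ) (S : St n0) (ρ : Fin n0) (c : ℕ) :
    (Sum.inl (ρ, c) : Co n0) ∈ coords L S ↔ S.lev ρ < L ∧ c ∈ S.C (S.lev ρ) := by
  unfold coords
  rw [Finset.inl_mem_disjSum, mem_heads]

theorem mem_inr (L : ℕ) (S : St n0) (i b c : ℕ) :
    (Sum.inr (i, b, c) : Co n0) ∈ coords L S ↔ i + 1 < L ∧ b ∈ S.C i ∧ c ∈ S.C (i + 1) := by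
  unfold coords
  rw [Finset.inr_mem_disjSum, mem_bodies]

/-- extension by zero -/
noncomputable def ext (L : ℕ) (S : St n0) {A : Type} [CommRing A]
    (x : {k // k ∈ coords L S} → A) (k : Co n0) : A :=
  if h : k ∈ coords L S then x ⟨k, h⟩ else 0

theorem ext_mem (L : ℕ) (S : St n0) {A : Type} [CommRing A] (x : {k // k ∈ coords L S} → A)
    {k : Co n0} (h : k ∈ coords L S) : ext L S x k = x ⟨k, h⟩ := dif_pos h

theorem ev_ext (L : ℕ) (S : St n0) {A : Type} [CommRing A] (x : {k // k ∈ coords L S} → A)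
    (k : Co n0) : ev x (ext L S X k) = ext L S x k := by
  unfold ext
  split_ifs
  · rw [ev_X]
  · rw [map_zero]

/-- the polynomials of the family of the product `i` -/
noncomputable def Gp (L : ℕ) (S : St n0) (i : ℕ) (o : Option (Fin n0 × {c // c ∈ S.C i})) :
    MvPolynomial {k // k ∈ coords L S} ℤ := by
  classical exact (if ∃ ρ, i < S.lev ρ then 1 else
    (Option.elim o 0 (fun q => MM S (ext L S X) i q.1 q.2.1)))

/-- the system of the state -/
@[reducible] noncomputable def sysS (L : ℕ) (S : St n0) {T : ℕ} (ℓ : Fin T → ℕ) : Sys T where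
  ι := {k // k ∈ coords L S}
  fι := inferInstance
  Λ := Σ t : Fin T, Option (Fin n0 × {c // c ∈ S.C (ℓ t)})
  fΛ := inferInstance
  τ l := l.1
  G l := Gp L S (ℓ l.1) l.2

theorem fI_sys (L : ℕ) (S : St n0) {T : ℕ} (ℓ : Fin T → ℕ) {A : Type} [CommRing A]
    (x : {k // k ∈ coords L S} → A) (t : Fin T) :
    fI (sysS L S ℓ) x t = Id' S (ext L S x) (ℓ t) := by
  classical
  unfold fI Id'
  by_cases h : ∃ ρ, ℓ t < S.lev ρ
  · rw [if_pos h]
    refine Ideal.eq_top_of_isUnit_mem _ (Ideal.subset_span ⟨⟨t, none⟩, rfl, ?_⟩) isUnit_one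
    change 1 = ev x (Gp L S (ℓ t) none)
    unfold Gp
    rw [if_pos h, map_one]
  · rw [if_neg h]
    apply le_antisymm
    · rw [Ideal.span_le]
      rintro y ⟨⟨t', o⟩, ht, rfl⟩
      have ht' : t' = t := ht
      subst ht'
      change ev x (Gp L S (ℓ t') o) ∈ _
      unfold Gp
      rw [if_neg h]
      rcases o with _ | ⟨ρ, c⟩
      · change ev x 0 ∈ _
        rw [map_zero]
        exact Ideal.zero_mem _
      · refine Ideal.subset_span ⟨ρ, c.1, c.2, ?_⟩
        change ev x (MM S (ext L S X) (ℓ t') ρ c.1) = _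
        rw [map_MM]
        simp only [ev_ext]
    · rw [Ideal.span_le]
      rintro y ⟨ρ, c, hc, rfl⟩
      refine Ideal.subset_span ⟨⟨t, some (ρ, ⟨c, hc⟩)⟩, rfl, ?_⟩
      change _ = ev x (Gp L S (ℓ t) (some (ρ, ⟨c, hc⟩)))
      unfold Gp
      rw [if_neg h]
      change _ = ev x (MM S (ext L S X) (ℓ t) ρ c)
      rw [map_MM]
      simp only [ev_ext]

/-! ### the pivots -/

/-- the old coordinate -/
def jc (S : St n0) (ρ0 : Fin n0) (c0 : ℕ) : Co n0 → Co n0
  | Sum.inl (ρ, c) => if ρ = ρ0 then Sum.inr (S.lev ρ0, c0, c) else Sum.inl (ρ, c)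
  | Sum.inr q => Sum.inr q

variable {L : ℕ} {S : St n0} {ρ0 : Fin n0} {c0 : ℕ}

theorem C_sub (i : ℕ) : (S.piv ρ0 c0).C i ⊆ S.C i := by
  by_cases h : i = S.lev ρ0
  · subst h
    rw [piv_C_self]
    exact Finset.erase_subset _ _
  · rw [piv_C_ne S ρ0 c0 h]

theorem jc_mem (hL : S.lev ρ0 < L) (hc0 : c0 ∈ S.C (S.lev ρ0)) {k : Co n0}
    (hk : k ∈ coords L (S.piv ρ0 c0)) : jc S ρ0 c0 k ∈ coords L S := by
  rcases k with ⟨ρ, c⟩ | ⟨i, b, c⟩
  · rw [mem_inl] at hk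
    by_cases h : ρ = ρ0
    · subst h
      simp only [jc, if_true]
      rw [mem_inr]
      rw [piv_lev_self] at hk
      exact ⟨hk.1, hc0, C_sub _ hk.2⟩
    · simp only [jc, if_neg h]
      rw [piv_lev_ne S c0 h] at hk
      rw [mem_inl]
      exact ⟨hk.1, C_sub _ hk.2⟩
  · rw [mem_inr] at hk
    change Sum.inr (i, b, c) ∈ _
    rw [mem_inr]
    exact ⟨hk.1, C_sub _ hk.2.1, C_sub _ hk.2.2⟩

theorem c0_notMem : c0 ∉ (S.piv ρ0 c0).C (S.lev ρ0) := by
  rw [piv_C_self]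
  exact Finset.notMem_erase _ _

theorem jc_inj {k k' : Co n0} (hk : k ∈ coords L (S.piv ρ0 c0))
    (hk' : k' ∈ coords L (S.piv ρ0 c0)) (h : jc S ρ0 c0 k = jc S ρ0 c0 k') : k = k' := by
  rcases k with ⟨ρ, c⟩ | ⟨i, b, c⟩ <;> rcases k' with ⟨ρ', c'⟩ | ⟨i', b', c'⟩
  · simp only [jc] at h
    by_cases h1 : ρ = ρ0 <;> by_cases h2 : ρ' = ρ0
    · simp only [if_pos h1, if_pos h2, Sum.inr.injEq, Prod.mk.injEq, true_and] at h
      rw [h1, h2, h]
    · simp [if_pos h1, if_neg h2] at h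
    · simp [if_neg h1, if_pos h2] at h
    · simpa only [if_neg h1, if_neg h2] using h
  · simp only [jc] at h
    by_cases h1 : ρ = ρ0
    · simp only [if_pos h1, Sum.inr.injEq, Prod.mk.injEq] at h
      obtain ⟨rfl, rfl, rfl⟩ := h
      rw [mem_inr] at hk'
      exact absurd hk'.2.1 c0_notMem
    · simp [if_neg h1] at h
  · simp only [jc] at h
    by_cases h1 : ρ' = ρ0
    · simp only [if_pos h1, Sum.inr.injEq, Prod.mk.injEq] at h
      obtain ⟨rfl, rfl, rfl⟩ := h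
      rw [mem_inr] at hk
      exact absurd hk.2.1 c0_notMem
    · simp [if_neg h1] at h
  · exact h

/-- the subtracted terms -/
noncomputable def g0 (S : St n0) (ρ0 : Fin n0) (c0 : ℕ) {A : Type} [CommRing A] (x : Co n0 → A) :
    Co n0 → A
  | Sum.inl (ρ, c) => if ρ = ρ0 then
      -∑ c' ∈ (S.C (S.lev ρ0)).erase c0, x (Sum.inl (ρ0, c')) * x (Sum.inr (S.lev ρ0, c', c))
      else if S.lev ρ = S.lev ρ0 then x (Sum.inl (ρ, c0)) * x (Sum.inl (ρ0, c)) else 0
  | Sum.inr (i, b, c) => if i + 1 = S.lev ρ0 then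
      x (Sum.inr (i, b, c0)) * x (Sum.inl (ρ0, c)) else 0

theorem map_g0 {A B : Type} [CommRing A] [CommRing B] (f : A →+* B) (x : Co n0 → A) (k : Co n0) :
    f (g0 S ρ0 c0 x k) = g0 S ρ0 c0 (fun k => f (x k)) k := by
  rcases k with ⟨ρ, c⟩ | ⟨i, b, c⟩
  · simp only [g0]
    split_ifs
    · rw [map_neg, map_sum]
      congr 1
      exact Finset.sum_congr rfl fun _ _ => map_mul _ _ _
    · exact map_mul _ _ _
    · exact map_zero _
  · simp only [g0]
    split_ifs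
    · exact map_mul _ _ _
    · exact map_zero _

theorem g0_congr (hc0 : c0 ∈ S.C (S.lev ρ0)) {A : Type} [CommRing A] {x x' : Co n0 → A}
    (h : ∀ k, (∀ h' ∈ coords L (S.piv ρ0 c0), (¬ ∃ b c, h' = Sum.inr (S.lev ρ0, b, c)) →
      jc S ρ0 c0 h' ≠ k) → x k = x' k) (k : Co n0) : g0 S ρ0 c0 x k = g0 S ρ0 c0 x' k := by
  have e1 : ∀ c, x (Sum.inl (ρ0, c)) = x' (Sum.inl (ρ0, c)) := by
    intro c
    refine h _ fun h' hh' _ h2 => ?_
    rcases h' with ⟨ρ, c'⟩ | ⟨i, b, c'⟩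
    · simp only [jc] at h2
      by_cases h3 : ρ = ρ0
      · simp [if_pos h3] at h2
      · simp only [if_neg h3, Sum.inl.injEq, Prod.mk.injEq] at h2
        exact h3 h2.1
    · simp [jc] at h2
  have e2 : ∀ c' c, c' ≠ c0 → x (Sum.inr (S.lev ρ0, c', c)) = x' (Sum.inr (S.lev ρ0, c', c)) := by
    intro c' c hcc
    refine h _ fun h' hh' h1 h2 => ?_
    rcases h' with ⟨ρ, c''⟩ | ⟨i, b, c''⟩
    · simp only [jc] at h2
      by_cases h3 : ρ = ρ0
      · simp only [if_pos h3, Sum.inr.injEq, Prod.mk.injEq] at h2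
        exact hcc h2.2.1.symm
      · simp [if_neg h3] at h2
    · simp only [jc, Sum.inr.injEq, Prod.mk.injEq] at h2
      exact h1 ⟨b, c'', by rw [h2.1]⟩
  have e3 : ∀ ρ, ρ ≠ ρ0 → S.lev ρ = S.lev ρ0 → x (Sum.inl (ρ, c0)) = x' (Sum.inl (ρ, c0)) := by
    intro ρ hρ hl
    refine h _ fun h' hh' h1 h2 => ?_
    rcases h' with ⟨ρ', c''⟩ | ⟨i, b, c''⟩
    · simp only [jc] at h2
      by_cases h3 : ρ' = ρ0
      · simp [if_pos h3] at h2
      · simp only [if_neg h3, Sum.inl.injEq, Prod.mk.injEq] at h2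
        obtain ⟨rfl, rfl⟩ := h2
        rw [mem_inl, piv_lev_ne S c'' h3, hl] at hh'
        exact c0_notMem hh'.2
    · simp [jc] at h2
  have e4 : ∀ i b, i + 1 = S.lev ρ0 → x (Sum.inr (i, b, c0)) = x' (Sum.inr (i, b, c0)) := by
    intro i b hi
    refine h _ fun h' hh' h1 h2 => ?_
    rcases h' with ⟨ρ', c''⟩ | ⟨i', b', c''⟩
    · simp only [jc] at h2
      by_cases h3 : ρ' = ρ0
      · simp only [if_pos h3, Sum.inr.injEq, Prod.mk.injEq] at h2
        omega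
      · simp [if_neg h3] at h2
    · simp only [jc, Sum.inr.injEq, Prod.mk.injEq] at h2
      obtain ⟨rfl, rfl, rfl⟩ := h2
      rw [mem_inr, hi] at hh'
      exact c0_notMem hh'.2.2
  rcases k with ⟨ρ, c⟩ | ⟨i, b, c⟩
  · simp only [g0]
    split_ifs with h1 h2
    · congr 1
      refine Finset.sum_congr rfl fun c' hc' => ?_
      rw [e1, e2 c' c (Finset.ne_of_mem_erase hc')]
    · rw [e3 ρ h1 h2, e1]
    · rfl
  · simp only [g0]
    split_ifs with h1
    · rw [e4 i b h1, e1]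
    · rfl

theorem pivS {T : ℕ} (ℓ : Fin T → ℕ) (hℓ : ∀ t, ℓ t < L) (hL : S.lev ρ0 < L)
    (hc0 : c0 ∈ S.C (S.lev ρ0)) (hm : (Sum.inl (ρ0, c0) : Co n0) ∈ coords L S) :
    ∃ p : PivI (sysS L S ℓ) (sysS L (S.piv ρ0 c0) ℓ), ∀ (A : Type) [CommRing A]
      (x : (sysS L S ℓ).ι → A), p.toSh.U x = x ⟨Sum.inl (ρ0, c0), hm⟩ := by
  refine mkP (sysS L S ℓ) (sysS L (S.piv ρ0 c0) ℓ) (fun k => ⟨jc S ρ0 c0 k.1, jc_mem hL hc0 k.2⟩)
    ?_ (fun k => ∃ b c, k.1 = Sum.inr (S.lev ρ0, b, c)) ⟨Sum.inl (ρ0, c0), hm⟩ ?_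
    (fun k => g0 S ρ0 c0 (ext L S X) k.1) ?_ ?_
  · intro k k' h
    exact Subtype.ext (jc_inj k.2 k'.2 (congrArg Subtype.val h))
  · rintro ⟨⟨k, hk⟩, h⟩
    have h1 : jc S ρ0 c0 k = Sum.inl (ρ0, c0) := congrArg Subtype.val h
    rcases k with ⟨ρ, c⟩ | ⟨i, b, c⟩
    · simp only [jc] at h1
      by_cases h3 : ρ = ρ0
      · simp [if_pos h3] at h1
      · simp only [if_neg h3, Sum.inl.injEq, Prod.mk.injEq] at h1
        exact h3 h1.1
    · simp [jc] at h1
  · intro k hk A _ x x' hxx'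
    simp only [map_g0, ev_ext]
    refine g0_congr (L := L) hc0 (fun k' hk' => ?_) _
    by_cases hm' : k' ∈ coords L S
    · rw [ext_mem L S x hm', ext_mem L S x' hm']
      refine hxx' _ fun h' hh' h2 => ?_
      exact hk' h'.1 h'.2 hh' (congrArg Subtype.val h2)
    · unfold ext
      rw [dif_neg hm', dif_neg hm']
  · intro A _ x x' hu hz hh t
    rw [fI_sys, fI_sys]
    have hux : ext L S x (Sum.inl (ρ0, c0)) = x ⟨Sum.inl (ρ0, c0), hm⟩ := ext_mem L S x hm
    refine Id_piv (L := L) (x := ext L S x) (y := ext L (S.piv ρ0 c0) x') ?_ hL hc0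
      (by rw [hux]; exact hu) (ℓ t) (hℓ t)
    -- the relations
    have rel : ∀ k (hk : k ∈ coords L (S.piv ρ0 c0)), (¬ ∃ b c, k = Sum.inr (S.lev ρ0, b, c)) →
        ext L S x (Sum.inl (ρ0, c0)) * ext L (S.piv ρ0 c0) x' k =
          ext L S x (Sum.inl (ρ0, c0)) * ext L S x (jc S ρ0 c0 k) -
            g0 S ρ0 c0 (ext L S x) k := by
      intro k hk hkz
      have h1 := hh ⟨k, hk⟩ hkz
      rw [hux, ext_mem L _ x' hk, ext_mem L S x (jc_mem hL hc0 hk)]
      simp only [map_g0, ev_ext] at h1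
      exact h1
    have relz : ∀ k (hk : k ∈ coords L (S.piv ρ0 c0)), (∃ b c, k = Sum.inr (S.lev ρ0, b, c)) →
        ext L (S.piv ρ0 c0) x' k = ext L S x (jc S ρ0 c0 k) := by
      intro k hk hkz
      have h1 := hz ⟨k, hk⟩ hkz
      rw [ext_mem L _ x' hk, ext_mem L S x (jc_mem hL hc0 hk)]
      exact h1
    constructor
    · intro ρ hρ hl hL' c hc
      have hk : (Sum.inl (ρ, c) : Co n0) ∈ coords L (S.piv ρ0 c0) := by
        rw [mem_inl, piv_lev_ne S c0 hρ, piv_C_ne S ρ0 c0 hl]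
        exact ⟨hL', hc⟩
      have h1 := rel _ hk (by simp)
      simp only [jc, g0, if_neg hρ, if_neg hl, sub_zero] at h1
      exact (by rw [hux]; exact hu : IsUnit (ext L S x (Sum.inl (ρ0, c0)))).mul_left_cancel h1
    · intro ρ hρ hl c hc hcc
      have hk : (Sum.inl (ρ, c) : Co n0) ∈ coords L (S.piv ρ0 c0) := by
        rw [mem_inl, piv_lev_ne S c0 hρ, hl, piv_C_self]
        exact ⟨hL, Finset.mem_erase.2 ⟨hcc, hc⟩⟩
      have h1 := rel _ hk (by simp)
      simp only [jc, g0, if_neg hρ, if_pos hl] at h1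
      exact h1
    · intro hL' c hc
      have hk : (Sum.inl (ρ0, c) : Co n0) ∈ coords L (S.piv ρ0 c0) := by
        rw [mem_inl, piv_lev_self, piv_C_ne S ρ0 c0 (by omega)]
        exact ⟨hL', hc⟩
      have h1 := rel _ hk (by simp)
      simp only [jc, g0, if_true, sub_neg_eq_add] at h1
      exact h1
    · intro i hi hij b hb c hc
      have hk : (Sum.inr (i, b, c) : Co n0) ∈ coords L (S.piv ρ0 c0) := by
        rw [mem_inr, piv_C_ne S ρ0 c0 hij]
        exact ⟨hi, hb, hc⟩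
      by_cases hi' : i = S.lev ρ0
      · exact relz _ hk ⟨b, c, by rw [hi']⟩
      · have h1 := rel _ hk (by
          rintro ⟨b', c', h⟩
          simp only [Sum.inr.injEq, Prod.mk.injEq] at h
          exact hi' h.1)
        simp only [jc, g0, if_neg hij, sub_zero] at h1
        exact (by rw [hux]; exact hu : IsUnit (ext L S x (Sum.inl (ρ0, c0)))).mul_left_cancel h1
    · intro i hij b hb c hc hcc
      have hk : (Sum.inr (i, b, c) : Co n0) ∈ coords L (S.piv ρ0 c0) := by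
        rw [mem_inr, hij, piv_C_self, piv_C_ne S ρ0 c0 (by omega)]
        exact ⟨hL, hb, Finset.mem_erase.2 ⟨hcc, hc⟩⟩
      have h1 := rel _ hk (by
        rintro ⟨b', c', h⟩
        simp only [Sum.inr.injEq, Prod.mk.injEq] at h
        omega)
      simp only [jc, g0, if_pos hij] at h1
      exact h1

end coords

end Pool.Agent.U397.TM
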