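import Pool.Agent.U397.TM.StB

set_option autoImplicit false
set_option linter.unusedSectionVars false
set_option linter.unusedVariables false

/-! # The states of the elimination for products of matrices: the recursion -/

namespace Pool.Agent.U397.TM

open MvPolynomial Pool.Agent.TH192.MT

section rec

variable {n0 : ℕ}

/-- the number of the rows of level at least `i` -/
def cnt (S : St n0) (i : ℕ) : ℕ := (Finset.univ.filter fun ρ => i ≤ S.lev ρ).card

/-- the invariant -/
structure Inv (n : ℕ → ℕ) (L : ℕ) (S : St n0) : Prop where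
  le : ∀ ρ, S.lev ρ ≤ L
  card : ∀ i < L, (S.C i).card + cnt S (i + 1) = n (i + 1)

theorem cnt_anti (S : St n0) : Antitone (cnt S) := by
  intro i j hij
  refine Finset.card_le_card fun ρ hρ => ?_
  rw [Finset.mem_filter] at hρ ⊢
  exact ⟨hρ.1, hij.trans hρ.2⟩

theorem cnt_zero (S : St n0) : cnt S 0 = n0 := by
  unfold cnt
  rw [Finset.filter_true_of_mem (fun _ _ => Nat.zero_le _), Finset.card_univ, Fintype.card_fin]

theorem cnt_eq_zero (S : St n0) (i : ℕ) : cnt S (i + 1) = 0 ↔ ¬ ∃ ρ, i < S.lev ρ := by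
  unfold cnt
  rw [Finset.card_eq_zero, Finset.filter_eq_empty_iff]
  push Not
  constructor
  · intro h ρ
    have := h (Finset.mem_univ ρ)
    omega
  · intro h ρ _
    have := h ρ
    omega

theorem cnt_split (S : St n0) (i : ℕ) :
    cnt S i = (Finset.univ.filter fun ρ => S.lev ρ = i).card + cnt S (i + 1) := by
  unfold cnt
  rw [← Finset.card_union_of_disjoint]
  · congr 1
    ext ρ
    simp only [Finset.mem_filter, Finset.mem_univ, true_and, Finset.mem_union]
    omega
  · rw [Finset.disjoint_left]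
    intro ρ h1 h2
    rw [Finset.mem_filter] at h1 h2
    omega

/-- the chain of the state -/
def cS (L : ℕ) (S : St n0) (i : ℕ) : ℕ := if i ≤ L then cnt S i else 0

theorem chain_cS {n : ℕ → ℕ} {L : ℕ} {S : St n0} (h : Inv n L S) (hn : n0 = n 0) :
    IsChain n (cS L S) := by
  refine ⟨?_, ?_, ?_⟩
  · unfold cS
    rw [if_pos (Nat.zero_le _), cnt_zero, hn]
  · intro i j hij
    unfold cS
    split_ifs with h1 h2
    · exact cnt_anti S hij
    · omega
    · exact Nat.zero_le _
    · exact le_rfl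
  · intro i
    unfold cS
    split_ifs with h1
    · rcases i with _ | i
      · rw [cnt_zero, hn]
      · have := h.card i (by omega)
        omega
    · exact Nat.zero_le _

theorem card_heads {n : ℕ → ℕ} {L : ℕ} {S : St n0} (h : Inv n L S) :
    (heads L S).card = nuC n L (cS L S) := by
  classical
  unfold nuC
  rw [Finset.card_eq_sum_card_fiberwise (f := fun q => S.lev q.1) (t := Finset.range L)]
  · refine Finset.sum_congr rfl fun i hi => ?_
    rw [Finset.mem_range] at hi
    have h1 : (heads L S).filter (fun q => S.lev q.1 = i) =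
        (Finset.univ.filter fun ρ => S.lev ρ = i) ×ˢ S.C i := by
      ext ⟨ρ, c⟩
      rw [Finset.mem_filter, mem_heads, Finset.mem_product, Finset.mem_filter]
      simp only [Finset.mem_univ, true_and]
      constructor
      · rintro ⟨⟨h1, h2⟩, h3⟩
        exact ⟨h3, h3 ▸ h2⟩
      · rintro ⟨h1, h2⟩
        exact ⟨⟨by omega, by rw [h1]; exact h2⟩, h1⟩
    rw [h1, Finset.card_product]
    have h2 := cnt_split S i
    have h3 := h.card i hi
    unfold cS
    rw [if_pos hi.le, if_pos (by omega)]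
    congr 1 <;> omega
  · intro q hq
    have hq' : q ∈ heads L S := hq
    have := (mem_heads L S q.1 q.2).1 hq'
    exact Finset.mem_coe.2 (Finset.mem_range.2 this.1)

theorem card_left (L : ℕ) (S : St n0) :
    (Finset.univ.filter fun k : {k // k ∈ coords L S} => k.1.isLeft = true).card =
      (heads L S).card := by
  classical
  symm
  refine Finset.card_bij (fun q hq => ⟨Sum.inl q, ?_⟩) ?_ ?_ ?_
  · unfold coords
    rw [Finset.inl_mem_disjSum]
    exact hq
  · intro q hq
    simp
  · intro q hq q' hq' h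
    have := congrArg Subtype.val h
    simpa using this
  · rintro ⟨k, hk⟩ hk'
    rw [Finset.mem_filter] at hk'
    rcases k with q | q
    · refine ⟨q, ?_, rfl⟩
      unfold coords at hk
      rwa [Finset.inl_mem_disjSum] at hk
    · simp at hk'

theorem cnt_piv (S : St n0) (ρ0 : Fin n0) (c0 : ℕ) (i : ℕ) :
    cnt (S.piv ρ0 c0) i = cnt S i + if i = S.lev ρ0 + 1 then 1 else 0 := by
  classical
  unfold cnt
  split_ifs with h
  · have h1 : (Finset.univ.filter fun ρ => i ≤ (S.piv ρ0 c0).lev ρ) =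
        insert ρ0 (Finset.univ.filter fun ρ => i ≤ S.lev ρ) := by
      ext ρ
      rw [Finset.mem_insert, Finset.mem_filter, Finset.mem_filter]
      by_cases hρ : ρ = ρ0
      · subst hρ
        simp only [Finset.mem_univ, true_and, true_or, iff_true]
        rw [piv_lev_self, h]
      · rw [piv_lev_ne S c0 hρ]
        simp [hρ]
    rw [h1, Finset.card_insert_of_notMem]
    rw [Finset.mem_filter]
    rintro ⟨_, h2⟩
    omega
  · rw [Nat.add_zero]
    congr 1
    ext ρ
    rw [Finset.mem_filter, Finset.mem_filter]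
    by_cases hρ : ρ = ρ0
    · subst hρ
      rw [piv_lev_self]
      simp only [Finset.mem_univ, true_and]
      omega
    · rw [piv_lev_ne S c0 hρ]

theorem inv_piv {n : ℕ → ℕ} {L : ℕ} {S : St n0} (h : Inv n L S) {ρ0 : Fin n0} {c0 : ℕ}
    (hL : S.lev ρ0 < L) (hc0 : c0 ∈ S.C (S.lev ρ0)) : Inv n L (S.piv ρ0 c0) := by
  constructor
  · intro ρ
    by_cases hρ : ρ = ρ0
    · subst hρ
      rw [piv_lev_self]
      omega
    · rw [piv_lev_ne S c0 hρ]
      exact h.le ρ
  · intro i hi
    have h1 := h.card i hi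
    rw [cnt_piv]
    by_cases hij : i = S.lev ρ0
    · subst hij
      rw [piv_C_self, if_pos rfl, Finset.card_erase_of_mem hc0]
      have h2 : 0 < (S.C (S.lev ρ0)).card := Finset.card_pos.2 ⟨c0, hc0⟩
      omega
    · rw [piv_C_ne S ρ0 c0 hij, if_neg (by omega)]
      exact h1

theorem meas_piv {L : ℕ} {S : St n0} {ρ0 : Fin n0} {c0 : ℕ} (hL : S.lev ρ0 < L) :
    ∑ ρ, (L - (S.piv ρ0 c0).lev ρ) < ∑ ρ, (L - S.lev ρ) := by
  refine Finset.sum_lt_sum (fun ρ _ => ?_) ⟨ρ0, Finset.mem_univ _, ?_⟩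
  · by_cases hρ : ρ = ρ0
    · subst hρ
      rw [piv_lev_self]
      omega
    · rw [piv_lev_ne S c0 hρ]
  · rw [piv_lev_self]
    omega

/-- the weights -/
abbrev wS (L : ℕ) (S : St n0) (k : {k // k ∈ coords L S}) : ℕ :=
  if k.1.isLeft = true then 1 else 0

theorem hom_MM (L : ℕ) (S : St n0) (i : ℕ) (ρ : Fin n0) (c : ℕ) :
    IsWeightedHomogeneous (wS L S) (MM S (ext L S X) i ρ c : MvPolynomial _ ℤ) 1 := by
  have hl : ∀ q, IsWeightedHomogeneous (wS L S) (ext L S X (Sum.inl q) : MvPolynomial _ ℤ) 1 := by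
    intro q
    unfold ext
    split_ifs with h
    · exact isWeightedHomogeneous_X ℤ (wS L S) (⟨Sum.inl q, h⟩ : {k // k ∈ coords L S})
    · exact isWeightedHomogeneous_zero _ _ _
  have hr : ∀ q, IsWeightedHomogeneous (wS L S) (ext L S X (Sum.inr q) : MvPolynomial _ ℤ) 0 := by
    intro q
    unfold ext
    split_ifs with h
    · exact isWeightedHomogeneous_X ℤ (wS L S) (⟨Sum.inr q, h⟩ : {k // k ∈ coords L S})
    · exact isWeightedHomogeneous_zero _ _ _
  induction i generalizing c with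
  | zero =>
    rw [MM_zero]
    split_ifs
    · exact hl _
    · exact isWeightedHomogeneous_zero _ _ _
  | succ i ih =>
    rw [MM_succ]
    refine IsWeightedHomogeneous.add ?_ (IsWeightedHomogeneous.sum _ _ _ fun b _ => ?_)
    · split_ifs
      · exact hl _
      · exact isWeightedHomogeneous_zero _ _ _
    · exact (ih b).mul (hr _)

theorem tw_state {n : ℕ → ℕ} (hn : n0 = n 0) {L T : ℕ} (ℓ : Fin T → ℕ) (hℓ : ∀ t, ℓ t < L) :
    ∀ (N : ℕ) (S : St n0), ∑ ρ, (L - S.lev ρ) = N → Inv n L S →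
      Tw2 (DD n L ℓ) (sysS L S ℓ) := by
  classical
  intro N
  induction N using Nat.strong_induction_on with
  | _ N ih =>
    intro S hN hI
    by_cases hall : ∀ t, ∃ ρ, ℓ t < S.lev ρ
    · refine Tw2.unit _ fun t => ⟨⟨t, none⟩, rfl, ?_⟩
      change Gp L S (ℓ t) none = 1
      unfold Gp
      rw [if_pos (hall t)]
    · push Not at hall
      obtain ⟨t0, ht0⟩ := hall
      have ht0' : ¬ ∃ ρ, ℓ t0 < S.lev ρ := by
        push Not
        exact ht0
      have hpv : ∀ b : {q // q ∈ heads L S}, ∃ p : PivI (sysS L S ℓ)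
          (sysS L (S.piv b.1.1 b.1.2) ℓ), ∀ (A : Type) [CommRing A] (x : (sysS L S ℓ).ι → A),
          p.toSh.U x = x ⟨Sum.inl b.1, by
            unfold coords
            rw [Finset.inl_mem_disjSum]
            exact b.2⟩ := by
        intro b
        have hb := (mem_heads L S b.1.1 b.1.2).1 b.2
        exact pivS ℓ hℓ hb.1 hb.2 _
      choose pv hpv' using hpv
      refine Tw2.mk (sysS L S ℓ) (fun k => k.1.isLeft)
        (fun t => if ∃ ρ, ℓ t < S.lev ρ then 0 else 1) ⟨t0, ?_⟩ ?_ ?_
        {q // q ∈ heads L S} inferInstance (fun b => sysS L (S.piv b.1.1 b.1.2) ℓ) pv ?_ ?_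
      · rw [if_neg ht0']
        exact Nat.one_pos
      · rintro ⟨t, o⟩
        change IsWeightedHomogeneous (wS L S) (Gp L S (ℓ t) o)
          (if ∃ ρ, ℓ t < S.lev ρ then 0 else 1)
        unfold Gp
        split_ifs with h
        · exact isWeightedHomogeneous_one ℤ _
        · rcases o with _ | q
          · exact isWeightedHomogeneous_zero _ _ _
          · exact hom_MM L S _ _ _
      · refine ⟨cS L S, chain_cS hI hn, ⟨t0, ?_⟩, ?_⟩
        · unfold cS
          rw [if_pos (by have := hℓ t0; omega), cnt_eq_zero]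
          exact ht0'
        · refine Prod.ext ?_ ?_
          · change (Finset.univ.filter fun k : {k // k ∈ coords L S} => k.1.isLeft = true).card = _
            rw [card_left, card_heads hI]
          · funext t
            change (if ∃ ρ, ℓ t < S.lev ρ then 0 else 1) = degC ℓ (cS L S) t
            have h9 : cS L S (ℓ t + 1) = cnt S (ℓ t + 1) := if_pos (by have := hℓ t; omega)
            unfold degC
            rw [h9]
            by_cases h : ∃ ρ, ℓ t < S.lev ρ
            · rw [if_pos h, if_neg (fun h' => (cnt_eq_zero S (ℓ t)).1 h' h)]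
            · rw [if_neg h, if_pos ((cnt_eq_zero S (ℓ t)).2 h)]
      · intro F _ x hx
        obtain ⟨⟨k, hk⟩, hk1, hk2⟩ := hx
        rcases k with q | q
        · have hq : q ∈ heads L S := by
            have := hk
            unfold coords at this
            rwa [Finset.inl_mem_disjSum] at this
          refine ⟨⟨q, hq⟩, ?_⟩
          rw [hpv']
          exact hk2
        · exact absurd hk1 (by simp)
      · intro b
        have hb := (mem_heads L S b.1.1 b.1.2).1 b.2
        exact ih _ (hN ▸ meas_piv hb.1) _ rfl (inv_piv hI hb.1 hb.2)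

end rec

/-! ### the first state -/

section first

variable (n : ℕ → ℕ) (L : ℕ)

/-- the first state -/
def S0 : St (n 0) where
  lev _ := 0
  C i := Finset.range (n (i + 1))

theorem inv_S0 : Inv n L (S0 n) := by
  constructor
  · intro ρ
    exact Nat.zero_le _
  · intro i _
    have h : cnt (S0 n) (i + 1) = 0 := by
      rw [cnt_eq_zero]
      rintro ⟨ρ, h⟩
      exact absurd h (Nat.not_lt_zero _)
    rw [h, Nat.add_zero]
    exact Finset.card_range _

/-- the coordinates -/
def toV : Var n L → {k // k ∈ coords L (S0 n)}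
  | ⟨⟨0, h⟩, (r, c)⟩ => ⟨Sum.inl (r, c.1), by
      rw [mem_inl]
      exact ⟨h, Finset.mem_range.2 c.2⟩⟩
  | ⟨⟨i + 1, h⟩, (r, c)⟩ => ⟨Sum.inr (i, r.1, c.1), by
      rw [mem_inr]
      exact ⟨h, Finset.mem_range.2 r.2, Finset.mem_range.2 c.2⟩⟩

theorem toV_bij : Function.Bijective (toV n L) := by
  constructor
  · rintro ⟨⟨i, hi⟩, ⟨r, c⟩⟩ ⟨⟨i', hi'⟩, ⟨r', c'⟩⟩ h
    rcases i with _ | i <;> rcases i' with _ | i'
    · have h1 := congrArg Subtype.val h
      simp only [toV, Sum.inl.injEq, Prod.mk.injEq] at h1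
      obtain ⟨rfl, h2⟩ := h1
      rw [Fin.ext h2]
    · have h1 := congrArg Subtype.val h
      simp [toV] at h1
    · have h1 := congrArg Subtype.val h
      simp [toV] at h1
    · have h1 := congrArg Subtype.val h
      simp only [toV, Sum.inr.injEq, Prod.mk.injEq] at h1
      obtain ⟨rfl, h2, h3⟩ := h1
      rw [Fin.ext h2, Fin.ext h3]
  · rintro ⟨⟨ρ, c⟩ | ⟨i, b, c⟩, hk⟩
    · have h1 := (mem_inl L (S0 n) ρ c).1 hk
      exact ⟨⟨⟨0, h1.1⟩, (ρ, ⟨c, Finset.mem_range.1 h1.2⟩)⟩, rfl⟩
    · have h1 := (mem_inr L (S0 n) i b c).1 hk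
      exact ⟨⟨⟨i + 1, h1.1⟩, (⟨b, Finset.mem_range.1 h1.2.1⟩, ⟨c, Finset.mem_range.1 h1.2.2⟩)⟩, rfl⟩

theorem prodM_map {R R' : Type} [CommRing R] [CommRing R'] (f : R →+* R')
    (A : ∀ i, Matrix (Fin (n i)) (Fin (n (i + 1))) R) (i : ℕ) :
    (prodM n A i).map f = prodM n (fun i => (A i).map f) i := by
  induction i with
  | zero => rfl
  | succ i ih =>
    change (prodM n A i * A (i + 1)).map f = _
    rw [Matrix.map_mul, ih]
    rfl

variable {A : Type} [CommRing A]

/-- the matrices of the point -/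
def Apt (x : Var n L → A) (i : ℕ) : Matrix (Fin (n i)) (Fin (n (i + 1))) A :=
  Matrix.of fun r c => if h : i < L then x ⟨⟨i, h⟩, (r, c)⟩ else 0

theorem ev_gens (x : Var n L → A) (i : ℕ) (q : Fin (n 0) × Fin (n (i + 1))) :
    ev x (gens n L i q) = prodM n (Apt n L x) i q.1 q.2 := by
  unfold gens
  have h1 := congrFun (congrFun (prodM_map n (ev x) (genM n L) i) q.1) q.2
  rw [Matrix.map_apply] at h1
  rw [h1]
  congr 1
  funext i
  ext r c
  change ev x (if h : i < L then X ⟨⟨i, h⟩, (r, c)⟩ else 0) = if h : i < L then x ⟨⟨i, h⟩, (r, c)⟩ else 0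
  split_ifs
  · rw [ev_X]
  · rw [map_zero]

theorem MM_prod (x : {k // k ∈ coords L (S0 n)} → A) (i : ℕ) (hi : i < L) (ρ : Fin (n 0))
    (c : Fin (n (i + 1))) :
    MM (S0 n) (ext L (S0 n) x) i ρ c.1 = prodM n (Apt n L fun v => x (toV n L v)) i ρ c := by
  induction i with
  | zero =>
    refine (if_pos (rfl : (S0 n).lev ρ = 0)).trans ?_
    change _ = if h : 0 < L then x (toV n L ⟨⟨0, h⟩, (ρ, c)⟩) else 0
    rw [dif_pos hi]
    exact ext_mem L (S0 n) x _
  | succ i ih =>
    rw [MM_succ, if_neg (by change ¬ (0 = i + 1); omega), zero_add]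
    change ∑ b ∈ Finset.range (n (i + 1)), _ =
      (prodM n (Apt n L fun v => x (toV n L v)) i *
        Apt n L (fun v => x (toV n L v)) (i + 1)) ρ c
    rw [Matrix.mul_apply, Finset.sum_range]
    refine Finset.sum_congr rfl fun b _ => ?_
    rw [ih (by omega) b]
    congr 1
    change _ = if h : i + 1 < L then x (toV n L ⟨⟨i + 1, h⟩, (b, c)⟩) else 0
    rw [dif_pos hi]
    exact ext_mem L (S0 n) x _

end first

/-- **Package ST.** -/
theorem t_ST : S_ST := by
  classical
  intro n L T ℓ hℓ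
  refine ⟨sysS L (S0 n) ℓ, tw_state rfl ℓ hℓ _ (S0 n) rfl (inv_S0 n L),
    (Equiv.ofBijective _ (toV_bij n L)).symm, ?_⟩
  intro A _ x t
  rw [fI_sys]
  unfold Id' fI
  rw [if_neg (by rintro ⟨ρ, h⟩; exact absurd h (Nat.not_lt_zero _))]
  have hx : (fun v => (fun i => x ((Equiv.ofBijective _ (toV_bij n L)).symm i)) (toV n L v)) = x := by
    funext v
    exact congrArg x ((Equiv.ofBijective _ (toV_bij n L)).symm_apply_apply v)
  apply le_antisymm
  · rw [Ideal.span_le]
    rintro y ⟨⟨t', q⟩, ht, rfl⟩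
    have ht' : t' = t := ht
    subst ht'
    refine Ideal.subset_span ⟨q.1, q.2.1, Finset.mem_range.2 q.2.2, ?_⟩
    change ev x (gens n L (ℓ t') q) = _
    rw [ev_gens, MM_prod n L _ (ℓ t') (hℓ t'), hx]
  · rw [Ideal.span_le]
    rintro y ⟨ρ, c, hc, rfl⟩
    refine Ideal.subset_span ⟨⟨t, (ρ, ⟨c, Finset.mem_range.1 hc⟩)⟩, rfl, ?_⟩
    change _ = ev x (gens n L (ℓ t) (ρ, ⟨c, Finset.mem_range.1 hc⟩))
    rw [ev_gens]
    have := MM_prod n L (fun i => x ((Equiv.ofBijective _ (toV_bij n L)).symm i)) (ℓ t) (hℓ t) ρ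
      ⟨c, Finset.mem_range.1 hc⟩
    rw [hx] at this
    exact this

end Pool.Agent.U397.TM
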