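import Pool.Agent.U397.TM.StC
import Pool.Agent.U397.TM.Spec3

set_option autoImplicit false
set_option linter.unusedSectionVars false
set_option linter.unusedVariables false

/-! # The towers with labels -/

namespace Pool.Agent.U397.TM

open MvPolynomial Pool.Agent.TH192.MT

theorem tw3_mono {T : ℕ} {Lb : Type} [DecidableEq Lb] {pr : Lb → ℕ × (Fin T → ℕ)}
    {s : Finset Lb} {X : Sys T} (h : Tw3 pr s X) : ∀ s' : Finset Lb, s ⊆ s' → Tw3 pr s' X := by
  induction h with
  | unit s X h => exact fun s' _ => Tw3.unit s' X h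
  | mk s X w e he hom lb hlb hD B fB Y pv cov h ih =>
    intro s' hs
    exact Tw3.mk s' X w e he hom lb (hs hlb) hD B fB Y pv cov fun b =>
      ih b _ (Finset.erase_subset_erase _ hs)

/-- the labels -/
abbrev Ch (n : ℕ → ℕ) (L : ℕ) : Type := Fin (L + 1) → Fin (n 0 + 1)

/-- the chain of the label -/
def cL {n : ℕ → ℕ} {L : ℕ} (c : Ch n L) (i : ℕ) : ℕ := if h : i ≤ L then c ⟨i, by omega⟩ else 0

/-- the chains on which some family vanishes -/
noncomputable def chs (n : ℕ → ℕ) (L : ℕ) {T : ℕ} (ℓ : Fin T → ℕ) : Finset (Ch n L) := by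
  classical exact Finset.univ.filter fun c => IsChain n (cL c) ∧ ∃ t, cL c (ℓ t + 1) = 0

/-- the pairs -/
def prC (n : ℕ → ℕ) (L : ℕ) {T : ℕ} (ℓ : Fin T → ℕ) (c : Ch n L) : ℕ × (Fin T → ℕ) :=
  (nuC n L (cL c), degC ℓ (cL c))

theorem mem_chs (n : ℕ → ℕ) (L : ℕ) {T : ℕ} (ℓ : Fin T → ℕ) (c : Ch n L) :
    c ∈ chs n L ℓ ↔ IsChain n (cL c) ∧ ∃ t, cL c (ℓ t + 1) = 0 := by
  classical
  simp only [chs, Finset.mem_filter, Finset.mem_univ, true_and]

section rec

variable {n : ℕ → ℕ}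

theorem cnt_le (S : St (n 0)) (i : ℕ) : cnt S i ≤ n 0 :=
  (cnt_anti S (Nat.zero_le i)).trans (cnt_zero S).le

/-- the label of the state -/
def lbS (L : ℕ) (S : St (n 0)) : Ch n L := fun i => ⟨cnt S i, by have := cnt_le S i; omega⟩

theorem cL_lbS (L : ℕ) (S : St (n 0)) : cL (lbS L S) = cS L S := by
  funext i
  unfold cL cS lbS
  split_ifs <;> rfl

/-- the labels of the states after `S` -/
noncomputable def chF (n : ℕ → ℕ) (L : ℕ) {T : ℕ} (ℓ : Fin T → ℕ) (k : ℕ) : Finset (Ch n L) :=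
  (chs n L ℓ).filter fun c => k ≤ ∑ i, (c i : ℕ)

theorem sum_lbS_piv {L : ℕ} {S : St (n 0)} {ρ0 : Fin (n 0)} {c0 : ℕ} (hL : S.lev ρ0 < L) :
    ∑ i, (lbS L (S.piv ρ0 c0) i : ℕ) = ∑ i, (lbS L S i : ℕ) + 1 := by
  unfold lbS
  simp only [cnt_piv]
  rw [Finset.sum_add_distrib]
  congr 1
  rw [Finset.sum_eq_single (⟨S.lev ρ0 + 1, by omega⟩ : Fin (L + 1))]
  · rw [if_pos rfl]
  · intro i _ hi
    rw [if_neg]
    intro h
    exact hi (Fin.ext h)
  · intro h
    exact absurd (Finset.mem_univ _) h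

theorem tw3_state {L T : ℕ} (ℓ : Fin T → ℕ) (hℓ : ∀ t, ℓ t < L) :
    ∀ (N : ℕ) (S : St (n 0)), ∑ ρ, (L - S.lev ρ) = N → Inv n L S →
      Tw3 (prC n L ℓ) (chF n L ℓ (∑ i, (lbS L S i : ℕ))) (sysS L S ℓ) := by
  classical
  intro N
  induction N using Nat.strong_induction_on with
  | _ N ih =>
    intro S hN hI
    by_cases hall : ∀ t, ∃ ρ, ℓ t < S.lev ρ
    · refine Tw3.unit _ _ fun t => ⟨⟨t, none⟩, rfl, ?_⟩
      change Gp L S (ℓ t) none = 1
      unfold Gp
      rw [if_pos (hall t)]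
    · push Not at hall
      obtain ⟨t0, ht0⟩ := hall
      have ht0' : ¬ ∃ ρ, ℓ t0 < S.lev ρ := by
        push Not
        exact ht0
      have hpv : ∀ b : {q // q ∈ heads L S}, ∃ p : PivI (sysS L S ℓ)
          (sysS L (S.piv b.1.1 b.1.2) ℓ), ∀ (A : Type) [CommRing A] (x : (sysS L S ℓ).ι → A),
          p.toSh.U x = x ⟨Sum.inl b.1, by
            unfold coords
            rw [Finset.inl_mem_disjSum]
            exact b.2⟩ := by
        intro b
        have hb := (mem_heads L S b.1.1 b.1.2).1 b.2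
        exact pivS ℓ hℓ hb.1 hb.2 _
      choose pv hpv' using hpv
      have hlb : lbS L S ∈ chF n L ℓ (∑ i, (lbS L S i : ℕ)) := by
        unfold chF
        rw [Finset.mem_filter, mem_chs, cL_lbS]
        refine ⟨⟨chain_cS hI rfl, t0, ?_⟩, le_rfl⟩
        unfold cS
        rw [if_pos (by have := hℓ t0; omega), cnt_eq_zero]
        exact ht0'
      refine Tw3.mk _ (sysS L S ℓ) (fun k => k.1.isLeft)
        (fun t => if ∃ ρ, ℓ t < S.lev ρ then 0 else 1) ⟨t0, ?_⟩ ?_ (lbS L S) hlb ?_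
        {q // q ∈ heads L S} inferInstance (fun b => sysS L (S.piv b.1.1 b.1.2) ℓ) pv ?_ ?_
      · rw [if_neg ht0']
        exact Nat.one_pos
      · rintro ⟨t, o⟩
        change IsWeightedHomogeneous (wS L S) (Gp L S (ℓ t) o)
          (if ∃ ρ, ℓ t < S.lev ρ then 0 else 1)
        unfold Gp
        split_ifs with h
        · exact isWeightedHomogeneous_one ℤ _
        · rcases o with _ | q
          · exact isWeightedHomogeneous_zero _ _ _
          · exact hom_MM L S _ _ _
      · unfold prC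
        rw [cL_lbS]
        symm
        refine Prod.ext ?_ ?_
        · change (Finset.univ.filter fun k : {k // k ∈ coords L S} => k.1.isLeft = true).card = _
          rw [card_left, card_heads hI]
        · funext t
          change (if ∃ ρ, ℓ t < S.lev ρ then 0 else 1) = degC ℓ (cS L S) t
          have h9 : cS L S (ℓ t + 1) = cnt S (ℓ t + 1) := if_pos (by have := hℓ t; omega)
          unfold degC
          rw [h9]
          by_cases h : ∃ ρ, ℓ t < S.lev ρ
          · rw [if_pos h, if_neg (fun h' => (cnt_eq_zero S (ℓ t)).1 h' h)]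
          · rw [if_neg h, if_pos ((cnt_eq_zero S (ℓ t)).2 h)]
      · intro F _ x hx
        obtain ⟨⟨k, hk⟩, hk1, hk2⟩ := hx
        rcases k with q | q
        · have hq : q ∈ heads L S := by
            have := hk
            unfold coords at this
            rwa [Finset.inl_mem_disjSum] at this
          refine ⟨⟨q, hq⟩, ?_⟩
          rw [hpv']
          exact hk2
        · exact absurd hk1 (by simp)
      · intro b
        have hb := (mem_heads L S b.1.1 b.1.2).1 b.2
        refine tw3_mono (ih _ (hN ▸ meas_piv hb.1) _ rfl (inv_piv hI hb.1 hb.2)) _ ?_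
        intro c hc
        unfold chF at hc ⊢
        rw [Finset.mem_filter] at hc
        rw [sum_lbS_piv hb.1] at hc
        rw [Finset.mem_erase, Finset.mem_filter]
        refine ⟨?_, hc.1, by omega⟩
        rintro rfl
        have := hc.2
        omega

end rec

/-- **The towers with labels.** -/
theorem t_ST3 (n : ℕ → ℕ) (L T : ℕ) (ℓ : Fin T → ℕ) (hℓ : ∀ t, ℓ t < L) :
    ∃ X : Sys T, Tw3 (prC n L ℓ) (chs n L ℓ) X ∧ ∃ e : X.ι ≃ Var n L, ∀ (A : Type) [CommRing A]
      (x : Var n L → A) (t : Fin T), fI (topS n L ℓ) x t = fI X (fun i => x (e i)) t := by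
  classical
  refine ⟨sysS L (S0 n) ℓ, tw3_mono (tw3_state ℓ hℓ _ (S0 n) rfl (inv_S0 n L)) _
    (Finset.filter_subset _ _), (Equiv.ofBijective _ (toV_bij n L)).symm, ?_⟩
  intro A _ x t
  rw [fI_sys]
  unfold Id' fI
  rw [if_neg (by rintro ⟨ρ, h⟩; exact absurd h (Nat.not_lt_zero _))]
  have hx : (fun v => (fun i => x ((Equiv.ofBijective _ (toV_bij n L)).symm i)) (toV n L v)) = x := by
    funext v
    exact congrArg x ((Equiv.ofBijective _ (toV_bij n L)).symm_apply_apply v)
  apply le_antisymm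
  · rw [Ideal.span_le]
    rintro y ⟨⟨t', q⟩, ht, rfl⟩
    have ht' : t' = t := ht
    subst ht'
    refine Ideal.subset_span ⟨q.1, q.2.1, Finset.mem_range.2 q.2.2, ?_⟩
    change ev x (gens n L (ℓ t') q) = _
    rw [ev_gens, MM_prod n L _ (ℓ t') (hℓ t'), hx]
  · rw [Ideal.span_le]
    rintro y ⟨ρ, c, hc, rfl⟩
    refine Ideal.subset_span ⟨⟨t, (ρ, ⟨c, Finset.mem_range.1 hc⟩)⟩, rfl, ?_⟩
    change _ = ev x (gens n L (ℓ t) (ρ, ⟨c, Finset.mem_range.1 hc⟩))
    rw [ev_gens]
    have := MM_prod n L (fun i => x ((Equiv.ofBijective _ (toV_bij n L)).symm i)) (ℓ t) (hℓ t) ρ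
      ⟨c, Finset.mem_range.1 hc⟩
    rw [hx] at this
    exact this

end Pool.Agent.U397.TM
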