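import Pool.Agent.U397.TM.FR

set_option autoImplicit false
set_option linter.unusedSectionVars false
set_option linter.unusedVariables false

/-! # The twisted topological zeta functions of the forms over products of generic matrices -/

namespace Pool.Agent.U397.TM

open MvPolynomial Pool.Agent.W428.MOT Pool.Agent.H628R4.TP Pool.Agent.TH192.DT
  Pool.Agent.TH192.MT Pool.Agent.TH192.MU

variable {T : ℕ}

theorem form_pow (n : ℕ → ℕ) (L : ℕ) (ℓ b : Fin T → ℕ) (g : ℕ) :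
    form n L ℓ (fun t => g * b t) = form n L ℓ b ^ g := by
  unfold form
  rw [← Finset.prod_pow]
  refine Finset.prod_congr rfl fun t _ => ?_
  change _ ^ (g * b t) = _
  rw [mul_comm g, pow_mul]

theorem hom1_form (n : ℕ → ℕ) (L : ℕ) (ℓ b : Fin T → ℕ)
    (c : Fin T → ℤ) (hc : ∑ t, (b t : ℤ) * c t = 1) :
    Hom1 (map (Int.castRingHom ℂ) (form n L ℓ b))
      (Sum.elim (fun q : Σ t, Fin (n 0) × Fin (n (ℓ t + 1)) => c q.1) fun _ => 0) := by
  intro μ hμ x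
  have key : ∀ y : ((Σ t, Fin (n 0) × Fin (n (ℓ t + 1))) ⊕ Var n L) →
        PowerSeries (AlgebraicClosure ℂ),
      aeval y (map (Int.castRingHom ℂ) (form n L ℓ b)) =
      ∏ t, (∑ j, y (Sum.inl ⟨t, j⟩) *
        aeval (fun v => y (Sum.inr v)) (map (Int.castRingHom ℂ)
          (gens n L (ℓ t) j))) ^ b t := by
    intro y
    unfold form
    rw [map_prod, map_prod]
    refine Finset.prod_congr rfl fun t _ => ?_
    rw [map_pow, map_pow, map_sum, map_sum]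
    congr 1
    refine Finset.sum_congr rfl fun j _ => ?_
    rw [map_mul, map_mul, map_X, aeval_X, map_rename, aeval_rename]
    rfl
  rw [key, key]
  have h1 : ∀ t : Fin T, (∑ j : Fin (n 0) × Fin (n (ℓ t + 1)),
        (PowerSeries.C (μ ^ (Sum.elim
          (fun q : Σ t, Fin (n 0) × Fin (n (ℓ t + 1)) => c q.1)
          (fun _ => (0 : ℤ)) (Sum.inl ⟨t, j⟩ :
            (Σ t, Fin (n 0) × Fin (n (ℓ t + 1))) ⊕ Var n L))) *
        x (Sum.inl ⟨t, j⟩)) *
        aeval (fun v => PowerSeries.C (μ ^ (Sum.elim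
          (fun q : Σ t, Fin (n 0) × Fin (n (ℓ t + 1)) => c q.1)
          (fun _ => (0 : ℤ)) (Sum.inr v :
            (Σ t, Fin (n 0) × Fin (n (ℓ t + 1))) ⊕ Var n L))) * x (Sum.inr v))
          (map (Int.castRingHom ℂ) (gens n L (ℓ t) j))) =
      PowerSeries.C (μ ^ c t) * ∑ j, x (Sum.inl ⟨t, j⟩) *
        aeval (fun v => x (Sum.inr v)) (map (Int.castRingHom ℂ)
          (gens n L (ℓ t) j)) := by
    intro t
    rw [Finset.mul_sum]
    refine Finset.sum_congr rfl fun j _ => ?_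
    simp only [Sum.elim_inl, Sum.elim_inr, zpow_zero, map_one, one_mul]
    ring
  have h2 : (∏ t, (PowerSeries.C (μ ^ c t) : PowerSeries (AlgebraicClosure ℂ)) ^ b t) =
      PowerSeries.C μ := by
    have h3 : ∀ t, (PowerSeries.C (μ ^ c t) : PowerSeries (AlgebraicClosure ℂ)) ^ b t =
        PowerSeries.C (μ ^ ((b t : ℤ) * c t)) := by
      intro t
      rw [← map_pow]
      congr 1
      rw [← zpow_natCast, ← zpow_mul, mul_comm]
    rw [Finset.prod_congr rfl fun t _ => h3 t, ← map_prod]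
    congr 1
    have h4 : ∀ s : Finset (Fin T), ∏ t ∈ s, μ ^ ((b t : ℤ) * c t) =
        μ ^ ∑ t ∈ s, (b t : ℤ) * c t := by
      intro s
      classical
      induction s using Finset.induction_on with
      | empty => simp
      | insert t s ht ih => rw [Finset.prod_insert ht, Finset.sum_insert ht, ih, zpow_add₀ hμ]
    rw [h4, hc, zpow_one]
  calc _ = ∏ t, (PowerSeries.C (μ ^ c t) * ∑ j, x (Sum.inl ⟨t, j⟩) *
        aeval (fun v => x (Sum.inr v)) (map (Int.castRingHom ℂ)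
          (gens n L (ℓ t) j))) ^ b t :=
        Finset.prod_congr rfl fun t _ => by rw [← h1 t]
    _ = _ := by
      rw [← h2, ← Finset.prod_mul_distrib]
      exact Finset.prod_congr rfl fun t _ => by rw [mul_pow]

/-- the class of the covers -/
theorem zetaC_eqF (n : ℕ → ℕ) (L : ℕ) (hT : 0 < T) (ℓ a : Fin T → ℕ) (ha : ∀ t, 0 < a t)
    (k : ℕ) (hk : 0 < k) : zetaC (map (Int.castRingHom ℂ) (form n L ℓ a)) k =
      PowerSeries.C (Nat.gcd k (Finset.univ.gcd a) : MK ℂ) *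
        zetaC (map (Int.castRingHom ℂ) (form n L ℓ a)) 1 := by
  obtain ⟨M, hL, hM⟩ := exists_meas ℂ
  set g := Finset.univ.gcd a with hg
  have hgd : ∀ t, g ∣ a t := fun t => Finset.gcd_dvd (Finset.mem_univ t)
  have hgpos : 0 < g := by
    refine Nat.pos_of_ne_zero fun h0 => ?_
    have h1 := hgd ⟨0, hT⟩
    rw [h0, zero_dvd_iff] at h1
    exact (ha _).ne' h1
  choose b hb using hgd
  have hb' : a = fun t => g * b t := funext hb
  have hgb : Finset.univ.gcd b = 1 := by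
    have h1 : g = g * Finset.univ.gcd b := by
      conv_lhs => rw [hg, hb']
      rw [Finset.gcd_mul_left]
      simp
    exact (Nat.eq_of_mul_eq_mul_left hgpos (h1.symm.trans (mul_one g).symm))
  obtain ⟨c, hc⟩ := exists_comb Finset.univ b
  rw [hgb, Nat.cast_one] at hc
  have hf : map (Int.castRingHom ℂ) (form n L ℓ a) =
      map (Int.castRingHom ℂ) (form n L ℓ b) ^ g := by
    rw [← map_pow, ← form_pow, ← hb']
  have h1 := fun d => chi_JetC M (hom1_form n L ℓ b c hc) hgpos hk d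
  rw [hf]
  ext d
  rw [PowerSeries.coeff_C_mul]
  unfold zetaC
  rw [PowerSeries.coeff_mk, PowerSeries.coeff_mk]
  split_ifs with h0
  · rw [mul_zero]
  · rw [← hM, ← hM, h1 d, mul_assoc]

/-- **The twisted topological zeta functions of the forms over products of generic matrices.** -/
theorem twisted_form {n : ℕ → ℕ} (h0 : 0 < n 0) (hn : Monotone n) (L : ℕ) (hT : 0 < T)
    (ℓ a : Fin T → ℕ) (hℓ : ∀ t, ℓ t < L) (ha : ∀ t, 0 < a t) (e : ℕ) (he : 0 < e)
    {R : Type} [CommRing R] [IsDomain R] (E : MK ℂ →+* R) (ε : R →+* ℂ)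
    (h1 : ε (E ((Lu ℂ : (MK ℂ)ˣ) : MK ℂ)) = 1) (hu : E ((Lu ℂ : (MK ℂ)ˣ) : MK ℂ) ≠ 1) :
    ∃ Z : RatFunc ℂ, IsTwistedTop E ε (map (Int.castRingHom ℂ) (form n L ℓ a)) e Z ∧
      (∀ Z', IsTwistedTop E ε (map (Int.castRingHom ℂ) (form n L ℓ a)) e Z' → Z' = Z) ∧
      ((∀ t, e ∣ a t) → IsTopZeta E ε (zetaC (map (Int.castRingHom ℂ) (form n L ℓ a)) 1) Z) ∧
      ((∃ t, ¬ e ∣ a t) → Z = 0) ∧
      ∀ s₀ : ℂ, Z.denom.eval s₀ = 0 →
        (∀ t, e ∣ a t) ∧ ∃ q ∈ formPr n L ℓ a, s₀ = (q.1 : ℂ) / q.2 := by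
  set f := map (Int.castRingHom ℂ) (form n L ℓ a) with hf
  set g := Finset.univ.gcd a with hg
  have hsg : ∀ q ∈ (formPr n L ℓ a : Set (ℤ × ℤ)), q.1 < 0 ∧ 0 < q.2 := fun q hq =>
    ⟨(t_FR n L T ℓ a h0 hn hℓ ha q hq).1, (t_FR n L T ℓ a h0 hn hℓ ha q hq).2.1⟩
  have hmem : zetaC f 1 ∈ ratL (Lu ℂ) (formPr n L ℓ a : Set (ℤ × ℤ)) := by
    rw [zetaC_one]
    exact Subalgebra.sub_mem _ (form_zetaL n L ℓ a hℓ ha Constr.univ) (ratL_C (Lu ℂ) _)
  obtain ⟨Z1, hZ1, hZ1u, hZ1p⟩ := topZeta_main E ε h1 hu hsg hmem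
  -- the zeta functions of the covers
  have hY : ∀ k, 0 < k → IsTopZeta E ε (zetaC f k) ((Nat.gcd k g : RatFunc ℂ) * Z1) := by
    intro k hk
    rw [hf, zetaC_eqF n L hT ℓ a ha k hk]
    exact isTop_mul hZ1 _
  have hYu : ∀ k, 0 < k → ∀ Y, IsTopZeta E ε (zetaC f k) Y → Y = (Nat.gcd k g : RatFunc ℂ) * Z1 := by
    intro k hk Y hY'
    have hm : zetaC f k ∈ ratL (Lu ℂ) (formPr n L ℓ a : Set (ℤ × ℤ)) := by
      rw [hf, zetaC_eqF n L hT ℓ a ha k hk]
      exact Subalgebra.mul_mem _ (ratL_C (Lu ℂ) _) hmem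
    obtain ⟨Z2, _, hZ2u, _⟩ := topZeta_main E ε h1 hu hsg hm
    rw [hZ2u _ hY', hZ2u _ (hY k hk)]
  have hdiv : (∀ t, e ∣ a t) ↔ e ∣ g :=
    ⟨fun h => Finset.dvd_gcd fun t _ => h t, fun h t => h.trans (Finset.gcd_dvd (Finset.mem_univ t))⟩
  have hsum : ∀ Y : ℕ → RatFunc ℂ, (∀ k, k ∣ e → Y k = (Nat.gcd k g : RatFunc ℂ) * Z1) →
      ∑ q ∈ e.divisorsAntidiagonal, ((ArithmeticFunction.moebius q.1 : ℤ) : RatFunc ℂ) * Y q.2 =
      (if e ∣ g then (Nat.totient e : RatFunc ℂ) else 0) * Z1 := by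
    intro Y hY'
    have h2 := congrArg (fun n : ℤ => (n : RatFunc ℂ)) (mob_gcd g e he)
    simp only [Int.cast_sum, Int.cast_mul, Int.cast_natCast, Int.cast_ite, Int.cast_zero] at h2
    rw [← h2, Finset.sum_mul]
    refine Finset.sum_congr rfl fun q hq => ?_
    have h3 : q.2 ∣ e := Dvd.intro_left q.1 (Nat.mem_divisorsAntidiagonal.1 hq).1
    rw [hY' _ h3, mul_assoc]
  have hφ : (Nat.totient e : RatFunc ℂ) ≠ 0 := by
    have h2 : 0 < Nat.totient e := Nat.totient_pos.2 he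
    exact_mod_cast h2.ne'
  refine ⟨if e ∣ g then Z1 else 0, ?_, ?_, ?_, ?_, ?_⟩
  · refine ⟨fun k => (Nat.gcd k g : RatFunc ℂ) * Z1, fun k hk =>
      hY k (Nat.pos_of_dvd_of_pos hk he), ?_⟩
    rw [hsum _ fun k _ => rfl]
    split_ifs
    · rfl
    · rw [mul_zero, zero_mul]
  · rintro Z' ⟨Y, hY1, hY2⟩
    rw [hsum Y fun k hk => hYu k (Nat.pos_of_dvd_of_pos hk he) _ (hY1 k hk)] at hY2
    split_ifs at hY2 ⊢ with h
    · exact mul_left_cancel₀ hφ hY2
    · rw [zero_mul] at hY2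
      exact (mul_eq_zero.1 hY2).resolve_left hφ
  · intro h
    rw [if_pos (hdiv.1 h)]
    exact hZ1
  · rintro ⟨t, ht⟩
    rw [if_neg fun h => ht (hdiv.2 h t)]
  · intro s₀ hs
    by_cases h : e ∣ g
    · rw [if_pos h] at hs
      exact ⟨hdiv.2 h, hZ1p s₀ hs⟩
    · rw [if_neg h, RatFunc.denom_zero, Polynomial.eval_one] at hs
      exact (one_ne_zero hs).elim

/-- the divisibility of the numbers `N` -/
theorem dvd_formPr (n : ℕ → ℕ) (L : ℕ) (ℓ a : Fin T → ℕ) (e : ℕ)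
    (h : ∀ t, e ∣ a t) (q : ℤ × ℤ) (hq : q ∈ formPr n L ℓ a) : (e : ℤ) ∣ q.2 := by
  classical
  rw [formPr, Finset.mem_union, Finset.mem_image, Finset.mem_image] at hq
  rcases hq with ⟨d, _, rfl⟩ | ⟨t, _, rfl⟩
  · exact Int.natCast_dvd_natCast.2 (Finset.dvd_sum fun t _ => Dvd.dvd.mul_right (h t) _)
  · exact Int.natCast_dvd_natCast.2 (h t)

end Pool.Agent.U397.TM
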